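import Pool.Agent.Helper85.BPM.K1

/-!
# MP_3dd6d4_an, all exponents : module K5a (the multiple integral of complex powers)
-/

set_option autoImplicit false

open MeasureTheory Complex FourierTransform Filter Topology
open scoped ENNReal NNReal ComplexConjugate

noncomputable section

namespace Helper85.BP.P

open Helper72.BA Helper85.BP

/-! ### fractional integrals -/

/-- nonnegative fractional integral -/
def Tl (s : ℝ) (g : ℂ → ℝ≥0∞) (z : ℂ) : ℝ≥0∞ :=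
  ∫⁻ w : ℂ, ENNReal.ofReal (‖w‖ ^ (s - 2)) * g (z - w)

/-- fractional integral with a complex exponent -/
def Tc (s : ℂ) (g : ℂ → ℂ) (z : ℂ) : ℂ := ∫ w, cpw s w * g (z - w)

theorem Tl_meas (s : ℝ) {g : ℂ → ℝ≥0∞} (hg : Measurable g) : Measurable (Tl s g) := by
  unfold Tl
  refine Measurable.lintegral_prod_right' (f := fun p : ℂ × ℂ =>
    ENNReal.ofReal (‖p.2‖ ^ (s - 2)) * g (p.1 - p.2)) ?_
  exact (by fun_prop : Measurable fun p : ℂ × ℂ => ENNReal.ofReal (‖p.2‖ ^ (s - 2))).mul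
    (hg.comp (measurable_fst.sub measurable_snd))

theorem Tl_even (s : ℝ) (F : ℂ → ℝ≥0∞) (z : ℂ) :
    ∫⁻ ξ : ℂ, ENNReal.ofReal (‖ξ‖ ^ (s - 2)) * F (z + ξ) = Tl s F z := by
  unfold Tl
  rw [← lintegral_neg_eq_self (fun ξ : ℂ => ENNReal.ofReal (‖ξ‖ ^ (s - 2)) * F (z + ξ))]
  refine lintegral_congr fun w => ?_
  rw [norm_neg, ← sub_eq_add_neg]

theorem Tl_const_mul (s : ℝ) (c : ℝ≥0∞) (hc : c ≠ ∞) (F : ℂ → ℝ≥0∞) (z : ℂ) :
    Tl s (fun x => c * F x) z = c * Tl s F z := by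
  unfold Tl
  rw [← lintegral_const_mul' _ _ hc]
  refine lintegral_congr fun w => ?_
  ring

theorem ae_ne0 : ∀ᵐ u : ℂ, u ≠ 0 := by
  simp [ae_iff]

theorem Tl_Tl {s t : ℝ} (hs : 0 < s) (ht : 0 < t) (hst : s + t < 2) {g : ℂ → ℝ≥0∞}
    (hg : Measurable g) (z : ℂ) :
    Tl s (Tl t g) z = ENNReal.ofReal (Gc s * Gc t / Gc (s + t)) * Tl (s + t) g z := by
  unfold Tl
  have e1 : ∀ ξ : ℂ, ∫⁻ w : ℂ, ENNReal.ofReal (‖w‖ ^ (t - 2)) * g (z - ξ - w) =
      ∫⁻ u : ℂ, ENNReal.ofReal (‖u - ξ‖ ^ (t - 2)) * g (z - u) := by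
    intro ξ
    rw [← lintegral_sub_right_eq_self
      (fun w : ℂ => ENNReal.ofReal (‖w‖ ^ (t - 2)) * g (z - ξ - w)) ξ]
    refine lintegral_congr fun u => ?_
    rw [show z - ξ - (u - ξ) = z - u by ring]
  simp_rw [e1]
  have e2 : ∫⁻ ξ : ℂ, ENNReal.ofReal (‖ξ‖ ^ (s - 2)) *
        ∫⁻ u : ℂ, ENNReal.ofReal (‖u - ξ‖ ^ (t - 2)) * g (z - u) =
      ∫⁻ ξ : ℂ, ∫⁻ u : ℂ, ENNReal.ofReal (‖ξ‖ ^ (s - 2)) *
        (ENNReal.ofReal (‖u - ξ‖ ^ (t - 2)) * g (z - u)) := by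
    refine lintegral_congr fun ξ => ?_
    rw [lintegral_const_mul' _ _ ENNReal.ofReal_ne_top]
  rw [e2, lintegral_lintegral_swap, ← lintegral_const_mul' _ _ ENNReal.ofReal_ne_top]
  · refine lintegral_congr_ae ?_
    filter_upwards [ae_ne0] with u hu
    have e3 : ∀ ξ : ℂ, ENNReal.ofReal (‖ξ‖ ^ (s - 2)) *
        (ENNReal.ofReal (‖u - ξ‖ ^ (t - 2)) * g (z - u)) =
        ENNReal.ofReal (‖ξ‖ ^ (s - 2) * ‖u - ξ‖ ^ (t - 2)) * g (z - u) := by
      intro ξ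
      rw [ENNReal.ofReal_mul (Real.rpow_nonneg (norm_nonneg _) _), mul_assoc]
    simp_rw [e3]
    rw [lintegral_mul_const _ (by fun_prop), lint_real s t hs ht hst u hu,
      mul_comm (Gc s * Gc t / Gc (s + t)) (‖u‖ ^ (s + t - 2)),
      ENNReal.ofReal_mul (Real.rpow_nonneg (norm_nonneg _) _)]
    ring
  · refine Measurable.aemeasurable ?_
    have h1 : Measurable fun p : ℂ × ℂ => ENNReal.ofReal (‖p.1‖ ^ (s - 2)) := by fun_prop
    have h2 : Measurable fun p : ℂ × ℂ => ENNReal.ofReal (‖p.2 - p.1‖ ^ (t - 2)) := by fun_prop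
    exact h1.mul (h2.mul (hg.comp (measurable_const.sub measurable_snd)))

theorem enorm_cpw {a : ℂ} (ha : a.re < 2) (w : ℂ) :
    ‖cpw a w‖ₑ = ENNReal.ofReal (‖w‖ ^ (a.re - 2)) := by
  rw [← ofReal_norm, cpw_norm ha]

theorem Tc_Tc {s t : ℂ} (hs : 0 < s.re) (ht : 0 < t.re) (hst : s.re + t.re < 2) {g : ℂ → ℂ}
    (hg : Measurable g) (z : ℂ) (hfin : Tl (s.re + t.re) (fun x => ‖g x‖ₑ) z ≠ ∞) :
    Tc s (Tc t g) z = Gx s * Gx t / Gx (s + t) * Tc (s + t) g z := by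
  unfold Tc
  have e1 : ∀ ξ : ℂ, ∫ w : ℂ, cpw t w * g (z - ξ - w) = ∫ u : ℂ, cpw t (u - ξ) * g (z - u) := by
    intro ξ
    rw [← integral_sub_right_eq_self (fun w : ℂ => cpw t w * g (z - ξ - w)) ξ]
    refine integral_congr_ae (Eventually.of_forall fun u => ?_)
    show cpw t (u - ξ) * g (z - ξ - (u - ξ)) = cpw t (u - ξ) * g (z - u)
    rw [show z - ξ - (u - ξ) = z - u by ring]
  simp_rw [e1]
  have e2 : ∀ ξ : ℂ, cpw s ξ * ∫ u : ℂ, cpw t (u - ξ) * g (z - u) =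
      ∫ u : ℂ, cpw s ξ * (cpw t (u - ξ) * g (z - u)) := by
    intro ξ
    rw [integral_const_mul]
  simp_rw [e2]
  have hmeas : Measurable (fun p : ℂ × ℂ => cpw s p.1 * (cpw t (p.2 - p.1) * g (z - p.2))) :=
    ((cpw_meas s).comp measurable_fst).mul
      (((cpw_meas t).comp (measurable_snd.sub measurable_fst)).mul
        (hg.comp (measurable_const.sub measurable_snd)))
  have hmeas' : Measurable (Function.uncurry fun (ξ u : ℂ) =>
      cpw s ξ * (cpw t (u - ξ) * g (z - u))) := hmeas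
  have hint : Integrable (Function.uncurry fun (ξ u : ℂ) =>
      cpw s ξ * (cpw t (u - ξ) * g (z - u))) := by
    refine ⟨hmeas'.aestronglyMeasurable, ?_⟩
    unfold HasFiniteIntegral
    rw [Measure.volume_eq_prod, lintegral_prod _ hmeas'.enorm.aemeasurable]
    have e3 : ∫⁻ (x : ℂ), ∫⁻ (y : ℂ), ‖Function.uncurry
        (fun (ξ u : ℂ) => cpw s ξ * (cpw t (u - ξ) * g (z - u))) (x, y)‖ₑ =
        Tl s.re (Tl t.re (fun x => ‖g x‖ₑ)) z := by
      unfold Tl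
      refine lintegral_congr fun ξ => ?_
      rw [← lintegral_sub_right_eq_self
        (fun w : ℂ => ENNReal.ofReal (‖w‖ ^ (t.re - 2)) * ‖g (z - ξ - w)‖ₑ) ξ,
        ← lintegral_const_mul' _ _ ENNReal.ofReal_ne_top]
      refine lintegral_congr fun u => ?_
      show ‖cpw s ξ * (cpw t (u - ξ) * g (z - u))‖ₑ = _
      rw [enorm_mul, enorm_mul, enorm_cpw (by linarith), enorm_cpw (by linarith),
        show z - ξ - (u - ξ) = z - u by ring]
    rw [e3, Tl_Tl hs ht hst hg.enorm z]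
    exact ENNReal.mul_lt_top ENNReal.ofReal_lt_top (lt_top_iff_ne_top.2 hfin)
  rw [integral_integral_swap hint, ← integral_const_mul]
  refine integral_congr_ae ?_
  filter_upwards [ae_ne0] with u hu
  have e4 : ∀ ξ : ℂ, cpw s ξ * (cpw t (u - ξ) * g (z - u)) =
      cpw s ξ * cpw t (u - ξ) * g (z - u) := fun ξ => (mul_assoc _ _ _).symm
  simp_rw [e4]
  rw [integral_mul_const, (riesz_cx s t hs ht hst u hu).2, mul_assoc]

theorem Tc_const_mul (s : ℂ) (c : ℂ) (F : ℂ → ℂ) (z : ℂ) :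
    Tc s (fun x => c * F x) z = c * Tc s F z := by
  unfold Tc
  rw [← integral_const_mul]
  refine integral_congr_ae (Eventually.of_forall fun w => ?_)
  show cpw s w * (c * F (z - w)) = c * (cpw s w * F (z - w))
  ring

/-! ### the Gaussian -/

theorem gd_cont (δ : ℝ) : Continuous (gd δ) := by
  unfold gd
  fun_prop

theorem gd_nonneg {δ : ℝ} (hδ : 0 < δ) (z : ℂ) : 0 ≤ gd δ z :=
  mul_nonneg (inv_pos.2 hδ).le (Real.exp_pos _).le

theorem gd_le {δ : ℝ} (hδ : 0 < δ) (z : ℂ) : gd δ z ≤ δ⁻¹ := by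
  unfold gd
  have h1 : Real.exp (-(Real.pi * ‖z‖ ^ 2 / δ)) ≤ 1 := by
    rw [Real.exp_le_one_iff]
    have := Real.pi_pos
    have : 0 ≤ Real.pi * ‖z‖ ^ 2 / δ := by positivity
    linarith
  have h2 : 0 < δ⁻¹ := inv_pos.2 hδ
  nlinarith

theorem gd_lint {δ : ℝ} (hδ : 0 < δ) : ∫⁻ w : ℂ, ENNReal.ofReal (gd δ w) ≠ ∞ := by
  have h1 : ∀ w : ℂ, ENNReal.ofReal (gd δ w) =
      ENNReal.ofReal δ⁻¹ * ENNReal.ofReal (Real.exp (-(Real.pi / δ) * ‖w‖ ^ 2)) := by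
    intro w
    rw [← ENNReal.ofReal_mul (inv_pos.2 hδ).le]
    unfold gd
    congr 3
    ring
  simp_rw [h1]
  rw [lintegral_const_mul' _ _ ENNReal.ofReal_ne_top,
    P.gauss_lint (div_pos Real.pi_pos hδ)]
  exact ENNReal.mul_ne_top ENNReal.ofReal_ne_top ENNReal.ofReal_ne_top

theorem ball_lint {s : ℝ} (hs : 0 < s) (hs2 : s < 2) :
    ∫⁻ w in Metric.ball (0:ℂ) 1, ENNReal.ofReal (‖w‖ ^ (s - 2)) ≠ ∞ := by
  set b : ℝ := (2 - s) / 2 with hb
  have hb0 : 0 < b := by linarith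
  have h1 := lint_real s b hs hb0 (by linarith) 1 one_ne_zero
  have h2 : ∫⁻ w in Metric.ball (0:ℂ) 1, ENNReal.ofReal (‖w‖ ^ (s - 2)) ≤
      ∫⁻ w : ℂ, ENNReal.ofReal ((2:ℝ) ^ (2 - b)) *
        ENNReal.ofReal (‖w‖ ^ (s - 2) * ‖1 - w‖ ^ (b - 2)) := by
    rw [← lintegral_indicator measurableSet_ball]
    refine lintegral_mono_ae ?_
    filter_upwards [ae_ne_two 1] with w hw
    by_cases hw1 : w ∈ Metric.ball (0:ℂ) 1
    · rw [Set.indicator_of_mem hw1, ← ENNReal.ofReal_mul (by positivity)]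
      refine ENNReal.ofReal_le_ofReal ?_
      have h3 : ‖w‖ < 1 := by simpa using hw1
      have h4 : 0 < ‖1 - w‖ := norm_pos_iff.2 hw.2
      have h5 : ‖1 - w‖ ≤ 2 := by
        calc ‖1 - w‖ ≤ ‖(1:ℂ)‖ + ‖w‖ := norm_sub_le _ _
          _ ≤ 2 := by rw [norm_one]; linarith
      have h6 : (2:ℝ) ^ (b - 2) ≤ ‖1 - w‖ ^ (b - 2) :=
        Real.rpow_le_rpow_of_nonpos h4 h5 (by linarith)
      have h7 : (2:ℝ) ^ (2 - b) * (2:ℝ) ^ (b - 2) = 1 := by
        rw [← Real.rpow_add (by norm_num)]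
        simp
      have h8 : 0 ≤ ‖w‖ ^ (s - 2) := Real.rpow_nonneg (norm_nonneg _) _
      have h9 : 0 < (2:ℝ) ^ (2 - b) := by positivity
      calc ‖w‖ ^ (s - 2) = ‖w‖ ^ (s - 2) * ((2:ℝ) ^ (2 - b) * (2:ℝ) ^ (b - 2)) := by
            rw [h7, mul_one]
        _ ≤ ‖w‖ ^ (s - 2) * ((2:ℝ) ^ (2 - b) * ‖1 - w‖ ^ (b - 2)) := by gcongr
        _ = _ := by ring
    · rw [Set.indicator_of_notMem hw1]
      exact zero_le
  refine (lt_of_le_of_lt h2 ?_).ne
  rw [lintegral_const_mul' _ _ ENNReal.ofReal_ne_top, h1]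
  exact ENNReal.mul_lt_top ENNReal.ofReal_lt_top ENNReal.ofReal_lt_top

theorem Tl_gd_bdd {s : ℝ} (hs : 0 < s) (hs2 : s < 2) {δ : ℝ} (hδ : 0 < δ) :
    ∃ C : ℝ≥0∞, C ≠ ∞ ∧ ∀ z, Tl s (fun x => ENNReal.ofReal (gd δ x)) z ≤ C := by
  refine ⟨(∫⁻ w in Metric.ball (0:ℂ) 1, ENNReal.ofReal (‖w‖ ^ (s - 2))) * ENNReal.ofReal δ⁻¹ +
    ∫⁻ w : ℂ, ENNReal.ofReal (gd δ w), ENNReal.add_ne_top.2
      ⟨ENNReal.mul_ne_top (ball_lint hs hs2) ENNReal.ofReal_ne_top, gd_lint hδ⟩, fun z => ?_⟩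
  unfold Tl
  have h1 : ∫⁻ w : ℂ, ENNReal.ofReal (gd δ w) = ∫⁻ w : ℂ, ENNReal.ofReal (gd δ (z - w)) :=
    (lintegral_sub_left_eq_self (fun w : ℂ => ENNReal.ofReal (gd δ w)) z).symm
  rw [h1, ← lintegral_indicator measurableSet_ball, ← lintegral_mul_const', ← lintegral_add_right]
  · refine lintegral_mono fun w => ?_
    by_cases hw1 : w ∈ Metric.ball (0:ℂ) 1
    · rw [Set.indicator_of_mem hw1]
      refine le_add_of_le_of_nonneg ?_ zero_le
      exact mul_le_mul_right (ENNReal.ofReal_le_ofReal (gd_le hδ _)) _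
    · rw [Set.indicator_of_notMem hw1, zero_mul, zero_add]
      have h3 : 1 ≤ ‖w‖ := by simpa using hw1
      have h4 : ‖w‖ ^ (s - 2) ≤ 1 := Real.rpow_le_one_of_one_le_of_nonpos h3 (by linarith)
      calc ENNReal.ofReal (‖w‖ ^ (s - 2)) * ENNReal.ofReal (gd δ (z - w))
          ≤ 1 * ENNReal.ofReal (gd δ (z - w)) := by
            gcongr
            rw [← ENNReal.ofReal_one]
            exact ENNReal.ofReal_le_ofReal h4
        _ = _ := one_mul _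
  · have := (gd_cont δ).measurable
    exact (this.comp (measurable_const.sub measurable_id)).ennreal_ofReal
  · exact ENNReal.ofReal_ne_top

/-! ### recursion over `Fin` -/

def eqv (j : ℕ) : (ℂ × ℂ) × (Fin j → ℂ × ℂ) ≃ᵐ (Fin (j + 1) → ℂ × ℂ) :=
  (MeasurableEquiv.piFinSuccAbove (fun _ : Fin (j + 1) => ℂ × ℂ) 0).symm

theorem eqv_mp (j : ℕ) : MeasurePreserving (eqv j) volume volume :=
  (volume_preserving_piFinSuccAbove (fun _ : Fin (j + 1) => ℂ × ℂ) 0).symm _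

theorem eqv_zero (j : ℕ) (p : (ℂ × ℂ) × (Fin j → ℂ × ℂ)) : eqv j p 0 = p.1 := rfl

theorem eqv_succ (j : ℕ) (p : (ℂ × ℂ) × (Fin j → ℂ × ℂ)) (i : Fin j) :
    eqv j p i.succ = p.2 i := rfl

theorem lint_cons (j : ℕ) (Φ : (Fin (j + 1) → ℂ × ℂ) → ℝ≥0∞) (hΦ : Measurable Φ) :
    ∫⁻ v, Φ v = ∫⁻ ξ : ℂ, ∫⁻ ξ' : ℂ, ∫⁻ v' : Fin j → ℂ × ℂ, Φ (eqv j ((ξ, ξ'), v')) := by
  rw [← (eqv_mp j).lintegral_comp_emb (eqv j).measurableEmbedding]
  have h1 : Measurable fun p : (ℂ × ℂ) × (Fin j → ℂ × ℂ) => Φ (eqv j p) :=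
    hΦ.comp (eqv j).measurable
  rw [Measure.volume_eq_prod, lintegral_prod _ h1.aemeasurable, Measure.volume_eq_prod,
    lintegral_prod _ (h1.lintegral_prod_right').aemeasurable]

theorem int_cons (j : ℕ) (Φ : (Fin (j + 1) → ℂ × ℂ) → ℂ) (hΦ : Integrable Φ) :
    ∫ v, Φ v = ∫ ξ : ℂ, ∫ ξ' : ℂ, ∫ v' : Fin j → ℂ × ℂ, Φ (eqv j ((ξ, ξ'), v')) := by
  rw [← (eqv_mp j).integral_comp' Φ]
  have h1 : Integrable (fun p : (ℂ × ℂ) × (Fin j → ℂ × ℂ) => Φ (eqv j p))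
      (volume.prod volume) :=
    ((eqv_mp j).integrable_comp_emb (eqv j).measurableEmbedding).2 hΦ
  rw [Measure.volume_eq_prod, integral_prod _ h1, Measure.volume_eq_prod,
    integral_prod _ h1.integral_prod_left]

/-- the multiple integral, nonnegative version -/
def PL (s : ℝ) (g : ℂ → ℝ≥0∞) (j : ℕ) (z : ℂ) : ℝ≥0∞ :=
  ∫⁻ v : Fin j → ℂ × ℂ, (∏ i, (ENNReal.ofReal (‖(v i).1‖ ^ (s - 2)) *
    ENNReal.ofReal (‖(v i).2‖ ^ (s - 2)))) * g (z + ∑ i, ((v i).1 - (v i).2))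

/-- the multiple integral, complex version -/
def PC (a : ℂ) (g : ℂ → ℂ) (j : ℕ) (z : ℂ) : ℂ :=
  ∫ v : Fin j → ℂ × ℂ, (∏ i, (cpw a (v i).1 * conj (cpw a (v i).2))) *
    g (z + ∑ i, ((v i).1 - (v i).2))

theorem sum_meas (j : ℕ) : Measurable fun v : Fin j → ℂ × ℂ => ∑ i, ((v i).1 - (v i).2) := by
  refine Finset.measurable_sum _ fun i _ => ?_
  exact (measurable_fst.comp (measurable_pi_apply i)).sub
    (measurable_snd.comp (measurable_pi_apply i))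

theorem prodL_meas (s : ℝ) (j : ℕ) : Measurable fun v : Fin j → ℂ × ℂ =>
    ∏ i, (ENNReal.ofReal (‖(v i).1‖ ^ (s - 2)) * ENNReal.ofReal (‖(v i).2‖ ^ (s - 2))) := by
  refine Finset.measurable_prod _ fun i _ => ?_
  have h1 : Measurable fun v : Fin j → ℂ × ℂ => (v i).1 :=
    measurable_fst.comp (measurable_pi_apply i)
  have h2 : Measurable fun v : Fin j → ℂ × ℂ => (v i).2 :=
    measurable_snd.comp (measurable_pi_apply i)
  exact ((h1.norm.pow_const _).ennreal_ofReal).mul ((h2.norm.pow_const _).ennreal_ofReal)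

theorem prodC_meas (a : ℂ) (j : ℕ) : Measurable fun v : Fin j → ℂ × ℂ =>
    ∏ i, (cpw a (v i).1 * conj (cpw a (v i).2)) := by
  refine Finset.measurable_prod _ fun i _ => ?_
  have h1 : Measurable fun v : Fin j → ℂ × ℂ => (v i).1 :=
    measurable_fst.comp (measurable_pi_apply i)
  have h2 : Measurable fun v : Fin j → ℂ × ℂ => (v i).2 :=
    measurable_snd.comp (measurable_pi_apply i)
  exact ((cpw_meas a).comp h1).mul (Complex.continuous_conj.measurable.comp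
    ((cpw_meas a).comp h2))

theorem PL_meas (s : ℝ) {g : ℂ → ℝ≥0∞} (hg : Measurable g) (j : ℕ) : Measurable (PL s g j) := by
  unfold PL
  refine Measurable.lintegral_prod_right' (f := fun p : ℂ × (Fin j → ℂ × ℂ) =>
    (∏ i, (ENNReal.ofReal (‖(p.2 i).1‖ ^ (s - 2)) * ENNReal.ofReal (‖(p.2 i).2‖ ^ (s - 2)))) *
      g (p.1 + ∑ i, ((p.2 i).1 - (p.2 i).2))) ?_
  exact ((prodL_meas s j).comp measurable_snd).mul
    (hg.comp (measurable_fst.add ((sum_meas j).comp measurable_snd)))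

theorem vol_empty : volume (Set.univ : Set (Fin 0 → ℂ × ℂ)) = 1 := by
  rw [← Set.pi_univ (Set.univ : Set (Fin 0)), volume_pi_pi]
  simp

theorem PL_zero (s : ℝ) (g : ℂ → ℝ≥0∞) (z : ℂ) : PL s g 0 z = g z := by
  unfold PL
  simp [lintegral_unique, vol_empty]

theorem PC_zero (a : ℂ) (g : ℂ → ℂ) (z : ℂ) : PC a g 0 z = g z := by
  unfold PC
  simp [integral_unique, measureReal_def, vol_empty]

theorem PL_succ (s : ℝ) {g : ℂ → ℝ≥0∞} (hg : Measurable g) (j : ℕ) (z : ℂ) :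
    PL s g (j + 1) z = Tl s (Tl s (PL s g j)) z := by
  have hm : Measurable fun v : Fin (j + 1) → ℂ × ℂ =>
      (∏ i, (ENNReal.ofReal (‖(v i).1‖ ^ (s - 2)) * ENNReal.ofReal (‖(v i).2‖ ^ (s - 2)))) *
        g (z + ∑ i, ((v i).1 - (v i).2)) :=
    (prodL_meas s (j + 1)).mul (hg.comp (measurable_const.add (sum_meas (j + 1))))
  rw [PL, lint_cons j _ hm, ← Tl_even]
  refine lintegral_congr fun ξ => ?_
  show _ = ENNReal.ofReal (‖ξ‖ ^ (s - 2)) * ∫⁻ w : ℂ, ENNReal.ofReal (‖w‖ ^ (s - 2)) *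
    PL s g j (z + ξ - w)
  rw [← lintegral_const_mul' _ _ ENNReal.ofReal_ne_top]
  refine lintegral_congr fun ξ' => ?_
  unfold PL
  rw [← lintegral_const_mul' _ _ ENNReal.ofReal_ne_top,
    ← lintegral_const_mul' _ _ ENNReal.ofReal_ne_top]
  refine lintegral_congr fun v' => ?_
  rw [Fin.prod_univ_succ, Fin.sum_univ_succ]
  simp only [eqv_zero, eqv_succ]
  rw [show z + (ξ - ξ' + ∑ i, ((v' i).1 - (v' i).2)) =
    z + ξ - ξ' + ∑ i, ((v' i).1 - (v' i).2) by ring]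
  ring

theorem PL_formula (s : ℝ) (hs : 0 < s) {g : ℂ → ℝ≥0∞} (hg : Measurable g) (j : ℕ)
    (hj : 1 ≤ j) (hjs : 2 * j * s < 2) :
    ∃ K : ℝ≥0∞, K ≠ ∞ ∧ ∀ z, PL s g j z = K * Tl (2 * j * s) g z := by
  induction j, hj using Nat.le_induction with
  | base =>
    refine ⟨ENNReal.ofReal (Gc s * Gc s / Gc (s + s)), ENNReal.ofReal_ne_top, fun z => ?_⟩
    have h1 : 2 * ((1 : ℕ) : ℝ) * s = s + s := by push_cast; ring
    rw [h1] at hjs ⊢
    rw [show (1:ℕ) = 0 + 1 from rfl, PL_succ s hg 0 z]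
    have h2 : PL s g 0 = g := funext fun z => PL_zero s g z
    rw [h2, Tl_Tl hs hs hjs hg z]
  | succ j hj ih =>
    have hj1 : (1:ℝ) ≤ j := by exact_mod_cast hj
    have e1 : 2 * ((j + 1 : ℕ) : ℝ) * s = s + (s + 2 * j * s) := by push_cast; ring
    rw [e1] at hjs ⊢
    have hpos : 0 < 2 * (j:ℝ) * s := by positivity
    obtain ⟨K, hK, ih⟩ := ih (by linarith)
    refine ⟨K * ENNReal.ofReal (Gc s * Gc (2 * j * s) / Gc (s + 2 * j * s)) *
      ENNReal.ofReal (Gc s * Gc (s + 2 * j * s) / Gc (s + (s + 2 * j * s))),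
      ENNReal.mul_ne_top (ENNReal.mul_ne_top hK ENNReal.ofReal_ne_top) ENNReal.ofReal_ne_top,
      fun z => ?_⟩
    have h2 : PL s g j = fun z => K * Tl (2 * j * s) g z := funext ih
    rw [PL_succ s hg j z, h2]
    have h3 : Tl s (fun z => K * Tl (2 * j * s) g z) = fun z =>
        (K * ENNReal.ofReal (Gc s * Gc (2 * j * s) / Gc (s + 2 * j * s))) *
          Tl (s + 2 * j * s) g z := by
      funext z
      rw [Tl_const_mul s K hK, Tl_Tl hs hpos (by linarith) hg z]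
      ring
    rw [h3, Tl_const_mul _ _ (ENNReal.mul_ne_top hK ENNReal.ofReal_ne_top),
      Tl_Tl hs (by linarith) hjs hg z]
    ring

/-- admissible test functions -/
structure TG (g : ℂ → ℂ) : Prop where
  meas : Measurable g
  fin : ∀ s : ℝ, 0 < s → s < 2 → ∀ z, Tl s (fun x => ‖g x‖ₑ) z ≠ ∞

theorem enorm_prod_cx {ι : Type*} (s : Finset ι) (f : ι → ℂ) :
    ‖∏ i ∈ s, f i‖ₑ = ∏ i ∈ s, ‖f i‖ₑ := by
  classical
  induction s using Finset.induction_on with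
  | empty => simp
  | insert a s ha ih => rw [Finset.prod_insert ha, Finset.prod_insert ha, enorm_mul, ih]

theorem PC_enorm (a : ℂ) (ha : a.re < 2) (g : ℂ → ℂ) (j : ℕ) (z : ℂ) (v : Fin j → ℂ × ℂ) :
    ‖(∏ i, (cpw a (v i).1 * conj (cpw a (v i).2))) * g (z + ∑ i, ((v i).1 - (v i).2))‖ₑ =
    (∏ i, (ENNReal.ofReal (‖(v i).1‖ ^ (a.re - 2)) * ENNReal.ofReal (‖(v i).2‖ ^ (a.re - 2)))) *
      ‖g (z + ∑ i, ((v i).1 - (v i).2))‖ₑ := by
  rw [enorm_mul, enorm_prod_cx]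
  congr 1
  refine Finset.prod_congr rfl fun i _ => ?_
  rw [enorm_mul, enorm_cpw ha, ← ofReal_norm (conj (cpw a (v i).2)), Complex.norm_conj,
    ofReal_norm, enorm_cpw ha]

theorem PC_int (a : ℂ) (ha : a.re < 2) {g : ℂ → ℂ} (hg : Measurable g) (j : ℕ) (z : ℂ)
    (h : PL a.re (fun x => ‖g x‖ₑ) j z ≠ ∞) :
    Integrable (fun v : Fin j → ℂ × ℂ => (∏ i, (cpw a (v i).1 * conj (cpw a (v i).2))) *
      g (z + ∑ i, ((v i).1 - (v i).2))) := by
  refine ⟨((prodC_meas a j).mul (hg.comp (measurable_const.add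
    (sum_meas j)))).aestronglyMeasurable, ?_⟩
  unfold HasFiniteIntegral
  simp_rw [PC_enorm a ha g j z]
  exact lt_top_iff_ne_top.2 h

theorem conj_cpw (a w : ℂ) : conj (cpw a w) = cpw (conj a) w := by
  unfold cpw
  have h1 : ((‖w‖ : ℝ) : ℂ).arg ≠ Real.pi := by
    rw [Complex.arg_ofReal_of_nonneg (norm_nonneg w)]
    exact Real.pi_pos.ne
  have h2 := Complex.cpow_conj ((‖w‖ : ℝ) : ℂ) (a - 2) h1
  rw [Complex.conj_ofReal] at h2
  rw [← h2, map_sub]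
  congr 2
  exact (Complex.conj_ofReal 2).symm ▸ by simp

theorem Tc_even (a : ℂ) (F : ℂ → ℂ) (z : ℂ) :
    ∫ ξ : ℂ, cpw a ξ * F (z + ξ) = Tc a F z := by
  unfold Tc
  rw [← integral_neg_eq_self (fun ξ : ℂ => cpw a ξ * F (z + ξ))]
  refine integral_congr_ae (Eventually.of_forall fun w => ?_)
  show cpw a (-w) * F (z + -w) = cpw a w * F (z - w)
  unfold cpw
  rw [norm_neg, ← sub_eq_add_neg]

theorem PC_succ (a : ℂ) (ha : a.re < 2) {g : ℂ → ℂ} (hg : Measurable g) (j : ℕ) (z : ℂ)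
    (h : PL a.re (fun x => ‖g x‖ₑ) (j + 1) z ≠ ∞) :
    PC a g (j + 1) z = Tc a (Tc (conj a) (PC a g j)) z := by
  rw [PC, int_cons j _ (PC_int a ha hg (j + 1) z h), ← Tc_even]
  refine integral_congr_ae (Eventually.of_forall fun ξ => ?_)
  show _ = cpw a ξ * ∫ w : ℂ, cpw (conj a) w * PC a g j (z + ξ - w)
  rw [← integral_const_mul]
  refine integral_congr_ae (Eventually.of_forall fun ξ' => ?_)
  show _ = cpw a ξ * (cpw (conj a) ξ' * PC a g j (z + ξ - ξ'))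
  unfold PC
  rw [← integral_const_mul, ← integral_const_mul]
  refine integral_congr_ae (Eventually.of_forall fun v' => ?_)
  simp only [Fin.prod_univ_succ, Fin.sum_univ_succ, eqv_zero, eqv_succ]
  rw [show z + (ξ - ξ' + ∑ i, ((v' i).1 - (v' i).2)) =
    z + ξ - ξ' + ∑ i, ((v' i).1 - (v' i).2) by ring, conj_cpw]
  ring

theorem PL_fin {s : ℝ} (hs : 0 < s) {g : ℂ → ℂ} (hg : TG g) (j : ℕ)
    (hj : 1 ≤ j) (hjs : 2 * j * s < 2) (z : ℂ) : PL s (fun x => ‖g x‖ₑ) j z ≠ ∞ := by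
  obtain ⟨K, hK, h⟩ := PL_formula s hs hg.meas.enorm j hj hjs
  have hj1 : (1:ℝ) ≤ j := by exact_mod_cast hj
  rw [h z]
  exact ENNReal.mul_ne_top hK (hg.fin _ (by positivity) hjs z)

theorem PC_formula (a : ℂ) (ha : 0 < a.re) {g : ℂ → ℂ} (hg : TG g) (j : ℕ) (hj : 1 ≤ j)
    (hja : 2 * j * a.re < 2) (z : ℂ) :
    PC a g j z = (Gx a * Gx (conj a)) ^ j / Gx ((2 * j * a.re : ℝ) : ℂ) *
      Tc ((2 * j * a.re : ℝ) : ℂ) g z := by
  have ha2 : a.re < 2 := by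
    have hj1 : (1:ℝ) ≤ j := by exact_mod_cast hj
    nlinarith
  induction j, hj using Nat.le_induction generalizing z with
  | base =>
    have h1 : 2 * ((1 : ℕ) : ℝ) * a.re = 2 * a.re := by push_cast; ring
    have h2 := PL_fin ha hg 1 le_rfl hja z
    rw [h1] at hja ⊢
    have h5 : PC a g 1 z = Tc a (Tc (conj a) (PC a g 0)) z := PC_succ a ha2 hg.meas 0 z h2
    have h3 : PC a g 0 = g := funext fun z => PC_zero a g z
    rw [h5, h3, Tc_Tc ha (by rw [Complex.conj_re]; exact ha) (by rw [Complex.conj_re]; linarith)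
      hg.meas z (hg.fin _ (by rw [Complex.conj_re]; linarith)
        (by rw [Complex.conj_re]; linarith) z), Complex.add_conj]
    simp
  | succ j hj ih =>
    have hj1 : (1:ℝ) ≤ j := by exact_mod_cast hj
    have h2 := PL_fin ha hg (j + 1) (by omega) hja z
    have e1 : 2 * ((j + 1 : ℕ) : ℝ) * a.re = a.re + (a.re + 2 * j * a.re) := by push_cast; ring
    have hlt : a.re + (a.re + 2 * j * a.re) < 2 := by rw [← e1]; exact hja
    have hpos : 0 < 2 * (j:ℝ) * a.re := by positivity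
    have ih' := ih (by linarith)
    have h3 : PC a g j = fun z => (Gx a * Gx (conj a)) ^ j / Gx ((2 * j * a.re : ℝ) : ℂ) *
      Tc ((2 * j * a.re : ℝ) : ℂ) g z := funext ih'
    rw [PC_succ a ha2 hg.meas j z h2, h3]
    have hG1 : Gx ((2 * j * a.re : ℝ) : ℂ) ≠ 0 :=
      Gx_ne (by rw [Complex.ofReal_re]; exact hpos) (by rw [Complex.ofReal_re]; linarith)
    have hG2 : Gx (conj a + ((2 * j * a.re : ℝ) : ℂ)) ≠ 0 :=
      Gx_ne (by rw [Complex.add_re, Complex.conj_re, Complex.ofReal_re]; linarith)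
        (by rw [Complex.add_re, Complex.conj_re, Complex.ofReal_re]; linarith)
    have h4 : Tc (conj a) (fun z => (Gx a * Gx (conj a)) ^ j / Gx ((2 * j * a.re : ℝ) : ℂ) *
        Tc ((2 * j * a.re : ℝ) : ℂ) g z) = fun z =>
        ((Gx a * Gx (conj a)) ^ j * Gx (conj a) / Gx (conj a + ((2 * j * a.re : ℝ) : ℂ))) *
          Tc (conj a + ((2 * j * a.re : ℝ) : ℂ)) g z := by
      funext z
      rw [Tc_const_mul, Tc_Tc (by rw [Complex.conj_re]; exact ha)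
        (by rw [Complex.ofReal_re]; exact hpos)
        (by rw [Complex.conj_re, Complex.ofReal_re]; linarith) hg.meas z
        (hg.fin _ (by rw [Complex.conj_re, Complex.ofReal_re]; linarith)
          (by rw [Complex.conj_re, Complex.ofReal_re]; linarith) z)]
      field_simp
    rw [h4, Tc_const_mul, Tc_Tc ha
      (by rw [Complex.add_re, Complex.conj_re, Complex.ofReal_re]; linarith)
      (by rw [Complex.add_re, Complex.conj_re, Complex.ofReal_re]; linarith) hg.meas z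
      (hg.fin _ (by rw [Complex.add_re, Complex.conj_re, Complex.ofReal_re]; linarith)
        (by rw [Complex.add_re, Complex.conj_re, Complex.ofReal_re]; linarith) z)]
    have e2 : a + (conj a + ((2 * j * a.re : ℝ) : ℂ)) =
        ((2 * ((j + 1 : ℕ) : ℝ) * a.re : ℝ) : ℂ) := by
      rw [← add_assoc, Complex.add_conj]
      push_cast
      ring
    rw [e2]
    have hG3 : Gx ((2 * ((j + 1 : ℕ) : ℝ) * a.re : ℝ) : ℂ) ≠ 0 :=
      Gx_ne (by rw [Complex.ofReal_re, e1]; linarith) (by rw [Complex.ofReal_re, e1]; linarith)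
    rw [pow_succ]
    field_simp

/-! ### the theorem -/

theorem Gx_conj (a : ℂ) : Gx (conj a) = conj (Gx a) := by
  unfold Gx
  rw [map_div₀, map_mul, Complex.conj_ofReal, ← Complex.Gamma_conj, ← Complex.Gamma_conj]
  have h2 : conj (2:ℂ) = 2 := Complex.conj_ofReal 2
  rw [map_sub, map_one, map_div₀, h2]

theorem Gx_two_sub {a : ℂ} (h0 : 0 < a.re) (h2 : a.re < 2) :
    Gx (2 - a) * Gx a = (Real.pi : ℂ) ^ 2 := by
  unfold Gx
  rw [show (2 - a) / 2 = 1 - a / 2 by ring, show (1:ℂ) - (1 - a / 2) = a / 2 by ring]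
  have h3 : Complex.Gamma (a / 2) ≠ 0 := by
    refine Complex.Gamma_ne_zero_of_re_pos ?_
    rw [Complex.div_ofNat_re]
    linarith
  have h4 : Complex.Gamma (1 - a / 2) ≠ 0 := by
    refine Complex.Gamma_ne_zero_of_re_pos ?_
    rw [Complex.sub_re, Complex.div_ofNat_re, Complex.one_re]
    linarith
  generalize Complex.Gamma (a / 2) = x at *
  generalize Complex.Gamma (1 - a / 2) = y at *
  field_simp

theorem TG_gd {δ : ℝ} (hδ : 0 < δ) : TG (fun x => ((gd δ x : ℝ) : ℂ)) := by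
  refine ⟨Complex.measurable_ofReal.comp (gd_cont δ).measurable, fun s h1 h2 z => ?_⟩
  obtain ⟨C, hC, h⟩ := Tl_gd_bdd h1 h2 hδ
  have e : (fun x => ‖((gd δ x : ℝ) : ℂ)‖ₑ) = fun x => ENNReal.ofReal (gd δ x) := by
    funext x
    rw [← ofReal_norm, Complex.norm_real, Real.norm_of_nonneg (gd_nonneg hδ x)]
  rw [e]
  exact (lt_of_le_of_lt (h z) (lt_top_iff_ne_top.2 hC)).ne

/-- the complex multiple integral -/
theorem J_formula (m : ℕ) (hm : 1 ≤ m) (δ : ℝ) (hδ : 0 < δ) (σ : ℝ) (c1 c2 : ℝ) (hc1 : 0 < c1)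
    (h : ℂ → ℝ) (hh : Measurable h) (hh0 : ∀ ξ, 0 ≤ h ξ) (hb : ∃ C, ∀ ξ, h ξ ≤ C)
    (hs : ∀ ξ, ξ ∉ Ann c1 c2 → h ξ = 0) (a : ℂ) (ha : a = ((1 / (m + 1 : ℝ) : ℝ) : ℂ) + I * (σ : ℂ)) :
    Integrable (fun v : Fin (m + 1) → ℂ × ℂ => (∏ i, (cpw a (v i).1 * conj (cpw a (v i).2))) *
        ((gd δ (∑ i, ((v i).1 - (v i).2)) * h (v 0).1 : ℝ) : ℂ)) ∧
    ∫ v : Fin (m + 1) → ℂ × ℂ, (∏ i, (cpw a (v i).1 * conj (cpw a (v i).2))) *
        ((gd δ (∑ i, ((v i).1 - (v i).2)) * h (v 0).1 : ℝ) : ℂ) =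
      ((‖Gx a‖ ^ (2 * (m + 1)) / Real.pi ^ 2 : ℝ) : ℂ) *
        ∫ ξ, (h ξ : ℂ) * cpw a ξ * ∫ w, cpw (2 - a) w * ((gd δ (ξ - w) : ℝ) : ℂ) := by
  have hm1 : (1:ℝ) ≤ m := by exact_mod_cast hm
  have hre : a.re = 1 / (m + 1 : ℝ) := by
    rw [ha, Complex.add_re, Complex.ofReal_re, Complex.I_mul_re, Complex.ofReal_im, neg_zero,
      add_zero]
  have hpos : 0 < a.re := by rw [hre]; positivity
  have hm2 : 2 * (m:ℝ) * a.re + a.re = 2 - a.re := by
    rw [hre]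
    field_simp
    ring
  have ha1 : a.re < 1 := by
    rw [hre, div_lt_one (by linarith)]
    linarith
  have hg := TG_gd hδ
  set g : ℂ → ℂ := fun x => ((gd δ x : ℝ) : ℂ) with hgdef
  set Φ : (Fin (m + 1) → ℂ × ℂ) → ℂ := fun v => (∏ i, (cpw a (v i).1 * conj (cpw a (v i).2))) *
        ((gd δ (∑ i, ((v i).1 - (v i).2)) * h (v 0).1 : ℝ) : ℂ) with hΦ
  have hΦm : Measurable Φ := by
    refine (prodC_meas a (m + 1)).mul (Complex.measurable_ofReal.comp ?_)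
    exact ((gd_cont δ).measurable.comp (sum_meas (m + 1))).mul
      (hh.comp (measurable_fst.comp (measurable_pi_apply 0)))
  have hsplit : ∀ (ξ ξ' : ℂ) (v' : Fin m → ℂ × ℂ), Φ (eqv m ((ξ, ξ'), v')) =
      (h ξ : ℂ) * cpw a ξ * (cpw (conj a) ξ' *
        ((∏ i, (cpw a (v' i).1 * conj (cpw a (v' i).2))) *
          g (ξ - ξ' + ∑ i, ((v' i).1 - (v' i).2)))) := by
    intro ξ ξ' v'
    simp only [hΦ, hgdef, Fin.prod_univ_succ, Fin.sum_univ_succ, eqv_zero, eqv_succ]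
    rw [conj_cpw]
    push_cast
    ring
  have hPL : ∀ z, PL a.re (fun x => ‖g x‖ₑ) m z ≠ ∞ := fun z =>
    PL_fin hpos hg m hm (by linarith) z
  have hint : Integrable Φ := by
    refine ⟨hΦm.aestronglyMeasurable, ?_⟩
    unfold HasFiniteIntegral
    rw [lint_cons m _ hΦm.enorm]
    obtain ⟨K, hK, hKz⟩ := PL_formula a.re hpos hg.meas.enorm m hm (by linarith)
    obtain ⟨B, hB, hBz⟩ := Tl_gd_bdd (s := 2 - a.re) (by linarith) (by linarith) hδ
    obtain ⟨C, hC⟩ := hb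
    have e1 : ∀ ξ : ℂ, ∫⁻ ξ' : ℂ, ∫⁻ v' : Fin m → ℂ × ℂ, ‖Φ (eqv m ((ξ, ξ'), v'))‖ₑ =
        ‖(h ξ : ℂ) * cpw a ξ‖ₑ * Tl a.re (PL a.re (fun x => ‖g x‖ₑ) m) ξ := by
      intro ξ
      unfold Tl
      rw [← lintegral_const_mul' _ _ enorm_ne_top]
      refine lintegral_congr fun ξ' => ?_
      unfold PL
      rw [← lintegral_const_mul' _ _ ENNReal.ofReal_ne_top,
        ← lintegral_const_mul' _ _ enorm_ne_top]
      refine lintegral_congr fun v' => ?_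
      rw [hsplit, enorm_mul, enorm_mul (cpw (conj a) ξ'), PC_enorm a (by linarith) g m,
        enorm_cpw (a := conj a) (by rw [Complex.conj_re]; linarith), Complex.conj_re]
    have e2 : ∀ ξ : ℂ, Tl a.re (PL a.re (fun x => ‖g x‖ₑ) m) ξ ≤
        K * ENNReal.ofReal (Gc a.re * Gc (2 * m * a.re) / Gc (a.re + 2 * m * a.re)) * B := by
      intro ξ
      have h2 : PL a.re (fun x => ‖g x‖ₑ) m =
        fun z => K * Tl (2 * m * a.re) (fun x => ‖g x‖ₑ) z := funext hKz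
      rw [h2, Tl_const_mul _ _ hK, Tl_Tl hpos (by positivity) (by linarith) hg.meas.enorm ξ,
        mul_assoc K _ B]
      have e : (fun x => ‖g x‖ₑ) = fun x => ENNReal.ofReal (gd δ x) := by
        funext x
        rw [← ofReal_norm, hgdef, Complex.norm_real, Real.norm_of_nonneg (gd_nonneg hδ x)]
      rw [e, show a.re + 2 * m * a.re = 2 - a.re by linarith]
      exact mul_le_mul_right (mul_le_mul_right (hBz ξ) _) _
    have e3 : ∀ ξ : ℂ, ‖(h ξ : ℂ) * cpw a ξ‖ₑ ≤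
        (Ann c1 c2).indicator (fun _ => ENNReal.ofReal (C * c1 ^ (a.re - 2))) ξ := by
      intro ξ
      by_cases hξ : ξ ∈ Ann c1 c2
      · rw [Set.indicator_of_mem hξ, ← ofReal_norm, norm_mul, Complex.norm_real,
          Real.norm_of_nonneg (hh0 ξ), cpw_norm (by linarith)]
        refine ENNReal.ofReal_le_ofReal ?_
        have h3 : ‖ξ‖ ^ (a.re - 2) ≤ c1 ^ (a.re - 2) :=
          Real.rpow_le_rpow_of_nonpos hc1 hξ.1 (by linarith)
        exact mul_le_mul (hC ξ) h3 (Real.rpow_nonneg (norm_nonneg _) _)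
          ((hh0 ξ).trans (hC ξ))
      · rw [Set.indicator_of_notMem hξ, hs ξ hξ]
        simp
    have hAm : MeasurableSet (Ann c1 c2) := by
      refine (isClosed_le continuous_const continuous_norm).measurableSet.inter
        (isClosed_le continuous_norm continuous_const).measurableSet
    have hAf : volume (Ann c1 c2) < ∞ := by
      refine lt_of_le_of_lt (measure_mono (t := Metric.closedBall (0:ℂ) c2) ?_)
        measure_closedBall_lt_top
      intro ξ hξ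
      simpa using hξ.2
    calc ∫⁻ ξ : ℂ, ∫⁻ ξ' : ℂ, ∫⁻ v' : Fin m → ℂ × ℂ, ‖Φ (eqv m ((ξ, ξ'), v'))‖ₑ
        ≤ ∫⁻ ξ : ℂ, (Ann c1 c2).indicator (fun _ => ENNReal.ofReal (C * c1 ^ (a.re - 2))) ξ *
          (K * ENNReal.ofReal (Gc a.re * Gc (2 * m * a.re) / Gc (a.re + 2 * m * a.re)) * B) := by
          refine lintegral_mono fun ξ => ?_
          rw [e1 ξ]
          exact mul_le_mul' (e3 ξ) (e2 ξ)
      _ < ∞ := by
          rw [lintegral_mul_const' _ _ (ENNReal.mul_ne_top (ENNReal.mul_ne_top hK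
            ENNReal.ofReal_ne_top) hB), lintegral_indicator hAm, setLIntegral_const]
          exact ENNReal.mul_lt_top (ENNReal.mul_lt_top ENNReal.ofReal_lt_top hAf)
            (lt_top_iff_ne_top.2 (ENNReal.mul_ne_top (ENNReal.mul_ne_top hK
            ENNReal.ofReal_ne_top) hB))
  refine ⟨hint, ?_⟩
  rw [int_cons m Φ hint, ← integral_const_mul]
  refine integral_congr_ae (Eventually.of_forall fun ξ => ?_)
  show ∫ ξ' : ℂ, ∫ v' : Fin m → ℂ × ℂ, Φ (eqv m ((ξ, ξ'), v')) =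
    ((‖Gx a‖ ^ (2 * (m + 1)) / Real.pi ^ 2 : ℝ) : ℂ) * ((h ξ : ℂ) * cpw a ξ * Tc (2 - a) g ξ)
  have f1 : ∫ ξ' : ℂ, ∫ v' : Fin m → ℂ × ℂ, Φ (eqv m ((ξ, ξ'), v')) =
      (h ξ : ℂ) * cpw a ξ * Tc (conj a) (PC a g m) ξ := by
    unfold Tc
    rw [← integral_const_mul]
    refine integral_congr_ae (Eventually.of_forall fun ξ' => ?_)
    show ∫ v' : Fin m → ℂ × ℂ, Φ (eqv m ((ξ, ξ'), v')) =
      (h ξ : ℂ) * cpw a ξ * (cpw (conj a) ξ' * PC a g m (ξ - ξ'))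
    unfold PC
    rw [← integral_const_mul, ← integral_const_mul]
    exact integral_congr_ae (Eventually.of_forall fun v' => hsplit ξ ξ' v')
  have f2 : PC a g m = fun z => (Gx a * Gx (conj a)) ^ m / Gx ((2 * m * a.re : ℝ) : ℂ) *
      Tc ((2 * m * a.re : ℝ) : ℂ) g z :=
    funext fun z => PC_formula a hpos hg m hm (by linarith) z
  have e2 : conj a + ((2 * m * a.re : ℝ) : ℂ) = 2 - a := by
    have : ((2 * m * a.re : ℝ) : ℂ) = 2 - ((2 * a.re : ℝ) : ℂ) := by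
      rw [show 2 * m * a.re = 2 - 2 * a.re by linarith]
      push_cast
      ring
    rw [this, ← Complex.add_conj]
    ring
  have hpm : 0 < 2 * (m:ℝ) * a.re := by positivity
  have hG1 : Gx ((2 * m * a.re : ℝ) : ℂ) ≠ 0 :=
    Gx_ne (by rw [Complex.ofReal_re]; exact hpm) (by rw [Complex.ofReal_re]; linarith)
  have hG0 : Gx a ≠ 0 := Gx_ne hpos (by linarith)
  have hGG := Gx_two_sub hpos (by linarith : a.re < 2)
  have hG2 : Gx (2 - a) ≠ 0 := by
    intro h0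
    rw [h0, zero_mul] at hGG
    exact pow_ne_zero 2 (by exact_mod_cast Real.pi_pos.ne' : (Real.pi : ℂ) ≠ 0) hGG.symm
  rw [f1, f2, Tc_const_mul, Tc_Tc (by rw [Complex.conj_re]; exact hpos)
    (by rw [Complex.ofReal_re]; exact hpm)
    (by rw [Complex.conj_re, Complex.ofReal_re]; linarith) hg.meas ξ
    (hg.fin _ (by rw [Complex.conj_re, Complex.ofReal_re]; linarith)
      (by rw [Complex.conj_re, Complex.ofReal_re]; linarith) ξ), e2]
  have hnorm : ((‖Gx a‖ ^ (2 * (m + 1)) / Real.pi ^ 2 : ℝ) : ℂ) =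
      (Gx a * Gx (conj a)) ^ (m + 1) / (Real.pi : ℂ) ^ 2 := by
    rw [Gx_conj, Complex.mul_conj, Complex.normSq_eq_norm_sq, pow_mul]
    push_cast
    rfl
  rw [hnorm, ← hGG, pow_succ]
  field_simp

end Helper85.BP.P
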