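import Pool.Agent.Helper72.BAM.Fin
import Pool.Agent.Helper85.BP.Defs
import Pool.Agent.Helper85.BPM.K1
import Pool.Agent.Helper85.BPM.K2
import Pool.Agent.Helper85.BPM.K5a

/-!
# MP_3dd6d4_an, all-p extension, module K5b : limit of the Gaussian regularisation (helper57)
-/

set_option autoImplicit false

open MeasureTheory Complex FourierTransform Filter Topology
open scoped ENNReal NNReal ComplexConjugate

noncomputable section

namespace Helper85.BP.P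

open Helper72.BA Helper85.BP

/-! ### the Gaussian -/

theorem K5b_gd_nonneg {δ : ℝ} (hδ : 0 < δ) (z : ℂ) : 0 ≤ gd δ z := by
  unfold gd
  positivity

theorem K5b_gd_cont (δ : ℝ) : Continuous (gd δ) := by
  unfold gd
  fun_prop

theorem K5b_exp_integrable {b : ℝ} (hb : 0 < b) :
    Integrable (fun z : ℂ => Real.exp (-b * ‖z‖ ^ 2)) := by
  have h := GaussianFourier.integrable_cexp_neg_mul_sq_norm_add (V := ℂ) (b := (b : ℂ))
    (by simpa using hb) 0 0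
  have h2 := h.norm
  refine h2.congr (Eventually.of_forall fun z => ?_)
  simp only [Complex.norm_exp]
  congr 1
  simp
  left
  rw [← Complex.ofReal_pow, Complex.ofReal_re]

theorem K5b_exp_integral {b : ℝ} (hb : 0 < b) :
    ∫ z : ℂ, Real.exp (-b * ‖z‖ ^ 2) = Real.pi / b := by
  rw [GaussianFourier.integral_rexp_neg_mul_sq_norm hb, Complex.finrank_real_complex]
  norm_num

theorem K5b_gd_integrable {δ : ℝ} (hδ : 0 < δ) : Integrable (gd δ) := by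
  have h := (K5b_exp_integrable (show 0 < Real.pi / δ by positivity)).const_mul δ⁻¹
  refine h.congr (Eventually.of_forall fun z => ?_)
  simp only [gd]
  congr 2
  ring

theorem K5b_gd_integral {δ : ℝ} (hδ : 0 < δ) : ∫ z, gd δ z = 1 := by
  have e : ∀ z : ℂ, gd δ z = δ⁻¹ * Real.exp (-(Real.pi / δ) * ‖z‖ ^ 2) := by
    intro z
    unfold gd
    congr 2
    ring
  simp only [e]
  rw [integral_const_mul, K5b_exp_integral (by positivity)]
  field_simp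

/-- scaling -/
theorem K5b_scale {δ : ℝ} (hδ : 0 < δ) (G : ℂ → ℂ) (ξ : ℂ) :
    ∫ w, G w * ((gd δ (ξ - w) : ℝ) : ℂ) =
      ∫ x : ℂ, G (ξ - Real.sqrt δ • x) * ((Real.exp (-Real.pi * ‖x‖ ^ 2) : ℝ) : ℂ) := by
  have hs : 0 < Real.sqrt δ := Real.sqrt_pos.2 hδ
  have h1 : ∫ w, G w * ((gd δ (ξ - w) : ℝ) : ℂ) = ∫ u, G (ξ - u) * ((gd δ u : ℝ) : ℂ) := by
    rw [← integral_sub_left_eq_self (fun w => G w * ((gd δ (ξ - w) : ℝ) : ℂ)) volume ξ]
    refine integral_congr_ae (Eventually.of_forall fun u => ?_)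
    simp only [sub_sub_cancel]
  have h2 := Measure.integral_comp_smul (volume : Measure ℂ)
    (fun u => G (ξ - u) * ((gd δ u : ℝ) : ℂ)) (Real.sqrt δ)
  rw [Complex.finrank_real_complex, Real.sq_sqrt hδ.le, abs_of_pos (inv_pos.2 hδ)] at h2
  have h3 : ∫ u, G (ξ - u) * ((gd δ u : ℝ) : ℂ) =
      δ • ∫ x : ℂ, G (ξ - Real.sqrt δ • x) * ((gd δ (Real.sqrt δ • x) : ℝ) : ℂ) := by
    rw [h2, smul_smul, mul_inv_cancel₀ hδ.ne', one_smul]
  rw [h1, h3, ← integral_smul]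
  refine integral_congr_ae (Eventually.of_forall fun x => ?_)
  simp only [Complex.real_smul]
  have h4 : gd δ (Real.sqrt δ • x) = δ⁻¹ * Real.exp (-Real.pi * ‖x‖ ^ 2) := by
    unfold gd
    rw [norm_smul, Real.norm_of_nonneg hs.le, mul_pow, Real.sq_sqrt hδ.le]
    congr 2
    field_simp
  have h5 : gd δ ((Real.sqrt δ : ℂ) * x) = δ⁻¹ * Real.exp (-Real.pi * ‖x‖ ^ 2) := by
    rw [← h4, Complex.real_smul]
  rw [h5]
  have hδc : (δ : ℂ) ≠ 0 := by exact_mod_cast hδ.ne'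
  push_cast
  field_simp

/-! ### local integrability of powers -/

theorem K5b_local_int {b r : ℝ} (hb2 : b < 2) :
    Integrable (fun w : ℂ => (Metric.ball (0:ℂ) r).indicator (fun w => ‖w‖ ^ (-b)) w) := by
  have h := (integrable_fun_norm_addHaar (E := ℂ) (volume : Measure ℂ)
    (f := fun y : ℝ => (Set.Iio r).indicator (fun y => y ^ (-b)) y)).2 (by
    rw [Complex.finrank_real_complex]
    have e : (fun y : ℝ => y ^ (2 - 1) • (Set.Iio r).indicator (fun y => y ^ (-b)) y) =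
        (Set.Iio r).indicator (fun y => y * y ^ (-b)) := by
      funext y
      by_cases hy : y ∈ Set.Iio r
      · rw [Set.indicator_of_mem hy, Set.indicator_of_mem hy]
        simp
      · rw [Set.indicator_of_notMem hy, Set.indicator_of_notMem hy]
        simp
    rw [e, integrableOn_indicator_iff measurableSet_Iio] 
    rcases le_or_gt r 0 with hr | hr
    · have : Set.Iio r ∩ Set.Ioi 0 = ∅ := by
        ext y
        simp only [Set.mem_inter_iff, Set.mem_Iio, Set.mem_Ioi, Set.mem_empty_iff_false,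
          iff_false, not_and, not_lt]
        intro h
        linarith
      rw [this]
      exact integrableOn_empty
    · have h1 : IntervalIntegrable (fun y : ℝ => y ^ (1 - b)) volume 0 r :=
        intervalIntegral.intervalIntegrable_rpow' (by linarith)
      rw [intervalIntegrable_iff_integrableOn_Ioo_of_le hr.le] at h1
      have e2 : Set.Iio r ∩ Set.Ioi 0 = Set.Ioo 0 r := by
        ext y
        simp [and_comm]
      rw [e2]
      refine h1.congr_fun ?_ measurableSet_Ioo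
      intro y hy
      simp only
      rw [sub_eq_add_neg, Real.rpow_add hy.1, Real.rpow_one])
  refine h.congr (Eventually.of_forall fun w => ?_)
  by_cases hw : ‖w‖ < r
  · simp [Set.indicator, hw]
  · simp [Set.indicator, hw]

/-! ### the inner integral -/

theorem K5b_norm {a : ℂ} (h0 : 0 < a.re) (w : ℂ) : ‖cpw (2 - a) w‖ = ‖w‖ ^ (-a.re) := by
  rw [cpw_norm (by simp only [Complex.sub_re, Complex.re_ofNat]; linarith)]
  congr 1
  simp only [Complex.sub_re, Complex.re_ofNat]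
  ring

/-- far part -/
def K5b_G (a : ℂ) (r : ℝ) (w : ℂ) : ℂ := if r ≤ ‖w‖ then cpw (2 - a) w else 0

/-- near part -/
def K5b_H (a : ℂ) (r : ℝ) (w : ℂ) : ℂ := if ‖w‖ < r then cpw (2 - a) w else 0

theorem K5b_split (a : ℂ) (r : ℝ) (w : ℂ) : cpw (2 - a) w = K5b_G a r w + K5b_H a r w := by
  unfold K5b_G K5b_H
  rcases le_or_gt r ‖w‖ with h | h
  · rw [if_pos h, if_neg (not_lt.2 h), add_zero]
  · rw [if_neg (not_le.2 h), if_pos h, zero_add]

theorem K5b_G_meas (a : ℂ) (r : ℝ) : Measurable (K5b_G a r) :=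
  Measurable.ite (measurableSet_le measurable_const measurable_norm) (cpw_meas _) measurable_const

theorem K5b_H_meas (a : ℂ) (r : ℝ) : Measurable (K5b_H a r) :=
  Measurable.ite (measurableSet_lt measurable_norm measurable_const) (cpw_meas _) measurable_const

theorem K5b_G_bound {a : ℂ} (h0 : 0 < a.re) {r : ℝ} (hr : 0 < r) (w : ℂ) :
    ‖K5b_G a r w‖ ≤ r ^ (-a.re) := by
  unfold K5b_G
  split_ifs with h
  · rw [K5b_norm h0]
    exact Real.rpow_le_rpow_of_nonpos hr h (by linarith)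
  · rw [norm_zero]
    positivity

theorem K5b_H_norm {a : ℂ} (h0 : 0 < a.re) (r : ℝ) (w : ℂ) :
    ‖K5b_H a r w‖ = (Metric.ball (0:ℂ) r).indicator (fun w => ‖w‖ ^ (-a.re)) w := by
  unfold K5b_H
  by_cases h : ‖w‖ < r
  · rw [if_pos h, K5b_norm h0]
    simp [Set.indicator, h]
  · rw [if_neg h]
    simp [Set.indicator, h]

theorem K5b_G_int {a : ℂ} (h0 : 0 < a.re) {r : ℝ} (hr : 0 < r) {δ : ℝ} (hδ : 0 < δ) (ξ : ℂ) :
    Integrable (fun w => K5b_G a r w * ((gd δ (ξ - w) : ℝ) : ℂ)) := by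
  have h1 : Integrable (fun w => ((gd δ (ξ - w) : ℝ) : ℂ)) :=
    ((K5b_gd_integrable hδ).comp_sub_left ξ).ofReal
  exact h1.bdd_mul (c := r ^ (-a.re)) (K5b_G_meas a r).aestronglyMeasurable
    (Eventually.of_forall fun w => K5b_G_bound h0 hr w)

theorem K5b_gd_near {r : ℝ} (hr : 0 < r) {δ : ℝ} (hδ : 0 < δ) {ξ w : ℂ} (hξ : 2 * r ≤ ‖ξ‖)
    (hw : ‖w‖ < r) : gd δ (ξ - w) ≤ δ⁻¹ * Real.exp (-(Real.pi * r ^ 2 / δ)) := by
  unfold gd
  have h1 : r ≤ ‖ξ - w‖ := by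
    have := norm_sub_norm_le ξ w
    linarith
  gcongr

theorem K5b_H_le {a : ℂ} (h0 : 0 < a.re) {r : ℝ} (hr : 0 < r) {δ : ℝ} (hδ : 0 < δ) {ξ : ℂ}
    (hξ : 2 * r ≤ ‖ξ‖) (w : ℂ) :
    ‖K5b_H a r w * ((gd δ (ξ - w) : ℝ) : ℂ)‖ ≤ δ⁻¹ * Real.exp (-(Real.pi * r ^ 2 / δ)) *
      (Metric.ball (0:ℂ) r).indicator (fun w => ‖w‖ ^ (-a.re)) w := by
  rw [norm_mul, K5b_H_norm h0, Complex.norm_real, Real.norm_of_nonneg (K5b_gd_nonneg hδ _)]
  by_cases h : ‖w‖ < r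
  · have h2 : w ∈ Metric.ball (0:ℂ) r := by simpa using h
    rw [Set.indicator_of_mem h2, mul_comm]
    gcongr
    exact K5b_gd_near hr hδ hξ h
  · have h2 : w ∉ Metric.ball (0:ℂ) r := by simpa using h
    rw [Set.indicator_of_notMem h2]
    simp

theorem K5b_H_int {a : ℂ} (h0 : 0 < a.re) (h2 : a.re < 2) {r : ℝ} (hr : 0 < r) {δ : ℝ}
    (hδ : 0 < δ) {ξ : ℂ} (hξ : 2 * r ≤ ‖ξ‖) :
    Integrable (fun w => K5b_H a r w * ((gd δ (ξ - w) : ℝ) : ℂ)) := by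
  refine ((K5b_local_int (r := r) h2).const_mul
    (δ⁻¹ * Real.exp (-(Real.pi * r ^ 2 / δ)))).mono' ?_
    (Eventually.of_forall fun w => K5b_H_le h0 hr hδ hξ w)
  refine ((K5b_H_meas a r).mul ?_).aestronglyMeasurable
  exact Complex.measurable_ofReal.comp ((K5b_gd_cont δ).measurable.comp
    (measurable_const.sub measurable_id))

theorem K5b_inner_split {a : ℂ} (h0 : 0 < a.re) (h2 : a.re < 2) {r : ℝ} (hr : 0 < r) {δ : ℝ}
    (hδ : 0 < δ) {ξ : ℂ} (hξ : 2 * r ≤ ‖ξ‖) :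
    ∫ w, cpw (2 - a) w * ((gd δ (ξ - w) : ℝ) : ℂ) =
      (∫ w, K5b_G a r w * ((gd δ (ξ - w) : ℝ) : ℂ)) +
        ∫ w, K5b_H a r w * ((gd δ (ξ - w) : ℝ) : ℂ) := by
  rw [← integral_add (K5b_G_int h0 hr hδ ξ) (K5b_H_int h0 h2 hr hδ hξ)]
  refine integral_congr_ae (Eventually.of_forall fun w => ?_)
  simp only
  rw [K5b_split a r w]
  ring

/-- mass of the powers near zero -/
def K5b_K (b r : ℝ) : ℝ := ∫ w : ℂ, (Metric.ball (0:ℂ) r).indicator (fun w => ‖w‖ ^ (-b)) w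

theorem K5b_K_nonneg (b r : ℝ) : 0 ≤ K5b_K b r := by
  unfold K5b_K
  refine integral_nonneg fun w => ?_
  exact Set.indicator_nonneg (fun w _ => by positivity) w

theorem K5b_H_bound {a : ℂ} (h0 : 0 < a.re) (h2 : a.re < 2) {r : ℝ} (hr : 0 < r) {δ : ℝ}
    (hδ : 0 < δ) {ξ : ℂ} (hξ : 2 * r ≤ ‖ξ‖) :
    ‖∫ w, K5b_H a r w * ((gd δ (ξ - w) : ℝ) : ℂ)‖ ≤
      δ⁻¹ * Real.exp (-(Real.pi * r ^ 2 / δ)) * K5b_K a.re r := by
  refine (norm_integral_le_integral_norm _).trans ?_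
  unfold K5b_K
  rw [← integral_const_mul]
  refine integral_mono (K5b_H_int h0 h2 hr hδ hξ).norm
    ((K5b_local_int (r := r) h2).const_mul _) fun w => ?_
  exact K5b_H_le h0 hr hδ hξ w

theorem K5b_Gint_bound {a : ℂ} (h0 : 0 < a.re) {r : ℝ} (hr : 0 < r) {δ : ℝ} (hδ : 0 < δ)
    (ξ : ℂ) : ‖∫ w, K5b_G a r w * ((gd δ (ξ - w) : ℝ) : ℂ)‖ ≤ r ^ (-a.re) := by
  refine (norm_integral_le_integral_norm _).trans ?_
  have h1 : ∫ w, r ^ (-a.re) * gd δ (ξ - w) = r ^ (-a.re) := by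
    rw [integral_const_mul, integral_sub_left_eq_self (gd δ) volume ξ, K5b_gd_integral hδ, mul_one]
  rw [← h1]
  refine integral_mono (K5b_G_int h0 hr hδ ξ).norm
    (((K5b_gd_integrable hδ).comp_sub_left ξ).const_mul _) fun w => ?_
  simp only
  rw [norm_mul, Complex.norm_real, Real.norm_of_nonneg (K5b_gd_nonneg hδ _)]
  exact mul_le_mul_of_nonneg_right (K5b_G_bound h0 hr w) (K5b_gd_nonneg hδ _)

theorem K5b_exp_le {A δ : ℝ} (hA : 0 < A) (_ : 0 < δ) : δ⁻¹ * Real.exp (-(A / δ)) ≤ 1 / A := by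
  have h1 : A / δ ≤ Real.exp (A / δ) := (by linarith [Real.add_one_le_exp (A / δ)])
  rw [Real.exp_neg, ← div_eq_mul_inv, div_le_div_iff₀ (Real.exp_pos _) hA]
  calc δ⁻¹ * A = A / δ := by rw [div_eq_mul_inv, mul_comm]
    _ ≤ Real.exp (A / δ) := h1
    _ = 1 * Real.exp (A / δ) := (one_mul _).symm

theorem K5b_inner_bound {a : ℂ} (h0 : 0 < a.re) (h2 : a.re < 2) {c1 : ℝ} (hc1 : 0 < c1) :
    ∃ C : ℝ, 0 ≤ C ∧ ∀ δ : ℝ, 0 < δ → ∀ ξ : ℂ, c1 ≤ ‖ξ‖ →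
      ‖∫ w, cpw (2 - a) w * ((gd δ (ξ - w) : ℝ) : ℂ)‖ ≤ C := by
  have hr : 0 < c1 / 2 := by positivity
  refine ⟨(c1 / 2) ^ (-a.re) + 1 / (Real.pi * (c1 / 2) ^ 2) * K5b_K a.re (c1 / 2), ?_, ?_⟩
  · have := K5b_K_nonneg a.re (c1 / 2)
    positivity
  · intro δ hδ ξ hξ
    have hξ' : 2 * (c1 / 2) ≤ ‖ξ‖ := by linarith
    rw [K5b_inner_split h0 h2 hr hδ hξ']
    refine (norm_add_le _ _).trans (add_le_add (K5b_Gint_bound h0 hr hδ ξ) ?_)
    refine (K5b_H_bound h0 h2 hr hδ hξ').trans ?_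
    exact mul_le_mul_of_nonneg_right (K5b_exp_le (by positivity) hδ) (K5b_K_nonneg _ _)

theorem K5b_cpw_cont {a ξ : ℂ} (hξ : ξ ≠ 0) : ContinuousAt (cpw a) ξ := by
  unfold cpw
  have h1 : ContinuousAt (fun z : ℂ => ((‖z‖ : ℝ) : ℂ)) ξ := by fun_prop
  refine ContinuousAt.cpow h1 continuousAt_const ?_
  rw [Complex.mem_slitPlane_iff]
  left
  rw [Complex.ofReal_re]
  exact norm_pos_iff.2 hξ

theorem K5b_inner_lim {a : ℂ} (h0 : 0 < a.re) (h2 : a.re < 2) {ξ : ℂ} (hξ : ξ ≠ 0) :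
    Tendsto (fun δ : ℝ => ∫ w, cpw (2 - a) w * ((gd δ (ξ - w) : ℝ) : ℂ)) (𝓝[>] 0)
      (𝓝 (cpw (2 - a) ξ)) := by
  have hn : 0 < ‖ξ‖ := norm_pos_iff.2 hξ
  set r : ℝ := ‖ξ‖ / 2 with hr'
  have hr : 0 < r := by positivity
  have hξr : 2 * r ≤ ‖ξ‖ := by rw [hr']; linarith
  have hpos : ∀ᶠ δ : ℝ in 𝓝[>] 0, 0 < δ := eventually_mem_nhdsWithin
  have hsplit : (fun δ : ℝ => ∫ w, cpw (2 - a) w * ((gd δ (ξ - w) : ℝ) : ℂ)) =ᶠ[𝓝[>] 0]
      fun δ => (∫ w, K5b_G a r w * ((gd δ (ξ - w) : ℝ) : ℂ)) +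
        ∫ w, K5b_H a r w * ((gd δ (ξ - w) : ℝ) : ℂ) := by
    filter_upwards [hpos] with δ hδ
    exact K5b_inner_split h0 h2 hr hδ hξr
  refine Tendsto.congr' hsplit.symm ?_
  rw [show cpw (2 - a) ξ = cpw (2 - a) ξ + 0 by rw [add_zero]]
  refine Tendsto.add ?_ ?_
  · -- far part
    have hG : ContinuousAt (K5b_G a r) ξ := by
      have h3 : K5b_G a r =ᶠ[𝓝 ξ] cpw (2 - a) := by
        have h4 : ∀ᶠ z : ℂ in 𝓝 ξ, r < ‖z‖ := by
          have hc : ContinuousAt (fun z : ℂ => ‖z‖) ξ := continuous_norm.continuousAt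
          exact hc.eventually (lt_mem_nhds (by rw [hr']; linarith : r < ‖ξ‖))
        filter_upwards [h4] with z hz
        unfold K5b_G
        rw [if_pos hz.le]
      exact (K5b_cpw_cont hξ).congr h3.symm
    have hGξ : K5b_G a r ξ = cpw (2 - a) ξ := by
      unfold K5b_G
      rw [if_pos (by linarith)]
    have hlim : Tendsto (fun δ : ℝ => ∫ x : ℂ, K5b_G a r (ξ - Real.sqrt δ • x) *
        ((Real.exp (-Real.pi * ‖x‖ ^ 2) : ℝ) : ℂ)) (𝓝[>] 0)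
        (𝓝 (∫ x : ℂ, K5b_G a r ξ * ((Real.exp (-Real.pi * ‖x‖ ^ 2) : ℝ) : ℂ))) := by
      refine tendsto_integral_filter_of_dominated_convergence
        (fun x : ℂ => r ^ (-a.re) * Real.exp (-Real.pi * ‖x‖ ^ 2)) ?_ ?_ ?_ ?_
      · refine Eventually.of_forall fun δ => ?_
        have hm1 : Measurable fun x : ℂ => ξ - Real.sqrt δ • x := by fun_prop
        have hm2 : Measurable fun x : ℂ => ((Real.exp (-Real.pi * ‖x‖ ^ 2) : ℝ) : ℂ) := by
          fun_prop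
        exact (((K5b_G_meas a r).comp hm1).mul hm2).aestronglyMeasurable
      · refine Eventually.of_forall fun δ => Eventually.of_forall fun x => ?_
        rw [norm_mul, Complex.norm_real, Real.norm_of_nonneg (Real.exp_nonneg _)]
        exact mul_le_mul_of_nonneg_right (K5b_G_bound h0 hr _) (Real.exp_nonneg _)
      · exact (K5b_exp_integrable Real.pi_pos).const_mul _
      · refine Eventually.of_forall fun x => ?_
        refine Tendsto.mul_const _ ?_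
        have h3 : Tendsto (fun δ : ℝ => ξ - Real.sqrt δ • x) (𝓝[>] 0) (𝓝 ξ) := by
          have h4 : Continuous fun δ : ℝ => ξ - Real.sqrt δ • x := by fun_prop
          have h5 := h4.tendsto 0
          simp only [Real.sqrt_zero, zero_smul, sub_zero] at h5
          exact h5.mono_left nhdsWithin_le_nhds
        exact hG.tendsto.comp h3
    have hval : ∫ x : ℂ, K5b_G a r ξ * ((Real.exp (-Real.pi * ‖x‖ ^ 2) : ℝ) : ℂ) =
        cpw (2 - a) ξ := by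
      rw [integral_const_mul, integral_complex_ofReal, K5b_exp_integral Real.pi_pos,
        div_self Real.pi_pos.ne', hGξ]
      simp
    rw [hval] at hlim
    refine hlim.congr' ?_
    filter_upwards [hpos] with δ hδ
    exact (K5b_scale hδ _ _).symm
  · -- near part
    rw [tendsto_zero_iff_norm_tendsto_zero]
    have hlim : Tendsto (fun δ : ℝ => δ⁻¹ * Real.exp (-(Real.pi * r ^ 2 / δ)) * K5b_K a.re r)
        (𝓝[>] 0) (𝓝 0) := by
      have hA : 0 < Real.pi * r ^ 2 := by positivity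
      have h3 := (Real.tendsto_pow_mul_exp_neg_atTop_nhds_zero 1).comp
        (tendsto_inv_nhdsGT_zero.const_mul_atTop hA)
      have h4 := (h3.const_mul (Real.pi * r ^ 2)⁻¹).mul_const (K5b_K a.re r)
      rw [mul_zero, zero_mul] at h4
      refine h4.congr fun δ => ?_
      simp only [Function.comp]
      rw [pow_one, ← mul_assoc, ← mul_assoc, inv_mul_cancel₀ hA.ne', one_mul,
        div_eq_mul_inv (Real.pi * r ^ 2) δ]
    refine squeeze_zero' (Eventually.of_forall fun δ => norm_nonneg _) ?_ hlim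
    filter_upwards [hpos] with δ hδ
    exact K5b_H_bound h0 h2 hr hδ hξr

/-! ### the outer integral -/

/-- the right-hand side of `J_formula` without the constant -/
def K5b_J (a : ℂ) (h : ℂ → ℝ) (δ : ℝ) : ℂ :=
  ∫ ξ, (h ξ : ℂ) * cpw a ξ * ∫ w, cpw (2 - a) w * ((gd δ (ξ - w) : ℝ) : ℂ)

theorem K5b_Ann_meas (c1 c2 : ℝ) : MeasurableSet (Ann c1 c2) := by
  unfold Ann
  exact (measurableSet_le measurable_const measurable_norm).inter
    (measurableSet_le measurable_norm measurable_const)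

theorem K5b_Ann_fin (c1 c2 : ℝ) : volume (Ann c1 c2) < ∞ := by
  refine lt_of_le_of_lt (measure_mono ?_) (measure_closedBall_lt_top (x := (0:ℂ)) (r := c2))
  intro z hz
  rw [mem_closedBall_zero_iff]
  exact hz.2

theorem K5b_Ann_int (c1 c2 c : ℝ) :
    Integrable (fun ξ : ℂ => (Ann c1 c2).indicator (fun _ => c) ξ) := by
  rw [integrable_indicator_iff (K5b_Ann_meas c1 c2)]
  exact integrableOn_const (K5b_Ann_fin c1 c2).ne

theorem K5b_inner_meas (a : ℂ) (δ : ℝ) :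
    StronglyMeasurable fun ξ : ℂ => ∫ w, cpw (2 - a) w * ((gd δ (ξ - w) : ℝ) : ℂ) := by
  have h1 : Measurable fun q : ℂ × ℂ => cpw (2 - a) q.2 * ((gd δ (q.1 - q.2) : ℝ) : ℂ) :=
    ((cpw_meas (2 - a)).comp measurable_snd).mul (Complex.measurable_ofReal.comp
      ((K5b_gd_cont δ).measurable.comp (measurable_fst.sub measurable_snd)))
  exact h1.stronglyMeasurable.integral_prod_right'

theorem K5b_dom {a : ℂ} (h0 : 0 < a.re) (h2 : a.re < 2) {c1 c2 : ℝ} (hc1 : 0 < c1)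
    {h : ℂ → ℝ} (hh0 : ∀ ξ, 0 ≤ h ξ) (hb : ∃ C, ∀ ξ, h ξ ≤ C)
    (hs : ∀ ξ, ξ ∉ Ann c1 c2 → h ξ = 0) :
    ∃ C : ℝ, 0 ≤ C ∧ ∀ δ : ℝ, 0 < δ → ∀ ξ : ℂ,
      ‖(h ξ : ℂ) * cpw a ξ * ∫ w, cpw (2 - a) w * ((gd δ (ξ - w) : ℝ) : ℂ)‖ ≤
        (Ann c1 c2).indicator (fun _ => C) ξ := by
  obtain ⟨C1, hC1, H⟩ := K5b_inner_bound h0 h2 hc1
  obtain ⟨Ch, hCh⟩ := hb
  have hCh0 : 0 ≤ Ch := (hh0 0).trans (hCh 0)
  refine ⟨Ch * c1 ^ (a.re - 2) * C1, by positivity, ?_⟩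
  intro δ hδ ξ
  by_cases hξ : ξ ∈ Ann c1 c2
  · rw [Set.indicator_of_mem hξ, norm_mul, norm_mul, Complex.norm_real,
      Real.norm_of_nonneg (hh0 ξ), cpw_norm h2]
    have h3 : ‖ξ‖ ^ (a.re - 2) ≤ c1 ^ (a.re - 2) :=
      Real.rpow_le_rpow_of_nonpos hc1 hξ.1 (by linarith)
    have h4 := H δ hδ ξ hξ.1
    have h5 : 0 ≤ c1 ^ (a.re - 2) := by positivity
    exact mul_le_mul (mul_le_mul (hCh ξ) h3 (by positivity) hCh0) h4 (norm_nonneg _)
      (by positivity)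
  · rw [Set.indicator_of_notMem hξ, hs ξ hξ]
    simp

theorem K5b_J_lim {a : ℂ} (h0 : 0 < a.re) (h2 : a.re < 2) {c1 c2 : ℝ} (hc1 : 0 < c1)
    {h : ℂ → ℝ} (hh : Measurable h) (hh0 : ∀ ξ, 0 ≤ h ξ) (hb : ∃ C, ∀ ξ, h ξ ≤ C)
    (hs : ∀ ξ, ξ ∉ Ann c1 c2 → h ξ = 0) :
    Tendsto (K5b_J a h) (𝓝[>] 0) (𝓝 ((∫ ξ, (‖ξ‖ ^ 2)⁻¹ * h ξ : ℝ) : ℂ)) := by
  obtain ⟨C, hC, H⟩ := K5b_dom h0 h2 hc1 hh0 hb hs
  have hpos : ∀ᶠ δ : ℝ in 𝓝[>] 0, 0 < δ := eventually_mem_nhdsWithin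
  rw [← integral_complex_ofReal]
  unfold K5b_J
  refine tendsto_integral_filter_of_dominated_convergence
    (fun ξ => (Ann c1 c2).indicator (fun _ => C) ξ) ?_ ?_ (K5b_Ann_int c1 c2 C) ?_
  · refine Eventually.of_forall fun δ => ?_
    exact (((Complex.measurable_ofReal.comp hh).mul (cpw_meas a)).aestronglyMeasurable).mul
      (K5b_inner_meas a δ).aestronglyMeasurable
  · filter_upwards [hpos] with δ hδ
    exact Eventually.of_forall fun ξ => H δ hδ ξ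
  · refine Eventually.of_forall fun ξ => ?_
    by_cases hξ : ξ ∈ Ann c1 c2
    · have hn : 0 < ‖ξ‖ := lt_of_lt_of_le hc1 hξ.1
      have hne : ξ ≠ 0 := norm_pos_iff.1 hn
      have h3 := (K5b_inner_lim h0 h2 hne).const_mul ((h ξ : ℂ) * cpw a ξ)
      have h4 : (h ξ : ℂ) * cpw a ξ * cpw (2 - a) ξ = (((‖ξ‖ ^ 2)⁻¹ * h ξ : ℝ) : ℂ) := by
        unfold cpw
        have hnc : ((‖ξ‖ : ℝ) : ℂ) ≠ 0 := by exact_mod_cast hn.ne'
        rw [mul_assoc, ← Complex.cpow_add _ _ hnc]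
        have e : a - 2 + (2 - a - 2) = -((2 : ℕ) : ℂ) := by
          push_cast
          ring
        rw [e, Complex.cpow_neg, Complex.cpow_natCast]
        push_cast
        ring
      rw [h4] at h3
      exact h3
    · rw [hs ξ hξ]
      simp

theorem K5b_J_bound {a : ℂ} (h0 : 0 < a.re) (h2 : a.re < 2) {c1 c2 : ℝ} (hc1 : 0 < c1)
    {h : ℂ → ℝ} (hh0 : ∀ ξ, 0 ≤ h ξ) (hb : ∃ C, ∀ ξ, h ξ ≤ C)
    (hs : ∀ ξ, ξ ∉ Ann c1 c2 → h ξ = 0) :
    ∃ C : ℝ, 0 ≤ C ∧ ∀ δ : ℝ, 0 < δ → ‖K5b_J a h δ‖ ≤ C := by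
  obtain ⟨C, hC, H⟩ := K5b_dom h0 h2 hc1 hh0 hb hs
  refine ⟨∫ ξ : ℂ, (Ann c1 c2).indicator (fun _ => C) ξ, ?_, ?_⟩
  · exact integral_nonneg fun ξ => Set.indicator_nonneg (fun _ _ => hC) ξ
  · intro δ hδ
    unfold K5b_J
    exact norm_integral_le_of_norm_le (K5b_Ann_int c1 c2 C) (Eventually.of_forall (H δ hδ))

/-! ### the integral over `τ` -/

/-- the exponent -/
def K5b_a (m : ℕ) (β τ : ℝ) : ℂ :=
  ((1 / (m + 1 : ℝ) : ℝ) : ℂ) + I * ((β * τ / (m + 1) : ℝ) : ℂ)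

theorem K5b_a_re (m : ℕ) (β τ : ℝ) : (K5b_a m β τ).re = 1 / (m + 1 : ℝ) := by
  unfold K5b_a
  rw [Complex.add_re, Complex.ofReal_re, Complex.mul_re, Complex.I_re, Complex.I_im,
    Complex.ofReal_im]
  ring

/-- the product of the powers -/
def K5b_P (m : ℕ) (a : ℂ) (v : Fin (m + 1) → ℂ × ℂ) : ℂ :=
  ∏ i, (cpw a (v i).1 * conj (cpw a (v i).2))

/-- the real factor -/
def K5b_Phi (m : ℕ) (h : ℂ → ℝ) (δ : ℝ) (v : Fin (m + 1) → ℂ × ℂ) : ℝ :=
  gd δ (∑ i, ((v i).1 - (v i).2)) * h (v 0).1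

/-- the modulus of the product of the powers -/
def K5b_R (m : ℕ) (v : Fin (m + 1) → ℂ × ℂ) : ℝ :=
  ∏ i, (‖(v i).1‖ ^ (1 / (m + 1 : ℝ) - 2) * ‖(v i).2‖ ^ (1 / (m + 1 : ℝ) - 2))

theorem K5b_inv_lt (m : ℕ) : 0 < 1 / (m + 1 : ℝ) ∧ 1 / (m + 1 : ℝ) < 2 := by
  have h1 : (0:ℝ) < m + 1 := by positivity
  refine ⟨by positivity, ?_⟩
  rw [div_lt_iff₀ h1]
  have : (0:ℝ) ≤ m := Nat.cast_nonneg m
  linarith

theorem K5b_P_norm (m : ℕ) {a : ℂ} (ha : a.re = 1 / (m + 1 : ℝ))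
    (v : Fin (m + 1) → ℂ × ℂ) : ‖K5b_P m a v‖ = K5b_R m v := by
  unfold K5b_P K5b_R
  rw [norm_prod]
  refine Finset.prod_congr rfl fun i _ => ?_
  have h2 : a.re < 2 := by rw [ha]; exact (K5b_inv_lt m).2
  rw [norm_mul, RCLike.norm_conj, cpw_norm h2, cpw_norm h2, ha]

theorem K5b_R_nonneg (m : ℕ) (v : Fin (m + 1) → ℂ × ℂ) : 0 ≤ K5b_R m v := by
  unfold K5b_R
  exact Finset.prod_nonneg fun i _ => by positivity

theorem K5b_P_eq (m : ℕ) (β τ : ℝ) (v : Fin (m + 1) → ℂ × ℂ)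
    (hv : ∀ i, (v i).1 ≠ 0 ∧ (v i).2 ≠ 0) :
    K5b_P m (K5b_a m β τ) v =
      ((K5b_R m v : ℝ) : ℂ) * Complex.exp (I * ((β * τ * rr (m + 1) v : ℝ) : ℂ)) := by
  have key : ∀ z : ℂ, z ≠ 0 → cpw (K5b_a m β τ) z =
      ((‖z‖ ^ (1 / (m + 1 : ℝ) - 2) : ℝ) : ℂ) *
        Complex.exp (I * ((β * τ / (m + 1) * Real.log ‖z‖ : ℝ) : ℂ)) := by
    intro z hz
    have hn : 0 < ‖z‖ := norm_pos_iff.2 hz
    have hnc : ((‖z‖ : ℝ) : ℂ) ≠ 0 := by exact_mod_cast hn.ne'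
    unfold cpw K5b_a
    rw [Complex.cpow_def_of_ne_zero hnc, ← Complex.ofReal_log hn.le,
      Real.rpow_def_of_pos hn, Complex.ofReal_exp, ← Complex.exp_add]
    congr 1
    push_cast
    ring
  have key2 : ∀ z : ℂ, z ≠ 0 → conj (cpw (K5b_a m β τ) z) =
      ((‖z‖ ^ (1 / (m + 1 : ℝ) - 2) : ℝ) : ℂ) *
        Complex.exp (I * ((-(β * τ / (m + 1) * Real.log ‖z‖) : ℝ) : ℂ)) := by
    intro z hz
    rw [key z hz, map_mul, Complex.conj_ofReal, ← Complex.exp_conj, map_mul, Complex.conj_I,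
      Complex.conj_ofReal]
    congr 2
    push_cast
    ring
  unfold K5b_P K5b_R
  rw [Complex.ofReal_prod]
  have h1 : Complex.exp (I * ((β * τ * rr (m + 1) v : ℝ) : ℂ)) =
      ∏ i, Complex.exp (I * ((β * τ / (m + 1) *
        (Real.log ‖(v i).1‖ - Real.log ‖(v i).2‖) : ℝ) : ℂ)) := by
    rw [← Complex.exp_sum]
    congr 1
    rw [← Finset.mul_sum, ← Complex.ofReal_sum, ← Finset.mul_sum]
    congr 2
    unfold rr
    push_cast
    ring
  rw [h1, ← Finset.prod_mul_distrib]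
  refine Finset.prod_congr rfl fun i _ => ?_
  rw [key _ (hv i).1, key2 _ (hv i).2]
  have e : β * τ / (m + 1) * (Real.log ‖(v i).1‖ - Real.log ‖(v i).2‖) =
      β * τ / (m + 1) * Real.log ‖(v i).1‖ + -(β * τ / (m + 1) * Real.log ‖(v i).2‖) := by ring
  rw [mul_mul_mul_comm, ← Complex.exp_add, ← mul_add, ← Complex.ofReal_add,
    ← Complex.ofReal_mul, e]

theorem K5b_P_zero (m : ℕ) (β : ℝ) (v : Fin (m + 1) → ℂ × ℂ) :
    K5b_P m (K5b_a m β 0) v = ((K5b_R m v : ℝ) : ℂ) := by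
  have e : K5b_a m β 0 = ((1 / (m + 1 : ℝ) : ℝ) : ℂ) := by
    unfold K5b_a
    simp
  unfold K5b_P K5b_R
  rw [e, Complex.ofReal_prod]
  refine Finset.prod_congr rfl fun i _ => ?_
  rw [cpw_real, cpw_real, Complex.conj_ofReal, Complex.ofReal_mul]

theorem K5b_ae (m : ℕ) :
    ∀ᵐ v : Fin (m + 1) → ℂ × ℂ, ∀ i, (v i).1 ≠ 0 ∧ (v i).2 ≠ 0 := by
  rw [ae_all_iff]
  intro i
  have h0 : ∀ᵐ z : ℂ, z ≠ 0 := by simp [ae_iff]
  have h1 : ∀ᵐ p : ℂ × ℂ, p.1 ≠ 0 ∧ p.2 ≠ 0 := by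
    have h2 : ∀ᵐ p : ℂ × ℂ, p.1 ≠ 0 := Measure.quasiMeasurePreserving_fst.ae h0
    have h3 : ∀ᵐ p : ℂ × ℂ, p.2 ≠ 0 := Measure.quasiMeasurePreserving_snd.ae h0
    filter_upwards [h2, h3] with p hp2 hp3
    exact ⟨hp2, hp3⟩
  exact (Measure.tendsto_eval_ae_ae (μ := fun _ : Fin (m + 1) => (volume : Measure (ℂ × ℂ)))
    (i := i)).eventually h1

theorem K5b_R_meas (m : ℕ) : Measurable (K5b_R m) := by
  unfold K5b_R
  fun_prop

theorem K5b_Phi_meas (m : ℕ) {h : ℂ → ℝ} (hh : Measurable h) (δ : ℝ) :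
    Measurable (K5b_Phi m h δ) := by
  unfold K5b_Phi
  refine Measurable.mul ?_ ?_
  · exact (K5b_gd_cont δ).measurable.comp (by fun_prop)
  · exact hh.comp (by fun_prop)

theorem K5b_Phi_nonneg (m : ℕ) {h : ℂ → ℝ} (hh0 : ∀ ξ, 0 ≤ h ξ) {δ : ℝ} (hδ : 0 < δ)
    (v : Fin (m + 1) → ℂ × ℂ) : 0 ≤ K5b_Phi m h δ v :=
  mul_nonneg (K5b_gd_nonneg hδ _) (hh0 _)

theorem K5b_P_meas (m : ℕ) (β : ℝ) :
    Measurable fun q : (Fin (m + 1) → ℂ × ℂ) × ℝ => K5b_P m (K5b_a m β q.2) q.1 := by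
  unfold K5b_P
  refine Finset.measurable_prod _ fun i _ => ?_
  have ha : Measurable fun q : (Fin (m + 1) → ℂ × ℂ) × ℝ => K5b_a m β q.2 := by
    unfold K5b_a
    fun_prop
  have h1 : Measurable fun q : (Fin (m + 1) → ℂ × ℂ) × ℝ => cpw (K5b_a m β q.2) (q.1 i).1 := by
    unfold cpw
    exact Measurable.pow (by fun_prop) (ha.sub_const 2)
  have h2 : Measurable fun q : (Fin (m + 1) → ℂ × ℂ) × ℝ => cpw (K5b_a m β q.2) (q.1 i).2 := by
    unfold cpw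
    exact Measurable.pow (by fun_prop) (ha.sub_const 2)
  exact h1.mul (Complex.continuous_conj.measurable.comp h2)

/-- the factor in `τ` -/
def K5b_w (β : ℝ) (W : ℝ → ℝ) (τ : ℝ) : ℂ := (W τ : ℂ) * (1 + I * ((β * τ : ℝ) : ℂ))

theorem K5b_w_norm {β : ℝ} {W : ℝ → ℝ} (hW : Adm β W) (τ : ℝ) :
    ‖K5b_w β W τ‖ ≤ (1 + β ^ 2 * τ ^ 2) * W τ := by
  unfold K5b_w
  rw [norm_mul, Complex.norm_real, Real.norm_of_nonneg (hW.nonneg τ), mul_comm]
  refine mul_le_mul_of_nonneg_right ?_ (hW.nonneg τ)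
  have h1 : ‖(1 : ℂ) + I * ((β * τ : ℝ) : ℂ)‖ ^ 2 = 1 + (β * τ) ^ 2 := by
    rw [Complex.sq_norm, Complex.normSq_apply, Complex.add_re, Complex.add_im, Complex.one_re,
      Complex.one_im, Complex.mul_re, Complex.mul_im, Complex.I_re, Complex.I_im,
      Complex.ofReal_re, Complex.ofReal_im]
    ring
  have h2 : 0 ≤ ‖(1 : ℂ) + I * ((β * τ : ℝ) : ℂ)‖ := norm_nonneg _
  have h3 : 0 ≤ (β * τ) ^ 2 := sq_nonneg _
  have h4 : (1 + β ^ 2 * τ ^ 2) = 1 + (β * τ) ^ 2 := by ring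
  rw [h4]
  nlinarith

theorem K5b_w_meas (β : ℝ) {W : ℝ → ℝ} (hW : Continuous W) : Measurable (K5b_w β W) := by
  unfold K5b_w
  exact (Complex.measurable_ofReal.comp hW.measurable).mul (by fun_prop)

/-- the kernel on the product space -/
def K5b_Kf (m : ℕ) (β : ℝ) (W : ℝ → ℝ) (h : ℂ → ℝ) (δ : ℝ)
    (q : (Fin (m + 1) → ℂ × ℂ) × ℝ) : ℂ :=
  K5b_w β W q.2 * (K5b_P m (K5b_a m β q.2) q.1 * ((K5b_Phi m h δ q.1 : ℝ) : ℂ))

section Main

variable {m : ℕ} (hm : 1 ≤ m) {β : ℝ} (hβ : 0 < β) {W : ℝ → ℝ} (hW : Adm β W) {c1 c2 : ℝ}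
  (hc1 : 0 < c1) {h : ℂ → ℝ} (hh : Measurable h) (hh0 : ∀ ξ, 0 ≤ h ξ) (hb : ∃ C, ∀ ξ, h ξ ≤ C)
  (hs : ∀ ξ, ξ ∉ Ann c1 c2 → h ξ = 0)

include hm hc1 hh hh0 hb hs in
theorem K5b_Jf {δ : ℝ} (hδ : 0 < δ) (β τ : ℝ) :
    Integrable (fun v => K5b_P m (K5b_a m β τ) v * ((K5b_Phi m h δ v : ℝ) : ℂ)) ∧
    ∫ v, K5b_P m (K5b_a m β τ) v * ((K5b_Phi m h δ v : ℝ) : ℂ) =
      ((‖Gx (K5b_a m β τ)‖ ^ (2 * (m + 1)) / Real.pi ^ 2 : ℝ) : ℂ) *
        K5b_J (K5b_a m β τ) h δ :=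
  J_formula m hm δ hδ (β * τ / (m + 1)) c1 c2 hc1 h hh hh0 hb hs (K5b_a m β τ) rfl

include hm hc1 hh hh0 hb hs in
theorem K5b_RPhi_int {δ : ℝ} (hδ : 0 < δ) :
    Integrable (fun v => K5b_R m v * K5b_Phi m h δ v) := by
  have h1 := (K5b_Jf hm hc1 hh hh0 hb hs hδ 0 0).1.norm
  refine h1.congr (Eventually.of_forall fun v => ?_)
  simp only
  rw [norm_mul, K5b_P_norm m (K5b_a_re m 0 0), Complex.norm_real,
    Real.norm_of_nonneg (K5b_Phi_nonneg m hh0 hδ v)]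

include hm hc1 hh hh0 hb hs in
theorem K5b_RPhi_bound : ∃ C : ℝ, 0 ≤ C ∧ ∀ δ : ℝ, 0 < δ →
    ∫ v, K5b_R m v * K5b_Phi m h δ v ≤ C := by
  have hre := K5b_a_re m 0 0
  have hlt := K5b_inv_lt m
  obtain ⟨C, hC, H⟩ := K5b_J_bound (a := K5b_a m 0 0) (by rw [hre]; exact hlt.1)
    (by rw [hre]; exact hlt.2) hc1 hh0 hb hs
  refine ⟨‖Gx (K5b_a m 0 0)‖ ^ (2 * (m + 1)) / Real.pi ^ 2 * C, by positivity, ?_⟩
  intro δ hδ
  have h1 := (K5b_Jf hm hc1 hh hh0 hb hs hδ 0 0).2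
  have h2 : ∫ v, K5b_P m (K5b_a m 0 0) v * ((K5b_Phi m h δ v : ℝ) : ℂ) =
      ((∫ v, K5b_R m v * K5b_Phi m h δ v : ℝ) : ℂ) := by
    rw [← integral_complex_ofReal]
    refine integral_congr_ae (Eventually.of_forall fun v => ?_)
    simp only
    rw [K5b_P_zero, Complex.ofReal_mul]
  rw [h2] at h1
  have h3 := congrArg norm h1
  rw [Complex.norm_real, norm_mul, Complex.norm_real, Real.norm_of_nonneg (by positivity :
    0 ≤ ‖Gx (K5b_a m 0 0)‖ ^ (2 * (m + 1)) / Real.pi ^ 2)] at h3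
  refine (le_abs_self _).trans ?_
  rw [← Real.norm_eq_abs, h3]
  exact mul_le_mul_of_nonneg_left (H δ hδ) (by positivity)

include hm hW hc1 hh hh0 hb hs in
theorem K5b_Kf_int {δ : ℝ} (hδ : 0 < δ) :
    Integrable (K5b_Kf m β W h δ) (volume.prod volume) := by
  have h1 := (K5b_RPhi_int hm hc1 hh hh0 hb hs hδ).mul_prod hW.int
  refine h1.mono' ?_ (Eventually.of_forall fun q => ?_)
  · unfold K5b_Kf
    exact (((K5b_w_meas β hW.cont).comp measurable_snd).mul ((K5b_P_meas m β).mul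
      (Complex.measurable_ofReal.comp ((K5b_Phi_meas m hh δ).comp
        measurable_fst)))).aestronglyMeasurable
  · unfold K5b_Kf
    rw [norm_mul, norm_mul, K5b_P_norm m (K5b_a_re m β q.2), Complex.norm_real,
      Real.norm_of_nonneg (K5b_Phi_nonneg m hh0 hδ q.1), mul_comm]
    exact mul_le_mul_of_nonneg_left (K5b_w_norm hW q.2)
      (mul_nonneg (K5b_R_nonneg m _) (K5b_Phi_nonneg m hh0 hδ _))

/-- the integral in `τ` for fixed `v` -/
theorem K5b_Aw (hW : Adm β W) (r : ℝ) :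
    (∫ τ, K5b_w β W τ * Complex.exp (I * ((β * τ * r : ℝ) : ℂ))).re = Aw β W r := by
  have hi : Integrable fun τ => K5b_w β W τ * Complex.exp (I * ((β * τ * r : ℝ) : ℂ)) := by
    refine hW.int.mono' ?_ (Eventually.of_forall fun τ => ?_)
    · exact ((K5b_w_meas β hW.cont).mul (by fun_prop)).aestronglyMeasurable
    · rw [norm_mul, mul_comm I, Complex.norm_exp_ofReal_mul_I, mul_one]
      exact K5b_w_norm hW τ
  have h1 := integral_re hi
  have h2 : (∫ τ, K5b_w β W τ * Complex.exp (I * ((β * τ * r : ℝ) : ℂ))).re =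
      ∫ τ, (K5b_w β W τ * Complex.exp (I * ((β * τ * r : ℝ) : ℂ))).re := h1.symm
  rw [h2]
  unfold Aw
  refine integral_congr_ae (Eventually.of_forall fun τ => ?_)
  simp only
  unfold K5b_w
  rw [mul_comm I (((β * τ * r : ℝ) : ℂ)), Complex.exp_mul_I, ← Complex.ofReal_cos,
    ← Complex.ofReal_sin, mul_assoc, Complex.re_ofReal_mul]
  congr 1
  rw [Complex.mul_re, Complex.add_re, Complex.add_im, Complex.add_re, Complex.add_im,
    Complex.one_re, Complex.one_im, Complex.mul_re, Complex.mul_im, Complex.mul_re,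
    Complex.mul_im, Complex.I_re, Complex.I_im, Complex.ofReal_re, Complex.ofReal_im,
    Complex.ofReal_re, Complex.ofReal_im, Complex.ofReal_re, Complex.ofReal_im]
  ring

include hm hW hc1 hh hh0 hb hs in
/-- step 2: Fubini -/
theorem K5b_fubini {δ : ℝ} (hδ : 0 < δ) :
    ∫ v, K5b_R m v * Aw β W (rr (m + 1) v) * K5b_Phi m h δ v =
      ∫ τ, (K5b_w β W τ * ∫ v, K5b_P m (K5b_a m β τ) v * ((K5b_Phi m h δ v : ℝ) : ℂ)).re := by
  have hK := K5b_Kf_int hm hW hc1 hh hh0 hb hs hδ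
  have h1 : ∫ v, K5b_R m v * Aw β W (rr (m + 1) v) * K5b_Phi m h δ v =
      ∫ v, (∫ τ, K5b_Kf m β W h δ (v, τ)).re := by
    refine integral_congr_ae ?_
    filter_upwards [K5b_ae m] with v hv
    have h2 : ∫ τ, K5b_Kf m β W h δ (v, τ) = ((K5b_R m v * K5b_Phi m h δ v : ℝ) : ℂ) *
        ∫ τ, K5b_w β W τ * Complex.exp (I * ((β * τ * rr (m + 1) v : ℝ) : ℂ)) := by
      rw [← integral_const_mul]
      refine integral_congr_ae (Eventually.of_forall fun τ => ?_)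
      simp only [K5b_Kf]
      rw [K5b_P_eq m β τ v hv, Complex.ofReal_mul (K5b_R m v)]
      ring
    rw [h2, Complex.re_ofReal_mul, K5b_Aw hW]
    ring
  have h3 : ∫ v, (∫ τ, K5b_Kf m β W h δ (v, τ)).re = (∫ v, ∫ τ, K5b_Kf m β W h δ (v, τ)).re :=
    integral_re hK.integral_prod_left
  have h4 : ∫ v, ∫ τ, K5b_Kf m β W h δ (v, τ) = ∫ τ, ∫ v, K5b_Kf m β W h δ (v, τ) :=
    integral_integral_swap (f := fun v τ => K5b_Kf m β W h δ (v, τ)) hK
  have h5 : (∫ τ, ∫ v, K5b_Kf m β W h δ (v, τ)).re = ∫ τ, (∫ v, K5b_Kf m β W h δ (v, τ)).re :=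
    (integral_re hK.integral_prod_right).symm
  rw [h1, h3, h4, h5]
  refine integral_congr_ae (Eventually.of_forall fun τ => ?_)
  simp only [K5b_Kf]
  rw [integral_const_mul]

include hm hβ hW hc1 hh hh0 hb hs in
/-- step 1: from `lintegral` to the Bochner integral -/
theorem K5b_lint {δ : ℝ} (hδ : 0 < δ) :
    ∫⁻ v : Fin (m + 1) → ℂ × ℂ,
        (∏ i, (om (m + 1) (v i).1 * om (m + 1) (v i).2)) *
        ENNReal.ofReal (Aw β W (rr (m + 1) v)) * ENNReal.ofReal (gd δ (∑ i, ((v i).1 - (v i).2))) *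
        ENNReal.ofReal (h (v 0).1) =
      ENNReal.ofReal (∫ v, K5b_R m v * Aw β W (rr (m + 1) v) * K5b_Phi m h δ v) := by
  obtain ⟨-, hA0, -, -, hAc, -, CA, hCA⟩ := Wh_ptw β hβ W hW
  have hrr : Measurable fun v : Fin (m + 1) → ℂ × ℂ => rr (m + 1) v := by
    unfold rr
    fun_prop
  have hCA0 : 0 ≤ CA := (hA0 0).trans (hCA 0)
  have hi : Integrable fun v => K5b_R m v * Aw β W (rr (m + 1) v) * K5b_Phi m h δ v := by
    refine ((K5b_RPhi_int hm hc1 hh hh0 hb hs hδ).const_mul CA).mono' ?_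
      (Eventually.of_forall fun v => ?_)
    · exact (((K5b_R_meas m).mul (hAc.measurable.comp hrr)).mul
        (K5b_Phi_meas m hh δ)).aestronglyMeasurable
    · rw [norm_mul, norm_mul, Real.norm_of_nonneg (K5b_R_nonneg m v), Real.norm_of_nonneg (hA0 _),
        Real.norm_of_nonneg (K5b_Phi_nonneg m hh0 hδ v)]
      have h1 := hCA (rr (m + 1) v)
      have h2 := K5b_R_nonneg m v
      have h3 := K5b_Phi_nonneg m hh0 hδ v
      calc K5b_R m v * Aw β W (rr (m + 1) v) * K5b_Phi m h δ v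
          ≤ K5b_R m v * CA * K5b_Phi m h δ v := by gcongr
        _ = CA * (K5b_R m v * K5b_Phi m h δ v) := by ring
  rw [ofReal_integral_eq_lintegral_ofReal hi (Eventually.of_forall fun v =>
    mul_nonneg (mul_nonneg (K5b_R_nonneg m v) (hA0 _)) (K5b_Phi_nonneg m hh0 hδ v))]
  refine lintegral_congr fun v => ?_
  have e1 : ∏ i, (om (m + 1) (v i).1 * om (m + 1) (v i).2) = ENNReal.ofReal (K5b_R m v) := by
    unfold K5b_R om
    rw [ENNReal.ofReal_prod_of_nonneg (fun i _ => by positivity)]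
    refine Finset.prod_congr rfl fun i _ => ?_
    rw [ENNReal.ofReal_mul (by positivity)]
    push_cast
    rfl
  rw [e1]
  unfold K5b_Phi
  rw [ENNReal.ofReal_mul (mul_nonneg (K5b_R_nonneg m v) (hA0 _)),
    ENNReal.ofReal_mul (K5b_R_nonneg m v), ENNReal.ofReal_mul (K5b_gd_nonneg hδ _), mul_assoc]

end Main

theorem limit_eval (m : ℕ) (hm : 1 ≤ m) (β : ℝ) (hβ : 0 < β) (W : ℝ → ℝ) (hW : Adm β W)
    (c1 c2 : ℝ) (hc1 : 0 < c1) (h : ℂ → ℝ) (hh : Measurable h) (hh0 : ∀ ξ, 0 ≤ h ξ)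
    (hb : ∃ C, ∀ ξ, h ξ ≤ C) (hs : ∀ ξ, ξ ∉ Ann c1 c2 → h ξ = 0) :
    Tendsto (fun δ : ℝ => ∫⁻ v : Fin (m + 1) → ℂ × ℂ,
        (∏ i, (om (m + 1) (v i).1 * om (m + 1) (v i).2)) *
        ENNReal.ofReal (Aw β W (rr (m + 1) v)) * ENNReal.ofReal (gd δ (∑ i, ((v i).1 - (v i).2))) *
        ENNReal.ofReal (h (v 0).1)) (𝓝[>] 0)
      (𝓝 (ENNReal.ofReal (∫ τ, W τ * ‖Gx (((1 / (m + 1 : ℝ) : ℝ) : ℂ) +
          I * ((β * τ / (m + 1) : ℝ) : ℂ))‖ ^ (2 * (m + 1)) / Real.pi ^ 2) *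
        ∫⁻ ξ, ENNReal.ofReal ((‖ξ‖ ^ 2)⁻¹ * h ξ))) := by
  have hpos : ∀ᶠ δ : ℝ in 𝓝[>] 0, 0 < δ := eventually_mem_nhdsWithin
  have hlt := K5b_inv_lt m
  set S : ℝ := ∫ ξ, (‖ξ‖ ^ 2)⁻¹ * h ξ with hS
  -- the weighted integral of `h`
  have hSint : Integrable fun ξ : ℂ => (‖ξ‖ ^ 2)⁻¹ * h ξ := by
    obtain ⟨Ch, hCh⟩ := hb
    have hCh0 : 0 ≤ Ch := (hh0 0).trans (hCh 0)
    refine (K5b_Ann_int c1 c2 ((c1 ^ 2)⁻¹ * Ch)).mono' ?_ (Eventually.of_forall fun ξ => ?_)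
    · have hm2 : Measurable fun ξ : ℂ => (‖ξ‖ ^ 2)⁻¹ := by fun_prop
      exact (hm2.mul hh).aestronglyMeasurable
    · by_cases hξ : ξ ∈ Ann c1 c2
      · rw [Set.indicator_of_mem hξ, Real.norm_of_nonneg (mul_nonneg (by positivity) (hh0 ξ))]
        have h1 : c1 ≤ ‖ξ‖ := hξ.1
        have h2 := hCh ξ
        have h3 := hh0 ξ
        gcongr
      · rw [Set.indicator_of_notMem hξ, hs ξ hξ]
        simp
  have hS2 : ENNReal.ofReal S = ∫⁻ ξ, ENNReal.ofReal ((‖ξ‖ ^ 2)⁻¹ * h ξ) :=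
    ofReal_integral_eq_lintegral_ofReal hSint
      (Eventually.of_forall fun ξ => mul_nonneg (by positivity) (hh0 ξ))
  obtain ⟨CR, hCR, HR⟩ := K5b_RPhi_bound hm hc1 hh hh0 hb hs
  -- convergence of the integrals over `τ`
  have hlim : Tendsto (fun δ : ℝ => ∫ τ, (K5b_w β W τ *
      ∫ v, K5b_P m (K5b_a m β τ) v * ((K5b_Phi m h δ v : ℝ) : ℂ)).re) (𝓝[>] 0)
      (𝓝 (∫ τ, W τ * ‖Gx (K5b_a m β τ)‖ ^ (2 * (m + 1)) / Real.pi ^ 2 * S)) := by
    refine tendsto_integral_filter_of_dominated_convergence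
      (fun τ => (1 + β ^ 2 * τ ^ 2) * W τ * CR) ?_ ?_ (hW.int.mul_const CR) ?_
    · filter_upwards [hpos] with δ hδ
      have h1 := (K5b_Kf_int hm hW hc1 hh hh0 hb hs hδ).integral_prod_right.aestronglyMeasurable
      have h2 : (fun τ => ∫ v, K5b_Kf m β W h δ (v, τ)) = fun τ => K5b_w β W τ *
          ∫ v, K5b_P m (K5b_a m β τ) v * ((K5b_Phi m h δ v : ℝ) : ℂ) := by
        funext τ
        simp only [K5b_Kf]
        rw [integral_const_mul]
      rw [h2] at h1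
      exact Complex.continuous_re.comp_aestronglyMeasurable h1
    · filter_upwards [hpos] with δ hδ
      refine Eventually.of_forall fun τ => ?_
      rw [Real.norm_eq_abs]
      refine (Complex.abs_re_le_norm _).trans ?_
      rw [norm_mul]
      refine mul_le_mul (K5b_w_norm hW τ) ?_ (norm_nonneg _)
        (mul_nonneg (by positivity) (hW.nonneg τ))
      refine (norm_integral_le_integral_norm _).trans ?_
      refine le_trans (le_of_eq ?_) (HR δ hδ)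
      refine integral_congr_ae (Eventually.of_forall fun v => ?_)
      simp only
      rw [norm_mul, K5b_P_norm m (K5b_a_re m β τ), Complex.norm_real,
        Real.norm_of_nonneg (K5b_Phi_nonneg m hh0 hδ v)]
    · refine Eventually.of_forall fun τ => ?_
      have hre := K5b_a_re m β τ
      have h1 := (K5b_J_lim (a := K5b_a m β τ) (by rw [hre]; exact hlt.1)
        (by rw [hre]; exact hlt.2) hc1 hh hh0 hb hs).const_mul (K5b_w β W τ *
          ((‖Gx (K5b_a m β τ)‖ ^ (2 * (m + 1)) / Real.pi ^ 2 : ℝ) : ℂ))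
      have h2 := (Complex.continuous_re.tendsto _).comp h1
      have h3 : (K5b_w β W τ * ((‖Gx (K5b_a m β τ)‖ ^ (2 * (m + 1)) / Real.pi ^ 2 : ℝ) : ℂ) *
          ((∫ ξ, (‖ξ‖ ^ 2)⁻¹ * h ξ : ℝ) : ℂ)).re =
          W τ * ‖Gx (K5b_a m β τ)‖ ^ (2 * (m + 1)) / Real.pi ^ 2 * S := by
        rw [mul_assoc, ← Complex.ofReal_mul, Complex.re_mul_ofReal]
        unfold K5b_w
        rw [Complex.re_ofReal_mul, Complex.add_re, Complex.one_re, Complex.mul_re, Complex.I_re,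
          Complex.I_im, Complex.ofReal_re, Complex.ofReal_im]
        rw [hS]
        ring
      rw [h3] at h2
      refine h2.congr' ?_
      filter_upwards [hpos] with δ hδ
      simp only [Function.comp]
      rw [(K5b_Jf hm hc1 hh hh0 hb hs hδ β τ).2, mul_assoc]
  rw [integral_mul_const] at hlim
  have hfin := (ENNReal.continuous_ofReal.tendsto _).comp hlim
  rw [ENNReal.ofReal_mul (integral_nonneg fun τ => div_nonneg
    (mul_nonneg (hW.nonneg τ) (by positivity)) (by positivity)), hS2] at hfin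
  refine hfin.congr' ?_
  filter_upwards [hpos] with δ hδ
  simp only [Function.comp]
  rw [K5b_lint hm hβ hW hc1 hh hh0 hb hs hδ, K5b_fubini hm hW hc1 hh hh0 hb hs hδ]

end Helper85.BP.P
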