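import Pool.Agent.Helper72.BAM.Fin
import Pool.Agent.Helper85.BP.Defs
import Pool.Agent.Helper85.BPM.K3
import Pool.Agent.Helper85.BPM.K4
import Pool.Agent.Helper85.BPM.K5b

/-!
MP_3dd6d4_an, all-p extension, module K6: the key lemma (assembly).
-/

set_option autoImplicit false

open MeasureTheory Complex FourierTransform Filter Topology
open scoped ENNReal NNReal ComplexConjugate

noncomputable section

namespace Helper85.BP.P

open Helper72.BA Helper85.BP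

namespace K6

lemma ch_cont (x : ℂ) : Continuous (fun ξ : ℂ => ch x ξ) := by
  unfold ch
  fun_prop

lemma ch_meas : Measurable (fun q : ℂ × ℂ => ch q.1 q.2) := by
  unfold ch
  fun_prop

/-- joint measurability of `(τ, x, y) ↦ uW ...` -/
lemma uW_meas {Y : Type*} [MeasurableSpace Y] (ν : Measure Y) (c1 c2 : ℝ)
    (U : ℂ → Y → ℂ) (Ψ : ℂ → ℝ) (hU : UD ν c1 c2 U Ψ) (β : ℝ) :
    Measurable (fun q : (ℝ × ℂ) × Y => uW U Ψ (-(I * ((β * q.1.1 : ℝ) : ℂ))) q.1.2 q.2) := by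
  unfold uW
  have h : StronglyMeasurable (Function.uncurry (fun (q : (ℝ × ℂ) × Y) (ξ : ℂ) =>
      ch q.1.2 ξ * (U ξ q.2 * Complex.exp (-(I * ((β * q.1.1 : ℝ) : ℂ)) *
        (Real.log (Ψ ξ) : ℂ))))) := by
    apply Measurable.stronglyMeasurable
    have m1 : Measurable (fun r : ((ℝ × ℂ) × Y) × ℂ => ch r.1.1.2 r.2) :=
      ch_meas.comp ((measurable_snd.comp (measurable_fst.comp measurable_fst)).prodMk measurable_snd)
    have m2 : Measurable (fun r : ((ℝ × ℂ) × Y) × ℂ => U r.2 r.1.2) :=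
      hU.meas.comp (measurable_snd.prodMk (measurable_snd.comp measurable_fst))
    have m3 : Measurable (fun r : ((ℝ × ℂ) × Y) × ℂ => Complex.exp (-(I * ((β * r.1.1.1 : ℝ) : ℂ)) *
        (Real.log (Ψ r.2) : ℂ))) := by
      have m4 : Measurable (fun r : ((ℝ × ℂ) × Y) × ℂ => r.1.1.1) :=
        measurable_fst.comp (measurable_fst.comp measurable_fst)
      have m5 : Measurable (fun r : ((ℝ × ℂ) × Y) × ℂ => Real.log (Ψ r.2)) :=
        (hU.Ψmeas.comp measurable_snd).log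
      exact Complex.measurable_exp.comp (((measurable_const.mul
        (Complex.measurable_ofReal.comp (measurable_const.mul m4))).neg).mul
        (Complex.measurable_ofReal.comp m5))
    exact m1.mul (m2.mul m3)
  exact h.integral_prod_right.measurable

lemma inner_meas {Y : Type*} [MeasurableSpace Y] (ν : Measure Y) [IsFiniteMeasure ν] (c1 c2 : ℝ)
    (U : ℂ → Y → ℂ) (Ψ : ℂ → ℝ) (hU : UD ν c1 c2 U Ψ) (β : ℝ) (k : ℕ) :
    Measurable (fun q : ℝ × ℂ => (∫⁻ y, ‖uW U Ψ (-(I * ((β * q.1 : ℝ) : ℂ))) q.2 y‖ₑ ^ 2 ∂ν) ^ k) := by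
  have h := uW_meas ν c1 c2 U Ψ hU β
  exact (h.enorm.pow_const 2).lintegral_prod_right'.pow_const k

end K6

open K6 in
theorem key_lemma {Y : Type*} [MeasurableSpace Y] (ν : Measure Y) [IsFiniteMeasure ν] (k : ℕ)
    (hk : 2 ≤ k) (β : ℝ) (hβ : 0 < β) (W : ℝ → ℝ) (hW : Adm β W) (c1 c2 : ℝ) (U : ℂ → Y → ℂ)
    (Ψ : ℂ → ℝ) (hU : UD ν c1 c2 U Ψ) :
    ∫⁻ τ : ℝ, ENNReal.ofReal (W τ) * ∫⁻ x : ℂ,
        (∫⁻ y, ‖uW U Ψ (-(I * ((β * τ : ℝ) : ℂ))) x y‖ₑ ^ 2 ∂ν) ^ k ≤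
    ENNReal.ofReal (∫ τ, W τ * ‖Gx (((1 / k : ℝ) : ℂ) + I * ((β * τ / k : ℝ) : ℂ))‖ ^ (2 * k) /
        Real.pi ^ 2) * ∫⁻ ξ in Ann c1 c2, ENNReal.ofReal ((‖ξ‖ ^ 4)⁻¹ * Ψ ξ ^ (2 * k)) := by
  obtain ⟨m, rfl⟩ : ∃ m, k = m + 1 := ⟨k - 1, by omega⟩
  have hm : 1 ≤ m := by omega
  have hpos := hU.c1pos
  obtain ⟨cl, hcl, hlow⟩ := hU.Ψlow
  obtain ⟨cu, hup⟩ := hU.Ψup
  have hΨ0 : ∀ ξ, 0 < Ψ ξ := fun ξ => lt_of_lt_of_le hcl (hlow ξ)
  have hAnnM : MeasurableSet (Ann c1 c2) := by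
    unfold Ann
    exact (measurableSet_le measurable_const measurable_norm).inter
      (measurableSet_le measurable_norm measurable_const)
  set h : ℂ → ℝ := (Ann c1 c2).indicator (fun ξ => (‖ξ‖ ^ 2)⁻¹ * Ψ ξ ^ (2 * (m + 1))) with hh
  have hhm : Measurable h :=
    (((measurable_norm.pow_const 2).inv).mul (hU.Ψmeas.pow_const _)).indicator hAnnM
  have hh0 : ∀ ξ, 0 ≤ h ξ := by
    intro ξ
    refine Set.indicator_nonneg (fun ξ _ => ?_) ξ
    have := (hΨ0 ξ).le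
    positivity
  have hhb : ∃ C, ∀ ξ, h ξ ≤ C := by
    refine ⟨(c1 ^ 2)⁻¹ * cu ^ (2 * (m + 1)), fun ξ => ?_⟩
    have hcu : 0 ≤ cu := (hΨ0 0).le.trans (hup 0)
    refine Set.indicator_apply_le' (fun hξ => ?_) (fun _ => by positivity)
    have h1 : c1 ≤ ‖ξ‖ := hξ.1
    have h2 : (‖ξ‖ ^ 2)⁻¹ ≤ (c1 ^ 2)⁻¹ := by gcongr
    have h3 : Ψ ξ ^ (2 * (m + 1)) ≤ cu ^ (2 * (m + 1)) :=
      pow_le_pow_left₀ (hΨ0 ξ).le (hup ξ) _
    exact mul_le_mul h2 h3 (pow_nonneg (hΨ0 ξ).le _) (by positivity)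
  have hhs : ∀ ξ, ξ ∉ Ann c1 c2 → h ξ = 0 := fun ξ hξ => Set.indicator_of_notMem hξ _
  have hlim := limit_eval m hm β hβ W hW c1 c2 hpos h hhm hh0 hhb hhs
  -- the two sides
  set LL : ℝ → ℝ≥0∞ := fun δ => ∫⁻ τ : ℝ, ENNReal.ofReal (W τ) *
    ∫⁻ x : ℂ, ENNReal.ofReal (Real.exp (-(Real.pi * δ * ‖x‖ ^ 2))) *
        (∫⁻ y, ‖uW U Ψ (-(I * ((β * τ : ℝ) : ℂ))) x y‖ₑ ^ 2 ∂ν) ^ (m + 1) with hLL
  set RR : ℝ → ℝ≥0∞ := fun δ => ∫⁻ v : Fin (m + 1) → ℂ × ℂ,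
        (∏ i, (om (m + 1) (v i).1 * om (m + 1) (v i).2)) *
        ENNReal.ofReal (Aw β W (rr (m + 1) v)) * ENNReal.ofReal (gd δ (∑ i, ((v i).1 - (v i).2))) *
        ENNReal.ofReal (h (v 0).1) with hRR
  have hle : ∀ δ, 0 < δ → LL δ ≤ RR δ := by
    intro δ hδ
    have e1 := expand ν (m + 1) (by omega) β hβ W hW c1 c2 U Ψ hU δ hδ
    have e2 := symm_bound m hm β hβ W hW c1 c2 hpos Ψ hU.Ψmeas hΨ0 δ hδ
    refine (e1.trans e2).trans (le_of_eq ?_)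
    refine lintegral_congr fun v => ?_
    congr 1
    rw [hh]
    by_cases hv : (v 0).1 ∈ Ann c1 c2
    · rw [Set.indicator_of_mem hv, Set.indicator_of_mem hv]
    · rw [Set.indicator_of_notMem hv, Set.indicator_of_notMem hv, ENNReal.ofReal_zero]
  -- sequence δ_n = 1/(n+1)
  set dn : ℕ → ℝ := fun n => 1 / ((n : ℝ) + 1) with hdn
  have hdn0 : ∀ n, 0 < dn n := fun n => by rw [hdn]; positivity
  have hdnlim : Tendsto dn atTop (𝓝[>] 0) :=
    tendsto_nhdsWithin_iff.mpr ⟨tendsto_one_div_add_atTop_nhds_zero_nat,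
      Eventually.of_forall fun n => hdn0 n⟩
  have hanti : Antitone dn := by
    intro a b hab
    rw [hdn]
    have : (a : ℝ) ≤ b := by exact_mod_cast hab
    exact one_div_le_one_div_of_le (by positivity) (by linarith)
  have hR := hlim.comp hdnlim
  have hmono_x : ∀ x : ℂ, Monotone (fun n => Real.exp (-(Real.pi * dn n * ‖x‖ ^ 2))) := by
    intro x a b hab
    have := hanti hab
    refine Real.exp_le_exp.mpr ?_
    have hp := Real.pi_pos
    have : Real.pi * dn b * ‖x‖ ^ 2 ≤ Real.pi * dn a * ‖x‖ ^ 2 := by gcongr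
    linarith
  have hlim_x : ∀ x : ℂ, Tendsto (fun n => Real.exp (-(Real.pi * dn n * ‖x‖ ^ 2))) atTop (𝓝 1) := by
    intro x
    have h1 : Tendsto dn atTop (𝓝 0) := tendsto_one_div_add_atTop_nhds_zero_nat
    have h2 : Tendsto (fun n => -(Real.pi * dn n * ‖x‖ ^ 2)) atTop (𝓝 (-(Real.pi * 0 * ‖x‖ ^ 2))) :=
      ((h1.const_mul Real.pi).mul_const (‖x‖ ^ 2)).neg
    have h3 := (Real.continuous_exp.tendsto _).comp h2
    simpa [Function.comp_def] using h3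
  have hQm := inner_meas ν c1 c2 U Ψ hU β (m + 1)
  set Q : ℝ × ℂ → ℝ≥0∞ := fun q =>
    (∫⁻ y, ‖uW U Ψ (-(I * ((β * q.1 : ℝ) : ℂ))) q.2 y‖ₑ ^ 2 ∂ν) ^ (m + 1) with hQ
  have hin : ∀ τ : ℝ, Tendsto (fun n => ∫⁻ x : ℂ,
      ENNReal.ofReal (Real.exp (-(Real.pi * dn n * ‖x‖ ^ 2))) * Q (τ, x)) atTop
      (𝓝 (∫⁻ x : ℂ, Q (τ, x))) := by
    intro τ
    refine lintegral_tendsto_of_tendsto_of_monotone (fun n => ?_) ?_ ?_
    · refine Measurable.aemeasurable (Measurable.mul ?_ (hQm.comp (measurable_const.prodMk measurable_id)))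
      fun_prop
    · refine Eventually.of_forall fun x a b hab => ?_
      show _ * _ ≤ _ * _
      gcongr
      exact hanti hab
    · refine Eventually.of_forall fun x => ?_
      have h1 : Tendsto (fun n => ENNReal.ofReal (Real.exp (-(Real.pi * dn n * ‖x‖ ^ 2)))) atTop
          (𝓝 (ENNReal.ofReal 1)) := (ENNReal.continuous_ofReal.tendsto 1).comp (hlim_x x)
      rw [ENNReal.ofReal_one] at h1
      have h2 := ENNReal.Tendsto.mul_const (b := Q (τ, x)) h1 (Or.inl one_ne_zero)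
      rwa [one_mul] at h2
  have hmeas_in : ∀ n, Measurable (fun τ : ℝ => ∫⁻ x : ℂ,
      ENNReal.ofReal (Real.exp (-(Real.pi * dn n * ‖x‖ ^ 2))) * Q (τ, x)) := by
    intro n
    have : Measurable (fun q : ℝ × ℂ =>
        ENNReal.ofReal (Real.exp (-(Real.pi * dn n * ‖q.2‖ ^ 2))) * Q q) := by
      refine Measurable.mul ?_ hQm
      fun_prop
    exact this.lintegral_prod_right'
  have hWm : Measurable W := hW.cont.measurable
  have hLim : Tendsto (fun n => LL (dn n)) atTop (𝓝 (∫⁻ τ : ℝ, ENNReal.ofReal (W τ) *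
      ∫⁻ x : ℂ, Q (τ, x))) := by
    refine lintegral_tendsto_of_tendsto_of_monotone (fun n => ?_) ?_ ?_
    · exact (hWm.ennreal_ofReal.mul (hmeas_in n)).aemeasurable
    · refine Eventually.of_forall fun τ a b hab => ?_
      show _ * _ ≤ _ * _
      gcongr
      exact hanti hab
    · refine Eventually.of_forall fun τ => ?_
      exact ENNReal.Tendsto.const_mul (hin τ) (Or.inr ENNReal.ofReal_ne_top)
  have hfin := le_of_tendsto_of_tendsto' hLim hR (fun n => hle (dn n) (hdn0 n))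
  refine hfin.trans (le_of_eq ?_)
  have e3 : (∫⁻ ξ, ENNReal.ofReal ((‖ξ‖ ^ 2)⁻¹ * h ξ)) =
      ∫⁻ ξ in Ann c1 c2, ENNReal.ofReal ((‖ξ‖ ^ 4)⁻¹ * Ψ ξ ^ (2 * (m + 1))) := by
    rw [← lintegral_indicator hAnnM]
    refine lintegral_congr fun ξ => ?_
    rw [hh]
    by_cases hξ : ξ ∈ Ann c1 c2
    · rw [Set.indicator_of_mem hξ, Set.indicator_of_mem hξ]
      congr 1
      rw [← mul_assoc, ← mul_inv, ← pow_add]
    · rw [Set.indicator_of_notMem hξ, Set.indicator_of_notMem hξ, mul_zero, ENNReal.ofReal_zero]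
  rw [e3]
  push_cast
  rfl

end Helper85.BP.P
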