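import Pool.Agent.Helper72.BAM.NU
import Pool.Agent.Helper85.BP.Defs

/-!
MP_3dd6d4_an, all-p extension, module Za: numbers.
-/

set_option autoImplicit false

open MeasureTheory Complex FourierTransform Filter Topology
open scoped ENNReal NNReal ComplexConjugate

noncomputable section

namespace Helper85.BP.P

open Helper72.BA Helper72.BA.P Helper85.BP

namespace Za

lemma e4 : (54.598 : ℝ) < Real.exp 1 ^ 4 := by
  have h := Real.exp_one_gt_d9
  calc (54.598 : ℝ) < 2.7182818283 ^ 4 := by norm_num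
    _ ≤ Real.exp 1 ^ 4 := pow_le_pow_left₀ (by norm_num) h.le 4

lemma e12 : (162754 : ℝ) < Real.exp 1 ^ 12 := by
  have h := Real.exp_one_gt_d9
  calc (162754 : ℝ) < 2.7182818283 ^ 12 := by norm_num
    _ ≤ Real.exp 1 ^ 12 := pow_le_pow_left₀ (by norm_num) h.le 12

lemma e16 : (8886000 : ℝ) < Real.exp 1 ^ 16 := by
  have h := Real.exp_one_gt_d9
  calc (8886000 : ℝ) < 2.7182818283 ^ 16 := by norm_num
    _ ≤ Real.exp 1 ^ 16 := pow_le_pow_left₀ (by norm_num) h.le 16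

lemma eh : (1.6487 : ℝ) < Real.exp (1/2) := by
  have h := Real.exp_one_gt_d9
  have h2 : Real.exp (1/2) ^ 2 = Real.exp 1 := by
    rw [← Real.exp_nat_mul]; norm_num
  refine lt_of_pow_lt_pow_left₀ 2 (Real.exp_pos _).le ?_
  rw [h2]
  calc (1.6487 : ℝ) ^ 2 < 2.7182818283 := by norm_num
    _ < _ := h

lemma exp_a : (54.33 : ℝ) < Real.exp (16 * 0.2497) := by
  have h1 : Real.exp (16 * 0.2497) = Real.exp 1 ^ 4 * Real.exp (-0.0048) := by
    rw [← Real.exp_nat_mul, ← Real.exp_add]; norm_num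
  have h2 : (0.9952 : ℝ) ≤ Real.exp (-0.0048) := by
    have := Real.add_one_le_exp (-0.0048 : ℝ)
    linarith
  have h3 := e4
  rw [h1]
  nlinarith

lemma exp_b : (57.56 : ℝ) < Real.exp (8 * 0.5068) := by
  have h1 : Real.exp (8 * 0.5068) = Real.exp 1 ^ 4 * Real.exp 0.0544 := by
    rw [← Real.exp_nat_mul, ← Real.exp_add]; norm_num
  have h2 : (1.0544 : ℝ) ≤ Real.exp 0.0544 := by
    have := Real.add_one_le_exp (0.0544 : ℝ)
    linarith
  have h3 := e4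
  rw [h1]
  nlinarith

lemma exp_c : (267000 : ℝ) < Real.exp (16 * 0.7810) := by
  have h1 : Real.exp (16 * 0.7810) = Real.exp 1 ^ 12 * (Real.exp (1/2) * Real.exp (-0.004)) := by
    rw [← Real.exp_nat_mul, ← Real.exp_add, ← Real.exp_add]; norm_num
  have h2 : (0.996 : ℝ) ≤ Real.exp (-0.004) := by
    have := Real.add_one_le_exp (-0.004 : ℝ)
    linarith
  have h3 := e12
  have h4 := eh
  have h5 : (1.6487 : ℝ) * 0.996 ≤ Real.exp (1/2) * Real.exp (-0.004) :=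
    mul_le_mul h4.le h2 (by norm_num) (by linarith)
  rw [h1]
  calc (267000 : ℝ) < 162754 * (1.6487 * 0.996) := by norm_num
    _ ≤ _ := mul_le_mul h3.le h5 (by norm_num) (by linarith)

lemma exp_d : (8765000 : ℝ) < Real.exp (12 * 1.3322) := by
  have h1 : Real.exp (12 * 1.3322) = Real.exp 1 ^ 16 * Real.exp (-0.0136) := by
    rw [← Real.exp_nat_mul, ← Real.exp_add]; norm_num
  have h2 : (0.9864 : ℝ) ≤ Real.exp (-0.0136) := by
    have := Real.add_one_le_exp (-0.0136 : ℝ)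
    linarith
  have h3 := e16
  rw [h1]
  calc (8765000 : ℝ) < 8886000 * 0.9864 := by norm_num
    _ ≤ _ := mul_le_mul h3.le h2 (by norm_num) (by linarith)

lemma Eb_pos (θ : ℝ) (h0 : 0 < θ) (h1 : θ < 1) : 0 < Eb θ := by
  unfold Eb
  have h2 : θ ^ 2 < 1 := by nlinarith
  have a1 : 0 < 2 / (4 - θ ^ 2) := div_pos (by norm_num) (by linarith)
  have a2 : 0 < 2 / (16 - θ ^ 2) := div_pos (by norm_num) (by linarith)
  have a3 : 0 < 2 / (36 - θ ^ 2) := div_pos (by norm_num) (by linarith)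
  have a4 : (0:ℝ) < 1 / 7 := by norm_num
  linarith

lemma rpow_pow (x a : ℝ) (hx : 0 ≤ x) (m : ℕ) : (x ^ a) ^ m = x ^ (a * m) := by
  rw [← Real.rpow_natCast, ← Real.rpow_mul hx]

end Za

open Za

theorem C24_pos (θ : ℝ) (h0 : 0 < θ) (h1 : θ < 1) : 0 < C24 θ := by
  unfold C24
  have hA := Helper72.BA.Ak_pos 2 (by norm_num)
  have hE := Eb_pos θ h0 h1
  have h2 : 0 < (2 + θ) / (2 - θ) := div_pos (by linarith) (by linarith)
  positivity

theorem C46_pos : 0 < C46 := by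
  unfold C46
  have hA := Helper72.BA.Ak_pos 2 (by norm_num)
  have hB := Helper72.BA.Ak_pos 3 (by norm_num)
  positivity

theorem C24_a : C24 (1/4) < Real.exp 0.2497 := by
  have hA := Helper72.BA.Ak_pos 2 (by norm_num)
  have hA2 := Helper72.BA.Ak2_lt
  have hE := Eb_pos (1/4) (by norm_num) (by norm_num)
  have hpos := (C24_pos (1/4) (by norm_num) (by norm_num)).le
  refine lt_of_pow_lt_pow_left₀ 16 (Real.exp_pos _).le ?_
  have e1 : Real.exp 0.2497 ^ 16 = Real.exp (16 * 0.2497) := by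
    rw [← Real.exp_nat_mul]; norm_num
  have e2 : C24 (1/4) ^ 16 = (9/7 : ℝ) ^ 8 * (Ak 2 / 3) ^ 4 * (1 + 8 * Eb (1/4)) := by
    unfold C24
    rw [mul_pow, mul_pow, rpow_pow _ _ (by norm_num), rpow_pow _ _ (by positivity),
      rpow_pow _ _ (by positivity)]
    rw [show ((1/2 : ℝ) * ((16 : ℕ) : ℝ)) = ((8 : ℕ) : ℝ) by norm_num,
      show ((1/4 : ℝ) * ((16 : ℕ) : ℝ)) = ((4 : ℕ) : ℝ) by norm_num,
      show ((1/4 / 4 : ℝ) * ((16 : ℕ) : ℝ)) = 1 by norm_num, Real.rpow_one,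
      Real.rpow_natCast, Real.rpow_natCast]
    norm_num
  rw [e1, e2]
  have h3 : (Ak 2 / 3) ^ 4 ≤ (2.95870 / 3 : ℝ) ^ 4 := by gcongr
  have h4 : (1 + 8 * Eb (1/4)) ≤ 7.6556 := by
    unfold Eb; norm_num
  calc (9/7 : ℝ) ^ 8 * (Ak 2 / 3) ^ 4 * (1 + 8 * Eb (1/4))
      ≤ (9/7 : ℝ) ^ 8 * (2.95870 / 3 : ℝ) ^ 4 * 7.6556 := by gcongr
    _ < 54.33 := by norm_num
    _ < _ := exp_a

theorem C24_b : C24 (1/2) < Real.exp 0.5068 := by
  have hA := Helper72.BA.Ak_pos 2 (by norm_num)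
  have hA2 := Helper72.BA.Ak2_lt
  have hE := Eb_pos (1/2) (by norm_num) (by norm_num)
  refine lt_of_pow_lt_pow_left₀ 8 (Real.exp_pos _).le ?_
  have e1 : Real.exp 0.5068 ^ 8 = Real.exp (8 * 0.5068) := by
    rw [← Real.exp_nat_mul]; norm_num
  have e2 : C24 (1/2) ^ 8 = (5/3 : ℝ) ^ 4 * (Ak 2 / 3) ^ 4 * (1 + 8 * Eb (1/2)) := by
    unfold C24
    rw [mul_pow, mul_pow, rpow_pow _ _ (by norm_num), rpow_pow _ _ (by positivity),
      rpow_pow _ _ (by positivity)]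
    rw [show ((1/2 : ℝ) * ((8 : ℕ) : ℝ)) = ((4 : ℕ) : ℝ) by norm_num,
      show ((1/2 / 4 : ℝ) * ((8 : ℕ) : ℝ)) = 1 by norm_num, Real.rpow_one,
      Real.rpow_natCast, Real.rpow_natCast]
    norm_num
  rw [e1, e2]
  have h3 : (Ak 2 / 3) ^ 4 ≤ (2.95870 / 3 : ℝ) ^ 4 := by gcongr
  have h4 : (1 + 8 * Eb (1/2)) ≤ 7.873 := by
    unfold Eb; norm_num
  calc (5/3 : ℝ) ^ 4 * (Ak 2 / 3) ^ 4 * (1 + 8 * Eb (1/2))
      ≤ (5/3 : ℝ) ^ 4 * (2.95870 / 3 : ℝ) ^ 4 * 7.873 := by gcongr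
    _ < 57.56 := by norm_num
    _ < _ := exp_b

theorem C24_c : C24 (3/4) < Real.exp 0.7810 := by
  have hA := Helper72.BA.Ak_pos 2 (by norm_num)
  have hA2 := Helper72.BA.Ak2_lt
  have hE := Eb_pos (3/4) (by norm_num) (by norm_num)
  refine lt_of_pow_lt_pow_left₀ 16 (Real.exp_pos _).le ?_
  have e1 : Real.exp 0.7810 ^ 16 = Real.exp (16 * 0.7810) := by
    rw [← Real.exp_nat_mul]; norm_num
  have e2 : C24 (3/4) ^ 16 = (11/5 : ℝ) ^ 8 * (Ak 2 / 3) ^ 12 * (1 + 8 * Eb (3/4)) ^ 3 := by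
    unfold C24
    rw [mul_pow, mul_pow, rpow_pow _ _ (by norm_num), rpow_pow _ _ (by positivity),
      rpow_pow _ _ (by positivity)]
    rw [show ((1/2 : ℝ) * ((16 : ℕ) : ℝ)) = ((8 : ℕ) : ℝ) by norm_num,
      show ((3/4 : ℝ) * ((16 : ℕ) : ℝ)) = ((12 : ℕ) : ℝ) by norm_num,
      show ((3/4 / 4 : ℝ) * ((16 : ℕ) : ℝ)) = ((3 : ℕ) : ℝ) by norm_num,
      Real.rpow_natCast, Real.rpow_natCast, Real.rpow_natCast]
    norm_num
  rw [e1, e2]
  have h3 : (Ak 2 / 3) ^ 12 ≤ (2.95870 / 3 : ℝ) ^ 12 := by gcongr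
  have h4 : (1 + 8 * Eb (3/4)) ≤ 8.2854 := by
    unfold Eb; norm_num
  calc (11/5 : ℝ) ^ 8 * (Ak 2 / 3) ^ 12 * (1 + 8 * Eb (3/4)) ^ 3
      ≤ (11/5 : ℝ) ^ 8 * (2.95870 / 3 : ℝ) ^ 12 * 8.2854 ^ 3 := by gcongr
    _ < 267000 := by norm_num
    _ < _ := exp_c

theorem C46_lt : C46 < Real.exp 1.3322 := by
  have hA := Helper72.BA.Ak_pos 2 (by norm_num)
  have hA2 := Helper72.BA.Ak2_lt
  have hB := Helper72.BA.Ak_pos 3 (by norm_num)
  have hB2 := Helper72.BA.Ak3_lt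
  refine lt_of_pow_lt_pow_left₀ 12 (Real.exp_pos _).le ?_
  have e1 : Real.exp 1.3322 ^ 12 = Real.exp (12 * 1.3322) := by
    rw [← Real.exp_nat_mul]; norm_num
  have e2 : C46 ^ 12 = (Ak 2) ^ 6 * (Ak 3) ^ 6 * (29/32 : ℝ) := by
    unfold C46
    rw [mul_pow, mul_pow, rpow_pow _ _ hA.le, rpow_pow _ _ hB.le, rpow_pow _ _ (by norm_num)]
    rw [show ((1/2 : ℝ) * ((12 : ℕ) : ℝ)) = ((6 : ℕ) : ℝ) by norm_num,
      show ((1/12 : ℝ) * ((12 : ℕ) : ℝ)) = 1 by norm_num, Real.rpow_one,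
      Real.rpow_natCast, Real.rpow_natCast]
  rw [e1, e2]
  calc (Ak 2) ^ 6 * (Ak 3) ^ 6 * (29/32 : ℝ)
      ≤ (2.95870 : ℝ) ^ 6 * 4.93130 ^ 6 * (29/32) := by gcongr
    _ < 8765000 := by norm_num
    _ < _ := exp_d

theorem Ak_exp : Ak 2 < Real.exp 1.0848 ∧ Ak 3 < Real.exp 1.5957 := by
  have he := Real.exp_one_gt_d9
  constructor
  · refine Helper72.BA.Ak2_lt.trans ?_
    have h1 : Real.exp 1.0848 = Real.exp 1 * Real.exp 0.0848 := by
      rw [← Real.exp_add]; norm_num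
    have h2 := Real.sum_le_exp_of_nonneg (show (0:ℝ) ≤ 0.0848 by norm_num) 4
    have h3 : (1.08849 : ℝ) ≤ Real.exp 0.0848 := by
      refine le_trans ?_ h2
      norm_num [Finset.sum_range_succ, Nat.factorial]
    rw [h1]
    calc (2.95870 : ℝ) < 2.7182818283 * 1.08849 := by norm_num
      _ ≤ _ := mul_le_mul he.le h3 (by norm_num) (Real.exp_pos _).le
  · refine Helper72.BA.Ak3_lt.trans ?_
    have h1 : Real.exp 1.5957 = Real.exp 1 * Real.exp 0.5957 := by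
      rw [← Real.exp_add]; norm_num
    have h2 := Real.sum_le_exp_of_nonneg (show (0:ℝ) ≤ 0.5957 by norm_num) 7
    have h3 : (1.81422 : ℝ) ≤ Real.exp 0.5957 := by
      refine le_trans ?_ h2
      norm_num [Finset.sum_range_succ, Nat.factorial]
    rw [h1]
    calc (4.93130 : ℝ) < 2.7182818283 * 1.81422 := by norm_num
      _ ≤ _ := mul_le_mul he.le h3 (by norm_num) (Real.exp_pos _).le

end Helper85.BP.P
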