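import Pool.Agent.Helper72.BAM.Fin
import Pool.Agent.Helper85.BP.Defs
import Pool.Agent.Helper85.BPM.I1
import Pool.Agent.Helper85.BPM.I2a
import Pool.Agent.Helper85.BPM.K6
import Pool.Agent.Helper85.BPM.S1
import Pool.Agent.Helper85.BPM.S2
import Pool.Agent.Helper85.BPM.W2
import Pool.Agent.Helper85.BPM.W3
import Pool.Agent.Helper85.BPM.Za

/-!
# Beurling-Ahlfors powers, all real exponents, module I3: the Pitt inequality for `p = 24/5`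
-/

set_option autoImplicit false

open MeasureTheory Complex FourierTransform Filter Topology
open scoped ENNReal NNReal ComplexConjugate

noncomputable section

namespace Helper85.BP.P

open Helper72.BA Helper85.BP

/-! ### measurability -/

theorem I3_ch_meas : Measurable (fun q : ℂ × ℂ => ch q.1 q.2) := by
  unfold ch
  fun_prop

theorem I3_prod1 {X Y : Type*} [MeasurableSpace X] [MeasurableSpace Y] (ν : Measure Y)
    [IsFiniteMeasure ν] (f : X × Y → ℂ) (hf : Measurable f) (r : ℝ) :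
    Measurable (fun x : X => (∫⁻ y, ‖f (x, y)‖ₑ ^ 2 ∂ν) ^ r) := by
  have h2' : Measurable (fun q : X × Y => ‖f q‖ₑ ^ (2 : ℕ)) :=
    Measurable.pow_const (Measurable.enorm hf) 2
  exact (Measurable.lintegral_prod_right' (ν := ν) h2').pow_const r

theorem I3_prod2 {X Y : Type*} [MeasurableSpace X] [MeasurableSpace Y] (ν : Measure Y)
    [IsFiniteMeasure ν] (f : X → ℂ → Y → ℂ)
    (hf : Measurable (fun q : (X × ℂ) × Y => f q.1.1 q.1.2 q.2)) (r : ℝ) :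
    Measurable (fun x : X => ∫⁻ z : ℂ, (∫⁻ y, ‖f x z y‖ₑ ^ 2 ∂ν) ^ r) := by
  have h := I3_prod1 ν (fun q : (X × ℂ) × Y => f q.1.1 q.1.2 q.2) hf r
  exact Measurable.lintegral_prod_right' (ν := (volume : Measure ℂ)) h

theorem I3_uW_meas {Y : Type*} [MeasurableSpace Y] (U : ℂ → Y → ℂ) (Ψ : ℂ → ℝ)
    (hU : Measurable (Function.uncurry U)) (hΨ : Measurable Ψ) (w : ℝ → ℂ) (hw : Measurable w) :
    Measurable (fun q : (ℝ × ℂ) × Y => uW U Ψ (w q.1.1) q.1.2 q.2) := by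
  have h : StronglyMeasurable (Function.uncurry (fun (q : (ℝ × ℂ) × Y) (ξ : ℂ) =>
      ch q.1.2 ξ * (U ξ q.2 * Complex.exp (w q.1.1 * (Real.log (Ψ ξ) : ℂ))))) := by
    apply Measurable.stronglyMeasurable
    apply Measurable.mul
    · exact I3_ch_meas.comp
        ((measurable_snd.comp (measurable_fst.comp measurable_fst)).prodMk measurable_snd)
    · apply Measurable.mul
      · exact hU.comp (measurable_snd.prodMk (measurable_snd.comp measurable_fst))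
      · apply Complex.measurable_exp.comp
        apply Measurable.mul
        · exact hw.comp (measurable_fst.comp (measurable_fst.comp measurable_fst))
        · exact Complex.measurable_ofReal.comp
            (Real.measurable_log.comp (hΨ.comp measurable_snd))
  exact (h.integral_prod_right).measurable

theorem I3_M_meas {Y : Type*} [MeasurableSpace Y] (ν : Measure Y) [IsFiniteMeasure ν]
    (U : ℂ → Y → ℂ) (Ψ : ℂ → ℝ)
    (hU : Measurable (Function.uncurry U)) (hΨ : Measurable Ψ) (w : ℝ → ℂ) (hw : Measurable w)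
    (r : ℝ) :
    Measurable (fun τ : ℝ => ∫⁻ x : ℂ, (∫⁻ y, ‖uW U Ψ (w τ) x y‖ₑ ^ 2 ∂ν) ^ r) :=
  I3_prod2 ν (fun τ x y => uW U Ψ (w τ) x y) (I3_uW_meas U Ψ hU hΨ w hw) r

theorem I3_uH_meas {Y : Type*} [MeasurableSpace Y] (ν : Measure Y) [IsFiniteMeasure ν]
    (U : ℂ → Y → ℂ) (hU : Measurable (Function.uncurry U)) : Measurable (uH ν U) := by
  have h : StronglyMeasurable (Function.uncurry (fun (q : ℂ × Y) (ξ : ℂ) =>
      ch q.1 ξ * U ξ q.2)) := by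
    apply Measurable.stronglyMeasurable
    apply Measurable.mul
    · exact I3_ch_meas.comp ((measurable_fst.comp measurable_fst).prodMk measurable_snd)
    · exact hU.comp (measurable_snd.prodMk (measurable_snd.comp measurable_fst))
  exact I3_prod1 ν (fun q : ℂ × Y => ∫ ξ : ℂ, ch q.1 ξ * U ξ q.2)
    (h.integral_prod_right).measurable (1 / 2)

/-! ### Jensen -/

theorem I3_jensen (W : ℝ → ℝ) (hW : Measurable W)
    (hm : ∫⁻ τ, ENNReal.ofReal (W τ) ≤ 1) (M : ℝ → ℝ≥0∞) (hM : Measurable M) (q : ℝ)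
    (hq : 1 < q) :
    ∫⁻ τ, ENNReal.ofReal (W τ) * M τ ^ (1 / q) ≤
      (∫⁻ τ, ENNReal.ofReal (W τ) * M τ) ^ (1 / q) := by
  have hq0 : 0 < q := by linarith
  have hc : (Real.conjExponent q).HolderConjugate q := (Real.HolderConjugate.conjExponent hq).symm
  have hc0 : 0 < Real.conjExponent q := hc.pos
  have hsum : 1 / Real.conjExponent q + 1 / q = 1 := by
    have := hc.inv_add_inv_eq_one
    simpa [one_div] using this
  have hmeasW : Measurable (fun τ => ENNReal.ofReal (W τ)) := hW.ennreal_ofReal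
  have key := ENNReal.lintegral_mul_le_Lp_mul_Lq volume hc
    (f := fun τ => ENNReal.ofReal (W τ) ^ (1 / Real.conjExponent q))
    (g := fun τ => (ENNReal.ofReal (W τ) * M τ) ^ (1 / q))
    (hmeasW.pow_const _).aemeasurable ((hmeasW.mul hM).pow_const _).aemeasurable
  have e1 : ∀ τ, ((fun τ => ENNReal.ofReal (W τ) ^ (1 / Real.conjExponent q)) *
      (fun τ => (ENNReal.ofReal (W τ) * M τ) ^ (1 / q))) τ =
      ENNReal.ofReal (W τ) * M τ ^ (1 / q) := by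
    intro τ
    simp only [Pi.mul_apply]
    rw [ENNReal.mul_rpow_of_nonneg _ _ (by positivity), ← mul_assoc,
      ← ENNReal.rpow_add_of_nonneg _ _ (by positivity) (by positivity), hsum, ENNReal.rpow_one]
  have e2 : ∀ τ, (ENNReal.ofReal (W τ) ^ (1 / Real.conjExponent q)) ^ Real.conjExponent q =
      ENNReal.ofReal (W τ) := by
    intro τ
    rw [← ENNReal.rpow_mul, one_div, inv_mul_cancel₀ hc0.ne', ENNReal.rpow_one]
  have e3 : ∀ τ, ((ENNReal.ofReal (W τ) * M τ) ^ (1 / q)) ^ q = ENNReal.ofReal (W τ) * M τ := by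
    intro τ
    rw [← ENNReal.rpow_mul, one_div, inv_mul_cancel₀ hq0.ne', ENNReal.rpow_one]
  simp only [e1, e2, e3] at key
  refine key.trans ?_
  calc (∫⁻ τ, ENNReal.ofReal (W τ)) ^ (1 / Real.conjExponent q) *
      (∫⁻ τ, ENNReal.ofReal (W τ) * M τ) ^ (1 / q)
      ≤ 1 * (∫⁻ τ, ENNReal.ofReal (W τ) * M τ) ^ (1 / q) := by
        gcongr
        exact (ENNReal.rpow_le_rpow hm (by positivity)).trans (by rw [ENNReal.one_rpow])
    _ = _ := one_mul _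

/-! ### rescaling the data -/

theorem I3_log_bdd {Ψ : ℂ → ℝ} (hl : ∃ c : ℝ, 0 < c ∧ ∀ ξ, c ≤ Ψ ξ) (hu : ∃ C : ℝ, ∀ ξ, Ψ ξ ≤ C) :
    ∃ B : ℝ, ∀ ξ, |Real.log (Ψ ξ)| ≤ B := by
  obtain ⟨c, hc, hc'⟩ := hl
  obtain ⟨C, hC⟩ := hu
  refine ⟨max |Real.log c| |Real.log C|, fun ξ => ?_⟩
  have h1 : Real.log c ≤ Real.log (Ψ ξ) := Real.log_le_log hc (hc' ξ)
  have h2 : Real.log (Ψ ξ) ≤ Real.log C := Real.log_le_log (hc.trans_le (hc' ξ)) (hC ξ)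
  rw [abs_le]
  constructor
  · have := neg_abs_le (Real.log c)
    have := le_max_left |Real.log c| |Real.log C|
    linarith
  · have := le_abs_self (Real.log C)
    have := le_max_right |Real.log c| |Real.log C|
    linarith

/-- `U Ψ^a` -/
def I3_U {Y : Type*} (U : ℂ → Y → ℂ) (Ψ : ℂ → ℝ) (a : ℝ) (ξ : ℂ) (y : Y) : ℂ :=
  U ξ y * Complex.exp ((a : ℂ) * (Real.log (Ψ ξ) : ℂ))

/-- `Ψ^b` -/
def I3_Ψ (Ψ : ℂ → ℝ) (b : ℝ) (ξ : ℂ) : ℝ := Real.exp (b * Real.log (Ψ ξ))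

theorem I3_UD {Y : Type*} [MeasurableSpace Y] (ν : Measure Y) [IsFiniteMeasure ν] (c1 c2 : ℝ)
    (U : ℂ → Y → ℂ) (Ψ : ℂ → ℝ) (hU : UD ν c1 c2 U Ψ) (a : ℝ) :
    UD ν c1 c2 (I3_U U Ψ a) (I3_Ψ Ψ (1 + a)) := by
  obtain ⟨B, hB⟩ := I3_log_bdd hU.Ψlow hU.Ψup
  have hpos : ∀ ξ, 0 < Ψ ξ := by
    obtain ⟨c, hc, hc'⟩ := hU.Ψlow
    exact fun ξ => hc.trans_le (hc' ξ)
  have hE : ∀ ξ, ‖Complex.exp ((a : ℂ) * (Real.log (Ψ ξ) : ℂ))‖ = Real.exp (a * Real.log (Ψ ξ)) := by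
    intro ξ
    rw [Complex.norm_exp]
    congr 1
    rw [← Complex.ofReal_mul, Complex.ofReal_re]
  have hb : ∀ (s : ℝ) (ξ : ℂ), |s * Real.log (Ψ ξ)| ≤ |s| * B := by
    intro s ξ
    rw [abs_mul]
    exact mul_le_mul_of_nonneg_left (hB ξ) (abs_nonneg s)
  refine ⟨?_, hU.c1pos, ?_, ?_, ?_, ?_, ?_, ?_⟩
  · have h1 : Measurable (fun q : ℂ × Y => Complex.exp ((a : ℂ) * (Real.log (Ψ q.1) : ℂ))) := by
      apply Complex.measurable_exp.comp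
      apply Measurable.mul measurable_const
      exact Complex.measurable_ofReal.comp (Real.measurable_log.comp (hU.Ψmeas.comp measurable_fst))
    exact hU.meas.mul h1
  · intro ξ y h
    unfold I3_U
    rw [hU.supp ξ y h, zero_mul]
  · obtain ⟨C, hC⟩ := hU.bdd
    refine ⟨C * Real.exp (|a| * B), fun ξ y => ?_⟩
    unfold I3_U
    rw [norm_mul, hE]
    have hC0 : 0 ≤ C := (norm_nonneg _).trans (hC ξ y)
    apply mul_le_mul (hC ξ y) _ (Real.exp_pos _).le hC0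
    exact Real.exp_le_exp.mpr ((le_abs_self _).trans (hb a ξ))
  · unfold I3_Ψ
    exact Real.measurable_exp.comp (measurable_const.mul (Real.measurable_log.comp hU.Ψmeas))
  · refine ⟨Real.exp (-(|1 + a| * B)), Real.exp_pos _, fun ξ => ?_⟩
    unfold I3_Ψ
    apply Real.exp_le_exp.mpr
    have := (abs_le.mp (hb (1 + a) ξ)).1
    linarith
  · refine ⟨Real.exp (|1 + a| * B), fun ξ => ?_⟩
    unfold I3_Ψ
    exact Real.exp_le_exp.mpr ((le_abs_self _).trans (hb (1 + a) ξ))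
  · intro ξ
    have h1 : ∫⁻ y, ‖I3_U U Ψ a ξ y‖ₑ ^ 2 ∂ν =
        ENNReal.ofReal (Real.exp (a * Real.log (Ψ ξ))) ^ 2 * ∫⁻ y, ‖U ξ y‖ₑ ^ 2 ∂ν := by
      rw [← lintegral_const_mul']
      · congr 1
        ext y
        unfold I3_U
        rw [enorm_mul, mul_pow, mul_comm]
        congr 2
        rw [← ofReal_norm, hE]
      · exact ENNReal.pow_ne_top ENNReal.ofReal_ne_top
    rw [h1]
    calc ENNReal.ofReal (Real.exp (a * Real.log (Ψ ξ))) ^ 2 * ∫⁻ y, ‖U ξ y‖ₑ ^ 2 ∂ν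
        ≤ ENNReal.ofReal (Real.exp (a * Real.log (Ψ ξ))) ^ 2 *
            ENNReal.ofReal (((‖ξ‖ ^ 2)⁻¹ * Ψ ξ) ^ 2) := by gcongr; exact hU.dom ξ
      _ = ENNReal.ofReal (((‖ξ‖ ^ 2)⁻¹ * I3_Ψ Ψ (1 + a) ξ) ^ 2) := by
          rw [← ENNReal.ofReal_pow (Real.exp_pos _).le, ← ENNReal.ofReal_mul (by positivity)]
          congr 1
          unfold I3_Ψ
          have : Real.exp ((1 + a) * Real.log (Ψ ξ)) = Ψ ξ * Real.exp (a * Real.log (Ψ ξ)) := by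
            rw [add_mul, one_mul, Real.exp_add, Real.exp_log (hpos ξ)]
          rw [this]
          ring

theorem I3_uW_eq {Y : Type*} (U : ℂ → Y → ℂ) (Ψ : ℂ → ℝ) (a b : ℝ) (w : ℂ) (x : ℂ) (y : Y) :
    uW (I3_U U Ψ a) (I3_Ψ Ψ b) w x y = uW U Ψ ((a : ℂ) + w * (b : ℂ)) x y := by
  unfold uW
  congr 1
  ext ξ
  unfold I3_U I3_Ψ
  rw [Real.log_exp, mul_assoc (U ξ y), ← Complex.exp_add]
  congr 3
  push_cast
  ring

/-! ### constants -/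

theorem I3_Ak_pos (k : ℕ) (hk : 1 ≤ k) : 0 < Ak k := by
  unfold Ak
  have hk' : (1 : ℝ) ≤ k := by exact_mod_cast hk
  apply div_pos
  · exact Real.Gamma_pos_of_pos (by positivity)
  · apply Real.Gamma_pos_of_pos
    have : 1 / (2 * (k : ℝ)) ≤ 1 / 2 := by
      apply one_div_le_one_div_of_le (by norm_num)
      linarith
    linarith

/-- the weight -/
def I3_W (τ : ℝ) : ℝ := (Real.cosh (Real.pi * τ))⁻¹

theorem I3_W_pos (τ : ℝ) : 0 < I3_W τ := inv_pos.mpr (Real.cosh_pos _)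

theorem I3_W_meas : Measurable I3_W := by
  unfold I3_W
  exact (Real.measurable_cosh.comp (measurable_const.mul measurable_id)).inv

theorem I3_W_int : Integrable I3_W ∧ Integrable (fun τ => τ ^ 2 * I3_W τ) ∧
    Integrable (fun τ => τ ^ 4 * I3_W τ) := by
  obtain ⟨h, -, -, -⟩ := sech_moments
  have hm : ∀ k : ℕ, AEStronglyMeasurable (fun τ : ℝ => τ ^ k * I3_W τ) volume := fun k =>
    ((measurable_id.pow_const k).mul I3_W_meas).aestronglyMeasurable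
  have hb : ∀ (k : ℕ), (∀ τ : ℝ, |τ ^ k| ≤ 1 + τ ^ 4) →
      Integrable (fun τ : ℝ => τ ^ k * I3_W τ) := by
    intro k hk
    refine h.mono (hm k) (Eventually.of_forall fun τ => ?_)
    have h1 : 0 < I3_W τ := I3_W_pos τ
    rw [Real.norm_eq_abs, abs_mul, Real.norm_eq_abs, abs_mul]
    change |τ ^ k| * |I3_W τ| ≤ |1 + τ ^ 4| * |I3_W τ|
    apply mul_le_mul_of_nonneg_right _ (abs_nonneg _)
    exact (hk τ).trans (le_abs_self _)
  refine ⟨?_, hb 2 (fun τ => ?_), hb 4 (fun τ => ?_)⟩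
  · have := hb 0 (fun τ => by
      rw [pow_zero, abs_one]
      nlinarith [sq_nonneg (τ ^ 2)])
    simpa using this
  · rw [abs_of_nonneg (by positivity)]
    nlinarith [sq_nonneg (τ ^ 2 - 1)]
  · rw [abs_of_nonneg (by positivity)]
    linarith

theorem I3_W_mass : ∫⁻ τ, ENNReal.ofReal (I3_W τ) ≤ 1 := by
  obtain ⟨-, h, -, -⟩ := sech_moments
  rw [← ofReal_integral_eq_lintegral_ofReal I3_W_int.1
    (Eventually.of_forall fun τ => (I3_W_pos τ).le)]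
  change ENNReal.ofReal (∫ τ : ℝ, (Real.cosh (Real.pi * τ))⁻¹) ≤ 1
  rw [h, ENNReal.ofReal_one]

theorem I3_P0 (τ : ℝ) : P0 (1 / 2) τ = 1 / 2 * I3_W τ := by
  unfold P0 I3_W
  have h1 : Real.pi * (1 / 2) = Real.pi / 2 := by ring
  rw [h1, Real.sin_pi_div_two, Real.cos_pi_div_two]
  ring

theorem I3_P1 (τ : ℝ) : P1 (1 / 2) τ = 1 / 2 * I3_W τ := by
  unfold P1 I3_W
  have h1 : Real.pi * (1 / 2) = Real.pi / 2 := by ring
  rw [h1, Real.sin_pi_div_two, Real.cos_pi_div_two]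
  ring

theorem I3_W2 (τ : ℝ) : (2 * Real.cosh (Real.pi * τ))⁻¹ = 1 / 2 * I3_W τ := by
  unfold I3_W
  rw [mul_inv]
  ring

/-! ### Gamma factors -/

theorem I3_G4 (τ : ℝ) : ‖Gx (((1 / (2:ℕ) : ℝ) : ℂ) + I * ((1 / 3 * τ / (2:ℕ) : ℝ) : ℂ))‖ ≤
    Real.pi * Ak 2 := by
  have h := Gx_bound (1 / 4) (τ / 12) (by norm_num) (by norm_num)
  have hv := Gx_val 2 (by norm_num)
  have e1 : (((2 * (1 / 4) : ℝ) : ℂ) + I * ((2 * (τ / 12) : ℝ) : ℂ)) =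
      (((1 / (2:ℕ) : ℝ) : ℂ) + I * ((1 / 3 * τ / (2:ℕ) : ℝ) : ℂ)) := by
    congr 2
    · norm_num
    · congr 1
      push_cast
      ring
  have e2 : ((2 * (1 / 4) : ℝ) : ℂ) = ((1 / (2:ℕ) : ℝ) : ℂ) := by
    congr 1
    norm_num
  rw [e1, e2, hv] at h
  have hr : (1 + (τ / 12) ^ 2 / (1 - 1 / 4) ^ 2) / (1 + (τ / 12) ^ 2 / (1 / 4) ^ 2) ≤ 1 := by
    rw [div_le_one (by positivity)]
    have : (τ / 12) ^ 2 / (1 - 1 / 4) ^ 2 ≤ (τ / 12) ^ 2 / (1 / 4) ^ 2 := by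
      apply div_le_div_of_nonneg_left (by positivity) (by positivity)
      norm_num
    linarith
  have hA := I3_Ak_pos 2 (by norm_num)
  have hpA : 0 < Real.pi * Ak 2 := mul_pos Real.pi_pos hA
  have h2 : ‖Gx (((1 / (2:ℕ) : ℝ) : ℂ) + I * ((1 / 3 * τ / (2:ℕ) : ℝ) : ℂ))‖ ^ 2 ≤
      (Real.pi * Ak 2) ^ 2 := by
    refine h.trans ?_
    have := mul_le_mul_of_nonneg_left hr (sq_nonneg (Real.pi * Ak 2))
    linarith
  exact le_of_sq_le_sq h2 hpA.le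

theorem I3_poly (s : ℝ) (hs : 0 ≤ s) :
    ((1 + s / 100) / (1 + s / 4)) ^ 3 ≤ 1 - s / 2 + s ^ 2 / 10 := by
  rw [div_pow, div_le_iff₀ (by positivity)]
  have h1 : 0 ≤ s * (s - 3 / 2) ^ 2 := mul_nonneg hs (sq_nonneg _)
  have hq : 0 ≤ 0.22 - 0.0878 * s - 0.003126 * s ^ 2 + 0.0109375 * s ^ 3 + 0.0015625 * s ^ 4 := by
    nlinarith [h1, sq_nonneg (s - 2), sq_nonneg (s ^ 2), sq_nonneg s]
  nlinarith [mul_nonneg hs hq]

theorem I3_G6 (τ : ℝ) : ‖Gx (((1 / (3:ℕ) : ℝ) : ℂ) + I * ((1 / 2 * τ / (3:ℕ) : ℝ) : ℂ))‖ ^ 6 ≤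
    (Real.pi * Ak 3) ^ 6 * (1 - τ ^ 2 / 2 + τ ^ 4 / 10) := by
  have h := Gx_bound (1 / 6) (τ / 12) (by norm_num) (by norm_num)
  have hv := Gx_val 3 (by norm_num)
  have e1 : (((2 * (1 / 6) : ℝ) : ℂ) + I * ((2 * (τ / 12) : ℝ) : ℂ)) =
      (((1 / (3:ℕ) : ℝ) : ℂ) + I * ((1 / 2 * τ / (3:ℕ) : ℝ) : ℂ)) := by
    congr 2
    · norm_num
    · congr 1
      push_cast
      ring
  have e2 : ((2 * (1 / 6) : ℝ) : ℂ) = ((1 / (3:ℕ) : ℝ) : ℂ) := by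
    congr 1
    norm_num
  rw [e1, e2, hv] at h
  have hr : (1 + (τ / 12) ^ 2 / (1 - 1 / 6) ^ 2) / (1 + (τ / 12) ^ 2 / (1 / 6) ^ 2) =
      (1 + τ ^ 2 / 100) / (1 + τ ^ 2 / 4) := by
    congr 1
    · ring
    · ring
  rw [hr] at h
  have h3 := pow_le_pow_left₀ (sq_nonneg _) h 3
  rw [← pow_mul, mul_pow, ← pow_mul] at h3
  refine h3.trans ?_
  have h4 := I3_poly (τ ^ 2) (sq_nonneg τ)
  have h5 : (0:ℝ) ≤ (Real.pi * Ak 3) ^ (2 * 3) :=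
    pow_nonneg (mul_pos Real.pi_pos (I3_Ak_pos 3 (by norm_num))).le _
  have h6 := mul_le_mul_of_nonneg_left h4 h5
  refine h6.trans (le_of_eq ?_)
  ring

theorem I3_c4 : ∫ τ, (2 * Real.cosh (Real.pi * τ))⁻¹ *
    ‖Gx (((1 / (2:ℕ) : ℝ) : ℂ) + I * ((1 / 3 * τ / (2:ℕ) : ℝ) : ℂ))‖ ^ (2 * 2) / Real.pi ^ 2 ≤
    1 / 2 * ((Real.pi * Ak 2) ^ 4 / Real.pi ^ 2) := by
  obtain ⟨-, h, -, -⟩ := sech_moments
  have hI : Integrable (fun τ => 1 / 2 * ((Real.pi * Ak 2) ^ 4 / Real.pi ^ 2) * I3_W τ) :=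
    I3_W_int.1.const_mul _
  have hle : ∫ τ, (2 * Real.cosh (Real.pi * τ))⁻¹ *
      ‖Gx (((1 / (2:ℕ) : ℝ) : ℂ) + I * ((1 / 3 * τ / (2:ℕ) : ℝ) : ℂ))‖ ^ (2 * 2) / Real.pi ^ 2 ≤
      ∫ τ, 1 / 2 * ((Real.pi * Ak 2) ^ 4 / Real.pi ^ 2) * I3_W τ := by
    apply integral_mono_of_nonneg
    · refine Eventually.of_forall fun τ => ?_
      have := I3_W_pos τ
      simp only [I3_W2]
      change 0 ≤ _
      positivity
    · exact hI
    · refine Eventually.of_forall fun τ => ?_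
      have h0 := I3_W_pos τ
      have h1 := pow_le_pow_left₀ (norm_nonneg _) (I3_G4 τ) 4
      simp only [I3_W2]
      have h2 : 1 / 2 * I3_W τ *
          ‖Gx (((1 / (2:ℕ) : ℝ) : ℂ) + I * ((1 / 3 * τ / (2:ℕ) : ℝ) : ℂ))‖ ^ (2 * 2) ≤
          1 / 2 * I3_W τ * (Real.pi * Ak 2) ^ 4 := by
        apply mul_le_mul_of_nonneg_left _ (by positivity)
        simpa using h1
      have h3 := div_le_div_of_nonneg_right h2 (sq_nonneg Real.pi)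
      refine h3.trans (le_of_eq ?_)
      ring
  refine hle.trans (le_of_eq ?_)
  rw [integral_const_mul]
  change 1 / 2 * ((Real.pi * Ak 2) ^ 4 / Real.pi ^ 2) * ∫ τ : ℝ, (Real.cosh (Real.pi * τ))⁻¹ = _
  rw [h, mul_one]

theorem I3_c6 : ∫ τ, (2 * Real.cosh (Real.pi * τ))⁻¹ *
    ‖Gx (((1 / (3:ℕ) : ℝ) : ℂ) + I * ((1 / 2 * τ / (3:ℕ) : ℝ) : ℂ))‖ ^ (2 * 3) / Real.pi ^ 2 ≤
    1 / 2 * ((Real.pi * Ak 3) ^ 6 / Real.pi ^ 2 * (29 / 32)) := by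
  obtain ⟨-, h, h2, h4⟩ := sech_moments
  obtain ⟨i0, i2, i4⟩ := I3_W_int
  set K : ℝ := 1 / 2 * ((Real.pi * Ak 3) ^ 6 / Real.pi ^ 2) with hK
  have hI : Integrable (fun τ => K * (I3_W τ - 1 / 2 * (τ ^ 2 * I3_W τ) +
      1 / 10 * (τ ^ 4 * I3_W τ))) :=
    ((i0.sub (i2.const_mul _)).add (i4.const_mul _)).const_mul _
  have hle : ∫ τ, (2 * Real.cosh (Real.pi * τ))⁻¹ *
      ‖Gx (((1 / (3:ℕ) : ℝ) : ℂ) + I * ((1 / 2 * τ / (3:ℕ) : ℝ) : ℂ))‖ ^ (2 * 3) / Real.pi ^ 2 ≤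
      ∫ τ, K * (I3_W τ - 1 / 2 * (τ ^ 2 * I3_W τ) + 1 / 10 * (τ ^ 4 * I3_W τ)) := by
    apply integral_mono_of_nonneg
    · refine Eventually.of_forall fun τ => ?_
      have := I3_W_pos τ
      simp only [I3_W2]
      change 0 ≤ _
      positivity
    · exact hI
    · refine Eventually.of_forall fun τ => ?_
      have h0 := I3_W_pos τ
      have h1 := I3_G6 τ
      simp only [I3_W2]
      have h2 : 1 / 2 * I3_W τ *
          ‖Gx (((1 / (3:ℕ) : ℝ) : ℂ) + I * ((1 / 2 * τ / (3:ℕ) : ℝ) : ℂ))‖ ^ (2 * 3) ≤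
          1 / 2 * I3_W τ * ((Real.pi * Ak 3) ^ 6 * (1 - τ ^ 2 / 2 + τ ^ 4 / 10)) := by
        apply mul_le_mul_of_nonneg_left _ (by positivity)
        simpa using h1
      have h3 := div_le_div_of_nonneg_right h2 (sq_nonneg Real.pi)
      refine h3.trans (le_of_eq ?_)
      rw [hK]
      ring
  refine hle.trans (le_of_eq ?_)
  have e1 : ∫ τ, (I3_W τ - 1 / 2 * (τ ^ 2 * I3_W τ) + 1 / 10 * (τ ^ 4 * I3_W τ)) =
      (∫ τ, I3_W τ) - 1 / 2 * (∫ τ, τ ^ 2 * I3_W τ) + 1 / 10 * ∫ τ, τ ^ 4 * I3_W τ := by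
    have j1 : Integrable (fun τ => I3_W τ - 1 / 2 * (τ ^ 2 * I3_W τ)) := i0.sub (i2.const_mul _)
    rw [integral_add j1 (i4.const_mul _), integral_sub i0 (i2.const_mul _), integral_const_mul,
      integral_const_mul]
  rw [integral_const_mul, e1]
  change K * ((∫ τ : ℝ, (Real.cosh (Real.pi * τ))⁻¹) -
    1 / 2 * (∫ τ : ℝ, τ ^ 2 * (Real.cosh (Real.pi * τ))⁻¹) +
    1 / 10 * (∫ τ : ℝ, τ ^ 4 * (Real.cosh (Real.pi * τ))⁻¹)) = _
  rw [h, h2, h4, hK]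
  ring

/-- the right hand side -/
def I3_S (c1 c2 : ℝ) (Ψ : ℂ → ℝ) (p : ℝ) : ℝ≥0∞ :=
  ∫⁻ ξ in Ann c1 c2, ENNReal.ofReal ((‖ξ‖ ^ 4)⁻¹ * Ψ ξ ^ p)

/-- key lemma for `U Ψ^a` -/
theorem I3_key {Y : Type*} [MeasurableSpace Y] (ν : Measure Y) [IsFiniteMeasure ν]
    (c1 c2 : ℝ) (U : ℂ → Y → ℂ) (Ψ : ℂ → ℝ) (hU : UD ν c1 c2 U Ψ) (k : ℕ) (hk : 2 ≤ k)
    (β : ℝ) (hβ : 0 < β) (hβ2 : β ≤ 2) (a p : ℝ) (hp : (1 + a) * (2 * k) = p) :
    ∫⁻ τ : ℝ, ENNReal.ofReal (1 / 2 * I3_W τ) * ∫⁻ x : ℂ,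
        (∫⁻ y, ‖uW U Ψ ((a : ℂ) + I * ((-(β * (1 + a) * τ) : ℝ) : ℂ)) x y‖ₑ ^ 2 ∂ν) ^ (k : ℝ) ≤
      ENNReal.ofReal (∫ τ, (2 * Real.cosh (Real.pi * τ))⁻¹ *
        ‖Gx (((1 / k : ℝ) : ℂ) + I * ((β * τ / k : ℝ) : ℂ))‖ ^ (2 * k) / Real.pi ^ 2) *
      I3_S c1 c2 Ψ p := by
  have h := key_lemma ν k hk β hβ (fun τ => (2 * Real.cosh (Real.pi * τ))⁻¹) (adm46 β hβ hβ2) c1 c2
    (I3_U U Ψ a) (I3_Ψ Ψ (1 + a)) (I3_UD ν c1 c2 U Ψ hU a)
  have hpos : ∀ ξ, 0 < Ψ ξ := by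
    obtain ⟨c, hc, hc'⟩ := hU.Ψlow
    exact fun ξ => hc.trans_le (hc' ξ)
  have e1 : ∫⁻ ξ in Ann c1 c2, ENNReal.ofReal ((‖ξ‖ ^ 4)⁻¹ * I3_Ψ Ψ (1 + a) ξ ^ (2 * k)) =
      I3_S c1 c2 Ψ p := by
    unfold I3_S
    congr 1
    ext ξ
    congr 2
    unfold I3_Ψ
    rw [← Real.exp_nat_mul, Real.rpow_def_of_pos (hpos ξ), ← hp]
    congr 1
    push_cast
    ring
  rw [e1] at h
  refine le_trans (le_of_eq ?_) h
  congr 1
  ext τ
  rw [← I3_W2]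
  congr 2
  ext x
  rw [ENNReal.rpow_natCast]
  congr 2
  ext y
  rw [I3_uW_eq]
  congr 4
  push_cast
  ring

theorem I3_jensen2 {Y : Type*} [MeasurableSpace Y] (ν : Measure Y) [IsFiniteMeasure ν]
    (U : ℂ → Y → ℂ) (Ψ : ℂ → ℝ) (hU : Measurable (Function.uncurry U)) (hΨ : Measurable Ψ)
    (w : ℝ → ℂ) (hw : Measurable w) (r q : ℝ) (hq : 1 < q) (c : ℝ) (S : ℝ≥0∞)
    (h : ∫⁻ τ : ℝ, ENNReal.ofReal (1 / 2 * I3_W τ) * ∫⁻ x : ℂ,
        (∫⁻ y, ‖uW U Ψ (w τ) x y‖ₑ ^ 2 ∂ν) ^ r ≤ ENNReal.ofReal (1 / 2 * c) * S) :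
    ∫⁻ τ : ℝ, ENNReal.ofReal (I3_W τ) * (∫⁻ x : ℂ,
        (∫⁻ y, ‖uW U Ψ (w τ) x y‖ₑ ^ 2 ∂ν) ^ r) ^ (1 / q) ≤ (ENNReal.ofReal c * S) ^ (1 / q) := by
  have h1 := I3_jensen I3_W I3_W_meas I3_W_mass
    (fun τ : ℝ => ∫⁻ x : ℂ, (∫⁻ y, ‖uW U Ψ (w τ) x y‖ₑ ^ 2 ∂ν) ^ r)
    (I3_M_meas ν U Ψ hU hΨ w hw r) q hq
  refine h1.trans ?_
  apply ENNReal.rpow_le_rpow _ (by positivity)
  have h2 : ∀ (a : ℝ) (_ : 0 ≤ a), ENNReal.ofReal a = 2 * ENNReal.ofReal (1 / 2 * a) := by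
    intro a ha
    have : (2 : ℝ≥0∞) = ENNReal.ofReal 2 := by simp
    rw [this, ← ENNReal.ofReal_mul (by norm_num)]
    congr 1
    ring
  calc ∫⁻ τ : ℝ, ENNReal.ofReal (I3_W τ) * ∫⁻ x : ℂ, (∫⁻ y, ‖uW U Ψ (w τ) x y‖ₑ ^ 2 ∂ν) ^ r
      = ∫⁻ τ : ℝ, 2 * (ENNReal.ofReal (1 / 2 * I3_W τ) *
          ∫⁻ x : ℂ, (∫⁻ y, ‖uW U Ψ (w τ) x y‖ₑ ^ 2 ∂ν) ^ r) := by
        congr 1
        ext τ
        rw [h2 _ (I3_W_pos τ).le, mul_assoc]
    _ = 2 * ∫⁻ τ : ℝ, (ENNReal.ofReal (1 / 2 * I3_W τ) *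
          ∫⁻ x : ℂ, (∫⁻ y, ‖uW U Ψ (w τ) x y‖ₑ ^ 2 ∂ν) ^ r) :=
        lintegral_const_mul' _ _ (by simp)
    _ ≤ 2 * (ENNReal.ofReal (1 / 2 * c) * S) := by gcongr
    _ ≤ ENNReal.ofReal c * S := by
        rw [← mul_assoc]
        gcongr
        rcases le_or_gt 0 c with hc | hc
        · exact (h2 c hc).ge
        · rw [ENNReal.ofReal_of_nonpos (by linarith), mul_zero]
          exact zero_le

theorem I3_half (G : ℝ → ℝ≥0∞) (f : ℝ → ℝ≥0∞) (K : ℝ≥0∞) (hK : K ≠ ∞)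
    (hG : ∀ τ, G τ ≤ f τ * K) :
    (ENNReal.ofReal (1 / 2))⁻¹ * ∫⁻ τ : ℝ, ENNReal.ofReal (1 / 2 * I3_W τ) * G τ ≤
      (∫⁻ τ : ℝ, ENNReal.ofReal (I3_W τ) * f τ) * K := by
  have hne : ENNReal.ofReal (1 / 2) ≠ 0 := by
    rw [Ne, ENNReal.ofReal_eq_zero]
    norm_num
  rw [← lintegral_mul_const' _ _ hK, ← lintegral_const_mul' _ _ (ENNReal.inv_ne_top.mpr hne)]
  apply lintegral_mono
  intro τ
  simp only
  rw [ENNReal.ofReal_mul (by norm_num), ← mul_assoc, ← mul_assoc,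
    ENNReal.inv_mul_cancel hne ENNReal.ofReal_ne_top, one_mul, mul_assoc]
  gcongr
  exact hG τ

theorem I3_const : ((Real.pi * Ak 2) ^ 4 / Real.pi ^ 2) ^ (3 / 5 : ℝ) *
    ((Real.pi * Ak 3) ^ 6 / Real.pi ^ 2 * (29 / 32)) ^ (2 / 5 : ℝ) =
    Real.pi ^ (24 / 5 - 2 : ℝ) * C46 ^ (24 / 5 : ℝ) := by
  have hpi := Real.pi_pos
  have h2 := I3_Ak_pos 2 (by norm_num)
  have h3 := I3_Ak_pos 3 (by norm_num)
  have hC : 0 < C46 := by
    unfold C46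
    positivity
  have hx : 0 < (Real.pi * Ak 2) ^ 4 / Real.pi ^ 2 := by positivity
  have hy : 0 < (Real.pi * Ak 3) ^ 6 / Real.pi ^ 2 * (29 / 32) := by positivity
  apply Real.log_injOn_pos (Set.mem_Ioi.mpr (by positivity)) (Set.mem_Ioi.mpr (by positivity))
  have l29 : Real.log (29 / 32) = Real.log (29 / 32) := rfl
  rw [Real.log_mul (by positivity) (by positivity), Real.log_mul (by positivity) (by positivity),
    Real.log_rpow hx, Real.log_rpow hy, Real.log_rpow hpi, Real.log_rpow hC,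
    Real.log_mul (by positivity) (by norm_num), Real.log_div (by positivity) (by positivity),
    Real.log_div (by positivity) (by positivity), Real.log_pow, Real.log_pow, Real.log_pow,
    Real.log_mul hpi.ne' h2.ne', Real.log_mul hpi.ne' h3.ne']
  have hlC : Real.log C46 = 1 / 2 * Real.log (Ak 2) + 1 / 2 * Real.log (Ak 3) +
      1 / 12 * Real.log (29 / 32) := by
    unfold C46
    rw [Real.log_mul (by positivity) (by positivity), Real.log_mul (by positivity) (by positivity),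
      Real.log_rpow h2, Real.log_rpow h3, Real.log_rpow (by norm_num)]
  rw [hlC]
  push_cast
  ring

theorem I3_solve (IN S : ℝ≥0∞) (hIN : IN ≠ ∞) (X Y : ℝ) (hX : 0 ≤ X) (hY : 0 ≤ Y)
    (h : IN ≤ ((ENNReal.ofReal X * S) ^ (1 / 4 : ℝ) * IN ^ (3 / 4 : ℝ)) ^ (1 / 2 : ℝ) *
      ((ENNReal.ofReal Y * S) ^ (1 / 6 : ℝ) * IN ^ (5 / 6 : ℝ)) ^ (1 / 2 : ℝ)) :
    IN ≤ ENNReal.ofReal (X ^ (3 / 5 : ℝ) * Y ^ (2 / 5 : ℝ)) * S := by
  rcases eq_or_ne IN 0 with h0 | h0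
  · rw [h0]
    exact zero_le
  have e1 : ((ENNReal.ofReal X * S) ^ (1 / 4 : ℝ) * IN ^ (3 / 4 : ℝ)) ^ (1 / 2 : ℝ) *
      ((ENNReal.ofReal Y * S) ^ (1 / 6 : ℝ) * IN ^ (5 / 6 : ℝ)) ^ (1 / 2 : ℝ) =
      (ENNReal.ofReal X ^ (1 / 8 : ℝ) * ENNReal.ofReal Y ^ (1 / 12 : ℝ) * S ^ (5 / 24 : ℝ)) *
        IN ^ (19 / 24 : ℝ) := by
    have hn : ∀ r : ℝ, 0 ≤ r → ∀ a b : ℝ≥0∞, (a * b) ^ r = a ^ r * b ^ r := fun r hr a b =>
      ENNReal.mul_rpow_of_nonneg a b hr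
    rw [hn (1/2) (by norm_num), hn (1/2) (by norm_num), hn (1/4) (by norm_num),
      hn (1/6) (by norm_num), hn (1/2) (by norm_num), hn (1/2) (by norm_num)]
    simp only [← ENNReal.rpow_mul]
    have s1 : S ^ (5 / 24 : ℝ) = S ^ (1 / 4 * (1 / 2) : ℝ) * S ^ (1 / 6 * (1 / 2) : ℝ) := by
      rw [← ENNReal.rpow_add_of_nonneg _ _ (by norm_num) (by norm_num)]
      norm_num
    have s2 : IN ^ (19 / 24 : ℝ) = IN ^ (3 / 4 * (1 / 2) : ℝ) * IN ^ (5 / 6 * (1 / 2) : ℝ) := by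
      rw [← ENNReal.rpow_add_of_nonneg _ _ (by norm_num) (by norm_num)]
      norm_num
    rw [s1, s2]
    have t1 : (1 / 4 * (1 / 2) : ℝ) = 1 / 8 := by norm_num
    have t2 : (1 / 6 * (1 / 2) : ℝ) = 1 / 12 := by norm_num
    rw [t1, t2]
    ring
  rw [e1] at h
  have h2 : IN ^ (5 / 24 : ℝ) ≤
      ENNReal.ofReal X ^ (1 / 8 : ℝ) * ENNReal.ofReal Y ^ (1 / 12 : ℝ) * S ^ (5 / 24 : ℝ) := by
    have s3 : IN = IN ^ (5 / 24 : ℝ) * IN ^ (19 / 24 : ℝ) := by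
      rw [← ENNReal.rpow_add_of_nonneg _ _ (by norm_num) (by norm_num)]
      norm_num
    have hne0 : IN ^ (19 / 24 : ℝ) ≠ 0 := by
      rw [Ne, ENNReal.rpow_eq_zero_iff_of_pos (by norm_num)]
      exact h0
    have hnet : IN ^ (19 / 24 : ℝ) ≠ ∞ := ENNReal.rpow_ne_top_of_nonneg (by norm_num) hIN
    have h3 : IN ^ (5 / 24 : ℝ) * IN ^ (19 / 24 : ℝ) ≤
        (ENNReal.ofReal X ^ (1 / 8 : ℝ) * ENNReal.ofReal Y ^ (1 / 12 : ℝ) * S ^ (5 / 24 : ℝ)) *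
        IN ^ (19 / 24 : ℝ) := by
      rw [← s3]
      exact h
    exact (ENNReal.mul_le_mul_iff_left hne0 hnet).mp h3
  have h3 := ENNReal.rpow_le_rpow h2 (by norm_num : (0:ℝ) ≤ 24 / 5)
  rw [ENNReal.mul_rpow_of_nonneg _ _ (by norm_num), ENNReal.mul_rpow_of_nonneg _ _ (by norm_num),
    ← ENNReal.rpow_mul, ← ENNReal.rpow_mul, ← ENNReal.rpow_mul, ← ENNReal.rpow_mul] at h3
  have u1 : (5 / 24 * (24 / 5) : ℝ) = 1 := by norm_num
  have u2 : (1 / 8 * (24 / 5) : ℝ) = 3 / 5 := by norm_num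
  have u3 : (1 / 12 * (24 / 5) : ℝ) = 2 / 5 := by norm_num
  rw [u1, u2, u3, ENNReal.rpow_one, ENNReal.rpow_one] at h3
  refine h3.trans (le_of_eq ?_)
  congr 1
  rw [ENNReal.ofReal_rpow_of_nonneg hX (by norm_num), ENNReal.ofReal_rpow_of_nonneg hY (by norm_num),
    ← ENNReal.ofReal_mul (by positivity)]

theorem I3_core {Y : Type*} [MeasurableSpace Y] (ν : Measure Y) [IsFiniteMeasure ν]
    (c1 c2 : ℝ) (U : ℂ → Y → ℂ) (Ψ : ℂ → ℝ) (hU : UD ν c1 c2 U Ψ) (N : ℝ) (hN : 0 < N) :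
    ∫⁻ x in {x : ℂ | ‖x‖ ≤ N ∧ ENNReal.ofReal (1 / N) ≤ uH ν U x}, (uH ν U x) ^ (24 / 5 : ℝ) ≤
      ENNReal.ofReal (Real.pi ^ (24 / 5 - 2 : ℝ) * C46 ^ (24 / 5 : ℝ)) *
        I3_S c1 c2 Ψ (24 / 5) := by
  obtain ⟨IN, hIN⟩ : ∃ IN : ℝ≥0∞, IN = ∫⁻ x in {x : ℂ | ‖x‖ ≤ N ∧
      ENNReal.ofReal (1 / N) ≤ uH ν U x}, (uH ν U x) ^ (24 / 5 : ℝ) := ⟨_, rfl⟩
  obtain ⟨hfin, F, hF, ⟨C, hC⟩, hF2, hF0, hF1⟩ := interp_F ν c1 c2 U Ψ hU (24 / 5) 4 6 (1 / 2)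
    (by norm_num) (by norm_num) (by norm_num) (by norm_num) (by norm_num) N hN IN hIN
  rw [← hIN]
  -- the two sides
  have k4 := I3_key ν c1 c2 U Ψ hU 2 (le_refl 2) (1 / 3) (by norm_num) (by norm_num) (1 / 5)
    (24 / 5) (by norm_num)
  have k6 := I3_key ν c1 c2 U Ψ hU 3 (by norm_num) (1 / 2) (by norm_num) (by norm_num) (-(1 / 5))
    (24 / 5) (by norm_num)
  have k4' := k4.trans (mul_le_mul_left (ENNReal.ofReal_le_ofReal I3_c4) _)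
  have k6' := k6.trans (mul_le_mul_left (ENNReal.ofReal_le_ofReal I3_c6) _)
  have j4 := I3_jensen2 ν U Ψ hU.meas hU.Ψmeas
    (fun τ => ((1 / 5 : ℝ) : ℂ) + I * ((-(1 / 3 * (1 + 1 / 5) * τ) : ℝ) : ℂ)) (by fun_prop)
    ((2 : ℕ) : ℝ) 4 (by norm_num) _ _ k4'
  have j6 := I3_jensen2 ν U Ψ hU.meas hU.Ψmeas
    (fun τ => ((-(1 / 5) : ℝ) : ℂ) + I * ((-(1 / 2 * (1 + -(1 / 5)) * τ) : ℝ) : ℂ)) (by fun_prop)
    ((3 : ℕ) : ℝ) 6 (by norm_num) _ _ k6'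
  have hp := poisson_mul (1 / 2) (by norm_num) (by norm_num) F hF.continuous.continuousOn
    hF.differentiableOn C hC
  rw [hF2] at hp
  have hK4 : IN ^ (1 - 1 / 4 : ℝ) ≠ ∞ := ENNReal.rpow_ne_top_of_nonneg (by norm_num) hfin
  have hK6 : IN ^ (1 - 1 / 6 : ℝ) ≠ ∞ := ENNReal.rpow_ne_top_of_nonneg (by norm_num) hfin
  have g4 := I3_half (fun τ => ‖F (I * τ)‖ₑ) (fun τ => (∫⁻ x : ℂ,
    (∫⁻ y, ‖uW U Ψ (((1 / 5 : ℝ) : ℂ) + I * ((-(1 / 3 * (1 + 1 / 5) * τ) : ℝ) : ℂ)) x y‖ₑ ^ 2 ∂ν) ^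
      ((2 : ℕ) : ℝ)) ^ (1 / 4 : ℝ)) _ hK4 (by
      intro τ
      refine (hF0 τ).trans (le_of_eq ?_)
      congr 2
      · congr 1
        ext x
        have e1 : (4 / 2 : ℝ) = ((2 : ℕ) : ℝ) := by norm_num
        rw [e1]
        congr 2
        ext y
        congr 4
        · norm_num
        · congr 2
          ring)
  have g6 := I3_half (fun τ => ‖F (1 + I * τ)‖ₑ) (fun τ => (∫⁻ x : ℂ,
    (∫⁻ y, ‖uW U Ψ (((-(1 / 5) : ℝ) : ℂ) + I * ((-(1 / 2 * (1 + -(1 / 5)) * τ) : ℝ) : ℂ)) x y‖ₑ ^ 2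
      ∂ν) ^ ((3 : ℕ) : ℝ)) ^ (1 / 6 : ℝ)) _ hK6 (by
      intro τ
      refine (hF1 τ).trans (le_of_eq ?_)
      congr 2
      · congr 1
        ext x
        have e1 : (6 / 2 : ℝ) = ((3 : ℕ) : ℝ) := by norm_num
        rw [e1]
        congr 2
        ext y
        congr 4
        · norm_num
        · congr 2
          ring)
  simp only [I3_P0, I3_P1] at hp
  have e2 : (1 - 1 / 2 : ℝ) = 1 / 2 := by norm_num
  rw [e2] at hp
  have hfinal : IN ≤ ((ENNReal.ofReal ((Real.pi * Ak 2) ^ 4 / Real.pi ^ 2) *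
        I3_S c1 c2 Ψ (24 / 5)) ^ (1 / 4 : ℝ) * IN ^ (3 / 4 : ℝ)) ^ (1 / 2 : ℝ) *
      ((ENNReal.ofReal ((Real.pi * Ak 3) ^ 6 / Real.pi ^ 2 * (29 / 32)) *
        I3_S c1 c2 Ψ (24 / 5)) ^ (1 / 6 : ℝ) * IN ^ (5 / 6 : ℝ)) ^ (1 / 2 : ℝ) := by
    refine hp.trans ?_
    have e3 : (1 - 1 / 4 : ℝ) = 3 / 4 := by norm_num
    have e4 : (1 - 1 / 6 : ℝ) = 5 / 6 := by norm_num
    rw [e3] at g4
    rw [e4] at g6
    apply mul_le_mul'
    · apply ENNReal.rpow_le_rpow _ (by norm_num)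
      refine g4.trans ?_
      gcongr
    · apply ENNReal.rpow_le_rpow _ (by norm_num)
      refine g6.trans ?_
      gcongr
  have := I3_solve IN _ hfin _ _ (by positivity) (by
    have := I3_Ak_pos 3 (by norm_num)
    positivity) hfinal
  rw [I3_const] at this
  exact this

theorem I3_Ann_meas (c1 c2 : ℝ) : MeasurableSet (Ann c1 c2) := by
  unfold Ann
  exact (measurableSet_le measurable_const measurable_norm).inter
    (measurableSet_le measurable_norm measurable_const)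

theorem I3_Ann_fin (c1 c2 : ℝ) : volume (Ann c1 c2) ≠ ∞ := by
  have h : Ann c1 c2 ⊆ Metric.closedBall 0 c2 := by
    intro ξ hξ
    rw [mem_closedBall_zero_iff]
    exact hξ.2
  exact ((measure_mono h).trans_lt measure_closedBall_lt_top).ne

/-- the limit `N → ∞` -/
theorem I3_limN {Y : Type*} [MeasurableSpace Y] (ν : Measure Y) [IsFiniteMeasure ν]
    (U : ℂ → Y → ℂ) (hU : Measurable (Function.uncurry U)) (p : ℝ) (hp : 0 < p) (K : ℝ≥0∞)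
    (h : ∀ N : ℝ, 0 < N → ∫⁻ x in {x : ℂ | ‖x‖ ≤ N ∧ ENNReal.ofReal (1 / N) ≤ uH ν U x},
      (uH ν U x) ^ p ≤ K) :
    ∫⁻ x : ℂ, (uH ν U x) ^ p ≤ K := by
  have hm := I3_uH_meas ν U hU
  obtain ⟨X, hX⟩ : ∃ X : ℕ → Set ℂ, X = fun n => {x : ℂ | ‖x‖ ≤ ((n + 1 : ℕ) : ℝ) ∧
      ENNReal.ofReal (1 / ((n + 1 : ℕ) : ℝ)) ≤ uH ν U x} := ⟨_, rfl⟩
  have hXm : ∀ n, MeasurableSet (X n) := by
    intro n
    rw [hX]
    exact (measurableSet_le measurable_norm measurable_const).inter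
      (measurableSet_le measurable_const hm)
  have hmono : Monotone X := by
    intro a b hab x hx
    rw [hX] at hx ⊢
    obtain ⟨h1, h2⟩ := hx
    have hab' : ((a + 1 : ℕ) : ℝ) ≤ ((b + 1 : ℕ) : ℝ) := by exact_mod_cast Nat.succ_le_succ hab
    have ha0 : (0 : ℝ) < ((a + 1 : ℕ) : ℝ) := by exact_mod_cast Nat.succ_pos a
    refine ⟨h1.trans hab', le_trans (ENNReal.ofReal_le_ofReal ?_) h2⟩
    exact one_div_le_one_div_of_le ha0 hab'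
  have hind : ∀ x, (uH ν U x) ^ p = ⨆ n, (X n).indicator (fun x => (uH ν U x) ^ p) x := by
    intro x
    apply le_antisymm
    · rcases eq_or_ne (uH ν U x) 0 with h0 | h0
      · rw [h0, ENNReal.zero_rpow_of_pos hp]
        exact zero_le
      · obtain ⟨n, hn⟩ : ∃ n : ℕ, x ∈ X n := by
          obtain ⟨a, ha⟩ := exists_nat_ge ‖x‖
          obtain ⟨b, hb⟩ : ∃ b : ℕ, ENNReal.ofReal (1 / ((b + 1 : ℕ) : ℝ)) ≤ uH ν U x := by
            have ht : Tendsto (fun b : ℕ => ENNReal.ofReal (1 / ((b : ℝ) + 1))) atTop (𝓝 0) := by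
              have := ENNReal.tendsto_ofReal (tendsto_one_div_add_atTop_nhds_zero_nat (𝕜 := ℝ))
              rwa [ENNReal.ofReal_zero] at this
            obtain ⟨b, hb⟩ := (ht.eventually_lt_const (pos_iff_ne_zero.mpr h0)).exists
            refine ⟨b, ?_⟩
            push_cast
            exact hb.le
          refine ⟨max a b, ?_⟩
          rw [hX]
          constructor
          · refine ha.trans ?_
            have : a ≤ max a b + 1 := (le_max_left a b).trans (Nat.le_succ _)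
            exact_mod_cast this
          · refine le_trans (ENNReal.ofReal_le_ofReal ?_) hb
            apply one_div_le_one_div_of_le
            · exact_mod_cast Nat.succ_pos b
            · have : b + 1 ≤ max a b + 1 := Nat.succ_le_succ (le_max_right a b)
              exact_mod_cast this
        refine le_trans (le_of_eq ?_) (le_iSup _ n)
        rw [Set.indicator_of_mem hn]
    · apply iSup_le
      intro n
      exact Set.indicator_le_self' (fun _ _ => zero_le) x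
  have e1 : ∫⁻ x : ℂ, (uH ν U x) ^ p =
      ∫⁻ x : ℂ, ⨆ n, (X n).indicator (fun x => (uH ν U x) ^ p) x := by
    congr 1
    ext x
    exact hind x
  rw [e1, lintegral_iSup]
  · apply iSup_le
    intro n
    rw [lintegral_indicator (hXm n), hX]
    exact h _ (by exact_mod_cast Nat.succ_pos n)
  · intro n
    exact (hm.pow_const p).indicator (hXm n)
  · intro a b hab x
    exact Set.indicator_le_indicator_of_subset (hmono hab) (fun _ => zero_le) x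

/-- from the estimate with `Ψ` to the Pitt inequality -/
theorem I3_pitt_of_core (p A : ℝ) (hp : 2 ≤ p)
    (core : ∀ (ν : Measure ℂ) (_ : IsFiniteMeasure ν) (c1 c2 : ℝ) (U : ℂ → ℂ → ℂ) (Ψ : ℂ → ℝ),
      UD ν c1 c2 U Ψ → ∀ N : ℝ, 0 < N →
      ∫⁻ x in {x : ℂ | ‖x‖ ≤ N ∧ ENNReal.ofReal (1 / N) ≤ uH ν U x}, (uH ν U x) ^ p ≤
        ENNReal.ofReal (Real.pi ^ (p - 2) * A ^ p) * I3_S c1 c2 Ψ p) : HasPitt p A := by
  intro ν hν U hU ⟨C, hC⟩ ⟨c1, c2, hc1, hsupp⟩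
  have hp0 : 0 < p := by linarith
  obtain ⟨v2, hv2⟩ : ∃ v2 : ℂ → ℝ≥0∞, v2 = fun ξ => ∫⁻ y, ‖U ξ y‖ₑ ^ 2 ∂ν := ⟨_, rfl⟩
  have hv2m : Measurable v2 := by
    rw [hv2]
    have h2' : Measurable (fun q : ℂ × ℂ => ‖U q.1 q.2‖ₑ ^ (2 : ℕ)) :=
      Measurable.pow_const (Measurable.enorm hU) 2
    exact Measurable.lintegral_prod_right' (ν := ν) h2'
  have hC0 : 0 ≤ C := (norm_nonneg _).trans (hC 0 0)
  obtain ⟨B, hB⟩ : ∃ B : ℝ≥0∞, B = ENNReal.ofReal C ^ 2 * ν Set.univ := ⟨_, rfl⟩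
  have hBfin : B ≠ ∞ := by
    rw [hB]
    exact ENNReal.mul_ne_top (ENNReal.pow_ne_top ENNReal.ofReal_ne_top) (measure_ne_top ν _)
  have hv2B : ∀ ξ, v2 ξ ≤ B := by
    intro ξ
    rw [hv2, hB]
    simp only
    rw [← lintegral_const]
    apply lintegral_mono
    intro y
    simp only
    gcongr
    rw [← ofReal_norm]
    exact ENNReal.ofReal_le_ofReal (hC ξ y)
  have hv2fin : ∀ ξ, v2 ξ ≠ ∞ := fun ξ => ((hv2B ξ).trans_lt hBfin.lt_top).ne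
  obtain ⟨V, hV⟩ : ∃ V : ℂ → ℝ, V = fun ξ => Real.sqrt (v2 ξ).toReal := ⟨_, rfl⟩
  have hVm : Measurable V := by
    rw [hV]
    exact (hv2m.ennreal_toReal).sqrt
  have hV0 : ∀ ξ, 0 ≤ V ξ := by
    intro ξ
    rw [hV]
    exact Real.sqrt_nonneg _
  have hVsq : ∀ ξ, ENNReal.ofReal (V ξ ^ 2) = v2 ξ := by
    intro ξ
    rw [hV]
    simp only
    rw [Real.sq_sqrt ENNReal.toReal_nonneg, ENNReal.ofReal_toReal (hv2fin ξ)]
  have hVB : ∀ ξ, V ξ ≤ Real.sqrt B.toReal := by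
    intro ξ
    rw [hV]
    exact Real.sqrt_le_sqrt (ENNReal.toReal_mono hBfin (hv2B ξ))
  have hVs : ∀ ξ, (‖ξ‖ < c1 ∨ c2 < ‖ξ‖) → V ξ = 0 := by
    intro ξ hξ
    rw [hV, hv2]
    simp only
    have : ∀ y, ‖U ξ y‖ₑ ^ 2 = 0 := by
      intro y
      rw [hsupp ξ y hξ]
      simp
    simp only [this, lintegral_zero]
    simp
  have hUD : ∀ η : ℝ, 0 < η → UD ν c1 c2 U (fun ξ => ‖ξ‖ ^ 2 * V ξ + η) := by
    intro η hη
    refine ⟨hU, hc1, hsupp, ⟨C, hC⟩, ?_, ?_, ?_, ?_⟩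
    · exact ((measurable_norm.pow_const 2).mul hVm).add_const η
    · refine ⟨η, hη, fun ξ => ?_⟩
      have := mul_nonneg (sq_nonneg ‖ξ‖) (hV0 ξ)
      linarith
    · refine ⟨c2 ^ 2 * Real.sqrt B.toReal + η, fun ξ => ?_⟩
      have hs0 : 0 ≤ c2 ^ 2 * Real.sqrt B.toReal := by positivity
      by_cases hξ : ‖ξ‖ < c1 ∨ c2 < ‖ξ‖
      · rw [hVs ξ hξ, mul_zero]
        linarith
      · rw [not_or, not_lt, not_lt] at hξ
        have h1 : ‖ξ‖ ^ 2 ≤ c2 ^ 2 := pow_le_pow_left₀ (norm_nonneg _) hξ.2 2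
        have h2 := mul_le_mul h1 (hVB ξ) (hV0 ξ) (sq_nonneg c2)
        linarith
    · intro ξ
      have h1 : ∫⁻ y, ‖U ξ y‖ₑ ^ 2 ∂ν = v2 ξ := by rw [hv2]
      rw [h1, ← hVsq ξ]
      apply ENNReal.ofReal_le_ofReal
      by_cases hξ : ‖ξ‖ < c1 ∨ c2 < ‖ξ‖
      · rw [hVs ξ hξ]
        simp only [ne_eq, OfNat.ofNat_ne_zero, not_false_eq_true, zero_pow]
        positivity
      · rw [not_or, not_lt, not_lt] at hξ
        have hξ0 : 0 < ‖ξ‖ := hc1.trans_le hξ.1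
        apply pow_le_pow_left₀ (hV0 ξ)
        rw [mul_add, ← mul_assoc, inv_mul_cancel₀ (pow_pos hξ0 2).ne', one_mul]
        have : 0 ≤ (‖ξ‖ ^ 2)⁻¹ * η := by positivity
        linarith
  have hmain : ∀ n : ℕ, ∫⁻ x : ℂ, (uH ν U x) ^ p ≤
      ENNReal.ofReal (Real.pi ^ (p - 2) * A ^ p) *
        I3_S c1 c2 (fun ξ => ‖ξ‖ ^ 2 * V ξ + 1 / ((n : ℝ) + 1)) p := by
    intro n
    apply I3_limN ν U hU p hp0
    intro N hN
    exact core ν hν c1 c2 U _ (hUD _ (by positivity)) N hN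
  have hlim : Tendsto (fun n : ℕ => ENNReal.ofReal (Real.pi ^ (p - 2) * A ^ p) *
      I3_S c1 c2 (fun ξ => ‖ξ‖ ^ 2 * V ξ + 1 / ((n : ℝ) + 1)) p) atTop
      (𝓝 (ENNReal.ofReal (Real.pi ^ (p - 2) * A ^ p) *
        ∫⁻ ξ in Ann c1 c2, ENNReal.ofReal ((‖ξ‖ ^ 4)⁻¹ * (‖ξ‖ ^ 2 * V ξ) ^ p))) := by
    apply ENNReal.Tendsto.const_mul _ (Or.inr ENNReal.ofReal_ne_top)
    unfold I3_S
    apply tendsto_lintegral_of_dominated_convergence
      (fun _ => ENNReal.ofReal ((c1 ^ 4)⁻¹ * (c2 ^ 2 * Real.sqrt B.toReal + 1) ^ p))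
    · intro n
      apply Measurable.ennreal_ofReal
      exact ((measurable_norm.pow_const 4).inv).mul
        ((((measurable_norm.pow_const 2).mul hVm).add_const _).pow_const p)
    · intro n
      apply (ae_restrict_iff' (I3_Ann_meas c1 c2)).mpr
      refine Eventually.of_forall fun ξ hξ => ?_
      apply ENNReal.ofReal_le_ofReal
      have hξ0 : 0 < ‖ξ‖ := hc1.trans_le hξ.1
      have h1 : (‖ξ‖ ^ 4)⁻¹ ≤ (c1 ^ 4)⁻¹ :=
        inv_anti₀ (pow_pos hc1 4) (pow_le_pow_left₀ hc1.le hξ.1 4)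
      have h2 : ‖ξ‖ ^ 2 ≤ c2 ^ 2 := pow_le_pow_left₀ (norm_nonneg _) hξ.2 2
      have h3 := mul_le_mul h2 (hVB ξ) (hV0 ξ) (sq_nonneg c2)
      have h4 : 1 / ((n : ℝ) + 1) ≤ 1 := by
        rw [div_le_one (by positivity)]
        have : (0 : ℝ) ≤ n := Nat.cast_nonneg n
        linarith
      have h5 : 0 ≤ ‖ξ‖ ^ 2 * V ξ := mul_nonneg (sq_nonneg _) (hV0 ξ)
      have h6 : 0 ≤ 1 / ((n : ℝ) + 1) := by positivity
      apply mul_le_mul h1 _ (Real.rpow_nonneg (by linarith) _) (by positivity)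
      exact Real.rpow_le_rpow (by linarith) (by linarith) hp0.le
    · rw [lintegral_const, Measure.restrict_apply_univ]
      exact ENNReal.mul_ne_top ENNReal.ofReal_ne_top (I3_Ann_fin c1 c2)
    · refine Eventually.of_forall fun ξ => ?_
      apply ENNReal.tendsto_ofReal
      apply Tendsto.const_mul
      have h1 : Tendsto (fun n : ℕ => ‖ξ‖ ^ 2 * V ξ + 1 / ((n : ℝ) + 1)) atTop
          (𝓝 (‖ξ‖ ^ 2 * V ξ)) := by
        have := (tendsto_one_div_add_atTop_nhds_zero_nat (𝕜 := ℝ)).const_add (‖ξ‖ ^ 2 * V ξ)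
        rwa [add_zero] at this
      exact h1.rpow_const (Or.inr hp0.le)
  have hle := ge_of_tendsto' hlim hmain
  refine hle.trans ?_
  refine mul_le_mul' le_rfl ?_
  have hset : ∫⁻ ξ in Ann c1 c2, ENNReal.ofReal ((‖ξ‖ ^ 4)⁻¹ * (‖ξ‖ ^ 2 * V ξ) ^ p) ≤
      ∫⁻ ξ in Ann c1 c2, ‖ξ‖ₑ ^ (2 * p - 4) * (∫⁻ y, ‖U ξ y‖ₑ ^ 2 ∂ν) ^ (p / 2) := by
    apply setLIntegral_mono' (I3_Ann_meas c1 c2)
    intro ξ hξ
    have hξ0 : 0 < ‖ξ‖ := hc1.trans_le hξ.1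
    have h1 : ∫⁻ y, ‖U ξ y‖ₑ ^ 2 ∂ν = v2 ξ := by rw [hv2]
    rw [h1, ← hVsq ξ, ← ofReal_norm, ENNReal.ofReal_rpow_of_pos hξ0,
      ENNReal.ofReal_rpow_of_nonneg (sq_nonneg _) (by positivity),
      ← ENNReal.ofReal_mul (by positivity)]
    apply le_of_eq
    congr 1
    rw [Real.mul_rpow (sq_nonneg _) (hV0 ξ), ← mul_assoc]
    congr 1
    · rw [Real.rpow_sub hξ0, ← Real.rpow_natCast ‖ξ‖ 2, ← Real.rpow_mul hξ0.le]
      have : ‖ξ‖ ^ (4 : ℝ) = ‖ξ‖ ^ (4 : ℕ) := by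
        rw [← Real.rpow_natCast]
        norm_num
      rw [this, div_eq_mul_inv, mul_comm]
      push_cast
      rfl
    · rw [← Real.rpow_natCast (V ξ) 2, ← Real.rpow_mul (hV0 ξ)]
      congr 1
      push_cast
      ring
  exact hset.trans (setLIntegral_le_lintegral _ _)

/-- **Pitt inequality for `p = 24/5`** -/
theorem pitt46 : HasPitt (24 / 5) C46 := by
  apply I3_pitt_of_core (24 / 5) C46 (by norm_num)
  intro ν hν c1 c2 U Ψ hU N hN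
  exact I3_core ν c1 c2 U Ψ hU N hN

end Helper85.BP.P
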