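import Pool.Agent.Helper72.BAM.FL
import Pool.Agent.Helper72.BAM.Fin
import Pool.Agent.Helper85.BP.Defs
import Pool.Agent.Helper85.BPM.R3
import Pool.Agent.Helper85.BPM.R4a
import Pool.Agent.Helper85.BPM.R4b

/-!
# MP_3dd6d4_an, all-p extension, module R5 : the local means `bj` (helper57)
-/

set_option autoImplicit false

open MeasureTheory Complex FourierTransform Filter Topology
open scoped ENNReal NNReal ComplexConjugate

noncomputable section

namespace Helper85.BP.P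

open Helper72.BA Helper85.BP

/-- Jensen inequality with a real exponent -/
theorem R5_jensen {a g : ℂ → ℝ≥0∞} (ha : Measurable a) (hg : Measurable g) (q : ℝ) (hq : 1 ≤ q) :
    (∫⁻ w, a w * g w) ^ q ≤ (∫⁻ w, a w) ^ (q - 1) * ∫⁻ w, a w * g w ^ q := by
  rcases hq.eq_or_lt with h1 | h1
  · rw [← h1]
    simp
  · have hq0 : (0 : ℝ) < q := by linarith
    have hq1 : 0 < q - 1 := by linarith
    have hconj : Real.HolderConjugate (q / (q - 1) : ℝ) q := by
      rw [Real.holderConjugate_iff]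
      refine ⟨?_, ?_⟩
      · rw [one_lt_div (by linarith)]
        linarith
      · rw [inv_div]
        field_simp
        ring
    have hp0 : 0 < (q / (q - 1) : ℝ) := hconj.pos
    have hsum : 1 / (q / (q - 1) : ℝ) + 1 / q = 1 := by
      rw [one_div_div]
      field_simp
      ring
    have h2 : ∀ w, a w * g w = (a w ^ (1 / (q / (q - 1) : ℝ))) * (a w ^ (1 / q : ℝ) * g w) := by
      intro w
      rw [← mul_assoc, ← ENNReal.rpow_add_of_nonneg _ _ (by positivity) (by positivity), hsum,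
        ENNReal.rpow_one]
    have h3 := ENNReal.lintegral_mul_le_Lp_mul_Lq volume hconj
      (f := fun w => a w ^ (1 / (q / (q - 1) : ℝ))) (g := fun w => a w ^ (1 / q : ℝ) * g w)
      (ha.pow_const _).aemeasurable ((ha.pow_const _).mul hg).aemeasurable
    have h4 : (∫⁻ w, a w * g w) ≤ (∫⁻ w, a w) ^ (1 / (q / (q - 1) : ℝ)) *
        (∫⁻ w, a w * g w ^ q) ^ (1 / q : ℝ) := by
      calc (∫⁻ w, a w * g w) = ∫⁻ w, ((fun w => a w ^ (1 / (q / (q - 1) : ℝ))) *
            (fun w => a w ^ (1 / q : ℝ) * g w)) w := lintegral_congr h2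
        _ ≤ _ := h3
        _ = _ := by
            congr 2
            · refine lintegral_congr fun w => ?_
              rw [← ENNReal.rpow_mul, one_div_mul_cancel hp0.ne', ENNReal.rpow_one]
            · refine lintegral_congr fun w => ?_
              rw [ENNReal.mul_rpow_of_nonneg _ _ hq0.le, ← ENNReal.rpow_mul,
                one_div_mul_cancel hq0.ne', ENNReal.rpow_one]
    calc (∫⁻ w, a w * g w) ^ q ≤ ((∫⁻ w, a w) ^ (1 / (q / (q - 1) : ℝ)) *
        (∫⁻ w, a w * g w ^ q) ^ (1 / q : ℝ)) ^ q := ENNReal.rpow_le_rpow h4 hq0.le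
      _ = _ := by
        rw [ENNReal.mul_rpow_of_nonneg _ _ hq0.le, ← ENNReal.rpow_mul, ← ENNReal.rpow_mul,
          one_div_mul_cancel hq0.ne', ENNReal.rpow_one]
        congr 2
        rw [one_div_div]
        field_simp

theorem R5_gamN_cont (N : ℕ) (ρ : ℝ) : Continuous (gamN N ρ) := by
  unfold gamN
  refine continuous_const.mul (Continuous.inv₀ (by fun_prop) fun z => ?_)
  have : 0 < 1 + ‖z‖ ^ 2 / ρ ^ 2 := by positivity
  positivity

theorem R5_gamN_nonneg (N : ℕ) (ρ : ℝ) (z : ℂ) : 0 ≤ gamN N ρ z := by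
  unfold gamN
  positivity

theorem R5_gamN_symm (N : ℕ) (ρ : ℝ) (z w : ℂ) : gamN N ρ (z - w) = gamN N ρ (w - z) := by
  unfold gamN
  rw [norm_sub_rev]

/-- Cauchy–Schwarz against a kernel dominated by `gamN` -/
theorem R5_cs (N : ℕ) (ρ : ℝ) (C2 : ℝ) (z : ℂ)
    (hmass : ∫⁻ w, ENNReal.ofReal (gamN N ρ (z - w)) ≤ ENNReal.ofReal C2)
    (k g : ℂ → ℂ) (M : ℝ) (hM : 0 ≤ M) (hk : ∀ w, ‖k w‖ ≤ M * gamN N ρ (z - w))
    (hg : Measurable g) :
    ‖∫ w, k w * g w‖ₑ ^ 2 ≤ ENNReal.ofReal (M ^ 2 * C2) *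
      ∫⁻ w, ENNReal.ofReal (gamN N ρ (z - w)) * ‖g w‖ₑ ^ 2 := by
  have hma : Measurable fun w : ℂ => ENNReal.ofReal (gamN N ρ (z - w)) :=
    ((R5_gamN_cont N ρ).measurable.comp (measurable_const.sub measurable_id)).ennreal_ofReal
  have hmul : Measurable fun w : ℂ => ENNReal.ofReal (gamN N ρ (z - w)) * ‖g w‖ₑ :=
    hma.mul hg.enorm
  have h1 : ‖∫ w, k w * g w‖ₑ ≤ ENNReal.ofReal M *
      ∫⁻ w, ENNReal.ofReal (gamN N ρ (z - w)) * ‖g w‖ₑ := by
    rw [← lintegral_const_mul _ hmul]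
    refine (enorm_integral_le_lintegral_enorm _).trans (lintegral_mono fun w => ?_)
    rw [enorm_mul, ← mul_assoc, ← ENNReal.ofReal_mul hM]
    refine mul_le_mul_left ?_ _
    rw [← ofReal_norm]
    exact ENNReal.ofReal_le_ofReal (hk w)
  have h2 := R5_jensen hma hg.enorm 2 (by norm_num)
  have e1 : (2 : ℝ) - 1 = 1 := by norm_num
  rw [e1, ENNReal.rpow_one, ENNReal.rpow_two] at h2
  simp only [ENNReal.rpow_two] at h2
  calc ‖∫ w, k w * g w‖ₑ ^ 2 ≤ (ENNReal.ofReal M *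
      ∫⁻ w, ENNReal.ofReal (gamN N ρ (z - w)) * ‖g w‖ₑ) ^ 2 := by gcongr
    _ = ENNReal.ofReal M ^ 2 *
        (∫⁻ w, ENNReal.ofReal (gamN N ρ (z - w)) * ‖g w‖ₑ) ^ 2 := mul_pow _ _ _
    _ ≤ ENNReal.ofReal M ^ 2 * (ENNReal.ofReal C2 *
        ∫⁻ w, ENNReal.ofReal (gamN N ρ (z - w)) * ‖g w‖ₑ ^ 2) := by
        gcongr
        exact h2.trans (by gcongr)
    _ = _ := by
        rw [ENNReal.ofReal_mul (by positivity), ENNReal.ofReal_pow hM, mul_assoc]

/-- integrability of the integrand of a convolution -/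
theorem R5_integrable {K f : ℂ → ℂ} (hK : Ker K) (hf : Nice f) (z : ℂ) :
    Integrable (fun w => K (z - w) * f w) := by
  obtain ⟨s, rfl⟩ := hK
  obtain ⟨C, hC⟩ := (s.toBoundedContinuousFunction).isBounded_range.exists_norm_le
  refine hf.int.bdd_mul (c := C) ?_ ?_
  · exact (s.continuous.comp (continuous_const.sub continuous_id)).aestronglyMeasurable
  · exact Eventually.of_forall fun w => hC _ ⟨z - w, rfl⟩

theorem reproduce (N : ℕ) (hN : 2 ≤ N) : ∃ C : ℝ, 0 < C ∧ ∀ i : ℤ, ∀ g : ℂ → ℂ, Nice g →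
    Continuous g → (∀ z, g z = cv (kap i) g z) → ∀ z u : ℂ,
    ‖g z‖ₑ ^ 2 ≤ ENNReal.ofReal C * ∫⁻ w, ENNReal.ofReal (gamN N ((2:ℝ) ^ (-i)) (z - w)) * ‖g w‖ₑ ^ 2 ∧
    ‖g z - g (z - u)‖ₑ ^ 2 ≤ ENNReal.ofReal (C * ((2:ℝ) ^ i * ‖u‖) ^ 2 *
        (1 + ((2:ℝ) ^ i * ‖u‖) ^ 2) ^ (2 * N)) *
      ∫⁻ w, ENNReal.ofReal (gamN N ((2:ℝ) ^ (-i)) (z - w)) * ‖g w‖ₑ ^ 2 := by
  obtain ⟨C1, hC1, h1⟩ := kap_decay N
  obtain ⟨C2, hC2, h2⟩ := gamN_mass N hN
  refine ⟨C1 ^ 2 * C2, by positivity, ?_⟩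
  intro i g hg _ hrep z u
  have hρ : (0 : ℝ) < (2:ℝ) ^ (-i) := by positivity
  have hm := h2 _ hρ z
  constructor
  · have h3 := R5_cs N _ C2 z hm (fun w => kap i (z - w)) g C1 hC1.le
      (fun w => (h1 i (z - w) 0).1) hg.meas
    have e : g z = ∫ w, kap i (z - w) * g w := hrep z
    rw [← e] at h3
    exact h3
  · set M : ℝ := C1 * ((2:ℝ) ^ i * ‖u‖) * (1 + ((2:ℝ) ^ i * ‖u‖) ^ 2) ^ N with hM
    have h3 := R5_cs N _ C2 z hm (fun w => kap i (z - w) - kap i (z - u - w)) g M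
      (by positivity) (fun w => by
        have e : z - u - w = z - w - u := by ring
        rw [e]
        exact (h1 i (z - w) u).2) hg.meas
    have e : g z - g (z - u) = ∫ w, (kap i (z - w) - kap i (z - u - w)) * g w := by
      rw [hrep z, hrep (z - u)]
      unfold cv
      rw [← integral_sub (R5_integrable (Helper72.BA.P.ker_kap i) hg z)
        (R5_integrable (Helper72.BA.P.ker_kap i) hg (z - u))]
      refine integral_congr_ae (Eventually.of_forall fun w => ?_)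
      simp only
      ring
    rw [← e] at h3
    have e2 : M ^ 2 * C2 = C1 ^ 2 * C2 * ((2:ℝ) ^ i * ‖u‖) ^ 2 *
        (1 + ((2:ℝ) ^ i * ‖u‖) ^ 2) ^ (2 * N) := by
      rw [hM]
      ring
    rw [e2] at h3
    exact h3

theorem gj_reproduce (n : ℕ) (j i : ℤ) (hij : j + 1 ≤ i) (f : ℂ → ℂ) (hf : Nice f) (z : ℂ) :
    gj n j f z = cv (kap i) (gj n j f) z := by
  rw [Helper72.BA.P.FL.cv_kap_eq n (by omega) hf]

theorem bj_X (N : ℕ) (hN : 2 ≤ N) (p : ℝ) (hp : 2 ≤ p) : ∃ C : ℝ, 0 < C ∧ ∀ n : ℕ, 1 ≤ n →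
    ∀ A : Finset ℤ, ∀ f : ℂ → ℂ, Nice f →
    ∑ j ∈ A, ∫⁻ z, (bj N n j f z) ^ (p / 2) ≤ ENNReal.ofReal (C * (n:ℝ) ^ (p - 2)) * nrp p f := by
  obtain ⟨C1, hC1, h1⟩ := X_real
  obtain ⟨C2, hC2, h2⟩ := gamN_mass N hN
  refine ⟨C2 ^ (p / 2) * C1 ^ (p - 2), by positivity, ?_⟩
  intro n hn A f hf
  have key : ∀ j ∈ A, ∫⁻ z, (bj N n j f z) ^ (p / 2) ≤
      ENNReal.ofReal (C2 ^ (p / 2)) * nrp p (gj n j f) := by
    intro j _
    set ρ : ℝ := (2:ℝ) ^ (-j) with hρd
    have hρ : 0 < ρ := by positivity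
    have hg : Nice (gj n j f) := Helper72.BA.P.FL.nice_gj n j hf
    have hgm : Measurable fun w => ‖gj n j f w‖ₑ ^ 2 := hg.meas.enorm.pow_const 2
    have hgp : Measurable fun w => ‖gj n j f w‖ₑ ^ p := hg.meas.enorm.pow_const p
    have hK : Measurable (fun q : ℂ × ℂ => ENNReal.ofReal (gamN N ρ (q.1 - q.2))) :=
      ((R5_gamN_cont N ρ).measurable.comp (measurable_fst.sub measurable_snd)).ennreal_ofReal
    have hma : ∀ z : ℂ, Measurable fun w : ℂ => ENNReal.ofReal (gamN N ρ (z - w)) := fun z =>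
      ((R5_gamN_cont N ρ).measurable.comp (measurable_const.sub measurable_id)).ennreal_ofReal
    have e1 : ∀ w, (‖gj n j f w‖ₑ ^ 2) ^ (p / 2) = ‖gj n j f w‖ₑ ^ p := by
      intro w
      rw [← ENNReal.rpow_two, ← ENNReal.rpow_mul]
      congr 1
      ring
    calc ∫⁻ z, (bj N n j f z) ^ (p / 2) ≤ ∫⁻ z, ENNReal.ofReal C2 ^ (p / 2 - 1) *
          ∫⁻ w, ENNReal.ofReal (gamN N ρ (z - w)) * ‖gj n j f w‖ₑ ^ p := by
          refine lintegral_mono fun z => ?_
          refine (R5_jensen (hma z) hgm (p / 2) (by linarith)).trans ?_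
          simp only [e1]
          gcongr
          · linarith
          · exact h2 ρ hρ z
      _ = ENNReal.ofReal C2 ^ (p / 2 - 1) * ∫⁻ z,
          ∫⁻ w, ENNReal.ofReal (gamN N ρ (z - w)) * ‖gj n j f w‖ₑ ^ p := by
          rw [lintegral_const_mul]
          exact Measurable.lintegral_prod_right' (f := fun q : ℂ × ℂ =>
            ENNReal.ofReal (gamN N ρ (q.1 - q.2)) * ‖gj n j f q.2‖ₑ ^ p)
            (hK.mul (hgp.comp measurable_snd))
      _ = ENNReal.ofReal C2 ^ (p / 2 - 1) * ∫⁻ w, ‖gj n j f w‖ₑ ^ p *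
          ∫⁻ z, ENNReal.ofReal (gamN N ρ (w - z)) := by
          congr 1
          rw [lintegral_lintegral_swap]
          · refine lintegral_congr fun w => ?_
            rw [← lintegral_const_mul _ (hma w)]
            refine lintegral_congr fun z => ?_
            rw [R5_gamN_symm, mul_comm]
          · exact (hK.mul (hgp.comp measurable_snd)).aemeasurable
      _ ≤ ENNReal.ofReal C2 ^ (p / 2 - 1) * ∫⁻ w, ‖gj n j f w‖ₑ ^ p * ENNReal.ofReal C2 := by
          gcongr with w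
          exact h2 ρ hρ w
      _ = ENNReal.ofReal (C2 ^ (p / 2)) * nrp p (gj n j f) := by
          rw [lintegral_mul_const _ hgp, nrp, ← ENNReal.ofReal_rpow_of_pos hC2]
          have e2 : ENNReal.ofReal C2 ^ (p / 2) =
              ENNReal.ofReal C2 ^ (p / 2 - 1) * ENNReal.ofReal C2 := by
            nth_rw 3 [← ENNReal.rpow_one (ENNReal.ofReal C2)]
            rw [← ENNReal.rpow_add_of_nonneg _ _ (by linarith) zero_le_one]
            congr 1
            ring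
          rw [e2]
          ring
  calc ∑ j ∈ A, ∫⁻ z, (bj N n j f z) ^ (p / 2) ≤
      ∑ j ∈ A, ENNReal.ofReal (C2 ^ (p / 2)) * nrp p (gj n j f) := Finset.sum_le_sum key
    _ = ENNReal.ofReal (C2 ^ (p / 2)) * ∑ j ∈ A, nrp p (gj n j f) := by rw [Finset.mul_sum]
    _ ≤ ENNReal.ofReal (C2 ^ (p / 2)) * (ENNReal.ofReal ((C1 * n) ^ (p - 2)) * nrp p f) := by
        gcongr
        exact h1 n hn A p hp f hf
    _ = ENNReal.ofReal (C2 ^ (p / 2) * C1 ^ (p - 2) * (n:ℝ) ^ (p - 2)) * nrp p f := by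
        rw [← mul_assoc, ← ENNReal.ofReal_mul (by positivity),
          Real.mul_rpow hC1.le (Nat.cast_nonneg _), mul_assoc (C2 ^ (p / 2))]

end Helper85.BP.P
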