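import Pool.Agent.Helper72.BAM.RT2
import Pool.Agent.Helper85.BP.Defs

/-! Module R1 of MP_3dd6d4_an (all real exponents): Riesz–Thorin between `2` and `Q`,
Hilbert space valued. -/

set_option autoImplicit false

open MeasureTheory Complex FourierTransform Filter Topology
open scoped ENNReal NNReal ComplexConjugate

noncomputable section

namespace Helper85.BP.P

open Helper72.BA Helper85.BP

namespace R1aux

open Helper72.BA.P.RT2aux (Good good_exp three_lines cauchy integrable_pair enorm_pair_le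
  pair_self memLp_two_iff level_sum ind vals nice_zero nice_smul nice_sub nice_sum nice_ind
  sum_ind sum_ind_self sw sw_fin sw_le sw_mono sw_tendsto nice_lp exists_approx)

/-! ### finite families -/

section family

variable {X Y : Type*} [MeasurableSpace X] [MeasurableSpace Y] {ν : Measure Y}
  (C : Finset ℂ) (h : ℂ → X → Y → ℂ)

/-- linear combinations of the family -/
def FF (a : ℂ → ℂ) (x : X) (y : Y) : ℂ := ∑ c ∈ C, a c * h c x y

/-- their norms in `L²(ν)` -/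
def NN (ν : Measure Y) (a : ℂ → ℂ) (x : X) : ℝ≥0∞ :=
  (∫⁻ y, ‖FF C h a x y‖ₑ ^ 2 ∂ν) ^ (1 / 2 : ℝ)

/-- the normalised pairing with `F = ∑ c h_c` -/
def gg (ν : Measure Y) (c : ℂ) (x : X) : ℂ :=
  ((NN C h ν id x).toReal⁻¹ : ℝ) * ∫ y, h c x y * conj (FF C h id x y) ∂ν

variable (hm : ∀ c, Measurable (Function.uncurry (h c)))

include hm

theorem FF_meas (a : ℂ → ℂ) : Measurable (Function.uncurry (FF C h a)) := by
  have : Function.uncurry (FF C h a) = fun q : X × Y => ∑ c ∈ C, a c * Function.uncurry (h c) q := by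
    ext ⟨x, y⟩; rfl
  rw [this]
  refine Finset.measurable_sum _ fun c _ => ?_
  exact (hm c).const_mul _

theorem FF_meas' (a : ℂ → ℂ) (x : X) : Measurable (FF C h a x) :=
  (FF_meas C h hm a).comp measurable_prodMk_left

theorem h_meas' (c : ℂ) (x : X) : Measurable (h c x) :=
  (hm c).comp measurable_prodMk_left

theorem NN_meas [SigmaFinite ν] (a : ℂ → ℂ) : Measurable (NN C h ν a) := by
  unfold NN
  refine Measurable.pow_const ?_ _
  exact Measurable.lintegral_prod_right' (f := fun q : X × Y => ‖FF C h a q.1 q.2‖ₑ ^ 2)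
    (((FF_meas C h hm a).enorm).pow_const 2)

theorem gg_meas [SigmaFinite ν] (c : ℂ) : Measurable (gg C h ν c) := by
  unfold gg
  refine Measurable.mul ?_ ?_
  · exact Complex.measurable_ofReal.comp (NN_meas C h hm id).ennreal_toReal.inv
  · refine StronglyMeasurable.measurable ?_
    exact StronglyMeasurable.integral_prod_right' (f := fun q : X × Y =>
      h c q.1 q.2 * conj (FF C h id q.1 q.2))
      ((hm c).mul (Complex.continuous_conj.measurable.comp (FF_meas C h hm id))).stronglyMeasurable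

variable (hF : ∀ c ∈ C, ∀ x, ∫⁻ y, ‖h c x y‖ₑ ^ 2 ∂ν < ∞)

include hF

theorem FF_lt_top (a : ℂ → ℂ) (x : X) : ∫⁻ y, ‖FF C h a x y‖ₑ ^ 2 ∂ν < ∞ := by
  rw [← memLp_two_iff (FF_meas' C h hm a x)]
  refine memLp_finsetSum _ fun c hc => ?_
  refine MemLp.const_mul ?_ _
  rw [memLp_two_iff (h_meas' h hm c x)]
  exact hF c hc x

theorem NN_lt_top (a : ℂ → ℂ) (x : X) : NN C h ν a x < ∞ :=
  ENNReal.rpow_lt_top_of_nonneg (by norm_num) (FF_lt_top C h hm hF a x).ne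

theorem sum_gg (a : ℂ → ℂ) (x : X) :
    ∑ c ∈ C, a c * gg C h ν c x = ((NN C h ν id x).toReal⁻¹ : ℝ) *
      ∫ y, FF C h a x y * conj (FF C h id x y) ∂ν := by
  have e : ∀ y, FF C h a x y * conj (FF C h id x y) =
      ∑ c ∈ C, a c * (h c x y * conj (FF C h id x y)) := by
    intro y
    conv_lhs => rw [FF, Finset.sum_mul]
    exact Finset.sum_congr rfl fun c _ => by ring
  simp_rw [e]
  rw [integral_finsetSum]
  · rw [Finset.mul_sum]
    refine Finset.sum_congr rfl fun c _ => ?_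
    rw [integral_const_mul, gg]
    ring
  · intro c hc
    refine Integrable.const_mul ?_ _
    exact integrable_pair (h_meas' h hm c x) (FF_meas' C h hm id x)
      (hF c hc x) (FF_lt_top C h hm hF id x)

theorem enorm_sum_gg_le (a : ℂ → ℂ) (x : X) :
    ‖∑ c ∈ C, a c * gg C h ν c x‖ₑ ≤ NN C h ν a x := by
  rw [sum_gg C h hm hF a x, enorm_mul]
  have h1 := enorm_pair_le (ν := ν) (FF_meas' C h hm a x) (FF_meas' C h hm id x)
  have h2 : ‖((((NN C h ν id x).toReal⁻¹ : ℝ)) : ℂ)‖ₑ ≤ (NN C h ν id x)⁻¹ := by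
    rw [← ofReal_norm, Complex.norm_real, Real.norm_of_nonneg (by positivity)]
    by_cases h0 : NN C h ν id x = 0
    · rw [h0]; simp
    · rw [ENNReal.ofReal_inv_of_pos (ENNReal.toReal_pos h0 (NN_lt_top C h hm hF id x).ne),
        ENNReal.ofReal_toReal (NN_lt_top C h hm hF id x).ne]
  calc _ ≤ (NN C h ν id x)⁻¹ * (NN C h ν a x * NN C h ν id x) := by
        gcongr
        exact h1
    _ = (NN C h ν id x * (NN C h ν id x)⁻¹) * NN C h ν a x := by ring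
    _ ≤ 1 * NN C h ν a x := by
        gcongr
        exact ENNReal.mul_inv_le_one _
    _ = _ := one_mul _

theorem sum_gg_self (x : X) :
    ∑ c ∈ C, c * gg C h ν c x = ((NN C h ν id x).toReal : ℂ) := by
  have h1 := sum_gg C h hm hF id x
  simp only [id_eq] at h1
  rw [h1, pair_self (FF_meas' C h hm id x)]
  have h2 : (∫⁻ y, ‖FF C h id x y‖ₑ ^ 2 ∂ν).toReal = (NN C h ν id x).toReal ^ 2 := by
    unfold NN
    rw [← ENNReal.toReal_pow, ← ENNReal.rpow_two, ← ENNReal.rpow_mul]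
    norm_num
  rw [h2]
  by_cases h0 : (NN C h ν id x).toReal = 0
  · rw [h0]; simp
  · push_cast
    field_simp

theorem norm_gg_le {c : ℂ} (hc : c ∈ C) (x : X) :
    ‖gg C h ν c x‖ₑ ≤ (∫⁻ y, ‖h c x y‖ₑ ^ 2 ∂ν) ^ (1 / 2 : ℝ) := by
  classical
  have h1 := enorm_sum_gg_le C h hm hF (fun c' => if c' = c then 1 else 0) x
  have e1 : ∑ c' ∈ C, (if c' = c then (1 : ℂ) else 0) * gg C h ν c' x = gg C h ν c x := by
    simp [hc]
  rw [e1] at h1
  refine h1.trans ?_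
  have e2 : ∀ y, FF C h (fun c' => if c' = c then 1 else 0) x y = h c x y := by
    intro y
    simp [FF, hc]
  unfold NN
  simp_rw [e2]
  exact le_rfl

end family

/-! ### exponential factors -/

/-- the exponential factor for the values -/
def phi (Q p : ℝ) (z : ℂ) (c : ℂ) : ℂ :=
  c * Complex.exp ((p * ((1 - z) / 2 + z / Q) - 1) * Real.log ‖c‖)

/-- the exponential factor for the weights -/
def lw (Q p : ℝ) (z : ℂ) (l : ℝ≥0) : ℂ :=
  Complex.exp ((p * ((1 + z) / 2 - z / Q)) * Real.log l)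

theorem norm_phi (Q p : ℝ) (z : ℂ) {c : ℂ} (hc : c ≠ 0) :
    ‖phi Q p z c‖ = ‖c‖ ^ (p * ((1 - z.re) / 2 + z.re / Q)) := by
  have hc' : 0 < ‖c‖ := norm_pos_iff.2 hc
  rw [phi, norm_mul, Complex.norm_exp]
  have : ((p * ((1 - z) / 2 + z / Q) - 1) * Real.log ‖c‖ : ℂ).re =
      Real.log ‖c‖ * (p * ((1 - z.re) / 2 + z.re / Q) - 1) := by
    have e : ((p * ((1 - z) / 2 + z / Q) - 1) * Real.log ‖c‖ : ℂ) =
        (Real.log ‖c‖ : ℂ) * (((p / 2 - 1 : ℝ) : ℂ) + ((p * (1 / Q - 1 / 2) : ℝ) : ℂ) * z) := by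
      push_cast
      ring
    rw [e, Complex.re_ofReal_mul, Complex.add_re, Complex.re_ofReal_mul, Complex.ofReal_re]
    ring
  rw [this, ← Real.rpow_def_of_pos hc']
  nth_rewrite 1 [← Real.rpow_one ‖c‖]
  rw [← Real.rpow_add hc']
  congr 1
  ring

theorem norm_lw (Q p : ℝ) (z : ℂ) {l : ℝ≥0} (hl : l ≠ 0) :
    ‖lw Q p z l‖ = (l : ℝ) ^ (p * ((1 + z.re) / 2 - z.re / Q)) := by
  have hl' : 0 < (l : ℝ) := by positivity
  rw [lw, Complex.norm_exp]
  have : ((p * ((1 + z) / 2 - z / Q)) * Real.log l : ℂ).re =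
      Real.log l * (p * ((1 + z.re) / 2 - z.re / Q)) := by
    have e : ((p * ((1 + z) / 2 - z / Q)) * Real.log l : ℂ) =
        (Real.log l : ℂ) * (((p / 2 : ℝ) : ℂ) + ((p * (1 / 2 - 1 / Q) : ℝ) : ℂ) * z) := by
      push_cast
      ring
    rw [e, Complex.re_ofReal_mul, Complex.add_re, Complex.re_ofReal_mul, Complex.ofReal_re]
    ring
  rw [this, ← Real.rpow_def_of_pos hl']

theorem enorm_lw (Q p : ℝ) (z : ℂ) {l : ℝ≥0} (hl : l ≠ 0) :
    ‖lw Q p z l‖ₑ = (l : ℝ≥0∞) ^ (p * ((1 + z.re) / 2 - z.re / Q)) := by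
  have hl' : 0 < (l : ℝ) := by positivity
  rw [← ofReal_norm, norm_lw Q p z hl, ← ENNReal.ofReal_rpow_of_pos hl', ENNReal.ofReal_coe_nnreal]

theorem phi_self (Q p θ : ℝ) (hθ : p * ((1 - θ) / 2 + θ / Q) = 1) (c : ℂ) :
    phi Q p (θ : ℂ) c = c := by
  rw [phi]
  have : ((p : ℂ) * ((1 - (θ : ℂ)) / 2 + θ / Q) - 1) = 0 := by
    have := congrArg (fun t : ℝ => (t : ℂ)) hθ
    push_cast at this
    rw [this]
    ring
  rw [this, zero_mul, Complex.exp_zero, mul_one]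

theorem lw_self (Q p θ : ℝ) (hθ : p * ((1 - θ) / 2 + θ / Q) = 1) {l : ℝ≥0} (hl : l ≠ 0) :
    lw Q p (θ : ℂ) l = (((l : ℝ) ^ (p - 1) : ℝ) : ℂ) := by
  have hl' : 0 < (l : ℝ) := by positivity
  rw [lw, Real.rpow_def_of_pos hl']
  push_cast
  congr 1
  have h1 : p * ((1 + θ) / 2 - θ / Q) = p - 1 := by
    have : p * ((1 + θ) / 2 - θ / Q) = p - p * ((1 - θ) / 2 + θ / Q) := by ring
    rw [this, hθ]
  have h2 := congrArg (fun t : ℝ => (t : ℂ)) h1
  push_cast at h2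
  rw [h2]
  ring

/-! ### the core estimate for simple data -/

section core

variable {X Y : Type*} [MeasurableSpace X] [MeasurableSpace Y] (ν : Measure Y)
  (C : Finset ℂ) (h : ℂ → X → Y → ℂ) (μ : Measure X)
  (s : SimpleFunc X ℝ≥0) (Q p : ℝ)

/-- the analytic function -/
def Phi (z : ℂ) : ℂ :=
  ∑ l ∈ s.range.filter (· ≠ 0), lw Q p z l *
    ∑ c ∈ C, phi Q p z c * ∫ x in s ⁻¹' {l}, gg C h ν c x ∂μ

theorem good_Phi : Good (Phi ν C h μ s Q p) := by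
  unfold Phi
  refine Good.sum _ _ fun l _ => ?_
  simp_rw [Finset.mul_sum]
  refine Good.sum _ _ fun c _ => ?_
  have e : (fun z : ℂ => lw Q p z l * (phi Q p z c * ∫ x in s ⁻¹' {l}, gg C h ν c x ∂μ)) =
      fun z => (c * ∫ x in s ⁻¹' {l}, gg C h ν c x ∂μ) * Complex.exp
        ((((p / 2 - 1) * Real.log ‖c‖ + p / 2 * Real.log l : ℝ) : ℂ) +
          ((p * (1 / Q - 1 / 2) * Real.log ‖c‖ + p * (1 / 2 - 1 / Q) * Real.log l : ℝ) : ℂ) * z) := by
    ext z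
    rw [lw, phi]
    have : Complex.exp ((((p / 2 - 1) * Real.log ‖c‖ + p / 2 * Real.log l : ℝ) : ℂ) +
          ((p * (1 / Q - 1 / 2) * Real.log ‖c‖ + p * (1 / 2 - 1 / Q) * Real.log l : ℝ) : ℂ) * z) =
        Complex.exp ((p * ((1 + z) / 2 - z / Q)) * Real.log l) *
          Complex.exp ((p * ((1 - z) / 2 + z / Q) - 1) * Real.log ‖c‖) := by
      rw [← Complex.exp_add]
      congr 1
      push_cast
      ring
    rw [this]
    ring
  rw [e]
  exact good_exp _ _ _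

variable [SigmaFinite ν] (hm : ∀ c, Measurable (Function.uncurry (h c)))
  (hF : ∀ c ∈ C, ∀ x, ∫⁻ y, ‖h c x y‖ₑ ^ 2 ∂ν < ∞)
  (hI : ∀ c ∈ C, ∫⁻ x, ∫⁻ y, ‖h c x y‖ₑ ^ 2 ∂ν ∂μ < ∞)
  (hsfin : ∀ l : ℝ≥0, l ≠ 0 → μ (s ⁻¹' {l}) < ∞)

include hm hF hI hsfin

theorem integrableOn_gg {c : ℂ} (hc : c ∈ C) {l : ℝ≥0} (hl : l ≠ 0) :
    IntegrableOn (gg C h ν c) (s ⁻¹' {l}) μ := by
  refine ⟨(gg_meas C h hm c).aestronglyMeasurable, ?_⟩
  have hmeas : Measurable fun x => ∫⁻ y, ‖h c x y‖ₑ ^ 2 ∂ν :=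
    Measurable.lintegral_prod_right' (f := fun q : X × Y => ‖h c q.1 q.2‖ₑ ^ 2)
      (((hm c).enorm).pow_const 2)
  have h1 : ∫⁻ x in s ⁻¹' {l}, ‖gg C h ν c x‖ₑ ∂μ ≤
      ∫⁻ x in s ⁻¹' {l}, (∫⁻ y, ‖h c x y‖ₑ ^ 2 ∂ν) ^ (1 / 2 : ℝ) * 1 ∂μ := by
    refine lintegral_mono fun x => ?_
    rw [mul_one]
    exact norm_gg_le C h hm hF hc x
  refine lt_of_le_of_lt h1 ?_
  have h2 := ENNReal.lintegral_mul_le_Lp_mul_Lq (μ.restrict (s ⁻¹' {l})) (p := 2) (q := 2)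
    (by norm_num [Real.holderConjugate_iff])
    (f := fun x => (∫⁻ y, ‖h c x y‖ₑ ^ 2 ∂ν) ^ (1 / 2 : ℝ)) (g := fun _ => (1 : ℝ≥0∞))
    (hmeas.pow_const _).aemeasurable measurable_const.aemeasurable
  refine lt_of_le_of_lt h2 ?_
  refine ENNReal.mul_lt_top ?_ ?_
  · refine ENNReal.rpow_lt_top_of_nonneg (by norm_num) ?_
    have e : ∀ x, ((∫⁻ y, ‖h c x y‖ₑ ^ 2 ∂ν) ^ (1 / 2 : ℝ)) ^ (2 : ℝ) =
        ∫⁻ y, ‖h c x y‖ₑ ^ 2 ∂ν := by
      intro x
      rw [← ENNReal.rpow_mul]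
      norm_num
    simp_rw [e]
    exact (lt_of_le_of_lt (setLIntegral_le_lintegral _ _) (hI c hc)).ne
  · refine ENNReal.rpow_lt_top_of_nonneg (by norm_num) ?_
    simpa using (hsfin l hl).ne

theorem enorm_Phi_le (z : ℂ) :
    ‖Phi ν C h μ s Q p z‖ₑ ≤ ∫⁻ x, (if s x = 0 then 0 else
      (s x : ℝ≥0∞) ^ (p * ((1 + z.re) / 2 - z.re / Q))) * NN C h ν (phi Q p z) x ∂μ := by
  unfold Phi
  rw [← level_sum μ s (fun l => (l : ℝ≥0∞) ^ (p * ((1 + z.re) / 2 - z.re / Q)))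
    (NN C h ν (phi Q p z)) (NN_meas C h hm _)]
  refine (enorm_sum_le _ _).trans (Finset.sum_le_sum fun l hl => ?_)
  have hl0 : l ≠ 0 := (Finset.mem_filter.1 hl).2
  rw [enorm_mul, enorm_lw Q p z hl0]
  gcongr
  have e : ∑ c ∈ C, phi Q p z c * ∫ x in s ⁻¹' {l}, gg C h ν c x ∂μ =
      ∫ x in s ⁻¹' {l}, ∑ c ∈ C, phi Q p z c * gg C h ν c x ∂μ := by
    rw [integral_finsetSum]
    · exact Finset.sum_congr rfl fun c _ => (integral_const_mul _ _).symm
    · intro c hc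
      exact (integrableOn_gg ν C h μ s hm hF hI hsfin hc hl0).const_mul _
  rw [e]
  refine (enorm_integral_le_lintegral_enorm _).trans ?_
  exact lintegral_mono fun x => enorm_sum_gg_le C h hm hF _ x

theorem Phi_theta (θ : ℝ) (hθ : p * ((1 - θ) / 2 + θ / Q) = 1) :
    ‖Phi ν C h μ s Q p (θ : ℂ)‖ₑ = ∫⁻ x, (if s x = 0 then 0 else
      (s x : ℝ≥0∞) ^ (p - 1)) * NN C h ν id x ∂μ := by
  have e : Phi ν C h μ s Q p (θ : ℂ) =
      ((∑ l ∈ s.range.filter (· ≠ 0), (l : ℝ) ^ (p - 1) *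
        ∫ x in s ⁻¹' {l}, (NN C h ν id x).toReal ∂μ : ℝ) : ℂ) := by
    unfold Phi
    rw [Complex.ofReal_sum]
    refine Finset.sum_congr rfl fun l hl => ?_
    have hl0 : l ≠ 0 := (Finset.mem_filter.1 hl).2
    rw [lw_self Q p θ hθ hl0, Complex.ofReal_mul]
    congr 1
    rw [← integral_complex_ofReal]
    simp_rw [phi_self Q p θ hθ, ← sum_gg_self C h hm hF]
    rw [integral_finsetSum]
    · exact Finset.sum_congr rfl fun c _ => (integral_const_mul _ _).symm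
    · intro c hc
      exact (integrableOn_gg ν C h μ s hm hF hI hsfin hc hl0).const_mul _
  have hint : ∀ l : ℝ≥0, l ≠ 0 →
      IntegrableOn (fun x => (NN C h ν id x).toReal) (s ⁻¹' {l}) μ := by
    intro l hl
    have h1 : IntegrableOn (fun x => (((NN C h ν id x).toReal : ℝ) : ℂ)) (s ⁻¹' {l}) μ := by
      simp_rw [← sum_gg_self C h hm hF]
      refine integrable_finsetSum _ fun c hc => ?_
      exact (integrableOn_gg ν C h μ s hm hF hI hsfin hc hl).const_mul _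
    exact h1.re
  rw [e, ← ofReal_norm, Complex.norm_real, Real.norm_of_nonneg (by positivity),
    ENNReal.ofReal_sum_of_nonneg fun l _ => by positivity,
    ← level_sum μ s (fun l => (l : ℝ≥0∞) ^ (p - 1)) _ (NN_meas C h hm id)]
  refine Finset.sum_congr rfl fun l hl => ?_
  have hl0 : l ≠ 0 := (Finset.mem_filter.1 hl).2
  have hl' : 0 < (l : ℝ) := by positivity
  rw [ENNReal.ofReal_mul (by positivity), ← ENNReal.ofReal_rpow_of_pos hl',
    ENNReal.ofReal_coe_nnreal, ofReal_integral_eq_lintegral_ofReal (hint l hl0)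
      (Eventually.of_forall fun x => ENNReal.toReal_nonneg)]
  congr 1
  refine lintegral_congr fun x => ?_
  exact ENNReal.ofReal_toReal (NN_lt_top C h hm hF id x).ne

end core

theorem real_final {I k p Q θ : ℝ} (hp : 0 < p) (hI : 0 ≤ I) (hk : 0 ≤ k)
    (hθ : p * ((1 - θ) / 2 + θ / Q) = 1)
    (H : I ≤ (I ^ (1 / 2 : ℝ) * k ^ (1 / 2 : ℝ)) ^ (1 - θ) *
      (I ^ (1 - 1 / Q) * k ^ (1 / Q)) ^ θ) :
    I ≤ k := by
  rcases hI.eq_or_lt with h0 | h0
  · rw [← h0]; exact hk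
  rcases hk.eq_or_lt with hk0 | hk0
  · exfalso
    -- `k = 0`
    rw [← hk0] at H
    by_cases hθ1 : θ = 1
    · rw [hθ1] at H hθ
      have hQ : Q ≠ 0 := by
        rintro rfl
        norm_num at hθ
      rw [Real.zero_rpow (one_div_ne_zero hQ), mul_zero, Real.rpow_one, mul_zero] at H
      linarith
    · rw [Real.zero_rpow (by norm_num : (1 / 2 : ℝ) ≠ 0), mul_zero,
        Real.zero_rpow (sub_ne_zero.2 (Ne.symm hθ1)), zero_mul] at H
      linarith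
  have e0 : (1 - θ) / 2 + θ / Q = 1 / p := by
    rw [eq_div_iff hp.ne', mul_comm]; exact hθ
  have e1 : (I ^ (1 / 2 : ℝ) * k ^ (1 / 2 : ℝ)) ^ (1 - θ) * (I ^ (1 - 1 / Q) * k ^ (1 / Q)) ^ θ =
      I ^ (1 - 1 / p) * k ^ (1 / p) := by
    rw [Real.mul_rpow (by positivity) (by positivity), Real.mul_rpow (by positivity) (by positivity),
      ← Real.rpow_mul hI, ← Real.rpow_mul hk, ← Real.rpow_mul hI, ← Real.rpow_mul hk]
    have : I ^ (1 / 2 * (1 - θ)) * k ^ (1 / 2 * (1 - θ)) *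
        (I ^ ((1 - 1 / Q) * θ) * k ^ (1 / Q * θ)) =
        (I ^ (1 / 2 * (1 - θ)) * I ^ ((1 - 1 / Q) * θ)) *
          (k ^ (1 / 2 * (1 - θ)) * k ^ (1 / Q * θ)) := by ring
    rw [this, ← Real.rpow_add h0, ← Real.rpow_add hk0]
    congr 2
    · have : 1 / 2 * (1 - θ) + (1 - 1 / Q) * θ = 1 - ((1 - θ) / 2 + θ / Q) := by ring
      rw [this, e0]
    · have : 1 / 2 * (1 - θ) + 1 / Q * θ = (1 - θ) / 2 + θ / Q := by ring
      rw [this, e0]
  rw [e1] at H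
  have e4 : I = I ^ (1 - 1 / p) * I ^ (1 / p) := by
    rw [← Real.rpow_add h0]
    simp
  have h1 : 0 < I ^ (1 - 1 / p) := by positivity
  have e5 : I ^ (1 / p) ≤ k ^ (1 / p) := by
    refine le_of_mul_le_mul_left (a := I ^ (1 - 1 / p)) ?_ h1
    rw [← e4]
    exact H
  have e6 := Real.rpow_le_rpow (by positivity) e5 hp.le
  rw [← Real.rpow_mul hI, ← Real.rpow_mul hk] at e6
  have e7 : 1 / p * p = 1 := by field_simp
  rw [e7, Real.rpow_one, Real.rpow_one] at e6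
  exact e6

section core2

variable {X Y : Type*} [MeasurableSpace X] [MeasurableSpace Y] (ν : Measure Y)
  (C : Finset ℂ) (h : ℂ → X → Y → ℂ) (μ : Measure X)
  (s : SimpleFunc X ℝ≥0) (Q p : ℝ)

theorem core_bound [SigmaFinite ν] (hm : ∀ c, Measurable (Function.uncurry (h c)))
    (hF : ∀ c ∈ C, ∀ x, ∫⁻ y, ‖h c x y‖ₑ ^ 2 ∂ν < ∞)
    (hI : ∀ c ∈ C, ∫⁻ x, ∫⁻ y, ‖h c x y‖ₑ ^ 2 ∂ν ∂μ < ∞)
    (hsfin : ∀ l : ℝ≥0, l ≠ 0 → μ (s ⁻¹' {l}) < ∞) (hQ : 2 < Q) (hp : 2 ≤ p) (hpQ : p ≤ Q)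
    (hs : ∀ x, (s x : ℝ≥0∞) ≤ NN C h ν id x) {K : ℝ≥0∞} (hK : K < ∞)
    (hb0 : ∀ z : ℂ, z.re = 0 → ∫⁻ x, NN C h ν (phi Q p z) x ^ (2 : ℝ) ∂μ ≤ K)
    (hb1 : ∀ z : ℂ, z.re = 1 → ∫⁻ x, NN C h ν (phi Q p z) x ^ Q ∂μ ≤ K) :
    ∫⁻ x, (s x : ℝ≥0∞) ^ p ∂μ ≤ K := by
  have hp0 : 0 < p := by linarith
  have hQ0 : 0 < Q := by linarith
  -- the parameter
  set θ : ℝ := (1 / 2 - 1 / p) / (1 / 2 - 1 / Q) with hθd
  have hden : 0 < 1 / 2 - 1 / Q := by
    have : 1 / Q < 1 / 2 := one_div_lt_one_div_of_lt (by norm_num) hQ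
    linarith
  have hnum : 0 ≤ 1 / 2 - 1 / p := by
    have : 1 / p ≤ 1 / 2 := one_div_le_one_div_of_le (by norm_num) hp
    linarith
  have hθ0 : 0 ≤ θ := by positivity
  have hθ1 : θ ≤ 1 := by
    rw [hθd, div_le_one hden]
    have : 1 / Q ≤ 1 / p := one_div_le_one_div_of_le hp0 hpQ
    linarith
  have hθ : p * ((1 - θ) / 2 + θ / Q) = 1 := by
    have h1 : θ * (1 / 2 - 1 / Q) = 1 / 2 - 1 / p := div_mul_cancel₀ _ hden.ne'
    have h2 : (1 - θ) / 2 + θ / Q = 1 / p := by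
      have : (1 - θ) / 2 + θ / Q = 1 / 2 - θ * (1 / 2 - 1 / Q) := by ring
      rw [this, h1]
      ring
    rw [h2]
    field_simp
  set I := ∫⁻ x, (s x : ℝ≥0∞) ^ p ∂μ with hIdef
  have hIfin : I < ∞ := by
    rw [hIdef]
    have e := level_sum μ s (fun l => (l : ℝ≥0∞) ^ p) (fun _ => 1) measurable_const
    have e2 : ∫⁻ x, (s x : ℝ≥0∞) ^ p ∂μ =
        ∫⁻ x, (if s x = 0 then 0 else (s x : ℝ≥0∞) ^ p) * 1 ∂μ := by
      refine lintegral_congr fun x => ?_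
      by_cases h0 : s x = 0
      · rw [if_pos h0, h0]
        simp [ENNReal.zero_rpow_of_pos hp0]
      · rw [if_neg h0, mul_one]
    rw [e2, ← e, ENNReal.sum_lt_top]
    intro l hl
    have hl0 : l ≠ 0 := (Finset.mem_filter.1 hl).2
    refine ENNReal.mul_lt_top ?_ ?_
    · exact ENNReal.rpow_lt_top_of_nonneg hp0.le ENNReal.coe_ne_top
    · simpa using hsfin l hl0
  -- lower bound
  have hlow : I ≤ ‖Phi ν C h μ s Q p (θ : ℂ)‖ₑ := by
    rw [Phi_theta ν C h μ s Q p hm hF hI hsfin θ hθ]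
    refine lintegral_mono fun x => ?_
    by_cases h0 : s x = 0
    · rw [if_pos h0, h0]
      simp [ENNReal.zero_rpow_of_pos hp0]
    · rw [if_neg h0]
      have h0' : (s x : ℝ≥0∞) ≠ 0 := by exact_mod_cast h0
      calc (s x : ℝ≥0∞) ^ p = (s x : ℝ≥0∞) ^ (p - 1) * (s x : ℝ≥0∞) := by
            conv_rhs => rw [← ENNReal.rpow_one (s x : ℝ≥0∞), ← ENNReal.rpow_mul, one_mul]
            rw [← ENNReal.rpow_add _ _ h0' ENNReal.coe_ne_top]
            congr 1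
            ring
        _ ≤ _ := by gcongr; exact hs x
  -- bound on the line Re z = 1
  have h1 : ∀ z : ℂ, z.re = 1 →
      ‖Phi ν C h μ s Q p z‖ₑ ≤ I ^ (1 - 1 / Q) * K ^ (1 / Q) := by
    intro z hz
    refine (enorm_Phi_le ν C h μ s Q p hm hF hI hsfin z).trans ?_
    have hconj : Real.HolderConjugate (Real.conjExponent Q) Q :=
      (Real.HolderConjugate.conjExponent (by linarith)).symm
    have hcp : Real.conjExponent Q = Q / (Q - 1) := rfl
    have hc := ENNReal.lintegral_mul_le_Lp_mul_Lq μ hconj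
      (f := fun x => (s x : ℝ≥0∞) ^ (p * (1 - 1 / Q)))
      (g := fun x => NN C h ν (phi Q p z) x) (by fun_prop) (NN_meas C h hm _).aemeasurable
    have hQ1 : Q - 1 ≠ 0 := by linarith
    refine le_trans (lintegral_mono fun x => ?_) (hc.trans ?_)
    · rw [Pi.mul_apply]
      have e : p * ((1 + z.re) / 2 - z.re / Q) = p * (1 - 1 / Q) := by rw [hz]; ring
      rw [e]
      gcongr
      split_ifs with h0
      · exact zero_le
      · exact le_rfl
    · have e1 : ∫⁻ x, ((s x : ℝ≥0∞) ^ (p * (1 - 1 / Q))) ^ Real.conjExponent Q ∂μ = I := by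
        rw [hIdef]
        refine lintegral_congr fun x => ?_
        rw [← ENNReal.rpow_mul, hcp]
        congr 1
        field_simp
      rw [e1]
      have e2 : 1 / Real.conjExponent Q = 1 - 1 / Q := by
        rw [hcp]
        field_simp
      rw [e2]
      gcongr
      exact hb1 z hz
  -- bound on the line Re z = 0
  have h0 : ∀ z : ℂ, z.re = 0 → ‖Phi ν C h μ s Q p z‖ₑ ≤ I ^ (1 / 2 : ℝ) * K ^ (1 / 2 : ℝ) := by
    intro z hz
    refine (enorm_Phi_le ν C h μ s Q p hm hF hI hsfin z).trans ?_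
    have hc := ENNReal.lintegral_mul_le_Lp_mul_Lq μ (p := 2) (q := 2)
      (by norm_num [Real.holderConjugate_iff]) (f := fun x => (s x : ℝ≥0∞) ^ (p / 2))
      (g := fun x => NN C h ν (phi Q p z) x) (by fun_prop)
      (NN_meas C h hm _).aemeasurable
    refine le_trans (lintegral_mono fun x => ?_) (hc.trans ?_)
    · rw [Pi.mul_apply]
      have e : p * ((1 + z.re) / 2 - z.re / Q) = p / 2 := by rw [hz]; ring
      rw [e]
      gcongr
      split_ifs with h0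
      · exact zero_le
      · exact le_rfl
    · have e1 : ∫⁻ x, ((s x : ℝ≥0∞) ^ (p / 2)) ^ (2 : ℝ) ∂μ = I := by
        rw [hIdef]
        refine lintegral_congr fun x => ?_
        rw [← ENNReal.rpow_mul]
        congr 1
        ring
      rw [e1]
      gcongr
      exact hb0 z hz
  -- three lines
  have hQ1' : 0 ≤ 1 - 1 / Q := by linarith
  have hKI : I ^ (1 / 2 : ℝ) * K ^ (1 / 2 : ℝ) ≠ ∞ :=
    (ENNReal.mul_lt_top (ENNReal.rpow_lt_top_of_nonneg (by norm_num) hIfin.ne)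
      (ENNReal.rpow_lt_top_of_nonneg (by norm_num) hK.ne)).ne
  have hMI : I ^ (1 - 1 / Q) * K ^ (1 / Q) ≠ ∞ :=
    (ENNReal.mul_lt_top (ENNReal.rpow_lt_top_of_nonneg hQ1' hIfin.ne)
      (ENNReal.rpow_lt_top_of_nonneg (by positivity) hK.ne)).ne
  have h3 := three_lines (good_Phi ν C h μ s Q p) (a := (I ^ (1 / 2 : ℝ) * K ^ (1 / 2 : ℝ)).toReal)
    (b := (I ^ (1 - 1 / Q) * K ^ (1 / Q)).toReal) (fun z hz => by
      have := ENNReal.toReal_mono hKI (h0 z hz)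
      simpa using this) (fun z hz => by
      have := ENNReal.toReal_mono hMI (h1 z hz)
      simpa using this) θ hθ0 hθ1
  have h4 : I.toReal ≤ ‖Phi ν C h μ s Q p (θ : ℂ)‖ := by
    have := ENNReal.toReal_mono (by simp) hlow
    simpa using this
  have h5 := h4.trans h3
  rw [ENNReal.toReal_mul, ENNReal.toReal_mul, ← ENNReal.toReal_rpow, ← ENNReal.toReal_rpow,
    ← ENNReal.toReal_rpow, ← ENNReal.toReal_rpow] at h5
  have h6 := real_final hp0 ENNReal.toReal_nonneg ENNReal.toReal_nonneg hθ h5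
  exact (ENNReal.toReal_le_toReal hIfin.ne hK.ne).1 h6

end core2

section main

variable {X Y : Type*} [MeasurableSpace X] [MeasurableSpace Y] (μ : Measure X)
    [SigmaFinite μ] (ν : Measure Y) [SigmaFinite ν] (S : (ℂ → ℂ) → X → Y → ℂ)
    (hmeas : ∀ f, Nice f → Measurable (Function.uncurry (S f)))
    (hadd : ∀ f g, Nice f → Nice g → S (f + g) = S f + S g)
    (hsmul : ∀ (c : ℂ) f, Nice f → S (c • f) = c • S f) (N : ℝ≥0) (Q : ℝ) (hQ : 2 < Q)
    (h2 : ∀ f, Nice f → ∫⁻ x, ∫⁻ y, ‖S f x y‖ₑ ^ 2 ∂ν ∂μ ≤ N * ∫⁻ z, ‖f z‖ₑ ^ 2)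
    (hq : ∀ f, Nice f → ∫⁻ x, (∫⁻ y, ‖S f x y‖ₑ ^ 2 ∂ν) ^ (Q / 2) ∂μ ≤ N * ∫⁻ z, ‖f z‖ₑ ^ Q)
    (p : ℝ) (hp : 2 ≤ p) (hpQ : p ≤ Q)

include hmeas hadd hsmul hQ h2 hq hp hpQ

theorem simple_case (f : SimpleFunc ℂ ℂ) (hf : Nice f) :
    ∫⁻ x, (∫⁻ y, ‖S f x y‖ₑ ^ 2 ∂ν) ^ (p / 2) ∂μ ≤ N * ∫⁻ z, ‖f z‖ₑ ^ p := by
  classical
  have hp0 : 0 < p := by linarith
  have hQ0 : 0 < Q := by linarith
  let g : ℂ → ℂ → ℂ := fun c => if c = 0 then 0 else ind f c
  have hg : ∀ c, Nice (g c) := by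
    intro c
    by_cases hc : c = 0
    · simp only [g, if_pos hc]; exact nice_zero
    · simp only [g, if_neg hc]; exact nice_ind f hf hc
  -- the good set
  have hVm : ∀ c, Measurable fun x => ∫⁻ y, ‖S (g c) x y‖ₑ ^ 2 ∂ν := fun c =>
    Measurable.lintegral_prod_right' (f := fun q : X × Y => ‖S (g c) q.1 q.2‖ₑ ^ 2)
      (((hmeas _ (hg c)).enorm).pow_const 2)
  have hVint : ∀ c, ∫⁻ x, ∫⁻ y, ‖S (g c) x y‖ₑ ^ 2 ∂ν ∂μ < ∞ := by
    intro c
    refine lt_of_le_of_lt (h2 _ (hg c)) ?_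
    have := nice_lp (hg c) (p := 2) (by norm_num)
    simp only [ENNReal.rpow_two] at this
    exact ENNReal.mul_lt_top ENNReal.coe_lt_top this
  let X₀ : Set X := {x | ∀ c ∈ vals f, ∫⁻ y, ‖S (g c) x y‖ₑ ^ 2 ∂ν < ∞}
  have hX₀m : MeasurableSet X₀ := by
    have : X₀ = ⋂ c ∈ vals f, {x | ∫⁻ y, ‖S (g c) x y‖ₑ ^ 2 ∂ν < ∞} := by
      ext x
      simp [X₀]
    rw [this]
    exact Finset.measurableSet_biInter _ fun c _ => measurableSet_lt (hVm c) measurable_const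
  have hX₀ae : ∀ᵐ x ∂μ, x ∈ X₀ := by
    have : ∀ᵐ x ∂μ, ∀ c ∈ vals f, ∫⁻ y, ‖S (g c) x y‖ₑ ^ 2 ∂ν < ∞ := by
      rw [Filter.eventually_all_finset]
      intro c _
      exact ae_lt_top (hVm c) (hVint c).ne
    exact this
  let h : ℂ → X → Y → ℂ := fun c x y => X₀.indicator (fun x => S (g c) x y) x
  have hin : ∀ c x, x ∈ X₀ → ∀ y, h c x y = S (g c) x y := fun c x hx y =>
    Set.indicator_of_mem hx _
  have hout : ∀ c x, x ∉ X₀ → ∀ y, h c x y = 0 := fun c x hx y =>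
    Set.indicator_of_notMem hx _
  have hsum : ∀ a : ℂ → ℂ, ∑ c ∈ vals f, a c • g c = ∑ c ∈ vals f, a c • ind f c := by
    intro a
    refine Finset.sum_congr rfl fun c hc => ?_
    have : c ≠ 0 := (Finset.mem_filter.1 hc).2
    simp only [g, if_neg this]
  have hFF : ∀ (a : ℂ → ℂ) (x : X), x ∈ X₀ → ∀ y : Y,
      FF (vals f) h a x y = S (∑ c ∈ vals f, a c • ind f c) x y := by
    intro a x hx y
    rw [← hsum]
    have := Helper72.BA.P.RT2aux.S_sum (ι := Unit) (fun _ => S) (fun _ => hadd) (fun _ => hsmul)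
      (vals f) a g (fun c _ => hg c) () x y
    rw [this]
    unfold FF
    refine Finset.sum_congr rfl fun c _ => ?_
    rw [hin c x hx y]
  have hnice : ∀ a : ℂ → ℂ, Nice (∑ c ∈ vals f, a c • ind f c) := by
    intro a
    rw [← hsum]
    exact nice_sum _ _ _ fun c _ => hg c
  have hm : ∀ c, Measurable (Function.uncurry (h c)) := by
    intro c
    have : Function.uncurry (h c) = (Prod.fst ⁻¹' X₀ : Set (X × Y)).indicator
        (Function.uncurry (S (g c))) := by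
      ext ⟨x, y⟩
      by_cases hx : x ∈ X₀
      · rw [Set.indicator_of_mem (by exact hx)]
        exact hin c x hx y
      · rw [Set.indicator_of_notMem (by exact hx)]
        exact hout c x hx y
    rw [this]
    exact (hmeas _ (hg c)).indicator (measurable_fst hX₀m)
  have hF : ∀ c ∈ vals f, ∀ x, ∫⁻ y, ‖h c x y‖ₑ ^ 2 ∂ν < ∞ := by
    intro c hc x
    by_cases hx : x ∈ X₀
    · simp_rw [hin c x hx]
      exact hx c hc
    · simp_rw [hout c x hx]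
      simp
  have hI : ∀ c ∈ vals f, ∫⁻ x, ∫⁻ y, ‖h c x y‖ₑ ^ 2 ∂ν ∂μ < ∞ := by
    intro c _
    refine lt_of_le_of_lt (lintegral_mono fun x => lintegral_mono fun y => ?_) (hVint c)
    by_cases hx : x ∈ X₀
    · rw [hin c x hx]
    · rw [hout c x hx]
      simp
  set K : ℝ≥0∞ := N * ∫⁻ z, ‖f z‖ₑ ^ p with hK
  have hKfin : K < ∞ := ENNReal.mul_lt_top ENNReal.coe_lt_top (nice_lp hf (by linarith))
  have hNN : ∀ (a : ℂ → ℂ) (t : ℝ), ∀ᵐ x ∂μ, NN (vals f) h ν a x ^ t =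
      (∫⁻ y, ‖S (∑ c ∈ vals f, a c • ind f c) x y‖ₑ ^ 2 ∂ν) ^ (t / 2) := by
    intro a t
    filter_upwards [hX₀ae] with x hx
    unfold NN
    rw [← ENNReal.rpow_mul]
    simp_rw [hFF a x hx]
    congr 1
    ring
  have hfz : ∀ z : ℂ, ∀ t : ℝ, 0 < t → t * ((1 - z.re) / 2 + z.re / Q) = 1 →
      ∫⁻ w, ‖(∑ c ∈ vals f, phi Q p z c • ind f c) w‖ₑ ^ t = ∫⁻ w, ‖f w‖ₑ ^ p := by
    intro z t ht hzt
    refine lintegral_congr fun w => ?_
    rw [sum_ind]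
    by_cases h0 : f w = 0
    · rw [if_pos h0, h0]
      simp [ENNReal.zero_rpow_of_pos hp0, ENNReal.zero_rpow_of_pos ht]
    · rw [if_neg h0, ← ofReal_norm, norm_phi Q p z h0, ← ofReal_norm]
      have h0' : 0 < ‖f w‖ := norm_pos_iff.2 h0
      rw [ENNReal.ofReal_rpow_of_nonneg (by positivity) ht.le, ENNReal.ofReal_rpow_of_pos h0']
      congr 1
      rw [← Real.rpow_mul h0'.le]
      congr 1
      rw [mul_assoc, mul_comm ((1 - z.re) / 2 + z.re / Q) t, hzt, mul_one]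
  have hb0 : ∀ z : ℂ, z.re = 0 →
      ∫⁻ x, NN (vals f) h ν (phi Q p z) x ^ (2 : ℝ) ∂μ ≤ K := by
    intro z hz
    rw [lintegral_congr_ae (hNN (phi Q p z) 2)]
    have e := h2 _ (hnice (phi Q p z))
    have e2 := hfz z 2 (by norm_num) (by rw [hz]; norm_num)
    simp only [ENNReal.rpow_two] at e2
    rw [e2] at e
    have e3 : ((2 : ℝ) / 2) = 1 := by norm_num
    simp_rw [e3, ENNReal.rpow_one]
    exact e
  have hb1 : ∀ z : ℂ, z.re = 1 →
      ∫⁻ x, NN (vals f) h ν (phi Q p z) x ^ Q ∂μ ≤ K := by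
    intro z hz
    rw [lintegral_congr_ae (hNN (phi Q p z) Q)]
    have e := hq _ (hnice (phi Q p z))
    have e2 := hfz z Q hQ0 (by rw [hz]; field_simp; ring)
    rw [e2] at e
    exact e
  have hself : ∫⁻ x, (∫⁻ y, ‖S f x y‖ₑ ^ 2 ∂ν) ^ (p / 2) ∂μ =
      ∫⁻ x, NN (vals f) h ν id x ^ p ∂μ := by
    rw [lintegral_congr_ae (hNN id p)]
    rw [sum_ind_self]
  rw [hself]
  have hlim := Helper72.BA.P.RT2aux.lintegral_pow_le (ι := Unit) (X := X) Finset.univ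
    (fun _ => μ) (fun _ => NN (vals f) h ν id) (fun _ => NN_meas (vals f) h hm id) hp0.le (B := K)
    (fun n => by
      simp only [Finset.univ_unique, Finset.sum_singleton]
      refine core_bound ν (vals f) h μ (sw μ (NN (vals f) h ν id) n) Q p hm hF hI ?_ hQ hp hpQ
        ?_ hKfin hb0 hb1
      · intro l hl
        exact sw_fin μ _ n hl
      · intro x
        exact sw_le μ _ (NN_meas (vals f) h hm id) n x)
  simpa using hlim

end main

end R1aux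

open R1aux in
open Helper72.BA.P.RT2aux (nice_smul nice_sub exists_approx nice_lp) in
/-- MODULE R1: Riesz–Thorin between `2` and `Q`, Hilbert valued -/
theorem rieszThorinH {X Y : Type*} [MeasurableSpace X] [MeasurableSpace Y] (μ : Measure X)
    [SigmaFinite μ] (ν : Measure Y) [SigmaFinite ν] (S : (ℂ → ℂ) → X → Y → ℂ)
    (hmeas : ∀ f, Nice f → Measurable (Function.uncurry (S f)))
    (hadd : ∀ f g, Nice f → Nice g → S (f + g) = S f + S g)
    (hsmul : ∀ (c : ℂ) f, Nice f → S (c • f) = c • S f) (N : ℝ≥0) (Q : ℝ) (hQ : 2 < Q)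
    (h2 : ∀ f, Nice f → ∫⁻ x, ∫⁻ y, ‖S f x y‖ₑ ^ 2 ∂ν ∂μ ≤ N * ∫⁻ z, ‖f z‖ₑ ^ 2)
    (hq : ∀ f, Nice f → ∫⁻ x, (∫⁻ y, ‖S f x y‖ₑ ^ 2 ∂ν) ^ (Q / 2) ∂μ ≤ N * ∫⁻ z, ‖f z‖ₑ ^ Q)
    (p : ℝ) (hp : 2 ≤ p) (hpQ : p ≤ Q) (f : ℂ → ℂ) (hf : Nice f) :
    ∫⁻ x, (∫⁻ y, ‖S f x y‖ₑ ^ 2 ∂ν) ^ (p / 2) ∂μ ≤ N * ∫⁻ z, ‖f z‖ₑ ^ p := by
  obtain ⟨g, hg, hg2, hgp⟩ := exists_approx hf hp
  have hd : ∀ k, Nice (f - g k) := fun k => nice_sub hf (hg k)
  set V : X → ℝ≥0∞ := fun x => ∫⁻ y, ‖S f x y‖ₑ ^ 2 ∂ν with hV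
  set Vk : ℕ → X → ℝ≥0∞ := fun k x => ∫⁻ y, ‖S (g k) x y‖ₑ ^ 2 ∂ν with hVk
  set D : ℕ → X → ℝ≥0∞ := fun k x => ∫⁻ y, ‖S (f - g k) x y‖ₑ ^ 2 ∂ν with hD
  have hmeasV : ∀ (q : ℂ → ℂ), Nice q → Measurable fun x => ∫⁻ y, ‖S q x y‖ₑ ^ 2 ∂ν := by
    intro q hq
    exact Measurable.lintegral_prod_right' (f := fun w : X × Y => ‖S q w.1 w.2‖ₑ ^ 2)
      (((hmeas q hq).enorm).pow_const 2)
  have hmeasY : ∀ (q : ℂ → ℂ), Nice q → ∀ x, Measurable (S q x) := fun q hq x =>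
    (hmeas q hq).comp measurable_prodMk_left
  -- the differences tend to zero almost everywhere
  have hDsum : ∫⁻ x, ∑' k, D k x ∂μ < ∞ := by
    rw [lintegral_tsum fun k => (hmeasV _ (hd k)).aemeasurable]
    have h1 : ∀ k, ∫⁻ x, D k x ∂μ ≤ N * (1 / 2 : ℝ≥0∞) ^ k := fun k =>
      (h2 _ (hd k)).trans (by gcongr; exact hg2 k)
    refine lt_of_le_of_lt (ENNReal.tsum_le_tsum h1) ?_
    rw [ENNReal.tsum_mul_left]
    refine ENNReal.mul_lt_top ENNReal.coe_lt_top ?_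
    rw [ENNReal.tsum_geometric]
    simp
  have hDlim : ∀ᵐ x ∂μ, Tendsto (fun k => D k x) atTop (𝓝 0) := by
    have hm1 : AEMeasurable (fun x => ∑' k, D k x) μ :=
      AEMeasurable.tsum fun k => (hmeasV _ (hd k)).aemeasurable
    filter_upwards [ae_lt_top' hm1 hDsum.ne] with x hx
    exact ENNReal.tendsto_atTop_zero_of_tsum_ne_top hx.ne
  -- triangle inequality
  have htri : ∀ (q r : ℂ → ℂ), Nice q → Nice r → ∀ x,
      (∫⁻ y, ‖S (q + r) x y‖ₑ ^ 2 ∂ν) ^ (1 / 2 : ℝ) ≤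
        (∫⁻ y, ‖S q x y‖ₑ ^ 2 ∂ν) ^ (1 / 2 : ℝ) +
        (∫⁻ y, ‖S r x y‖ₑ ^ 2 ∂ν) ^ (1 / 2 : ℝ) := by
    intro q r hq hr x
    have h1 := ENNReal.lintegral_Lp_add_le (μ := ν) (p := 2)
      (f := fun y => ‖S q x y‖ₑ) (g := fun y => ‖S r x y‖ₑ)
      (hmeasY q hq x).enorm.aemeasurable (hmeasY r hr x).enorm.aemeasurable (by norm_num)
    simp only [ENNReal.rpow_two] at h1
    refine le_trans ?_ h1
    gcongr with y
    rw [hadd q r hq hr, Pi.add_apply, Pi.add_apply]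
    exact enorm_add_le _ _
  have hlow : ∀ x k, V x ^ (1 / 2 : ℝ) ≤ Vk k x ^ (1 / 2 : ℝ) + D k x ^ (1 / 2 : ℝ) := by
    intro x k
    have h1 := htri (g k) (f - g k) (hg k) (hd k) x
    rw [add_sub_cancel] at h1
    exact h1
  have hup : ∀ x k, Vk k x ^ (1 / 2 : ℝ) ≤ V x ^ (1 / 2 : ℝ) + D k x ^ (1 / 2 : ℝ) := by
    intro x k
    have h1 := htri f ((-1 : ℂ) • (f - g k)) hf (nice_smul _ (hd k)) x
    have e1 : f + (-1 : ℂ) • (f - g k) = g k := by
      ext z; simp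
    rw [e1, hsmul _ _ (hd k)] at h1
    have e2 : ∀ y, ‖((-1 : ℂ) • S (f - g k)) x y‖ₑ = ‖S (f - g k) x y‖ₑ := by
      intro y
      rw [Pi.smul_apply, Pi.smul_apply, neg_one_smul, enorm_neg]
    simp_rw [e2] at h1
    exact h1
  -- finiteness
  have hfin : ∀ᵐ x ∂μ, V x < ∞ := by
    refine ae_lt_top (hmeasV f hf) ?_
    have h3 := nice_lp hf (p := 2) (by norm_num)
    simp only [ENNReal.rpow_two] at h3
    exact (lt_of_le_of_lt (h2 f hf) (ENNReal.mul_lt_top ENNReal.coe_lt_top h3)).ne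
  -- convergence
  have hconv : ∀ᵐ x ∂μ, Tendsto (fun k => Vk k x ^ (p / 2)) atTop (𝓝 (V x ^ (p / 2))) := by
    filter_upwards [hDlim, hfin] with x hx hxf
    have hD' : Tendsto (fun k => D k x ^ (1 / 2 : ℝ)) atTop (𝓝 0) := by
      have h1 := (ENNReal.continuous_rpow_const (y := (1 / 2 : ℝ))).tendsto (0 : ℝ≥0∞)
      have h3 := h1.comp hx
      simp only [Function.comp_def] at h3
      simpa using h3
    have hVfin : V x ^ (1 / 2 : ℝ) ≠ ∞ :=
      (ENNReal.rpow_lt_top_of_nonneg (by norm_num) hxf.ne).ne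
    have h1 : Tendsto (fun k => Vk k x ^ (1 / 2 : ℝ)) atTop (𝓝 (V x ^ (1 / 2 : ℝ))) := by
      refine tendsto_of_tendsto_of_tendsto_of_le_of_le
        (g := fun k => V x ^ (1 / 2 : ℝ) - D k x ^ (1 / 2 : ℝ))
        (h := fun k => V x ^ (1 / 2 : ℝ) + D k x ^ (1 / 2 : ℝ)) ?_ ?_ ?_ ?_
      · have := ENNReal.Tendsto.sub (tendsto_const_nhds (x := V x ^ (1 / 2 : ℝ)))
          hD' (Or.inl hVfin)
        simpa using this
      · have := (tendsto_const_nhds (x := V x ^ (1 / 2 : ℝ))).add hD'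
        simpa using this
      · intro k
        exact tsub_le_iff_right.2 (hlow x k)
      · intro k
        exact hup x k
    have h3 := ((ENNReal.continuous_rpow_const (y := p)).tendsto _).comp h1
    have e : ∀ a : ℝ≥0∞, (a ^ (1 / 2 : ℝ)) ^ p = a ^ (p / 2) := by
      intro a
      rw [← ENNReal.rpow_mul]
      congr 1
      ring
    simp only [Function.comp_def, e] at h3
    exact h3
  -- conclusion
  calc ∫⁻ x, V x ^ (p / 2) ∂μ = ∫⁻ x, liminf (fun k => Vk k x ^ (p / 2)) atTop ∂μ := by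
        refine lintegral_congr_ae ?_
        filter_upwards [hconv] with x hx
        exact hx.liminf_eq.symm
    _ ≤ liminf (fun k => ∫⁻ x, Vk k x ^ (p / 2) ∂μ) atTop :=
        lintegral_liminf_le fun k => (hmeasV _ (hg k)).pow_const _
    _ ≤ liminf (fun k => N * ∫⁻ z, ‖g k z‖ₑ ^ p) atTop := by
        refine liminf_le_liminf (Eventually.of_forall fun k => ?_)
        exact simple_case μ ν S hmeas hadd hsmul N Q hQ h2 hq p hp hpQ (g k) (hg k)
    _ = N * ∫⁻ z, ‖f z‖ₑ ^ p := by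
        refine Tendsto.liminf_eq ?_
        exact ENNReal.Tendsto.const_mul hgp (Or.inr ENNReal.coe_ne_top)

end Helper85.BP.P
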