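import Pool.Agent.Helper72.BAM.Fin
import Pool.Agent.Helper85.BP.Defs
import Pool.Agent.Helper85.BPM.R1

/-!
# Module R2 of the all-p extension of MP_3dd6d4_an: square function, real exponent
-/

set_option autoImplicit false

open MeasureTheory Complex FourierTransform Filter Topology
open scoped ENNReal NNReal ComplexConjugate

noncomputable section

namespace Helper85.BP.P

open Helper72.BA Helper85.BP

/-- side length of the squares of generation `j` -/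
def R2_r (m0 : ℕ) (j : ℤ) : ℝ := (2:ℝ) ^ m0 * 2 ^ (-j)

theorem R2_r_pos (m0 : ℕ) (j : ℤ) : 0 < R2_r m0 j := by unfold R2_r; positivity

/-- the linear operator whose values are localised `g_j` -/
def R2_S (n m0 : ℕ) (A : Finset ℤ) (f : ℂ → ℂ) (x : ℂ) (y : ↥A × ℂ) : ℂ :=
  {w : ℂ | cub (2 ^ m0) y.1 w = cub (2 ^ m0) y.1 x}.indicator
    (fun w => ((R2_r m0 y.1)⁻¹ : ℝ) * gj n y.1 f w) y.2

theorem R2_meas_cub (s : ℝ) (i : ℤ) : Measurable (cub s i) := by
  unfold cub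
  apply Measurable.prodMk
  · exact Int.measurable_floor.comp (Complex.measurable_re.div_const _)
  · exact Int.measurable_floor.comp (Complex.measurable_im.div_const _)

theorem R2_nice_gj (n : ℕ) (j : ℤ) (f : ℂ → ℂ) (hf : Nice f) : Nice (gj n j f) :=
  nice_cv (ker_KK n j) hf

theorem R2_meas (n m0 : ℕ) (A : Finset ℤ) (f : ℂ → ℂ) (hf : Nice f) :
    Measurable (Function.uncurry (R2_S n m0 A f)) := by
  have key : Measurable (fun q : ↥A × (ℂ × ℂ) => R2_S n m0 A f q.2.1 (q.1, q.2.2)) := by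
    apply measurable_from_prod_countable_right
    intro a
    have : (fun q : ℂ × ℂ => R2_S n m0 A f q.1 (a, q.2)) =
        {q : ℂ × ℂ | cub (2 ^ m0) a q.2 = cub (2 ^ m0) a q.1}.indicator
          (fun q => (((R2_r m0 a)⁻¹ : ℝ) : ℂ) * gj n a f q.2) := by
      funext q
      simp only [R2_S, Set.indicator, Set.mem_ofPred_eq]
    show Measurable (fun q : ℂ × ℂ => R2_S n m0 A f q.1 (a, q.2))
    rw [this]
    apply Measurable.indicator
    · exact ((R2_nice_gj n a f hf).meas.comp measurable_snd).const_mul _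
    · exact measurableSet_eq_fun ((R2_meas_cub _ _).comp measurable_snd)
        ((R2_meas_cub _ _).comp measurable_fst)
  have e : Function.uncurry (R2_S n m0 A f) =
      (fun q : ↥A × (ℂ × ℂ) => R2_S n m0 A f q.2.1 (q.1, q.2.2)) ∘
        (fun q : ℂ × (↥A × ℂ) => (q.2.1, (q.1, q.2.2))) := by
    funext q
    rfl
  rw [e]
  exact key.comp (by fun_prop)

theorem R2_add (n m0 : ℕ) (A : Finset ℤ) (f g : ℂ → ℂ) (hf : Nice f) (hg : Nice g) :
    R2_S n m0 A (f + g) = R2_S n m0 A f + R2_S n m0 A g := by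
  funext x y
  have h : gj n y.1 (f + g) = gj n y.1 f + gj n y.1 g := cv_add (ker_KK n _) hf hg
  simp only [R2_S, Set.indicator, h, Pi.add_apply, mul_add]
  split_ifs
  · rfl
  · simp

theorem R2_smul (n m0 : ℕ) (A : Finset ℤ) (c : ℂ) (f : ℂ → ℂ) :
    R2_S n m0 A (c • f) = c • R2_S n m0 A f := by
  funext x y
  have h : gj n y.1 (c • f) = c • gj n y.1 f := cv_smul c
  simp only [R2_S, Set.indicator, h, Pi.smul_apply, smul_eq_mul]
  split_ifs
  · ring
  · simp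

theorem R2_norm (n m0 : ℕ) (A : Finset ℤ) (f : ℂ → ℂ) (hf : Nice f) (x : ℂ) :
    ∫⁻ y, ‖R2_S n m0 A f x y‖ₑ ^ 2 ∂((Measure.count : Measure ↥A).prod (volume : Measure ℂ)) =
      ∑ j ∈ A, avg (2 ^ m0) j (fun w => ‖gj n j f w‖ₑ ^ 2) x := by
  have hm : Measurable (fun y : ↥A × ℂ => ‖R2_S n m0 A f x y‖ₑ ^ 2) := by
    have := (R2_meas n m0 A f hf).comp (measurable_prodMk_left (x := x))
    exact (this.enorm).pow_const 2
  rw [lintegral_prod _ hm.aemeasurable, lintegral_count, tsum_fintype,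
    ← Finset.sum_coe_sort A (fun j => avg (2 ^ m0) j (fun w => ‖gj n j f w‖ₑ ^ 2) x)]
  apply Finset.sum_congr rfl
  intro j _
  have hms : MeasurableSet {w : ℂ | cub (2 ^ m0) j w = cub (2 ^ m0) j x} :=
    (R2_meas_cub _ _) (measurableSet_singleton _)
  have e : (fun w => ‖R2_S n m0 A f x (j, w)‖ₑ ^ 2) =
      {w : ℂ | cub (2 ^ m0) j w = cub (2 ^ m0) j x}.indicator
        (fun w => ENNReal.ofReal ((R2_r m0 j) ^ 2)⁻¹ * ‖gj n j f w‖ₑ ^ 2) := by
    funext w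
    simp only [R2_S, Set.indicator]
    split_ifs with h1
    · rw [enorm_mul, mul_pow]
      congr 1
      rw [← ofReal_norm, Complex.norm_real, Real.norm_of_nonneg
        (inv_nonneg.2 (R2_r_pos m0 j).le), ← ENNReal.ofReal_pow (inv_nonneg.2 (R2_r_pos m0 j).le),
        inv_pow]
    · simp
  rw [e, lintegral_indicator hms, lintegral_const_mul]
  · rfl
  · exact ((R2_nice_gj n j f hf).meas.enorm).pow_const 2

theorem R2_hfin (g : ℂ → ℂ) (hg : Nice g) :
    (∫⁻ z, ‖g z‖ₑ ^ 2 ≠ ∞) ∧ ∃ C : ℝ≥0, ∀ z, ‖g z‖ₑ ^ 2 ≤ C := by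
  obtain ⟨C, hC⟩ := hg.bdd
  have hC' : ∀ z, ‖g z‖ₑ ≤ ENNReal.ofReal C := fun z => by
    rw [← ofReal_norm]; exact ENNReal.ofReal_le_ofReal (hC z)
  constructor
  · have h1 : ∫⁻ z, ‖g z‖ₑ ^ 2 ≤ ENNReal.ofReal C * ∫⁻ z, ‖g z‖ₑ := by
      rw [← lintegral_const_mul _ hg.meas.enorm]
      apply lintegral_mono
      intro z
      show ‖g z‖ₑ ^ 2 ≤ ENNReal.ofReal C * ‖g z‖ₑ
      rw [sq]
      exact mul_le_mul_left (hC' z) _
    exact ne_top_of_le_ne_top (ENNReal.mul_ne_top ENNReal.ofReal_ne_top hg.int.2.ne) h1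
  · refine ⟨(ENNReal.ofReal C ^ 2).toNNReal, fun z => ?_⟩
    rw [ENNReal.coe_toNNReal (by finiteness)]
    exact pow_le_pow_left₀ (by simp) (hC' z) 2

theorem R2_L2 (n m0 : ℕ) (A : Finset ℤ) (f : ℂ → ℂ) (hf : Nice f) :
    ∫⁻ x, ∑ j ∈ A, avg (2 ^ m0) j (fun w => ‖gj n j f w‖ₑ ^ 2) x ≤ ∫⁻ z, ‖f z‖ₑ ^ 2 := by
  have hm : ∀ j : ℤ, Measurable (fun w => ‖gj n j f w‖ₑ ^ 2) := fun j =>
    ((R2_nice_gj n j f hf).meas.enorm).pow_const 2
  have hma : ∀ j : ℤ, Measurable (avg (2 ^ m0) j (fun w => ‖gj n j f w‖ₑ ^ 2)) := by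
    intro j
    unfold avg
    apply Measurable.const_mul
    have e : (fun z : ℂ => ∫⁻ w in {w : ℂ | cub (2 ^ m0) j w = cub (2 ^ m0) j z},
        ‖gj n j f w‖ₑ ^ 2) = (fun q : ℤ × ℤ => ∫⁻ w in {w : ℂ | cub (2 ^ m0) j w = q},
        ‖gj n j f w‖ₑ ^ 2) ∘ cub (2 ^ m0) j := rfl
    rw [e]
    exact (measurable_of_countable _).comp (R2_meas_cub _ _)
  rw [lintegral_finsetSum _ (fun j _ => hma j)]
  calc ∑ j ∈ A, ∫⁻ x, avg (2 ^ m0) j (fun w => ‖gj n j f w‖ₑ ^ 2) x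
      ≤ ∑ j ∈ A, ∫⁻ z, ‖gj n j f z‖ₑ ^ 2 := by
        apply Finset.sum_le_sum
        intro j _
        have := square_abstract (2 ^ m0) (by positivity) {j} (fun i w => ‖gj n i f w‖ₑ ^ 2) hm
          (fun i _ => R2_hfin _ (R2_nice_gj n i f hf)) (fun w => ‖gj n j f w‖ₑ ^ 2) (hm j)
          (by
            intro i _ q
            refine (Finset.sum_le_sum_of_subset (Finset.filter_subset _ _)).trans ?_
            rw [Finset.sum_singleton]) 1 le_rfl
        simpa using this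
    _ ≤ _ := sum_nrm_two_le n A f hf

theorem square_fun_real (p : ℝ) (hp : 2 ≤ p) : ∃ C : ℝ≥0, ∀ n : ℕ, 1 ≤ n → ∀ m0 : ℕ,
    n ≤ 2 ^ m0 → ∀ A : Finset ℤ, ∀ f : ℂ → ℂ, Nice f →
    ∫⁻ z, (∑ j ∈ A, avg (2 ^ m0) j (fun w => ‖gj n j f w‖ₑ ^ 2) z) ^ (p / 2) ≤ C * nrp p f := by
  set k : ℕ := ⌈p⌉₊ with hk
  have hkp : p ≤ k := Nat.le_ceil p
  have hk2 : 2 ≤ k := by exact_mod_cast hp.trans hkp
  obtain ⟨C, hC⟩ := square_fun k hk2
  refine ⟨max 1 C, fun n hn m0 hm0 A f hf => ?_⟩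
  have h2k : (2:ℝ) < 2 * (k:ℝ) := by
    have : (2:ℝ) ≤ k := by exact_mod_cast hk2
    linarith
  have main := rieszThorinH (volume : Measure ℂ)
    ((Measure.count : Measure ↥A).prod (volume : Measure ℂ)) (R2_S n m0 A)
    (fun f hf => R2_meas n m0 A f hf) (fun f g hf hg => R2_add n m0 A f g hf hg)
    (fun c f _ => R2_smul n m0 A c f) (max 1 C) (2 * (k:ℝ)) h2k
    (fun f hf => by
      simp_rw [R2_norm n m0 A f hf]
      refine (R2_L2 n m0 A f hf).trans ?_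
      calc ∫⁻ z, ‖f z‖ₑ ^ 2 = 1 * ∫⁻ z, ‖f z‖ₑ ^ 2 := (one_mul _).symm
        _ ≤ _ := by
          apply mul_le_mul_left
          exact_mod_cast le_max_left _ _)
    (fun f hf => by
      simp_rw [R2_norm n m0 A f hf]
      have e1 : 2 * (k:ℝ) / 2 = k := by ring
      simp_rw [e1, ENNReal.rpow_natCast]
      refine (hC n hn m0 hm0 A f hf).trans ?_
      have e2 : nrm (2 * k) f = ∫⁻ z, ‖f z‖ₑ ^ (2 * (k:ℝ)) := by
        unfold nrm
        congr 1
        funext z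
        rw [← ENNReal.rpow_natCast]
        push_cast
        rfl
      rw [e2]
      apply mul_le_mul_left
      exact_mod_cast le_max_right _ _)
    p hp (by linarith) f hf
  simp_rw [R2_norm n m0 A f hf] at main
  exact main

end Helper85.BP.P
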