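import Pool.Agent.Helper72.BAM.Fin
import Pool.Agent.Helper85.BP.Defs
import Pool.Agent.Helper85.BPM.R6
import Pool.Agent.Helper85.BPM.R7

/-! Module R8a of the all-p extension: `P_bound`. -/

set_option autoImplicit false

open MeasureTheory Complex FourierTransform Filter Topology
open scoped ENNReal NNReal ComplexConjugate

noncomputable section

namespace Helper85.BP.P

open Helper72.BA Helper85.BP

namespace R8a

lemma gj_meas (n : ℕ) (j : ℤ) (f : ℂ → ℂ) (hf : Nice f) : Measurable (gj n j f) :=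
  (nice_cv (ker_KK n j) hf).meas

lemma gW_meas (n : ℕ) (W : Finset ℤ) (f : ℂ → ℂ) (hf : Nice f) : Measurable (gW n W f) := by
  unfold gW
  exact Finset.measurable_sum _ fun j _ => gj_meas n j f hf

lemma gamN_meas (N : ℕ) (ρ : ℝ) : Measurable (gamN N ρ) := by
  unfold gamN
  fun_prop

lemma avg_meas (N : ℕ) (ρ : ℝ) (g : ℂ → ℂ) (hg : Measurable g) :
    Measurable (fun z => ∫⁻ w, ENNReal.ofReal (gamN N ρ (z - w)) * ‖g w‖ₑ ^ 2) := by
  have h : Measurable (fun q : ℂ × ℂ => ENNReal.ofReal (gamN N ρ (q.1 - q.2)) * ‖g q.2‖ₑ ^ 2) := by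
    exact (((gamN_meas N ρ).comp (measurable_fst.sub measurable_snd)).ennreal_ofReal).mul
      ((hg.comp measurable_snd).enorm.pow_const 2)
  exact h.lintegral_prod_right'

lemma bj_meas (N n : ℕ) (j : ℤ) (f : ℂ → ℂ) (hf : Nice f) : Measurable (bj N n j f) :=
  avg_meas N _ _ (gj_meas n j f hf)

lemma Lj_meas (N n m0 : ℕ) (A : Finset ℤ) (j : ℤ) (f : ℂ → ℂ) (hf : Nice f) :
    Measurable (Lj N n m0 A j f) :=
  (avg_meas N _ _ (gW_meas n _ f hf)).pow_const _

/-- `(a+b)^q ≤ 2^q (a^q+b^q)`. -/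
lemma add_rpow_le' (q : ℝ) (hq : 0 ≤ q) (a b : ℝ≥0∞) :
    (a + b) ^ q ≤ ENNReal.ofReal ((2:ℝ) ^ q) * (a ^ q + b ^ q) := by
  have h1 : a + b ≤ 2 * max a b := by
    rw [two_mul]
    exact add_le_add (le_max_left _ _) (le_max_right _ _)
  have h2 : (max a b) ^ q ≤ a ^ q + b ^ q := by
    rcases le_total a b with h | h
    · rw [max_eq_right h]
      exact le_add_self
    · rw [max_eq_left h]
      exact le_self_add
  calc (a + b) ^ q ≤ (2 * max a b) ^ q := ENNReal.rpow_le_rpow h1 hq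
    _ = 2 ^ q * (max a b) ^ q := ENNReal.mul_rpow_of_nonneg _ _ hq
    _ ≤ ENNReal.ofReal ((2:ℝ) ^ q) * (a ^ q + b ^ q) := by
        have h3 : ENNReal.ofReal ((2:ℝ) ^ q) = 2 ^ q := by
          rw [← ENNReal.ofReal_rpow_of_pos (by norm_num)]
          simp
        rw [h3]
        gcongr

/-- Weighted power of a sum. -/
lemma sum_rpow_le (q d : ℝ) (hq : 0 < q) (hd : 0 < d) : ∃ C : ℝ, 0 < C ∧
    ∀ (S : Finset ℕ) (x : ℕ → ℝ≥0∞),
      (∑ m ∈ S, x m) ^ q ≤ ENNReal.ofReal C * ∑ m ∈ S, ENNReal.ofReal ((2:ℝ) ^ (d * m)) * (x m) ^ q := by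
  set r : ℝ := (2:ℝ) ^ (-(d / q)) with hr
  have hr0 : 0 < r := Real.rpow_pos_of_pos (by norm_num) _
  have hr1 : r < 1 := Real.rpow_lt_one_of_one_lt_of_neg (by norm_num) (by
    have := div_pos hd hq
    linarith)
  set K : ℝ := (1 - r)⁻¹ with hK
  have hK0 : 0 < K := inv_pos.2 (by linarith)
  refine ⟨K ^ q, Real.rpow_pos_of_pos hK0 q, ?_⟩
  intro S x
  rcases S.eq_empty_or_nonempty with hS | hS
  · subst hS
    simp [ENNReal.zero_rpow_of_pos hq]
  set y : ℕ → ℝ≥0∞ := fun m => ENNReal.ofReal (r⁻¹ ^ m) * x m with hy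
  have hxy : ∀ m, x m = ENNReal.ofReal (r ^ m) * y m := by
    intro m
    simp only [hy]
    rw [← mul_assoc, ← ENNReal.ofReal_mul (by positivity), ← mul_pow, mul_inv_cancel₀ hr0.ne',
      one_pow, ENNReal.ofReal_one, one_mul]
  obtain ⟨m1, hm1, hmax⟩ := Finset.exists_mem_eq_sup S hS y
  have h1 : ∑ m ∈ S, x m ≤ ENNReal.ofReal K * y m1 := by
    calc ∑ m ∈ S, x m = ∑ m ∈ S, ENNReal.ofReal (r ^ m) * y m :=
          Finset.sum_congr rfl fun m _ => hxy m
      _ ≤ ∑ m ∈ S, ENNReal.ofReal (r ^ m) * y m1 := by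
          refine Finset.sum_le_sum fun m hm => ?_
          have : y m ≤ y m1 := by
            rw [← hmax]
            exact Finset.le_sup hm
          gcongr
      _ = ENNReal.ofReal (∑ m ∈ S, r ^ m) * y m1 := by
          rw [← Finset.sum_mul, ENNReal.ofReal_sum_of_nonneg (fun m _ => by positivity)]
      _ ≤ ENNReal.ofReal K * y m1 := by
          gcongr
          have hs : Summable (fun m : ℕ => r ^ m) := summable_geometric_of_lt_one hr0.le hr1
          have := hs.sum_le_tsum S (fun m _ => by positivity)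
          rw [tsum_geometric_of_lt_one hr0.le hr1] at this
          exact this
  have h2 : (y m1) ^ q = ENNReal.ofReal ((2:ℝ) ^ (d * m1)) * (x m1) ^ q := by
    simp only [hy]
    rw [ENNReal.mul_rpow_of_nonneg _ _ hq.le, ENNReal.ofReal_rpow_of_pos (by positivity)]
    congr 2
    have hnn : (0:ℝ) ≤ (2:ℝ) ^ (d / q) := by positivity
    rw [hr, ← Real.rpow_neg (by norm_num), neg_neg, ← Real.rpow_natCast,
      ← Real.rpow_mul hnn, ← Real.rpow_mul (by norm_num)]
    congr 1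
    field_simp

  calc (∑ m ∈ S, x m) ^ q ≤ (ENNReal.ofReal K * y m1) ^ q := ENNReal.rpow_le_rpow h1 hq.le
    _ = ENNReal.ofReal (K ^ q) * (y m1) ^ q := by
        rw [ENNReal.mul_rpow_of_nonneg _ _ hq.le, ENNReal.ofReal_rpow_of_pos hK0]
    _ ≤ _ := by
        rw [h2]
        gcongr
        exact Finset.single_le_sum
          (f := fun m : ℕ => ENNReal.ofReal ((2:ℝ) ^ (d * (m:ℝ))) * (x m) ^ q)
          (fun _ _ => bot_le) hm1

/-- reindexing the near part -/
lemma near_le (N n m0 J : ℕ) (A : Finset ℤ) (j : ℤ) (f : ℂ → ℂ) (z : ℂ) :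
    ∑ i ∈ A.filter (fun i => j - m0 ≤ i ∧ i ≤ j - J), (bj N n i f z) ^ (1/2 : ℝ) ≤
      ∑ m ∈ Finset.Icc J m0, (bj N n (j - (m : ℕ)) f z) ^ (1/2 : ℝ) := by
  have hinj : Function.Injective (fun m : ℕ => j - (m : ℤ)) := by
    intro m m' h
    have h' : j - (m : ℤ) = j - (m' : ℤ) := h
    omega
  have hsub : A.filter (fun i => j - m0 ≤ i ∧ i ≤ j - J) ⊆
      (Finset.Icc J m0).image (fun m : ℕ => j - (m : ℤ)) := by
    intro i hi
    rw [Finset.mem_filter] at hi
    rw [Finset.mem_image]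
    refine ⟨(j - i).toNat, ?_, ?_⟩
    · rw [Finset.mem_Icc]
      omega
    · omega
  calc _ ≤ ∑ i ∈ (Finset.Icc J m0).image (fun m : ℕ => j - (m : ℤ)), (bj N n i f z) ^ (1/2 : ℝ) :=
        Finset.sum_le_sum_of_subset hsub
    _ = _ := Finset.sum_image (fun _ _ _ _ h => hinj h)

end R8a

open R8a in
theorem P_bound (p : ℝ) (hp : 2 < p) (N : ℕ) (hN : 2 * p + 1 < N) : ∃ C : ℝ, 0 < C ∧ ∀ n : ℕ, 1 ≤ n →
    ∀ m0 J : ℕ, n ≤ 2 ^ m0 → (2:ℝ) ^ m0 ≤ 2 * n → ∀ A : Finset ℤ, ∀ f : ℂ → ℂ, Nice f →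
    ∑ j ∈ A, ∫⁻ z, (Nj N n m0 J A j f z) ^ (p - 2) * bj N n j f z
      ≤ ENNReal.ofReal (C * ((2:ℝ) ^ (-((1 - 2 / p) * J)) + (n:ℝ) ^ (-(1 - 2 / p))) *
          (n:ℝ) ^ (p - 2)) * nrp p f
        + ENNReal.ofReal C * (nrp p (gW n A f)) ^ (1 - 2 / p) * (nrp p f) ^ (2 / p) := by
  have hp0 : 0 < p := by linarith
  set d : ℝ := 1 - 2 / p with hd
  have hd0 : 0 < d := by
    rw [hd, sub_pos, div_lt_one hp0]
    exact hp
  set q : ℝ := p - 2 with hq
  have hq0 : 0 < q := by linarith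
  have hN2 : 2 ≤ N := by
    have h : (2:ℝ) < N := by linarith
    exact_mod_cast h.le
  obtain ⟨C1, hC1, hsum⟩ := sum_rpow_le q d hq0 hd0
  obtain ⟨C2, hC2, hnear⟩ := near_real N hN2 p hp
  obtain ⟨C3, hC3, hfar⟩ := far_real p hp N hN
  -- geometric constant
  set r : ℝ := (2:ℝ) ^ (-d) with hr
  have hr0 : 0 < r := Real.rpow_pos_of_pos (by norm_num) _
  have hr1 : r < 1 := Real.rpow_lt_one_of_one_lt_of_neg (by norm_num) (by linarith)
  set K : ℝ := (1 - r)⁻¹ with hK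
  have hK0 : 0 < K := inv_pos.2 (by linarith)
  have h2q : (0:ℝ) < 2 ^ q := Real.rpow_pos_of_pos (by norm_num) q
  set C : ℝ := 2 ^ q * (C1 * C2 * K) + 2 ^ q * C3 with hC
  have hCpos : 0 < C := by positivity
  refine ⟨C, hCpos, ?_⟩
  intro n hn m0 J hm0 hm0' A f hf
  have hn0 : (0:ℝ) < n := by exact_mod_cast hn
  -- pointwise
  have hpt : ∀ j z, (Nj N n m0 J A j f z) ^ q * bj N n j f z ≤
      ENNReal.ofReal (2 ^ q) * (ENNReal.ofReal C1 * ∑ m ∈ Finset.Icc J m0,
        ENNReal.ofReal ((2:ℝ) ^ (d * m)) * ((bj N n (j - (m:ℕ)) f z) ^ (p / 2 - 1) * bj N n j f z)) +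
      ENNReal.ofReal (2 ^ q) * ((Lj N n m0 A j f z) ^ q * bj N n j f z) := by
    intro j z
    have h1 : Nj N n m0 J A j f z ≤
        (∑ m ∈ Finset.Icc J m0, (bj N n (j - (m : ℕ)) f z) ^ (1/2 : ℝ)) + Lj N n m0 A j f z := by
      unfold Nj
      gcongr
      exact near_le N n m0 J A j f z
    have h2 := (ENNReal.rpow_le_rpow h1 hq0.le).trans (add_rpow_le' q hq0.le _ _)
    have h3 := hsum (Finset.Icc J m0) (fun m => (bj N n (j - (m : ℕ)) f z) ^ (1/2 : ℝ))
    have h4 : ∀ m : ℕ, ((bj N n (j - (m : ℕ)) f z) ^ (1/2 : ℝ)) ^ q =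
        (bj N n (j - (m : ℕ)) f z) ^ (p / 2 - 1) := by
      intro m
      rw [← ENNReal.rpow_mul]
      congr 1
      rw [hq]
      ring
    simp only [h4] at h3
    calc (Nj N n m0 J A j f z) ^ q * bj N n j f z
        ≤ (ENNReal.ofReal (2 ^ q) * ((ENNReal.ofReal C1 * ∑ m ∈ Finset.Icc J m0,
          ENNReal.ofReal ((2:ℝ) ^ (d * m)) * (bj N n (j - (m:ℕ)) f z) ^ (p / 2 - 1)) +
          (Lj N n m0 A j f z) ^ q)) * bj N n j f z := by
          refine mul_le_mul' (h2.trans ?_) le_rfl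
          gcongr
      _ = _ := by
          rw [mul_add, add_mul]
          congr 1
          · rw [mul_assoc, mul_assoc, Finset.sum_mul]
            congr 2
            refine Finset.sum_congr rfl fun m _ => ?_
            rw [mul_assoc]
          · rw [mul_assoc]
  have hbm : ∀ i : ℤ, Measurable (bj N n i f) := fun i => bj_meas N n i f hf
  have hLm : ∀ i : ℤ, Measurable (Lj N n m0 A i f) := fun i => Lj_meas N n m0 A i f hf
  -- integrate
  have hint : ∀ j, ∫⁻ z, (Nj N n m0 J A j f z) ^ q * bj N n j f z ≤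
      ENNReal.ofReal (2 ^ q) * (ENNReal.ofReal C1 * ∑ m ∈ Finset.Icc J m0,
        ENNReal.ofReal ((2:ℝ) ^ (d * m)) *
          ∫⁻ z, (bj N n (j - (m:ℕ)) f z) ^ (p / 2 - 1) * bj N n j f z) +
      ENNReal.ofReal (2 ^ q) * ∫⁻ z, (Lj N n m0 A j f z) ^ q * bj N n j f z := by
    intro j
    refine (lintegral_mono (hpt j)).trans (le_of_eq ?_)
    have hm1 : ∀ m : ℕ, Measurable (fun z => (bj N n (j - (m:ℕ)) f z) ^ (p / 2 - 1) * bj N n j f z) :=
      fun m => ((hbm _).pow_const _).mul (hbm j)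
    rw [lintegral_add_left, lintegral_const_mul, lintegral_const_mul, lintegral_finsetSum,
      lintegral_const_mul]
    · congr 3
      refine Finset.sum_congr rfl fun m _ => ?_
      rw [lintegral_const_mul _ (hm1 m)]
    · exact ((hLm j).pow_const _).mul (hbm j)
    · intro m _
      exact (hm1 m).const_mul _
    · exact Finset.measurable_sum _ fun m _ => (hm1 m).const_mul _
    · exact (Finset.measurable_sum _ fun m _ => (hm1 m).const_mul _).const_mul _
    · exact ((Finset.measurable_sum _ fun m _ => (hm1 m).const_mul _).const_mul _).const_mul _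
  -- the near part
  set X : ℝ≥0∞ := nrp p f with hX
  set Y : ℝ≥0∞ := (nrp p (gW n A f)) ^ (1 - 2 / p) * (nrp p f) ^ (2 / p) with hY
  have hnearS : ∑ j ∈ A, ∑ m ∈ Finset.Icc J m0, ENNReal.ofReal ((2:ℝ) ^ (d * m)) *
        ∫⁻ z, (bj N n (j - (m:ℕ)) f z) ^ (p / 2 - 1) * bj N n j f z ≤
      ENNReal.ofReal (C2 * K * (2:ℝ) ^ (-(d * J)) * (n:ℝ) ^ (p - 2)) * X := by
    rw [Finset.sum_comm]
    calc ∑ m ∈ Finset.Icc J m0, ∑ j ∈ A, ENNReal.ofReal ((2:ℝ) ^ (d * m)) *
          ∫⁻ z, (bj N n (j - (m:ℕ)) f z) ^ (p / 2 - 1) * bj N n j f z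
        ≤ ∑ m ∈ Finset.Icc J m0, ENNReal.ofReal (C2 * (n:ℝ) ^ (p - 2) * (2:ℝ) ^ (-(d * m))) * X := by
          refine Finset.sum_le_sum fun m hm => ?_
          rw [← Finset.mul_sum]
          have hm' : (2:ℝ) ^ m ≤ 2 * n := by
            refine le_trans ?_ hm0'
            exact pow_le_pow_right₀ (by norm_num) (Finset.mem_Icc.1 hm).2
          have h5 := hnear n hn m hm' A f hf
          calc _ ≤ ENNReal.ofReal ((2:ℝ) ^ (d * m)) *
                (ENNReal.ofReal (C2 * (n:ℝ) ^ (p - 2) * (2:ℝ) ^ (-(2 * m * (1 - 2 / p)))) * nrp p f) := by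
                gcongr
            _ = _ := by
                rw [← mul_assoc, ← ENNReal.ofReal_mul (by positivity)]
                congr 2
                rw [← hd]
                have h6 : (2:ℝ) ^ (d * m) * (2:ℝ) ^ (-(2 * m * d)) = (2:ℝ) ^ (-(d * m)) := by
                  rw [← Real.rpow_add (by norm_num)]
                  congr 1
                  ring
                rw [← h6]
                ring
      _ = ENNReal.ofReal (∑ m ∈ Finset.Icc J m0, C2 * (n:ℝ) ^ (p - 2) * (2:ℝ) ^ (-(d * m))) * X := by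
          rw [← Finset.sum_mul, ENNReal.ofReal_sum_of_nonneg (fun m _ => by positivity)]
      _ ≤ _ := by
          gcongr
          rw [← Finset.mul_sum]
          have h7 : ∑ m ∈ Finset.Icc J m0, (2:ℝ) ^ (-(d * m)) ≤ K * (2:ℝ) ^ (-(d * J)) := by
            have h8 : ∀ m : ℕ, (2:ℝ) ^ (-(d * m)) = r ^ m := by
              intro m
              rw [hr, ← Real.rpow_natCast, ← Real.rpow_mul (by norm_num)]
              congr 1
              ring
            simp only [h8]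
            have h9 : ∑ m ∈ Finset.Icc J m0, r ^ m ≤ ∑ m ∈ Finset.range (m0 + 1), r ^ J * r ^ m := by
              have h10 : Finset.Icc J m0 ⊆ (Finset.range (m0 + 1)).image (fun m => J + m) := by
                intro m hm
                rw [Finset.mem_Icc] at hm
                rw [Finset.mem_image]
                exact ⟨m - J, Finset.mem_range.2 (by omega), by omega⟩
              calc _ ≤ ∑ m ∈ (Finset.range (m0 + 1)).image (fun m => J + m), r ^ m :=
                    Finset.sum_le_sum_of_subset_of_nonneg h10 (fun _ _ _ => by positivity)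
                _ = ∑ m ∈ Finset.range (m0 + 1), r ^ (J + m) :=
                    Finset.sum_image (fun a _ b _ h => by simpa using h)
                _ = _ := Finset.sum_congr rfl fun m _ => pow_add r J m
            refine h9.trans ?_
            rw [← Finset.mul_sum, mul_comm]
            gcongr
            have hs : Summable (fun m : ℕ => r ^ m) := summable_geometric_of_lt_one hr0.le hr1
            have := hs.sum_le_tsum (Finset.range (m0 + 1)) (fun m _ => by positivity)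
            rw [tsum_geometric_of_lt_one hr0.le hr1] at this
            exact this
          calc C2 * (n:ℝ) ^ (p - 2) * ∑ m ∈ Finset.Icc J m0, (2:ℝ) ^ (-(d * m))
              ≤ C2 * (n:ℝ) ^ (p - 2) * (K * (2:ℝ) ^ (-(d * J))) := by gcongr
            _ = C2 * K * (2:ℝ) ^ (-(d * J)) * (n:ℝ) ^ (p - 2) := by ring
  have hfarS : ∑ j ∈ A, ∫⁻ z, (Lj N n m0 A j f z) ^ q * bj N n j f z ≤
      ENNReal.ofReal C3 * Y + ENNReal.ofReal (C3 * (n:ℝ) ^ (-d) * (n:ℝ) ^ (p - 2)) * X := by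
    refine (hfar n hn m0 hm0 hm0' A f hf).trans ?_
    rw [hY, ← mul_assoc]
    refine add_le_add le_rfl (mul_le_mul' (ENNReal.ofReal_le_ofReal ?_) le_rfl)
    have h11 : (2:ℝ) ^ (-(2 * m0 * (1 - 2 / p))) ≤ (n:ℝ) ^ (-d) := by
      rw [← hd]
      have h12 : (2:ℝ) ^ (-(2 * m0 * d)) ≤ ((2:ℝ) ^ (m0:ℝ)) ^ (-d) := by
        rw [← Real.rpow_mul (by norm_num)]
        refine Real.rpow_le_rpow_of_exponent_le (by norm_num) ?_
        have : 0 ≤ (m0:ℝ) * d := by positivity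
        nlinarith
      refine h12.trans ?_
      refine Real.rpow_le_rpow_of_nonpos hn0 ?_ (by linarith)
      rw [Real.rpow_natCast]
      exact_mod_cast hm0
    calc C3 * (n:ℝ) ^ (p - 2) * (2:ℝ) ^ (-(2 * m0 * (1 - 2 / p)))
        ≤ C3 * (n:ℝ) ^ (p - 2) * (n:ℝ) ^ (-d) := by gcongr
      _ = C3 * (n:ℝ) ^ (-d) * (n:ℝ) ^ (p - 2) := by ring
  -- sum up
  calc ∑ j ∈ A, ∫⁻ z, (Nj N n m0 J A j f z) ^ q * bj N n j f z
      ≤ ∑ j ∈ A, (ENNReal.ofReal (2 ^ q) * (ENNReal.ofReal C1 * ∑ m ∈ Finset.Icc J m0,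
        ENNReal.ofReal ((2:ℝ) ^ (d * m)) *
          ∫⁻ z, (bj N n (j - (m:ℕ)) f z) ^ (p / 2 - 1) * bj N n j f z) +
        ENNReal.ofReal (2 ^ q) * ∫⁻ z, (Lj N n m0 A j f z) ^ q * bj N n j f z) :=
        Finset.sum_le_sum fun j _ => hint j
    _ = ENNReal.ofReal (2 ^ q) * (ENNReal.ofReal C1 * ∑ j ∈ A, ∑ m ∈ Finset.Icc J m0,
        ENNReal.ofReal ((2:ℝ) ^ (d * m)) *
          ∫⁻ z, (bj N n (j - (m:ℕ)) f z) ^ (p / 2 - 1) * bj N n j f z) +
        ENNReal.ofReal (2 ^ q) * ∑ j ∈ A, ∫⁻ z, (Lj N n m0 A j f z) ^ q * bj N n j f z := by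
        rw [Finset.sum_add_distrib, ← Finset.mul_sum, ← Finset.mul_sum, ← Finset.mul_sum]
    _ ≤ ENNReal.ofReal (2 ^ q) * (ENNReal.ofReal C1 *
          (ENNReal.ofReal (C2 * K * (2:ℝ) ^ (-(d * J)) * (n:ℝ) ^ (p - 2)) * X)) +
        ENNReal.ofReal (2 ^ q) * (ENNReal.ofReal C3 * Y +
          ENNReal.ofReal (C3 * (n:ℝ) ^ (-d) * (n:ℝ) ^ (p - 2)) * X) := by
        gcongr
    _ = (ENNReal.ofReal (2 ^ q * C1 * (C2 * K * (2:ℝ) ^ (-(d * J)) * (n:ℝ) ^ (p - 2))) +
          ENNReal.ofReal (2 ^ q * (C3 * (n:ℝ) ^ (-d) * (n:ℝ) ^ (p - 2)))) * X +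
        ENNReal.ofReal (2 ^ q * C3) * Y := by
        rw [ENNReal.ofReal_mul (p := 2 ^ q * C1) (by positivity),
          ENNReal.ofReal_mul (p := 2 ^ q) (q := C1) (by positivity),
          ENNReal.ofReal_mul (p := 2 ^ q) (q := C3 * (n:ℝ) ^ (-d) * (n:ℝ) ^ (p - 2)) (by positivity),
          ENNReal.ofReal_mul (p := 2 ^ q) (q := C3) (by positivity)]
        ring
    _ ≤ ENNReal.ofReal (C * ((2:ℝ) ^ (-(d * J)) + (n:ℝ) ^ (-d)) * (n:ℝ) ^ (p - 2)) * X +
        ENNReal.ofReal C * Y := by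
        rw [← ENNReal.ofReal_add (by positivity) (by positivity)]
        have hA1 : 0 ≤ (2:ℝ) ^ q * (C1 * C2 * K) := by positivity
        have hA2 : 0 ≤ (2:ℝ) ^ q * C3 := by positivity
        have hu : 0 ≤ (2:ℝ) ^ (-(d * J)) * (n:ℝ) ^ (p - 2) := by positivity
        have hv : 0 ≤ (n:ℝ) ^ (-d) * (n:ℝ) ^ (p - 2) := by positivity
        gcongr
        · rw [hC]
          nlinarith [mul_nonneg hA1 hv, mul_nonneg hA2 hu]
        · rw [hC]
          linarith
    _ = _ := by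
        rw [hY, ← mul_assoc]

end Helper85.BP.P
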