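import Pool.Agent.Helper72.BAM.Fin
import Pool.Agent.Helper85.BP.Defs
import Pool.Agent.Helper85.BPM.R4a
import Pool.Agent.Helper85.BPM.R4b
import Pool.Agent.Helper85.BPM.R5
import Pool.Agent.Helper85.BPM.R6
import Pool.Agent.Helper85.BPM.R7

/-!
# Module R8b of MP_3dd6d4_an (all p): the sum `T`
-/

set_option autoImplicit false

open MeasureTheory Complex FourierTransform Filter Topology
open scoped ENNReal NNReal ComplexConjugate

noncomputable section

namespace Helper85.BP.P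

open Helper72.BA Helper85.BP

/-! ### measurability -/

theorem r8b_cont (N : ℕ) (ρ : ℝ) : Continuous (gamN N ρ) := by
  unfold gamN
  refine continuous_const.mul (Continuous.inv₀ (by fun_prop) fun z => ?_)
  have : 0 ≤ ‖z‖ ^ 2 / ρ ^ 2 := by positivity
  positivity

theorem r8b_meas_avg (N : ℕ) (ρ : ℝ) {h : ℂ → ℝ≥0∞} (hh : Measurable h) :
    Measurable fun z => ∫⁻ w, ENNReal.ofReal (gamN N ρ (z - w)) * h w := by
  apply Measurable.lintegral_prod_right' (f := fun q : ℂ × ℂ =>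
    ENNReal.ofReal (gamN N ρ (q.1 - q.2)) * h q.2)
  refine Measurable.mul ?_ (hh.comp measurable_snd)
  exact ((r8b_cont N ρ).measurable.comp (measurable_fst.sub measurable_snd)).ennreal_ofReal

theorem r8b_cont_gj (n : ℕ) (j : ℤ) {f : ℂ → ℂ} (hf : Nice f) : Continuous (gj n j f) :=
  continuous_cv (ker_KK n j) hf

theorem r8b_nice_gj (n : ℕ) (j : ℤ) {f : ℂ → ℂ} (hf : Nice f) : Nice (gj n j f) :=
  nice_cv (ker_KK n j) hf

theorem r8b_nice_add {f g : ℂ → ℂ} (hf : Nice f) (hg : Nice g) : Nice (f + g) := by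
  obtain ⟨C, hC⟩ := hf.bdd
  obtain ⟨D, hD⟩ := hg.bdd
  exact ⟨hf.meas.add hg.meas, hf.int.add hg.int,
    C + D, fun z => (norm_add_le _ _).trans (add_le_add (hC z) (hD z))⟩

theorem r8b_nice_zero : Nice (0 : ℂ → ℂ) :=
  ⟨measurable_const, integrable_zero _ _ _, 0, fun z => by simp⟩

theorem r8b_gW_insert (n : ℕ) (j : ℤ) (W : Finset ℤ) (hj : j ∉ W) (f : ℂ → ℂ) :
    gW n (insert j W) f = gj n j f + gW n W f := by
  ext z
  simp only [gW, Pi.add_apply]
  rw [Finset.sum_insert hj]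

theorem r8b_gW_empty (n : ℕ) (f : ℂ → ℂ) : gW n ∅ f = 0 := by
  ext z
  simp [gW]

theorem r8b_nice_gW (n : ℕ) (W : Finset ℤ) {f : ℂ → ℂ} (hf : Nice f) : Nice (gW n W f) := by
  induction W using Finset.induction_on with
  | empty => rw [r8b_gW_empty]; exact r8b_nice_zero
  | insert j W hj ih =>
    rw [r8b_gW_insert n j W hj]
    exact r8b_nice_add (r8b_nice_gj n j hf) ih

theorem r8b_cont_gW (n : ℕ) (W : Finset ℤ) {f : ℂ → ℂ} (hf : Nice f) :
    Continuous (gW n W f) := by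
  unfold gW
  exact continuous_finsetSum _ fun j _ => r8b_cont_gj n j hf

theorem r8b_gW_reproduce (n : ℕ) (W : Finset ℤ) (i : ℤ) (hW : ∀ j ∈ W, j + 1 ≤ i) {f : ℂ → ℂ}
    (hf : Nice f) : gW n W f = cv (kap i) (gW n W f) := by
  induction W using Finset.induction_on with
  | empty =>
    rw [r8b_gW_empty]
    ext z
    simp [cv]
  | insert j W hj ih =>
    rw [r8b_gW_insert n j W hj, cv_add (ker_kap i) (r8b_nice_gj n j hf) (r8b_nice_gW n W hf),
      ← ih (fun j' hj' => hW j' (Finset.mem_insert_of_mem hj'))]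
    congr 1
    ext z
    exact gj_reproduce n j i (hW j (Finset.mem_insert_self _ _)) f hf z

theorem r8b_meas_sq {g : ℂ → ℂ} (hg : Continuous g) : Measurable fun w => ‖g w‖ₑ ^ 2 :=
  (hg.measurable.enorm).pow_const 2

theorem r8b_meas_bj (N n : ℕ) (j : ℤ) {f : ℂ → ℂ} (hf : Nice f) : Measurable (bj N n j f) :=
  r8b_meas_avg N _ (r8b_meas_sq (r8b_cont_gj n j hf))

theorem r8b_meas_Lj (N n m0 : ℕ) (A : Finset ℤ) (j : ℤ) {f : ℂ → ℂ} (hf : Nice f) :
    Measurable (Lj N n m0 A j f) :=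
  (r8b_meas_avg N _ (r8b_meas_sq (r8b_cont_gW n _ hf))).pow_const _

/-! ### averaging twice -/

theorem r8b_avg_avg (N : ℕ) (hN : 2 ≤ N) : ∃ C : ℝ, 0 < C ∧ ∀ a b : ℝ, 0 < a → a ≤ b →
    ∀ h : ℂ → ℝ≥0∞, Measurable h → ∀ z : ℂ,
    ∫⁻ w, ENNReal.ofReal (gamN N a (z - w)) *
        ∫⁻ v, ENNReal.ofReal (gamN N b (w - v)) * h v ≤
      ENNReal.ofReal C * ∫⁻ v, ENNReal.ofReal (gamN N b (z - v)) * h v := by
  obtain ⟨C, hC, hconv⟩ := gamN_conv N hN
  refine ⟨C, hC, fun a b ha hab h hh z => ?_⟩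
  have hm : ∀ ρ : ℝ, Measurable fun q : ℂ => ENNReal.ofReal (gamN N ρ q) := fun ρ =>
    (r8b_cont N ρ).measurable.ennreal_ofReal
  have h1 : ∀ w, ENNReal.ofReal (gamN N a (z - w)) *
      ∫⁻ v, ENNReal.ofReal (gamN N b (w - v)) * h v =
      ∫⁻ v, ENNReal.ofReal (gamN N a (z - w)) * (ENNReal.ofReal (gamN N b (w - v)) * h v) := by
    intro w
    rw [lintegral_const_mul]
    exact ((hm b).comp (measurable_const.sub measurable_id)).mul hh
  simp_rw [h1]
  rw [lintegral_lintegral_swap]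
  · have h2 : ∀ v, ∫⁻ w, ENNReal.ofReal (gamN N a (z - w)) *
        (ENNReal.ofReal (gamN N b (w - v)) * h v) =
        (∫⁻ w, ENNReal.ofReal (gamN N a (z - w)) * ENNReal.ofReal (gamN N b (w - v))) * h v := by
      intro v
      rw [← lintegral_mul_const]
      · simp_rw [mul_assoc]
      · exact ((hm a).comp (measurable_const.sub measurable_id)).mul
          ((hm b).comp (measurable_id.sub measurable_const))
    simp_rw [h2]
    rw [← lintegral_const_mul]
    · refine lintegral_mono fun v => ?_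
      rw [← mul_assoc, ← ENNReal.ofReal_mul hC.le]
      exact mul_le_mul' (hconv a b ha hab z v) le_rfl
    · exact ((hm b).comp (measurable_const.sub measurable_id)).mul hh
  · apply Measurable.aemeasurable
    refine Measurable.mul ?_ (Measurable.mul ?_ (hh.comp measurable_snd))
    · exact (hm a).comp (measurable_const.sub measurable_fst)
    · exact (hm b).comp (measurable_fst.sub measurable_snd)

theorem r8b_half (N : ℕ) (ρ : ℝ) (hρ : 0 < ρ) (z : ℂ) : gamN N (ρ / 2) z ≤ 4 * gamN N ρ z := by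
  unfold gamN
  have h1 : ((ρ / 2) ^ 2)⁻¹ = 4 * (ρ ^ 2)⁻¹ := by
    field_simp
    norm_num
  have h2 : (1 + ‖z‖ ^ 2 / ρ ^ 2) ^ N ≤ (1 + ‖z‖ ^ 2 / (ρ / 2) ^ 2) ^ N := by
    apply pow_le_pow_left₀ (by positivity)
    have : ‖z‖ ^ 2 / ρ ^ 2 ≤ ‖z‖ ^ 2 / (ρ / 2) ^ 2 := by
      apply div_le_div_of_nonneg_left (by positivity) (by positivity)
      nlinarith
    linarith
  rw [h1, mul_assoc]
  refine mul_le_mul_of_nonneg_left ?_ (by norm_num)
  refine mul_le_mul_of_nonneg_left ?_ (by positivity)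
  exact inv_anti₀ (by positivity) h2

/-- the local means control the means at smaller scales -/
theorem r8b_smaller (N : ℕ) (hN : 2 ≤ N) : ∃ C : ℝ, 1 ≤ C ∧ ∀ i : ℤ, ∀ g : ℂ → ℂ, Nice g →
    Continuous g → (∀ z, g z = cv (kap i) g z) → ∀ a : ℝ, 0 < a → a ≤ (2:ℝ) ^ (-i) → ∀ z : ℂ,
    ∫⁻ w, ENNReal.ofReal (gamN N a (z - w)) * ‖g w‖ₑ ^ 2 ≤
      ENNReal.ofReal C * ∫⁻ w, ENNReal.ofReal (gamN N ((2:ℝ) ^ (-i)) (z - w)) * ‖g w‖ₑ ^ 2 := by
  obtain ⟨C1, hC1, h1⟩ := reproduce N hN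
  obtain ⟨C2, hC2, h2⟩ := r8b_avg_avg N hN
  refine ⟨C1 * C2 + 1, by nlinarith [mul_pos hC1 hC2], ?_⟩
  intro i g hg hgc hrep a ha hab z
  have hm : Measurable fun w => ‖g w‖ₑ ^ 2 := r8b_meas_sq hgc
  have hma : Measurable fun w => ENNReal.ofReal (gamN N a (z - w)) :=
    ((r8b_cont N a).measurable.comp (measurable_const.sub measurable_id)).ennreal_ofReal
  calc ∫⁻ w, ENNReal.ofReal (gamN N a (z - w)) * ‖g w‖ₑ ^ 2 ≤
        ∫⁻ w, ENNReal.ofReal C1 * (ENNReal.ofReal (gamN N a (z - w)) *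
          ∫⁻ v, ENNReal.ofReal (gamN N ((2:ℝ) ^ (-i)) (w - v)) * ‖g v‖ₑ ^ 2) := by
        refine lintegral_mono fun w => ?_
        have := (h1 i g hg hgc hrep w 0).1
        calc ENNReal.ofReal (gamN N a (z - w)) * ‖g w‖ₑ ^ 2 ≤ ENNReal.ofReal (gamN N a (z - w)) *
            (ENNReal.ofReal C1 * ∫⁻ v, ENNReal.ofReal (gamN N ((2:ℝ) ^ (-i)) (w - v)) *
              ‖g v‖ₑ ^ 2) := mul_le_mul' le_rfl this
          _ = _ := by ring
    _ = ENNReal.ofReal C1 * ∫⁻ w, ENNReal.ofReal (gamN N a (z - w)) *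
          ∫⁻ v, ENNReal.ofReal (gamN N ((2:ℝ) ^ (-i)) (w - v)) * ‖g v‖ₑ ^ 2 := by
        rw [lintegral_const_mul]
        exact hma.mul (r8b_meas_avg N _ hm)
    _ ≤ ENNReal.ofReal C1 * (ENNReal.ofReal C2 *
          ∫⁻ w, ENNReal.ofReal (gamN N ((2:ℝ) ^ (-i)) (z - w)) * ‖g w‖ₑ ^ 2) :=
        mul_le_mul' le_rfl (h2 a _ ha hab _ hm z)
    _ = ENNReal.ofReal (C1 * C2) *
          ∫⁻ w, ENNReal.ofReal (gamN N ((2:ℝ) ^ (-i)) (z - w)) * ‖g w‖ₑ ^ 2 := by
        rw [← mul_assoc, ← ENNReal.ofReal_mul hC1.le]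
    _ ≤ _ := mul_le_mul' (ENNReal.ofReal_le_ofReal (by linarith)) le_rfl

/-- version for `g_i` at scale `2^{-i}` -/
theorem r8b_smaller_bj (N : ℕ) (hN : 2 ≤ N) : ∃ C : ℝ, 1 ≤ C ∧ ∀ n : ℕ, ∀ i : ℤ,
    ∀ f : ℂ → ℂ, Nice f → ∀ a : ℝ, 0 < a → a ≤ (2:ℝ) ^ (-(i + 1)) → ∀ z : ℂ,
    ∫⁻ w, ENNReal.ofReal (gamN N a (z - w)) * ‖gj n i f w‖ₑ ^ 2 ≤
      ENNReal.ofReal C * bj N n i f z := by
  obtain ⟨C, hC, h⟩ := r8b_smaller N hN
  refine ⟨4 * C, by linarith, fun n i f hf a ha hab z => ?_⟩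
  have h1 := h (i + 1) (gj n i f) (r8b_nice_gj n i hf) (r8b_cont_gj n i hf)
    (fun z => gj_reproduce n i (i + 1) le_rfl f hf z) a ha hab z
  refine h1.trans ?_
  have e : (2:ℝ) ^ (-(i + 1)) = (2:ℝ) ^ (-i) / 2 := by
    rw [neg_add, ← sub_eq_add_neg, zpow_sub₀ (by norm_num), zpow_one]
  calc ENNReal.ofReal C * ∫⁻ w, ENNReal.ofReal (gamN N ((2:ℝ) ^ (-(i + 1))) (z - w)) *
        ‖gj n i f w‖ₑ ^ 2 ≤ ENNReal.ofReal C * ∫⁻ w, ENNReal.ofReal 4 *
        (ENNReal.ofReal (gamN N ((2:ℝ) ^ (-i)) (z - w)) * ‖gj n i f w‖ₑ ^ 2) := by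
        refine mul_le_mul' le_rfl (lintegral_mono fun w => ?_)
        rw [← mul_assoc, ← ENNReal.ofReal_mul (by norm_num), e]
        exact mul_le_mul' (ENNReal.ofReal_le_ofReal (r8b_half N _ (by positivity) _)) le_rfl
    _ = ENNReal.ofReal (4 * C) * bj N n i f z := by
        rw [lintegral_const_mul, ← mul_assoc, ← ENNReal.ofReal_mul (by linarith), mul_comm C 4]
        · rfl
        · refine Measurable.mul ?_ (r8b_meas_sq (r8b_cont_gj n i hf))
          exact ((r8b_cont N _).measurable.comp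
            (measurable_const.sub measurable_id)).ennreal_ofReal


/-! ### sums over integers -/

theorem r8b_sum_up (S : Finset ℤ) (i : ℤ) (R : Finset ℕ)
    (h : ∀ j ∈ S, i ≤ j ∧ (j - i).toNat ∈ R) (G : ℤ → ℝ≥0∞) :
    ∑ j ∈ S, G j ≤ ∑ m ∈ R, G (i + m) := by
  have hinj : Set.InjOn (fun j : ℤ => (j - i).toNat) S := by
    intro a ha b hb hab
    have h1 := (h a ha).1
    have h2 := (h b hb).1
    simp only at hab
    omega
  calc ∑ j ∈ S, G j = ∑ j ∈ S, G (i + ((j - i).toNat : ℤ)) := by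
        refine Finset.sum_congr rfl (fun j hj => ?_)
        have := (h j hj).1
        congr 1
        omega
    _ = ∑ m ∈ S.image (fun j => (j - i).toNat), G (i + m) := by rw [Finset.sum_image hinj]
    _ ≤ _ := by
        refine Finset.sum_le_sum_of_subset (fun m hm => ?_)
        obtain ⟨j, hj, rfl⟩ := Finset.mem_image.1 hm
        exact (h j hj).2

theorem r8b_sum_down (S : Finset ℤ) (i : ℤ) (R : Finset ℕ)
    (h : ∀ j ∈ S, j ≤ i ∧ (i - j).toNat ∈ R) (G : ℤ → ℝ≥0∞) :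
    ∑ j ∈ S, G j ≤ ∑ m ∈ R, G (i - m) := by
  have hinj : Set.InjOn (fun j : ℤ => (i - j).toNat) S := by
    intro a ha b hb hab
    have h1 := (h a ha).1
    have h2 := (h b hb).1
    simp only at hab
    omega
  calc ∑ j ∈ S, G j = ∑ j ∈ S, G (i - ((i - j).toNat : ℤ)) := by
        refine Finset.sum_congr rfl (fun j hj => ?_)
        have := (h j hj).1
        congr 1
        omega
    _ = ∑ m ∈ S.image (fun j => (i - j).toNat), G (i - m) := by rw [Finset.sum_image hinj]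
    _ ≤ _ := by
        refine Finset.sum_le_sum_of_subset (fun m hm => ?_)
        obtain ⟨j, hj, rfl⟩ := Finset.mem_image.1 hm
        exact (h j hj).2

theorem r8b_geom (r : ℝ) (h0 : 0 ≤ r) (h1 : r < 1) (R : Finset ℕ) :
    ∑ m ∈ R, ENNReal.ofReal (r ^ m) ≤ ENNReal.ofReal (1 - r)⁻¹ := by
  rw [← ENNReal.ofReal_sum_of_nonneg (fun m _ => by positivity)]
  refine ENNReal.ofReal_le_ofReal ?_
  rw [← tsum_geometric_of_lt_one h0 h1]
  exact (summable_geometric_of_lt_one h0 h1).sum_le_tsum R (fun m _ => by positivity)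

theorem r8b_geom_int (r : ℝ) (h0 : 0 ≤ r) (h1 : r < 1) (T : Finset ℤ) (i : ℤ) :
    ∑ k ∈ T, ENNReal.ofReal (r ^ (k - i).natAbs) ≤ ENNReal.ofReal (2 * (1 - r)⁻¹) := by
  have hr : 0 < 1 - r := by linarith
  have hsplit : ∑ k ∈ T, ENNReal.ofReal (r ^ (k - i).natAbs) =
      ∑ k ∈ T.filter (fun k => i ≤ k), ENNReal.ofReal (r ^ (k - i).natAbs) +
      ∑ k ∈ T.filter (fun k => ¬ i ≤ k), ENNReal.ofReal (r ^ (k - i).natAbs) :=
    (Finset.sum_filter_add_sum_filter_not T _ _).symm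
  rw [hsplit, two_mul, ENNReal.ofReal_add (by positivity) (by positivity)]
  refine add_le_add ?_ ?_
  · have h := r8b_sum_up (T.filter (fun k => i ≤ k)) i
      ((T.filter (fun k => i ≤ k)).image (fun j => (j - i).toNat))
      (fun j hj => ⟨(Finset.mem_filter.1 hj).2, Finset.mem_image_of_mem _ hj⟩)
      (fun k => ENNReal.ofReal (r ^ (k - i).natAbs))
    refine h.trans (le_trans (Finset.sum_le_sum (fun m _ => ?_)) (r8b_geom r h0 h1 _))
    refine le_of_eq ?_
    congr 2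
    omega
  · have h := r8b_sum_down (T.filter (fun k => ¬ i ≤ k)) i
      ((T.filter (fun k => ¬ i ≤ k)).image (fun j => (i - j).toNat))
      (fun j hj => ⟨by have := (Finset.mem_filter.1 hj).2; omega, Finset.mem_image_of_mem _ hj⟩)
      (fun k => ENNReal.ofReal (r ^ (k - i).natAbs))
    refine h.trans (le_trans (Finset.sum_le_sum (fun m _ => ?_)) (r8b_geom r h0 h1 _))
    refine le_of_eq ?_
    congr 2
    omega

/-- weighted power inequality -/
theorem r8b_power (q : ℝ) (hq : 0 < q) (lam : ℝ) (hlam : 1 < lam) : ∃ C : ℝ, 0 < C ∧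
    ∀ (T : Finset ℤ) (i : ℤ) (x : ℤ → ℝ≥0∞) (y : ℝ≥0∞),
    (∑ k ∈ T, x k + y) ^ q ≤ ENNReal.ofReal C *
      (∑ k ∈ T, ENNReal.ofReal (lam ^ (k - i).natAbs) * (x k) ^ q + y ^ q) := by
  have hl0 : 0 < lam := by linarith
  set r : ℝ := lam ^ (-(1 / q)) with hr
  have hr0 : 0 < r := Real.rpow_pos_of_pos hl0 _
  have hr1 : r < 1 := Real.rpow_lt_one_of_one_lt_of_neg hlam (by
    have : 0 < 1 / q := by positivity
    linarith)
  have hr2 : 0 < (1 - r)⁻¹ := inv_pos.2 (by linarith)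
  refine ⟨(2 * (1 - r)⁻¹ + 1) ^ q, by positivity, fun T i x y => ?_⟩
  set R : ℝ≥0∞ := ∑ k ∈ T, ENNReal.ofReal (lam ^ (k - i).natAbs) * (x k) ^ q + y ^ q with hR
  have hx : ∀ k ∈ T, x k ≤ ENNReal.ofReal (r ^ (k - i).natAbs) * R ^ (1 / q) := by
    intro k hk
    have h1 : ENNReal.ofReal (lam ^ (k - i).natAbs) * (x k) ^ q ≤ R :=
      (Finset.single_le_sum (f := fun k => ENNReal.ofReal (lam ^ (k - i).natAbs) * (x k) ^ q)
        (fun _ _ => zero_le) hk).trans le_self_add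
    have h2 : ENNReal.ofReal (lam ^ (k - i).natAbs) ^ (1 / q) * x k ≤ R ^ (1 / q) := by
      have := ENNReal.rpow_le_rpow h1 (by positivity : 0 ≤ 1 / q)
      rwa [ENNReal.mul_rpow_of_nonneg _ _ (by positivity : 0 ≤ 1 / q), ← ENNReal.rpow_mul,
        mul_one_div_cancel hq.ne', ENNReal.rpow_one] at this
    have h3 : ENNReal.ofReal (r ^ (k - i).natAbs) *
        ENNReal.ofReal (lam ^ (k - i).natAbs) ^ (1 / q) = 1 := by
      rw [ENNReal.ofReal_rpow_of_pos (by positivity), ← ENNReal.ofReal_mul (by positivity), hr,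
        ← Real.rpow_natCast, ← Real.rpow_natCast, ← Real.rpow_mul hl0.le, ← Real.rpow_mul hl0.le,
        ← Real.rpow_add hl0]
      rw [show -(1 / q) * ((k - i).natAbs : ℝ) + ((k - i).natAbs : ℝ) * (1 / q) = 0 by ring]
      simp
    calc x k = ENNReal.ofReal (r ^ (k - i).natAbs) *
        ENNReal.ofReal (lam ^ (k - i).natAbs) ^ (1 / q) * x k := by rw [h3, one_mul]
      _ ≤ ENNReal.ofReal (r ^ (k - i).natAbs) * R ^ (1 / q) := by
        rw [mul_assoc]
        exact mul_le_mul' le_rfl h2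
  have hy : y ≤ R ^ (1 / q) := by
    have h1 : y ^ q ≤ R := le_add_self
    have := ENNReal.rpow_le_rpow h1 (by positivity : 0 ≤ 1 / q)
    rwa [← ENNReal.rpow_mul, mul_one_div_cancel hq.ne', ENNReal.rpow_one] at this
  have hsum : ∑ k ∈ T, x k + y ≤ ENNReal.ofReal (2 * (1 - r)⁻¹ + 1) * R ^ (1 / q) := by
    rw [ENNReal.ofReal_add (by positivity) (by norm_num), add_mul, ENNReal.ofReal_one, one_mul]
    refine add_le_add ?_ hy
    refine (Finset.sum_le_sum hx).trans ?_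
    rw [← Finset.sum_mul]
    exact mul_le_mul' (r8b_geom_int r hr0.le hr1 T i) le_rfl
  calc (∑ k ∈ T, x k + y) ^ q ≤ (ENNReal.ofReal (2 * (1 - r)⁻¹ + 1) * R ^ (1 / q)) ^ q :=
        ENNReal.rpow_le_rpow hsum hq.le
    _ = _ := by
        rw [ENNReal.mul_rpow_of_nonneg _ _ hq.le, ← ENNReal.rpow_mul, one_div_mul_cancel hq.ne',
          ENNReal.rpow_one, ENNReal.ofReal_rpow_of_pos (by positivity)]

/-- the square of `D_j` -/
theorem r8b_D (N n J : ℕ) (A : Finset ℤ) (j : ℤ) (f : ℂ → ℂ) (z : ℂ) :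
    (Dj N n J A j f z) ^ 2 ≤ ENNReal.ofReal (12 * (2:ℝ) ^ (-(J:ℝ))) *
      ∑ i ∈ A.filter (fun i => i ≤ j - J), ENNReal.ofReal ((2:ℝ) ^ (i - j)) * bj N n i f z := by
  set R : ℝ≥0∞ := ∑ i ∈ A.filter (fun i => i ≤ j - J),
    ENNReal.ofReal ((2:ℝ) ^ (i - j)) * bj N n i f z with hR
  set s : ℝ := (2:ℝ) ^ (-(1/2:ℝ)) with hs
  have hs0 : 0 < s := by positivity
  have hss : s * s = 1 / 2 := by
    rw [hs, ← Real.rpow_add (by norm_num)]
    norm_num
  have hs1 : s < 3 / 4 := by nlinarith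
  have hS : ∀ i ∈ A.filter (fun i => i ≤ j - J),
      ENNReal.ofReal ((2:ℝ) ^ (i - j)) * (bj N n i f z) ^ (1/2 : ℝ) ≤
      ENNReal.ofReal (s ^ (j - i).toNat) * R ^ (1/2 : ℝ) := by
    intro i hi
    have hij : i ≤ j - J := (Finset.mem_filter.1 hi).2
    have h1 : ENNReal.ofReal ((2:ℝ) ^ (i - j)) * bj N n i f z ≤ R :=
      Finset.single_le_sum (f := fun i => ENNReal.ofReal ((2:ℝ) ^ (i - j)) * bj N n i f z)
        (fun _ _ => zero_le) hi
    have e : (2:ℝ) ^ (i - j) = s ^ (j - i).toNat * s ^ (j - i).toNat := by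
      rw [← mul_pow, hss]
      have : i - j = -((j - i).toNat : ℤ) := by omega
      rw [this, zpow_neg, zpow_natCast, one_div, inv_pow]
    have e2 : ENNReal.ofReal ((2:ℝ) ^ (i - j)) ^ (1/2 : ℝ) = ENNReal.ofReal (s ^ (j - i).toNat) := by
      rw [ENNReal.ofReal_rpow_of_pos (by positivity), e, ← sq, ← Real.rpow_natCast,
        ← Real.rpow_mul (by positivity)]
      norm_num
    have h2 := ENNReal.rpow_le_rpow h1 (by norm_num : (0:ℝ) ≤ 1/2)
    rw [ENNReal.mul_rpow_of_nonneg _ _ (by norm_num : (0:ℝ) ≤ 1/2), e2] at h2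
    rw [e, ENNReal.ofReal_mul (by positivity), mul_assoc]
    exact mul_le_mul' le_rfl h2
  have hsum : Dj N n J A j f z ≤ ENNReal.ofReal (s ^ J * (1 - s)⁻¹) * R ^ (1/2 : ℝ) := by
    unfold Dj
    refine (Finset.sum_le_sum hS).trans ?_
    rw [← Finset.sum_mul]
    refine mul_le_mul' ?_ le_rfl
    have h := r8b_sum_down (A.filter (fun i => i ≤ j - J)) (j - J)
      ((A.filter (fun i => i ≤ j - J)).image (fun i => (j - J - i).toNat))
      (fun i hi => ⟨(Finset.mem_filter.1 hi).2, Finset.mem_image_of_mem _ hi⟩)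
      (fun i => ENNReal.ofReal (s ^ (j - i).toNat))
    refine h.trans ?_
    rw [ENNReal.ofReal_mul (by positivity)]
    refine le_trans ?_ (mul_le_mul' le_rfl (r8b_geom s hs0.le (by linarith)
      ((A.filter (fun i => i ≤ j - J)).image (fun i => (j - J - i).toNat))))
    rw [Finset.mul_sum]
    refine Finset.sum_le_sum (fun m _ => ?_)
    rw [← ENNReal.ofReal_mul (by positivity), ← pow_add]
    refine le_of_eq ?_
    congr 2
    omega
  calc (Dj N n J A j f z) ^ 2 ≤ (ENNReal.ofReal (s ^ J * (1 - s)⁻¹) * R ^ (1/2 : ℝ)) ^ 2 := by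
        gcongr
    _ = ENNReal.ofReal ((s ^ J * (1 - s)⁻¹) ^ 2) * R := by
        rw [mul_pow, ENNReal.ofReal_pow
          (mul_nonneg (pow_nonneg hs0.le _) (inv_nonneg.2 (by linarith)))]
        congr 1
        rw [← ENNReal.rpow_natCast, ← ENNReal.rpow_mul]
        norm_num
    _ ≤ _ := by
        refine mul_le_mul' (ENNReal.ofReal_le_ofReal ?_) le_rfl
        have e3 : (s ^ J) ^ 2 = (2:ℝ) ^ (-(J:ℝ)) := by
          rw [hs, ← Real.rpow_natCast, ← Real.rpow_natCast, ← Real.rpow_mul (by positivity),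
            ← Real.rpow_mul (by positivity)]
          congr 1
          push_cast
          ring
        rw [mul_pow, e3, mul_comm]
        refine mul_le_mul_of_nonneg_right ?_ (by positivity)
        rw [inv_pow]
        have h5 : 0 < 1 - s := by linarith
        rw [inv_le_comm₀ (by positivity) (by norm_num)]
        have h6 : s < 0.7072 := by nlinarith
        nlinarith


/-! ### local `L²` means -/

/-- local quadratic mean -/
def r8bM (N : ℕ) (a : ℝ) (z : ℂ) (g : ℂ → ℂ) : ℝ≥0∞ :=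
  (∫⁻ w, ENNReal.ofReal (gamN N a (z - w)) * ‖g w‖ₑ ^ 2) ^ (1/2 : ℝ)

theorem r8bM_eq (N : ℕ) (a : ℝ) (z : ℂ) (g : ℂ → ℂ) : r8bM N a z g =
    (∫⁻ w, (‖g w‖ₑ) ^ (2:ℝ)
      ∂(volume.withDensity fun w => ENNReal.ofReal (gamN N a (z - w)))) ^ (1/2 : ℝ) := by
  unfold r8bM
  congr 1
  rw [lintegral_withDensity_eq_lintegral_mul_non_measurable]
  · refine lintegral_congr fun w => ?_
    simp only [Pi.mul_apply]
    norm_num
  · exact ((r8b_cont N a).measurable.comp (measurable_const.sub measurable_id)).ennreal_ofReal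
  · exact Eventually.of_forall fun w => ENNReal.ofReal_lt_top

theorem r8bM_add (N : ℕ) (a : ℝ) (z : ℂ) {g h : ℂ → ℂ} (hg : Continuous g) (hh : Continuous h) :
    r8bM N a z (g + h) ≤ r8bM N a z g + r8bM N a z h := by
  rw [r8bM_eq, r8bM_eq, r8bM_eq]
  have h1 := ENNReal.lintegral_Lp_add_le
    (μ := volume.withDensity fun w => ENNReal.ofReal (gamN N a (z - w))) (p := 2)
    (f := fun w => ‖g w‖ₑ) (g := fun w => ‖h w‖ₑ)
    hg.measurable.enorm.aemeasurable hh.measurable.enorm.aemeasurable (by norm_num)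
  refine le_trans (ENNReal.rpow_le_rpow (lintegral_mono fun w => ?_) (by norm_num)) h1
  exact ENNReal.rpow_le_rpow (enorm_add_le _ _) (by norm_num)

theorem r8bM_gW (N n : ℕ) (a : ℝ) (z : ℂ) (W : Finset ℤ) {f : ℂ → ℂ} (hf : Nice f) :
    r8bM N a z (gW n W f) ≤ ∑ k ∈ W, r8bM N a z (gj n k f) := by
  induction W using Finset.induction_on with
  | empty =>
    rw [r8b_gW_empty]
    simp [r8bM]
  | insert j W hj ih =>
    rw [r8b_gW_insert n j W hj, Finset.sum_insert hj]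
    exact (r8bM_add N a z (r8b_cont_gj n j hf) (r8b_cont_gW n W hf)).trans
      (add_le_add le_rfl ih)

/-- `N_j` is controlled by data at a lower frequency `i ≤ j` -/
theorem r8b_N (N : ℕ) (hN : 2 ≤ N) : ∃ C : ℝ, 0 < C ∧ ∀ n m0 J : ℕ, ∀ A : Finset ℤ, ∀ f : ℂ → ℂ,
    Nice f → ∀ i j : ℤ, i ≤ j → ∀ z : ℂ,
    Nj N n m0 J A j f z ≤ ENNReal.ofReal C *
      (∑ k ∈ A.filter (fun k => i - m0 ≤ k ∧ k ≤ j), (bj N n k f z) ^ (1/2 : ℝ) +
        Lj N n m0 A i f z) := by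
  obtain ⟨C1, hC1, h1⟩ := r8b_smaller N hN
  obtain ⟨C2, hC2, h2⟩ := r8b_smaller_bj N hN
  set C3 : ℝ := C1 + C2 with hC3
  have hC30 : 1 ≤ C3 := by linarith
  refine ⟨C3, by linarith, fun n m0 J A f hf i j hij z => ?_⟩
  set a : ℝ := (2:ℝ) ^ ((m0:ℤ) - j) with ha
  have ha0 : 0 < a := by positivity
  set F := A.filter (fun k => i - m0 ≤ k ∧ k ≤ j) with hF
  set F1 := A.filter (fun k => j - m0 ≤ k ∧ k ≤ j - J) with hF1
  set F2 := A.filter (fun k => i - m0 ≤ k ∧ k < j - m0) with hF2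
  have hsq : ∀ C : ℝ, 1 ≤ C → (ENNReal.ofReal C) ^ (1/2 : ℝ) ≤ ENNReal.ofReal C := by
    intro C hC
    calc (ENNReal.ofReal C) ^ (1/2 : ℝ) ≤ (ENNReal.ofReal C) ^ (1:ℝ) :=
          ENNReal.rpow_le_rpow_of_exponent_le (by
            rw [← ENNReal.ofReal_one]
            exact ENNReal.ofReal_le_ofReal hC) (by norm_num)
      _ = _ := ENNReal.rpow_one _
  -- decomposition of the low part
  have hlow : gW n (A.filter (fun k => k < j - m0)) f =
      gW n (A.filter (fun k => k < i - m0)) f + gW n F2 f := by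
    ext w
    simp only [gW, Pi.add_apply]
    have hdisj : Disjoint (A.filter (fun k => k < i - m0)) F2 := by
      rw [Finset.disjoint_left]
      intro k hk1 hk2
      rw [Finset.mem_filter] at hk1
      rw [hF2, Finset.mem_filter] at hk2
      omega
    rw [← Finset.sum_union hdisj]
    congr 1
    ext k
    rw [hF2, Finset.mem_union, Finset.mem_filter, Finset.mem_filter, Finset.mem_filter]
    constructor
    · rintro ⟨hk, hk2⟩
      by_cases hh : k < i - m0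
      · exact Or.inl ⟨hk, hh⟩
      · exact Or.inr ⟨hk, by omega, hk2⟩
    · rintro (⟨hk, hk2⟩ | ⟨hk, hk2, hk3⟩)
      · exact ⟨hk, by omega⟩
      · exact ⟨hk, hk3⟩
  have hL : Lj N n m0 A j f z ≤ ENNReal.ofReal C3 * Lj N n m0 A i f z +
      ENNReal.ofReal C3 * ∑ k ∈ F2, (bj N n k f z) ^ (1/2 : ℝ) := by
    have e1 : Lj N n m0 A j f z = r8bM N a z (gW n (A.filter (fun k => k < j - m0)) f) := rfl
    rw [e1, hlow]
    refine (r8bM_add N a z (r8b_cont_gW n _ hf) (r8b_cont_gW n _ hf)).trans ?_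
    refine add_le_add ?_ ?_
    · -- low part of `i`
      have h3 := h1 (i - m0) (gW n (A.filter (fun k => k < i - m0)) f) (r8b_nice_gW n _ hf)
        (r8b_cont_gW n _ hf) (fun w => by
          have := r8b_gW_reproduce n (A.filter (fun k => k < i - m0)) (i - m0) (fun k hk => by
            have := (Finset.mem_filter.1 hk).2
            omega) hf
          exact congrFun this w) a ha0 (by
            rw [ha]
            exact zpow_le_zpow_right₀ (by norm_num) (by omega)) z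
      have e2 : -(i - (m0:ℤ)) = (m0:ℤ) - i := by ring
      rw [e2] at h3
      calc r8bM N a z (gW n (A.filter (fun k => k < i - m0)) f) ≤
          (ENNReal.ofReal C1 * ∫⁻ w, ENNReal.ofReal (gamN N ((2:ℝ) ^ ((m0:ℤ) - i)) (z - w)) *
            ‖gW n (A.filter (fun k => k < i - m0)) f w‖ₑ ^ 2) ^ (1/2 : ℝ) :=
            ENNReal.rpow_le_rpow h3 (by norm_num)
        _ = (ENNReal.ofReal C1) ^ (1/2 : ℝ) * Lj N n m0 A i f z := by
            rw [ENNReal.mul_rpow_of_nonneg _ _ (by norm_num)]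
            rfl
        _ ≤ ENNReal.ofReal C3 * Lj N n m0 A i f z :=
            mul_le_mul' ((hsq C1 hC1).trans (ENNReal.ofReal_le_ofReal (by linarith))) le_rfl
    · refine (r8bM_gW N n a z F2 hf).trans ?_
      rw [Finset.mul_sum]
      refine Finset.sum_le_sum fun k hk => ?_
      have hk2 := (Finset.mem_filter.1 hk).2
      have h4 := h2 n k f hf a ha0 (by
            rw [ha]
            exact zpow_le_zpow_right₀ (by norm_num) (by omega)) z
      calc r8bM N a z (gj n k f) ≤ (ENNReal.ofReal C2 * bj N n k f z) ^ (1/2 : ℝ) :=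
            ENNReal.rpow_le_rpow h4 (by norm_num)
        _ = (ENNReal.ofReal C2) ^ (1/2 : ℝ) * (bj N n k f z) ^ (1/2 : ℝ) := by
            rw [ENNReal.mul_rpow_of_nonneg _ _ (by norm_num)]
        _ ≤ ENNReal.ofReal C3 * (bj N n k f z) ^ (1/2 : ℝ) :=
            mul_le_mul' ((hsq C2 hC2).trans (ENNReal.ofReal_le_ofReal (by linarith))) le_rfl
  have hdisj : Disjoint F1 F2 := by
    rw [Finset.disjoint_left]
    intro k hk1 hk2
    rw [hF1, Finset.mem_filter] at hk1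
    rw [hF2, Finset.mem_filter] at hk2
    omega
  have hsub : F1 ∪ F2 ⊆ F := by
    intro k hk
    rw [hF1, hF2, Finset.mem_union, Finset.mem_filter, Finset.mem_filter] at hk
    rw [hF, Finset.mem_filter]
    rcases hk with ⟨hk, hk1, hk2⟩ | ⟨hk, hk1, hk2⟩
    · exact ⟨hk, by omega, by omega⟩
    · exact ⟨hk, by omega, by omega⟩
  have hone : ∀ x : ℝ≥0∞, x ≤ ENNReal.ofReal C3 * x := by
    intro x
    calc x = ENNReal.ofReal 1 * x := by rw [ENNReal.ofReal_one, one_mul]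
      _ ≤ _ := mul_le_mul' (ENNReal.ofReal_le_ofReal hC30) le_rfl
  calc Nj N n m0 J A j f z = ∑ k ∈ F1, (bj N n k f z) ^ (1/2 : ℝ) + Lj N n m0 A j f z := rfl
    _ ≤ ENNReal.ofReal C3 * ∑ k ∈ F1, (bj N n k f z) ^ (1/2 : ℝ) +
        (ENNReal.ofReal C3 * Lj N n m0 A i f z +
          ENNReal.ofReal C3 * ∑ k ∈ F2, (bj N n k f z) ^ (1/2 : ℝ)) :=
        add_le_add (hone _) hL
    _ = ENNReal.ofReal C3 * ((∑ k ∈ F1, (bj N n k f z) ^ (1/2 : ℝ) +
          ∑ k ∈ F2, (bj N n k f z) ^ (1/2 : ℝ)) + Lj N n m0 A i f z) := by ring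
    _ = ENNReal.ofReal C3 * (∑ k ∈ F1 ∪ F2, (bj N n k f z) ^ (1/2 : ℝ) + Lj N n m0 A i f z) := by
        rw [Finset.sum_union hdisj]
    _ ≤ _ := mul_le_mul' le_rfl (add_le_add (Finset.sum_le_sum_of_subset hsub) le_rfl)


/-! ### assembly -/

theorem r8b_main (p : ℝ) (hp : 2 < p) (N : ℕ) (hN2 : 2 ≤ N) : ∃ C : ℝ, 0 < C ∧
    ∀ n : ℕ, 1 ≤ n → ∀ m0 : ℕ, (2:ℝ) ^ m0 ≤ 2 * n → ∀ A : Finset ℤ, ∀ f : ℂ → ℂ, Nice f →
    ∀ K : ℕ, ∑ i ∈ A, ∑ k ∈ A.filter (fun k => i - m0 ≤ k ∧ k ≤ i + K),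
      ENNReal.ofReal (((2:ℝ) ^ (1 - 2 / p)) ^ (k - i).natAbs) *
        ∫⁻ z, (bj N n k f z) ^ (p / 2 - 1) * bj N n i f z ≤
      ENNReal.ofReal (C * ((2:ℝ) ^ (1 - 2 / p)) ^ K * (n:ℝ) ^ (p - 2)) * nrp p f := by
  obtain ⟨C1, hC1, h1⟩ := near_real N hN2 p hp
  obtain ⟨C2, hC2, h2⟩ := near_rev N hN2 p hp
  have hd : 0 < 1 - 2 / p := by
    rw [sub_pos, div_lt_one (by linarith)]
    exact hp
  set lam : ℝ := (2:ℝ) ^ (1 - 2 / p) with hlam
  have hl1 : 1 < lam := Real.one_lt_rpow (by norm_num) hd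
  have hl0 : 0 < lam := by linarith
  set r : ℝ := lam⁻¹ with hr
  have hr0 : 0 < r := inv_pos.2 hl0
  have hr1 : r < 1 := inv_lt_one_of_one_lt₀ hl1
  have hr2 : 0 < (1 - r)⁻¹ := inv_pos.2 (by linarith)
  refine ⟨(C1 + C2) * (1 - r)⁻¹, by positivity, fun n hn m0 hm0 A f hf K => ?_⟩
  have hnp : 0 < (n:ℝ) ^ (p - 2) := Real.rpow_pos_of_pos (by exact_mod_cast hn) _
  set I : ℤ → ℤ → ℝ≥0∞ := fun k i => ∫⁻ z, (bj N n k f z) ^ (p / 2 - 1) * bj N n i f z with hI
  have hsplit : ∀ i : ℤ, ∑ k ∈ A.filter (fun k => i - m0 ≤ k ∧ k ≤ i + K),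
      ENNReal.ofReal (lam ^ (k - i).natAbs) * I k i ≤
      ∑ m ∈ Finset.range (m0 + 1), ENNReal.ofReal (lam ^ m) * I (i - m) i +
      ∑ m ∈ Finset.range (K + 1), ENNReal.ofReal (lam ^ m) * I (i + m) i := by
    intro i
    rw [← Finset.sum_filter_add_sum_filter_not (A.filter (fun k => i - m0 ≤ k ∧ k ≤ i + K))
      (fun k => k ≤ i)]
    refine add_le_add ?_ ?_
    · refine (r8b_sum_down _ i (Finset.range (m0 + 1)) (fun k hk => ?_) _).trans (le_of_eq ?_)
      · rw [Finset.mem_filter, Finset.mem_filter] at hk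
        refine ⟨hk.2, Finset.mem_range.2 ?_⟩
        omega
      · refine Finset.sum_congr rfl fun m _ => ?_
        congr 3
        omega
    · refine (r8b_sum_up _ i (Finset.range (K + 1)) (fun k hk => ?_) _).trans (le_of_eq ?_)
      · rw [Finset.mem_filter, Finset.mem_filter] at hk
        have := hk.2
        refine ⟨by omega, Finset.mem_range.2 ?_⟩
        omega
      · refine Finset.sum_congr rfl fun m _ => ?_
        congr 3
        omega
  have hA : ∑ i ∈ A, ∑ m ∈ Finset.range (m0 + 1), ENNReal.ofReal (lam ^ m) * I (i - m) i ≤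
      ENNReal.ofReal (C1 * (1 - r)⁻¹ * (n:ℝ) ^ (p - 2)) * nrp p f := by
    rw [Finset.sum_comm]
    have : ∀ m ∈ Finset.range (m0 + 1), ∑ i ∈ A, ENNReal.ofReal (lam ^ m) * I (i - m) i ≤
        ENNReal.ofReal (r ^ m) * (ENNReal.ofReal (C1 * (n:ℝ) ^ (p - 2)) * nrp p f) := by
      intro m hm
      rw [← Finset.mul_sum]
      have hm1 : (2:ℝ) ^ m ≤ 2 * n := by
        refine le_trans (pow_le_pow_right₀ (by norm_num) ?_) hm0
        have := Finset.mem_range.1 hm
        omega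
      refine (mul_le_mul' le_rfl (h1 n hn m hm1 A f hf)).trans (le_of_eq ?_)
      rw [← mul_assoc, ← mul_assoc, ← ENNReal.ofReal_mul (by positivity),
        ← ENNReal.ofReal_mul (by positivity)]
      congr 2
      have e1 : (2:ℝ) ^ (-(2 * (m:ℝ) * (1 - 2 / p))) = r ^ m * r ^ m := by
        rw [hr, hlam, ← Real.rpow_neg (by norm_num), ← Real.rpow_natCast,
          ← Real.rpow_mul (by norm_num), ← Real.rpow_add (by norm_num)]
        congr 1
        ring
      have e2 : lam ^ m * r ^ m = 1 := by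
        rw [← mul_pow, hr, mul_inv_cancel₀ hl0.ne', one_pow]
      rw [e1]
      calc lam ^ m * (C1 * (n:ℝ) ^ (p - 2) * (r ^ m * r ^ m)) =
          (lam ^ m * r ^ m) * (r ^ m * (C1 * (n:ℝ) ^ (p - 2))) := by ring
        _ = _ := by rw [e2, one_mul]
    refine (Finset.sum_le_sum this).trans ?_
    rw [← Finset.sum_mul]
    refine (mul_le_mul' (r8b_geom r hr0.le hr1 _) le_rfl).trans (le_of_eq ?_)
    rw [← mul_assoc, ← ENNReal.ofReal_mul (by positivity)]
    congr 2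
    ring
  have hB : ∑ i ∈ A, ∑ m ∈ Finset.range (K + 1), ENNReal.ofReal (lam ^ m) * I (i + m) i ≤
      ENNReal.ofReal (C2 * (1 - r)⁻¹ * lam ^ K * (n:ℝ) ^ (p - 2)) * nrp p f := by
    rw [Finset.sum_comm]
    have : ∀ m ∈ Finset.range (K + 1), ∑ i ∈ A, ENNReal.ofReal (lam ^ m) * I (i + m) i ≤
        ENNReal.ofReal (r ^ (K - m)) *
          (ENNReal.ofReal (lam ^ K * (C2 * (n:ℝ) ^ (p - 2))) * nrp p f) := by
      intro m hm
      rw [← Finset.mul_sum]
      refine (mul_le_mul' le_rfl (h2 n hn m A f hf)).trans (le_of_eq ?_)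
      rw [← mul_assoc, ← mul_assoc, ← ENNReal.ofReal_mul (by positivity),
        ← ENNReal.ofReal_mul (by positivity)]
      congr 2
      have hmK : m ≤ K := by
        have := Finset.mem_range.1 hm
        omega
      have e2 : r ^ (K - m) * lam ^ K = lam ^ m := by
        have : K = (K - m) + m := by omega
        conv_lhs => rw [show lam ^ K = lam ^ (K - m) * lam ^ m by rw [← pow_add, ← this]]
        rw [← mul_assoc, ← mul_pow, hr, inv_mul_cancel₀ hl0.ne', one_pow, one_mul]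
      rw [← e2]
      ring
    refine (Finset.sum_le_sum this).trans ?_
    rw [← Finset.sum_mul]
    have hg : ∑ m ∈ Finset.range (K + 1), ENNReal.ofReal (r ^ (K - m)) ≤
        ENNReal.ofReal (1 - r)⁻¹ := by
      have e := Finset.sum_range_reflect (fun m => ENNReal.ofReal (r ^ m)) (K + 1)
      simp only [Nat.add_sub_cancel] at e
      rw [e]
      exact r8b_geom r hr0.le hr1 _
    refine (mul_le_mul' hg le_rfl).trans (le_of_eq ?_)
    rw [← mul_assoc, ← ENNReal.ofReal_mul (by positivity)]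
    congr 2
    ring
  calc ∑ i ∈ A, ∑ k ∈ A.filter (fun k => i - m0 ≤ k ∧ k ≤ i + K),
      ENNReal.ofReal (lam ^ (k - i).natAbs) * I k i ≤
      ∑ i ∈ A, (∑ m ∈ Finset.range (m0 + 1), ENNReal.ofReal (lam ^ m) * I (i - m) i +
      ∑ m ∈ Finset.range (K + 1), ENNReal.ofReal (lam ^ m) * I (i + m) i) :=
        Finset.sum_le_sum fun i _ => hsplit i
    _ ≤ ENNReal.ofReal (C1 * (1 - r)⁻¹ * (n:ℝ) ^ (p - 2)) * nrp p f +
        ENNReal.ofReal (C2 * (1 - r)⁻¹ * lam ^ K * (n:ℝ) ^ (p - 2)) * nrp p f := by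
        rw [Finset.sum_add_distrib]
        exact add_le_add hA hB
    _ ≤ ENNReal.ofReal (C1 * (1 - r)⁻¹ * lam ^ K * (n:ℝ) ^ (p - 2)) * nrp p f +
        ENNReal.ofReal (C2 * (1 - r)⁻¹ * lam ^ K * (n:ℝ) ^ (p - 2)) * nrp p f := by
        refine add_le_add (mul_le_mul' (ENNReal.ofReal_le_ofReal ?_) le_rfl) le_rfl
        refine mul_le_mul_of_nonneg_right ?_ hnp.le
        exact le_mul_of_one_le_right (by positivity) (one_le_pow₀ hl1.le)
    _ = _ := by
        rw [← add_mul, ← ENNReal.ofReal_add (by positivity) (by positivity)]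
        congr 2
        ring


theorem r8b_meas_Nj (N n m0 J : ℕ) (A : Finset ℤ) (j : ℤ) {f : ℂ → ℂ} (hf : Nice f) :
    Measurable (Nj N n m0 J A j f) := by
  unfold Nj
  refine Measurable.add ?_ (r8b_meas_Lj N n m0 A j hf)
  exact Finset.measurable_fun_sum _ fun i _ => (r8b_meas_bj N n i hf).pow_const _

/-- integrated form of the pointwise estimate for `N_j` -/
theorem r8b_NI (p : ℝ) (hp : 2 < p) (N : ℕ) (hN : 2 ≤ N) : ∃ C : ℝ, 0 < C ∧
    ∀ n m0 J : ℕ, ∀ A : Finset ℤ, ∀ f : ℂ → ℂ, Nice f → ∀ i j : ℤ, i ≤ j →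
    ∫⁻ z, (Nj N n m0 J A j f z) ^ (p - 2) * bj N n i f z ≤ ENNReal.ofReal C *
      ((∑ k ∈ A.filter (fun k => i - m0 ≤ k ∧ k ≤ j),
        ENNReal.ofReal (((2:ℝ) ^ (1 - 2 / p)) ^ (k - i).natAbs) *
        ∫⁻ z, (bj N n k f z) ^ (p / 2 - 1) * bj N n i f z) +
        ∫⁻ z, (Lj N n m0 A i f z) ^ (p - 2) * bj N n i f z) := by
  have hd : 0 < 1 - 2 / p := by
    rw [sub_pos, div_lt_one (by linarith)]
    exact hp
  have hq : 0 < p - 2 := by linarith
  have hl1 : 1 < (2:ℝ) ^ (1 - 2 / p) := Real.one_lt_rpow (by norm_num) hd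
  obtain ⟨C1, hC1, h1⟩ := r8b_N N hN
  obtain ⟨C2, hC2, h2⟩ := r8b_power (p - 2) hq _ hl1
  set lam : ℝ := (2:ℝ) ^ (1 - 2 / p) with hlam
  refine ⟨C1 ^ (p - 2) * C2, by positivity, fun n m0 J A f hf i j hij => ?_⟩
  have hpt : ∀ z, (Nj N n m0 J A j f z) ^ (p - 2) * bj N n i f z ≤
      ENNReal.ofReal (C1 ^ (p - 2) * C2) *
      (∑ k ∈ A.filter (fun k => i - m0 ≤ k ∧ k ≤ j),
        ENNReal.ofReal (lam ^ (k - i).natAbs) * ((bj N n k f z) ^ (p / 2 - 1) * bj N n i f z) +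
        (Lj N n m0 A i f z) ^ (p - 2) * bj N n i f z) := by
    intro z
    have h3 := ENNReal.rpow_le_rpow (h1 n m0 J A f hf i j hij z) hq.le
    rw [ENNReal.mul_rpow_of_nonneg _ _ hq.le] at h3
    have h4 := h2 (A.filter (fun k => i - m0 ≤ k ∧ k ≤ j)) i
      (fun k => (bj N n k f z) ^ (1/2 : ℝ)) (Lj N n m0 A i f z)
    have e : ∀ k, ((bj N n k f z) ^ (1/2 : ℝ)) ^ (p - 2) = (bj N n k f z) ^ (p / 2 - 1) := by
      intro k
      rw [← ENNReal.rpow_mul]
      congr 1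
      ring
    simp only [e] at h4
    calc (Nj N n m0 J A j f z) ^ (p - 2) * bj N n i f z ≤
        (ENNReal.ofReal C1 ^ (p - 2) * (ENNReal.ofReal C2 *
          (∑ k ∈ A.filter (fun k => i - m0 ≤ k ∧ k ≤ j),
            ENNReal.ofReal (lam ^ (k - i).natAbs) * (bj N n k f z) ^ (p / 2 - 1) +
            (Lj N n m0 A i f z) ^ (p - 2)))) * bj N n i f z :=
          mul_le_mul' (h3.trans (mul_le_mul' le_rfl h4)) le_rfl
      _ = _ := by
          rw [ENNReal.ofReal_rpow_of_pos hC1, ← mul_assoc, ← ENNReal.ofReal_mul (by positivity),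
            mul_assoc, add_mul, Finset.sum_mul]
          simp only [mul_assoc]
  refine (lintegral_mono hpt).trans (le_of_eq ?_)
  have hmb : ∀ k, Measurable (bj N n k f) := fun k => r8b_meas_bj N n k hf
  have hmL := r8b_meas_Lj N n m0 A i hf
  have hmk : ∀ k, Measurable fun z => (bj N n k f z) ^ (p / 2 - 1) * bj N n i f z := fun k =>
    ((hmb k).pow_const _).mul (hmb i)
  rw [lintegral_const_mul, lintegral_add_left, lintegral_finsetSum]
  · congr 2
    refine Finset.sum_congr rfl fun k _ => ?_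
    rw [lintegral_const_mul _ (hmk k)]
  · exact fun k _ => (hmk k).const_mul _
  · exact Finset.measurable_fun_sum _ fun k _ => (hmk k).const_mul _
  · refine Measurable.add ?_ ((hmL.pow_const _).mul (hmb i))
    exact Finset.measurable_fun_sum _ fun k _ => (hmk k).const_mul _

theorem T_bound (p : ℝ) (hp : 2 < p) (N : ℕ) (hN : 2 * p + 1 < N) : ∃ C : ℝ, 0 < C ∧ ∀ n : ℕ, 1 ≤ n →
    ∀ m0 J : ℕ, n ≤ 2 ^ m0 → (2:ℝ) ^ m0 ≤ 2 * n → ∀ A : Finset ℤ, ∀ f : ℂ → ℂ, Nice f →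
    ∑ j ∈ A, ∫⁻ z, (Nj N n m0 J A j f z) ^ (p - 2) * (Dj N n J A j f z) ^ 2
      ≤ ENNReal.ofReal (C * (2:ℝ) ^ (-(J:ℝ))) * (ENNReal.ofReal ((n:ℝ) ^ (p - 2)) * nrp p f
        + (nrp p (gW n A f)) ^ (1 - 2 / p) * (nrp p f) ^ (2 / p)) := by
  have hN2 : 2 ≤ N := by
    have : (2:ℝ) < N := by linarith
    exact_mod_cast this.le
  have hd : 0 < 1 - 2 / p := by
    rw [sub_pos, div_lt_one (by linarith)]
    exact hp
  have hd1 : 1 - 2 / p < 1 := by
    have : 0 < 2 / p := by positivity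
    linarith
  obtain ⟨C5, hC5, h5⟩ := r8b_NI p hp N hN2
  obtain ⟨C6, hC6, h6⟩ := r8b_main p hp N hN2
  obtain ⟨C7, hC7, h7⟩ := far_real p hp N hN
  set lam : ℝ := (2:ℝ) ^ (1 - 2 / p) with hlam
  have hl1 : 1 < lam := Real.one_lt_rpow (by norm_num) hd
  have hl0 : 0 < lam := by linarith
  have hl2 : lam < 2 := by
    calc lam < (2:ℝ) ^ (1:ℝ) := Real.rpow_lt_rpow_of_exponent_lt (by norm_num) hd1
      _ = 2 := Real.rpow_one _
  have hr2 : 0 < (1 - lam / 2)⁻¹ := inv_pos.2 (by linarith)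
  refine ⟨12 * (C5 * (C6 * (1 - lam / 2)⁻¹ + 2 * C7)), by positivity,
    fun n hn m0 J hnm hm0 A f hf => ?_⟩
  have hnp : 0 < (n:ℝ) ^ (p - 2) := Real.rpow_pos_of_pos (by exact_mod_cast hn) _
  set G : ℝ≥0∞ := (nrp p (gW n A f)) ^ (1 - 2 / p) * (nrp p f) ^ (2 / p) with hG
  set H : ℝ≥0∞ := ENNReal.ofReal ((n:ℝ) ^ (p - 2)) * nrp p f with hH
  set LL : ℤ → ℝ≥0∞ := fun i => ∫⁻ z, (Lj N n m0 A i f z) ^ (p - 2) * bj N n i f z with hLL
  set I : ℤ → ℤ → ℝ≥0∞ := fun k i => ∫⁻ z, (bj N n k f z) ^ (p / 2 - 1) * bj N n i f z with hI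
  have hmb : ∀ k, Measurable (bj N n k f) := fun k => r8b_meas_bj N n k hf
  -- the far term
  have hfar : ∑ i ∈ A, LL i ≤ ENNReal.ofReal C7 * (H + G) := by
    have h8 := h7 n hn m0 hnm hm0 A f hf
    refine h8.trans ?_
    rw [mul_add, add_comm]
    refine add_le_add ?_ ?_
    · rw [hH, ← mul_assoc, ← ENNReal.ofReal_mul hC7.le]
      refine mul_le_mul' (ENNReal.ofReal_le_ofReal ?_) le_rfl
      refine mul_le_of_le_one_right (by positivity) ?_
      refine Real.rpow_le_one_of_one_le_of_nonpos (by norm_num) ?_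
      have : 0 ≤ 2 * (m0:ℝ) * (1 - 2 / p) := by positivity
      linarith
    · rw [hG, mul_assoc]
  -- step 1
  have hstep1 : ∀ j ∈ A, ∫⁻ z, (Nj N n m0 J A j f z) ^ (p - 2) * (Dj N n J A j f z) ^ 2 ≤
      ENNReal.ofReal (12 * (2:ℝ) ^ (-(J:ℝ))) * ∑ i ∈ A.filter (fun i => i ≤ j - J),
        ENNReal.ofReal ((2:ℝ) ^ (i - j)) *
          ∫⁻ z, (Nj N n m0 J A j f z) ^ (p - 2) * bj N n i f z := by
    intro j _
    have hmN : Measurable fun z => (Nj N n m0 J A j f z) ^ (p - 2) :=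
      (r8b_meas_Nj N n m0 J A j hf).pow_const _
    calc ∫⁻ z, (Nj N n m0 J A j f z) ^ (p - 2) * (Dj N n J A j f z) ^ 2 ≤
        ∫⁻ z, ENNReal.ofReal (12 * (2:ℝ) ^ (-(J:ℝ))) * ∑ i ∈ A.filter (fun i => i ≤ j - J),
          ENNReal.ofReal ((2:ℝ) ^ (i - j)) *
            ((Nj N n m0 J A j f z) ^ (p - 2) * bj N n i f z) := by
          refine lintegral_mono fun z => ?_
          refine (mul_le_mul' le_rfl (r8b_D N n J A j f z)).trans (le_of_eq ?_)
          rw [mul_left_comm, Finset.mul_sum]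
          congr 1
          refine Finset.sum_congr rfl fun i _ => ?_
          ring
      _ = _ := by
          rw [lintegral_const_mul, lintegral_finsetSum]
          · congr 1
            refine Finset.sum_congr rfl fun i _ => ?_
            exact lintegral_const_mul _ (hmN.mul (hmb i))
          · exact fun i _ => (hmN.mul (hmb i)).const_mul _
          · exact Finset.measurable_fun_sum _ fun i _ => (hmN.mul (hmb i)).const_mul _
  -- step 2
  set R : Finset ℕ := A.biUnion (fun i => A.image (fun j => (j - i).toNat)) with hR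
  set X : ℤ → ℕ → ℝ≥0∞ := fun i m => ∑ k ∈ A.filter (fun k => i - m0 ≤ k ∧ k ≤ i + m),
    ENNReal.ofReal (lam ^ (k - i).natAbs) * I k i + LL i with hX
  have hstep2 : ∑ j ∈ A, ∑ i ∈ A.filter (fun i => i ≤ j - J),
      ENNReal.ofReal ((2:ℝ) ^ (i - j)) * ∫⁻ z, (Nj N n m0 J A j f z) ^ (p - 2) * bj N n i f z ≤
      ∑ i ∈ A, ∑ m ∈ R, ENNReal.ofReal ((1/2 : ℝ) ^ m) * (ENNReal.ofReal C5 * X i m) := by
    simp only [Finset.sum_filter]
    rw [Finset.sum_comm]
    refine Finset.sum_le_sum fun i hi => ?_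
    rw [← Finset.sum_filter]
    have h9 := r8b_sum_up (A.filter (fun j => i ≤ j - J)) i R (fun j hj => by
      rw [Finset.mem_filter] at hj
      refine ⟨by omega, ?_⟩
      rw [hR, Finset.mem_biUnion]
      exact ⟨i, hi, Finset.mem_image.2 ⟨j, hj.1, rfl⟩⟩)
      (fun j => ENNReal.ofReal ((1/2 : ℝ) ^ (j - i).toNat) *
        (ENNReal.ofReal C5 * X i (j - i).toNat))
    refine le_trans (Finset.sum_le_sum fun j hj => ?_) (h9.trans (le_of_eq ?_))
    · have hij : i ≤ j := by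
        have := (Finset.mem_filter.1 hj).2
        omega
      have h10 := h5 n m0 J A f hf i j hij
      have e1 : (2:ℝ) ^ (i - j) = (1/2 : ℝ) ^ (j - i).toNat := by
        have : i - j = -((j - i).toNat : ℤ) := by omega
        rw [this, zpow_neg, zpow_natCast, one_div, inv_pow]
      rw [e1]
      refine mul_le_mul' le_rfl (h10.trans (mul_le_mul' le_rfl ?_))
      have e2 : i + ((j - i).toNat : ℤ) = j := by omega
      simp only [hX, e2]
      exact le_rfl
    · refine Finset.sum_congr rfl fun m _ => ?_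
      have : (i + (m:ℤ) - i).toNat = m := by omega
      rw [this]
  -- step 3
  have hstep3 : ∑ i ∈ A, ∑ m ∈ R, ENNReal.ofReal ((1/2 : ℝ) ^ m) * (ENNReal.ofReal C5 * X i m) ≤
      ENNReal.ofReal (C5 * (C6 * (1 - lam / 2)⁻¹ + 2 * C7)) * (H + G) := by
    rw [Finset.sum_comm]
    have h11 : ∀ m ∈ R, ∑ i ∈ A, ENNReal.ofReal ((1/2 : ℝ) ^ m) * (ENNReal.ofReal C5 * X i m) ≤
        ENNReal.ofReal ((lam / 2) ^ m) * (ENNReal.ofReal (C5 * C6) * (H + G)) +
        ENNReal.ofReal ((1/2 : ℝ) ^ m) * (ENNReal.ofReal (C5 * C7) * (H + G)) := by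
      intro m _
      rw [← Finset.mul_sum, ← Finset.mul_sum]
      simp only [hX]
      rw [Finset.sum_add_distrib]
      have h12 := h6 n hn m0 hm0 A f hf m
      calc ENNReal.ofReal ((1/2 : ℝ) ^ m) * (ENNReal.ofReal C5 *
          (∑ i ∈ A, ∑ k ∈ A.filter (fun k => i - m0 ≤ k ∧ k ≤ i + m),
            ENNReal.ofReal (lam ^ (k - i).natAbs) * I k i + ∑ i ∈ A, LL i)) ≤
          ENNReal.ofReal ((1/2 : ℝ) ^ m) * (ENNReal.ofReal C5 *
            (ENNReal.ofReal (C6 * lam ^ m * (n:ℝ) ^ (p - 2)) * nrp p f +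
              ENNReal.ofReal C7 * (H + G))) :=
            mul_le_mul' le_rfl (mul_le_mul' le_rfl (add_le_add h12 hfar))
        _ = ENNReal.ofReal ((lam / 2) ^ m) * (ENNReal.ofReal (C5 * C6) * H) +
            ENNReal.ofReal ((1/2 : ℝ) ^ m) * (ENNReal.ofReal (C5 * C7) * (H + G)) := by
            rw [mul_add, mul_add]
            congr 1
            · rw [hH]
              simp only [← mul_assoc]
              rw [← ENNReal.ofReal_mul (by positivity), ← ENNReal.ofReal_mul (by positivity),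
                ← ENNReal.ofReal_mul (by positivity), ← ENNReal.ofReal_mul (by positivity)]
              congr 2
              rw [div_pow, div_pow]
              ring
            · rw [ENNReal.ofReal_mul hC5.le]
              simp only [mul_assoc]
        _ ≤ _ := by
            gcongr
            exact le_self_add
    refine (Finset.sum_le_sum h11).trans ?_
    rw [Finset.sum_add_distrib, ← Finset.sum_mul, ← Finset.sum_mul]
    have g1 := r8b_geom (lam / 2) (by positivity) (by linarith) R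
    have g2 := r8b_geom (1/2) (by norm_num) (by norm_num) R
    refine (add_le_add (mul_le_mul' g1 le_rfl) (mul_le_mul' g2 le_rfl)).trans (le_of_eq ?_)
    rw [← mul_assoc, ← mul_assoc, ← ENNReal.ofReal_mul (by positivity),
      ← ENNReal.ofReal_mul (by norm_num), ← add_mul, ← ENNReal.ofReal_add (by positivity)
        (by
          have : (0:ℝ) ≤ (1 - 1/2)⁻¹ := by norm_num
          positivity)]
    congr 2
    norm_num
    ring
  calc ∑ j ∈ A, ∫⁻ z, (Nj N n m0 J A j f z) ^ (p - 2) * (Dj N n J A j f z) ^ 2 ≤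
      ∑ j ∈ A, ENNReal.ofReal (12 * (2:ℝ) ^ (-(J:ℝ))) * ∑ i ∈ A.filter (fun i => i ≤ j - J),
        ENNReal.ofReal ((2:ℝ) ^ (i - j)) *
          ∫⁻ z, (Nj N n m0 J A j f z) ^ (p - 2) * bj N n i f z := Finset.sum_le_sum hstep1
    _ ≤ ENNReal.ofReal (12 * (2:ℝ) ^ (-(J:ℝ))) *
        (ENNReal.ofReal (C5 * (C6 * (1 - lam / 2)⁻¹ + 2 * C7)) * (H + G)) := by
        rw [← Finset.mul_sum]
        exact mul_le_mul' le_rfl (hstep2.trans hstep3)
    _ = _ := by
        rw [← mul_assoc, ← ENNReal.ofReal_mul (by positivity)]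
        congr 2
        ring

end Helper85.BP.P
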