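import Pool.Agent.Helper72.BAM.Fin
import Pool.Agent.Helper85.BP.Defs
import Pool.Agent.Helper85.BPM.R4a
import Pool.Agent.Helper85.BPM.R4b
import Pool.Agent.Helper85.BPM.R5

/-!
# MP_3dd6d4_an, all-p extension, module R9 : almost orthogonality (helper17)
-/

set_option autoImplicit false

open MeasureTheory Complex FourierTransform Filter Topology
open scoped ENNReal NNReal ComplexConjugate

noncomputable section

namespace Helper85.BP.P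
open Helper72.BA Helper85.BP

namespace R9

theorem nice_gj (n : ℕ) (j : ℤ) {f : ℂ → ℂ} (hf : Nice f) : Nice (gj n j f) :=
  nice_cv (ker_KK n j) hf

theorem nice_zero : Nice (fun _ : ℂ => (0 : ℂ)) :=
  ⟨measurable_const, integrable_zero _ _ _, ⟨0, fun z => by simp⟩⟩

theorem nice_add {f g : ℂ → ℂ} (hf : Nice f) (hg : Nice g) : Nice (f + g) := by
  obtain ⟨C, hC⟩ := hf.bdd
  obtain ⟨D, hD⟩ := hg.bdd
  exact ⟨hf.meas.add hg.meas, hf.int.add hg.int,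
    ⟨C + D, fun z => (norm_add_le _ _).trans (add_le_add (hC z) (hD z))⟩⟩

theorem gW_insert (n : ℕ) {a : ℤ} {W : Finset ℤ} (h : a ∉ W) (f : ℂ → ℂ) :
    gW n (insert a W) f = gj n a f + gW n W f := by
  ext z
  simp [gW, Finset.sum_insert h]

theorem nice_gW (n : ℕ) (W : Finset ℤ) {f : ℂ → ℂ} (hf : Nice f) : Nice (gW n W f) := by
  classical
  induction W using Finset.induction_on with
  | empty =>
    have : gW n ∅ f = fun _ => 0 := by ext; simp [gW]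
    rw [this]
    exact nice_zero
  | insert a W h ih =>
    rw [gW_insert n h]
    exact nice_add (nice_gj n a hf) ih

theorem continuous_gW (n : ℕ) (W : Finset ℤ) {f : ℂ → ℂ} (hf : Nice f) :
    Continuous (gW n W f) :=
  continuous_finsetSum _ fun j _ => continuous_cv (ker_KK n j) hf

theorem cv_gW {K : ℂ → ℂ} (hK : Ker K) (n : ℕ) (W : Finset ℤ) {f : ℂ → ℂ} (hf : Nice f) (z : ℂ) :
    cv K (gW n W f) z = ∑ j ∈ W, cv K (gj n j f) z := by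
  classical
  induction W using Finset.induction_on with
  | empty => simp [gW, cv]
  | insert a W h ih =>
    rw [gW_insert n h, cv_add hK (nice_gj n a hf) (nice_gW n W hf), Pi.add_apply, ih,
      Finset.sum_insert h]

theorem cv_kap_zero (n : ℕ) {a i : ℤ} (h : a + 2 ≤ i) {f : ℂ → ℂ} (hf : Nice f) :
    cv (kap a) (gj n i f) = 0 := by
  have hg := nice_gj n i hf
  have c1 : Continuous (cv (kap a) (gj n i f)) := continuous_cv (ker_kap a) hg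
  have i1 := integrable_fourier_cv (ker_kap a) hg
  have e : 𝓕 (cv (kap a) (gj n i f)) = 0 := by
    ext ξ
    rw [fourier_cv (ker_kap a) hg, fourier_kap]
    unfold gj
    rw [fourier_cv (ker_KK n i) hf, fourier_KK]
    rcases le_or_gt ((2:ℝ) ^ (a + 1)) ‖ξ‖ with h1 | h1
    · rw [Psi_eq_zero h1]; simp
    · have : chi i ξ = 0 := chi_eq_zero_left
        (h1.le.trans (zpow_le_zpow_right₀ (by norm_num) (by omega)))
      rw [this]; simp
  rw [← c1.fourierInv_fourier_eq (nice_cv (ker_kap a) hg).int i1, e]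
  ext z
  simp [Real.fourierInv_eq]

theorem ker_int {K : ℂ → ℂ} (hK : Ker K) : Integrable K := by
  obtain ⟨s, rfl⟩ := hK
  exact s.integrable

theorem ker_meas {K : ℂ → ℂ} (hK : Ker K) : Measurable K := by
  obtain ⟨s, rfl⟩ := hK
  exact s.continuous.measurable

theorem kap_int_one (i : ℤ) : ∫ z, kap i z = 1 := by
  have h := fourier_kap i 0
  rw [Psi_eq_one (by simp; positivity)] at h
  simpa [Real.fourier_eq] using h

/-- the function `Φ(a) = |a|^{p-2} conj a` is locally Lipschitz -/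
theorem Phi_aux (q : ℝ) (hq : 0 < q) (a b : ℂ) (h : ‖b‖ ≤ ‖a‖) :
    ‖((‖a‖ ^ q : ℝ) : ℂ) * conj a - ((‖b‖ ^ q : ℝ) : ℂ) * conj b‖ ≤
      (2 + q) * ‖a‖ ^ q * ‖a - b‖ := by
  have hb0 := norm_nonneg b
  have ha0 := norm_nonneg a
  have haq : 0 ≤ ‖a‖ ^ q := Real.rpow_nonneg ha0 _
  have hmono : ‖b‖ ^ q ≤ ‖a‖ ^ q := Real.rpow_le_rpow hb0 h hq.le
  have hsub : ‖a‖ - ‖b‖ ≤ ‖a - b‖ := norm_sub_norm_le a b
  have e : ((‖a‖ ^ q : ℝ) : ℂ) * conj a - ((‖b‖ ^ q : ℝ) : ℂ) * conj b =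
      ((‖a‖ ^ q : ℝ) : ℂ) * conj (a - b) + ((‖a‖ ^ q - ‖b‖ ^ q : ℝ) : ℂ) * conj b := by
    push_cast
    rw [map_sub]
    ring
  have key : (‖a‖ ^ q - ‖b‖ ^ q) * ‖b‖ ≤ (1 + q) * ‖a‖ ^ q * (‖a‖ - ‖b‖) := by
    rcases eq_or_lt_of_le ha0 with h0 | h0
    · have hb : ‖b‖ = 0 := le_antisymm (by rw [h0]; exact h) hb0
      rw [hb, ← h0]; simp
    · set x := ‖b‖ / ‖a‖ with hx
      have hx0 : 0 ≤ x := by positivity
      have hx1 : x ≤ 1 := by rw [hx, div_le_one h0]; exact h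
      have hbx : ‖b‖ = x * ‖a‖ := by rw [hx]; field_simp
      have hxq : 1 - x ^ q ≤ (1 + q) * (1 - x) := by
        rcases le_total 1 q with h1 | h1
        · have := one_add_mul_self_le_rpow_one_add (s := x - 1) (by linarith) h1
          have e2 : 1 + (x - 1) = x := by ring
          rw [e2] at this
          nlinarith
        · have : x ^ (1:ℝ) ≤ x ^ q := by
            rcases eq_or_lt_of_le hx0 with h2 | h2
            · rw [← h2, Real.zero_rpow hq.ne', Real.zero_rpow one_ne_zero]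
            · exact Real.rpow_le_rpow_of_exponent_ge h2 hx1 h1
          rw [Real.rpow_one] at this
          nlinarith
      rw [hbx, Real.mul_rpow hx0 ha0]
      have h3 : 0 ≤ ‖a‖ ^ q * ‖a‖ := by positivity
      have h4 : 0 ≤ 1 - x ^ q := by
        have : x ^ q ≤ 1 := Real.rpow_le_one hx0 hx1 hq.le
        linarith
      calc (‖a‖ ^ q - x ^ q * ‖a‖ ^ q) * (x * ‖a‖) = (1 - x ^ q) * x * (‖a‖ ^ q * ‖a‖) := by ring
        _ ≤ (1 - x ^ q) * 1 * (‖a‖ ^ q * ‖a‖) := by gcongr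
        _ ≤ ((1 + q) * (1 - x)) * 1 * (‖a‖ ^ q * ‖a‖) := by gcongr
        _ = _ := by ring
  rw [e]
  calc _ ≤ ‖((‖a‖ ^ q : ℝ) : ℂ) * conj (a - b)‖ + ‖((‖a‖ ^ q - ‖b‖ ^ q : ℝ) : ℂ) * conj b‖ :=
        norm_add_le _ _
    _ = ‖a‖ ^ q * ‖a - b‖ + (‖a‖ ^ q - ‖b‖ ^ q) * ‖b‖ := by
        rw [norm_mul, norm_mul, Complex.norm_real, Complex.norm_real, RCLike.norm_conj,
          RCLike.norm_conj, Real.norm_of_nonneg haq, Real.norm_of_nonneg (by linarith)]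
    _ ≤ ‖a‖ ^ q * ‖a - b‖ + (1 + q) * ‖a‖ ^ q * (‖a‖ - ‖b‖) := by gcongr
    _ ≤ ‖a‖ ^ q * ‖a - b‖ + (1 + q) * ‖a‖ ^ q * ‖a - b‖ := by gcongr
    _ = _ := by ring

theorem Phi_diff (q : ℝ) (hq : 0 < q) (a b : ℂ) (M : ℝ≥0∞) (ha : ‖a‖ₑ ≤ M) (hb : ‖b‖ₑ ≤ M) :
    ‖((‖a‖ ^ q : ℝ) : ℂ) * conj a - ((‖b‖ ^ q : ℝ) : ℂ) * conj b‖ₑ ≤
      ENNReal.ofReal (2 + q) * M ^ q * ‖a - b‖ₑ := by
  have main : ∀ a b : ℂ, ‖a‖ₑ ≤ M → ‖b‖ ≤ ‖a‖ →
      ‖((‖a‖ ^ q : ℝ) : ℂ) * conj a - ((‖b‖ ^ q : ℝ) : ℂ) * conj b‖ₑ ≤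
      ENNReal.ofReal (2 + q) * M ^ q * ‖a - b‖ₑ := by
    intro a b ha h
    have h1 := Phi_aux q hq a b h
    calc ‖((‖a‖ ^ q : ℝ) : ℂ) * conj a - ((‖b‖ ^ q : ℝ) : ℂ) * conj b‖ₑ
        = ENNReal.ofReal ‖((‖a‖ ^ q : ℝ) : ℂ) * conj a - ((‖b‖ ^ q : ℝ) : ℂ) * conj b‖ := by
          rw [ofReal_norm]
      _ ≤ ENNReal.ofReal ((2 + q) * ‖a‖ ^ q * ‖a - b‖) := ENNReal.ofReal_le_ofReal h1
      _ = ENNReal.ofReal (2 + q) * ‖a‖ₑ ^ q * ‖a - b‖ₑ := by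
          rw [ENNReal.ofReal_mul (by positivity), ENNReal.ofReal_mul (by positivity),
            ← ENNReal.ofReal_rpow_of_nonneg (norm_nonneg _) hq.le, ofReal_norm,
            ofReal_norm]
      _ ≤ _ := by gcongr
  rcases le_total ‖b‖ ‖a‖ with h | h
  · exact main a b ha h
  · have := main b a hb h
    rw [enorm_sub_rev, enorm_sub_rev a b]
    exact this

/-- cancellation against a kernel of mass one -/
theorem rep_bound {K g Φ : ℂ → ℂ} (hK : Ker K) (hg : Nice g) (hΦ : Measurable Φ) (B : ℝ)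
    (hB : ∀ z, ‖Φ z‖ ≤ B) (h1 : ∫ z, K z = 1) (h0 : ∀ z, cv K g z = 0) :
    ‖∫ z, Φ z * g z‖ₑ ≤ ∫⁻ w, ‖g w‖ₑ * ∫⁻ z, ‖K (z - w)‖ₑ * ‖Φ w - Φ z‖ₑ := by
  have hKi := ker_int hK
  have hKm := ker_meas hK
  have hF0 : Integrable (fun p : ℂ × ℂ => g p.2 * K (p.1 - p.2)) (volume.prod volume) :=
    Integrable.convolution_integrand (ContinuousLinearMap.mul ℂ ℂ) hg.int hKi
  have hF : Integrable (fun p : ℂ × ℂ => K (p.1 - p.2) * (Φ p.1 * g p.2))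
      (volume.prod volume) := by
    have := hF0.bdd_mul (c := B) (f := fun p : ℂ × ℂ => Φ p.1)
      (hΦ.comp measurable_fst).aestronglyMeasurable (Eventually.of_forall fun p => hB p.1)
    refine this.congr (Eventually.of_forall fun p => ?_)
    simp only
    ring
  have e1 : ∫ w, ∫ z, K (z - w) * (Φ z * g w) = 0 := by
    rw [← integral_integral_swap (f := fun z w => K (z - w) * (Φ z * g w)) hF]
    have : ∀ z, ∫ w, K (z - w) * (Φ z * g w) = 0 := by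
      intro z
      have h2 : ∀ w, K (z - w) * (Φ z * g w) = Φ z * (K (z - w) * g w) := fun w => by ring
      simp only [h2]
      rw [integral_const_mul]
      have h3 := h0 z
      unfold cv at h3
      rw [h3, mul_zero]
    simp [this]
  have hKw : ∀ w, Integrable (fun z => K (z - w)) := fun w => hKi.comp_sub_right w
  have i1 : ∀ w, Integrable (fun z => K (z - w) * (Φ w * g w)) := fun w =>
    (hKw w).mul_const _
  have i2 : ∀ w, Integrable (fun z => K (z - w) * (Φ z * g w)) := fun w => by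
    have := ((hKw w).mul_const (g w)).bdd_mul (c := B) (f := Φ)
      hΦ.aestronglyMeasurable (Eventually.of_forall fun p => hB p)
    refine this.congr (Eventually.of_forall fun p => ?_)
    simp only
    ring
  have e2 : ∀ w, ∫ z, K (z - w) * ((Φ w - Φ z) * g w) =
      Φ w * g w - ∫ z, K (z - w) * (Φ z * g w) := by
    intro w
    have h2 : ∀ z, K (z - w) * ((Φ w - Φ z) * g w) =
        K (z - w) * (Φ w * g w) - K (z - w) * (Φ z * g w) := fun z => by ring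
    simp only [h2]
    rw [integral_sub (i1 w) (i2 w), integral_mul_const,
      integral_sub_right_eq_self (fun z => K z) w, h1, one_mul]
  have hΦg : Integrable (fun w => Φ w * g w) :=
    hg.int.bdd_mul (c := B) hΦ.aestronglyMeasurable (Eventually.of_forall fun p => hB p)
  have e3 : ∫ w, Φ w * g w = ∫ w, ∫ z, K (z - w) * ((Φ w - Φ z) * g w) := by
    have hS : Integrable (fun w => ∫ z, K (z - w) * (Φ z * g w)) := hF.swap.integral_prod_left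
    simp only [e2]
    rw [integral_sub hΦg hS, e1, sub_zero]
  rw [e3]
  refine (enorm_integral_le_lintegral_enorm _).trans ?_
  refine lintegral_mono fun w => ?_
  refine (enorm_integral_le_lintegral_enorm _).trans ?_
  rw [← lintegral_const_mul' _ _ enorm_ne_top]
  refine lintegral_mono fun z => ?_
  simp only [enorm_mul]
  rw [mul_comm ‖g w‖ₑ, mul_assoc]

theorem sqrt_step {x y : ℝ≥0∞} {c : ℝ} (hc : 0 ≤ c) (h : x ^ 2 ≤ ENNReal.ofReal c * y) :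
    x ≤ ENNReal.ofReal (Real.sqrt c) * y ^ (1/2 : ℝ) := by
  have h1 : x = (x ^ 2) ^ (1/2 : ℝ) := by
    rw [← ENNReal.rpow_natCast, ← ENNReal.rpow_mul]; norm_num
  rw [h1]
  refine (ENNReal.rpow_le_rpow h (by norm_num)).trans ?_
  rw [ENNReal.mul_rpow_of_nonneg _ _ (by norm_num), ENNReal.ofReal_rpow_of_nonneg hc (by norm_num),
    Real.sqrt_eq_rpow]

theorem shift_int (N : ℕ) (ρ : ℝ) (hρ : 0 < ρ) (z u : ℂ) (h : ℂ → ℝ≥0∞) :
    ∫⁻ w, ENNReal.ofReal (gamN N ρ (z - u - w)) * h w ≤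
      ENNReal.ofReal (2 ^ N * (1 + ‖u‖ ^ 2 / ρ ^ 2) ^ N) *
        ∫⁻ w, ENNReal.ofReal (gamN N ρ (z - w)) * h w := by
  rw [← lintegral_const_mul' _ _ ENNReal.ofReal_ne_top]
  refine lintegral_mono fun w => ?_
  have h1 := gamN_shift N ρ hρ (z - w) u
  rw [show z - w - u = z - u - w by ring] at h1
  simp only
  rw [← mul_assoc, ← ENNReal.ofReal_mul (by positivity)]
  gcongr

theorem gamN_half (N : ℕ) {ρ : ℝ} (hρ : 0 < ρ) (z : ℂ) : gamN N (ρ / 2) z ≤ 4 * gamN N ρ z := by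
  unfold gamN
  have e1 : ((ρ / 2) ^ 2)⁻¹ = 4 * (ρ ^ 2)⁻¹ := by field_simp; norm_num
  rw [e1, mul_assoc]
  have h2 : ‖z‖ ^ 2 / ρ ^ 2 ≤ ‖z‖ ^ 2 / (ρ / 2) ^ 2 := by
    apply div_le_div_of_nonneg_left (by positivity) (by positivity)
    apply pow_le_pow_left₀ (by positivity)
    linarith
  have h3 : ((1 + ‖z‖ ^ 2 / (ρ / 2) ^ 2) ^ N)⁻¹ ≤ ((1 + ‖z‖ ^ 2 / ρ ^ 2) ^ N)⁻¹ := by
    apply inv_anti₀ (by positivity)
    gcongr
  gcongr

theorem bj_int_le (N n : ℕ) (i : ℤ) (f : ℂ → ℂ) (z : ℂ) :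
    ∫⁻ w, ENNReal.ofReal (gamN N ((2:ℝ) ^ (-(i + 1))) (z - w)) * ‖gj n i f w‖ₑ ^ 2 ≤
      4 * bj N n i f z := by
  unfold bj
  rw [← lintegral_const_mul' _ _ (by norm_num)]
  refine lintegral_mono fun w => ?_
  have h := gamN_half N (ρ := (2:ℝ) ^ (-i)) (by positivity) (z - w)
  have e : (2:ℝ) ^ (-i) / 2 = (2:ℝ) ^ (-(i + 1)) := by
    rw [neg_add, zpow_add₀ (by norm_num)]; norm_num; ring
  rw [e] at h
  simp only
  rw [← mul_assoc]
  refine mul_le_mul_left ?_ _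
  calc ENNReal.ofReal (gamN N ((2:ℝ) ^ (-(i + 1))) (z - w))
      ≤ ENNReal.ofReal (4 * gamN N ((2:ℝ) ^ (-i)) (z - w)) := ENNReal.ofReal_le_ofReal h
    _ = _ := by rw [ENNReal.ofReal_mul (by norm_num)]; norm_num

/-- the constant of the reproducing estimate -/
def RepC (N : ℕ) (C : ℝ) : Prop := 0 < C ∧ ∀ i : ℤ, ∀ g : ℂ → ℂ, Nice g →
    Continuous g → (∀ z, g z = cv (kap i) g z) → ∀ z u : ℂ,
    ‖g z‖ₑ ^ 2 ≤ ENNReal.ofReal C * ∫⁻ w, ENNReal.ofReal (gamN N ((2:ℝ) ^ (-i)) (z - w)) * ‖g w‖ₑ ^ 2 ∧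
    ‖g z - g (z - u)‖ₑ ^ 2 ≤ ENNReal.ofReal (C * ((2:ℝ) ^ i * ‖u‖) ^ 2 *
        (1 + ((2:ℝ) ^ i * ‖u‖) ^ 2) ^ (2 * N)) *
      ∫⁻ w, ENNReal.ofReal (gamN N ((2:ℝ) ^ (-i)) (z - w)) * ‖g w‖ₑ ^ 2

theorem two_zpow_mono {i j : ℤ} (h : i ≤ j) (u : ℂ) :
    (2:ℝ) ^ i * ‖u‖ ≤ (2:ℝ) ^ j * ‖u‖ := by
  gcongr
  norm_num

theorem gj_shift {N : ℕ} {C0 : ℝ} (hC : RepC N C0) (n : ℕ) {i j : ℤ} (hij : i ≤ j) {f : ℂ → ℂ}
    (hf : Nice f) (z u : ℂ) :
    ‖gj n i f (z - u)‖ₑ ≤ ENNReal.ofReal (Real.sqrt (4 * C0 * 2 ^ N *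
      (1 + ((2:ℝ) ^ j * ‖u‖) ^ 2) ^ N)) * (bj N n i f z) ^ (1/2 : ℝ) := by
  have hC0 := hC.1
  refine sqrt_step (by positivity) ?_
  have h1 := (hC.2 (i + 1) (gj n i f) (nice_gj n i hf) (continuous_cv (ker_KK n i) hf)
    (fun z => gj_reproduce n i (i + 1) le_rfl f hf z) (z - u) 0).1
  refine h1.trans ((mul_le_mul_right (bj_int_le N n i f (z - u)) _).trans ?_)
  have h2 := shift_int N ((2:ℝ) ^ (-i)) (by positivity) z u (fun w => ‖gj n i f w‖ₑ ^ 2)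
  have h3 : ‖u‖ ^ 2 / ((2:ℝ) ^ (-i)) ^ 2 ≤ ((2:ℝ) ^ j * ‖u‖) ^ 2 := by
    have : ‖u‖ ^ 2 / ((2:ℝ) ^ (-i)) ^ 2 = ((2:ℝ) ^ i * ‖u‖) ^ 2 := by
      rw [zpow_neg]; field_simp
    rw [this]
    exact pow_le_pow_left₀ (by positivity) (two_zpow_mono hij u) 2
  calc ENNReal.ofReal C0 * (4 * bj N n i f (z - u))
      ≤ ENNReal.ofReal C0 * (4 * (ENNReal.ofReal (2 ^ N * (1 + ‖u‖ ^ 2 / ((2:ℝ) ^ (-i)) ^ 2) ^ N) *
          bj N n i f z)) := by
        gcongr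
        exact h2
    _ ≤ ENNReal.ofReal C0 * (4 * (ENNReal.ofReal (2 ^ N * (1 + ((2:ℝ) ^ j * ‖u‖) ^ 2) ^ N) *
          bj N n i f z)) := by
        gcongr
    _ = ENNReal.ofReal (4 * C0 * 2 ^ N * (1 + ((2:ℝ) ^ j * ‖u‖) ^ 2) ^ N) * bj N n i f z := by
        rw [show 4 * C0 * 2 ^ N * (1 + ((2:ℝ) ^ j * ‖u‖) ^ 2) ^ N =
          C0 * (4 * (2 ^ N * (1 + ((2:ℝ) ^ j * ‖u‖) ^ 2) ^ N)) by ring,
          ENNReal.ofReal_mul hC0.le, ENNReal.ofReal_mul (by norm_num : (0:ℝ) ≤ 4)]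
        rw [show ENNReal.ofReal 4 = 4 by norm_num]
        ring

theorem gj_diff {N : ℕ} {C0 : ℝ} (hC : RepC N C0) (n : ℕ) {i j : ℤ} (hij : i ≤ j) {f : ℂ → ℂ}
    (hf : Nice f) (z u : ℂ) :
    ‖gj n i f z - gj n i f (z - u)‖ₑ ≤ ENNReal.ofReal (4 * Real.sqrt C0 * ((2:ℝ) ^ j * ‖u‖) *
      (1 + 4 * ((2:ℝ) ^ j * ‖u‖) ^ 2) ^ N) * (ENNReal.ofReal ((2:ℝ) ^ (i - j)) *
        (bj N n i f z) ^ (1/2 : ℝ)) := by
  have hC0 := hC.1
  set t := (2:ℝ) ^ j * ‖u‖ with ht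
  have ht0 : 0 ≤ t := by positivity
  have h1 := (hC.2 (i + 1) (gj n i f) (nice_gj n i hf) (continuous_cv (ker_KK n i) hf)
    (fun z => gj_reproduce n i (i + 1) le_rfl f hf z) z u).2
  have e1 : (2:ℝ) ^ (i + 1) * ‖u‖ = 2 * ((2:ℝ) ^ (i - j) * t) := by
    rw [ht, zpow_add₀ (by norm_num), zpow_sub₀ (by norm_num)]; field_simp
  have h2 : (2:ℝ) ^ (i - j) * t ≤ t := by
    have : (2:ℝ) ^ (i - j) ≤ 1 := zpow_le_one_of_nonpos₀ (by norm_num) (by omega)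
    nlinarith
  rw [e1] at h1
  have h3 : ‖gj n i f z - gj n i f (z - u)‖ₑ ^ 2 ≤
      ENNReal.ofReal ((4 * Real.sqrt C0 * t * (1 + 4 * t ^ 2) ^ N * (2:ℝ) ^ (i - j)) ^ 2) *
        bj N n i f z := by
    refine h1.trans ((mul_le_mul_right (bj_int_le N n i f z) _).trans ?_)
    rw [← mul_assoc]
    refine mul_le_mul_left ?_ _
    rw [show (4 : ℝ≥0∞) = ENNReal.ofReal 4 by norm_num, ← ENNReal.ofReal_mul (by positivity)]
    refine ENNReal.ofReal_le_ofReal ?_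
    have h4 : (1 + (2 * ((2:ℝ) ^ (i - j) * t)) ^ 2) ^ (2 * N) ≤ (1 + 4 * t ^ 2) ^ (2 * N) := by
      apply pow_le_pow_left₀ (by positivity)
      have : ((2:ℝ) ^ (i - j) * t) ^ 2 ≤ t ^ 2 := pow_le_pow_left₀ (by positivity) h2 2
      nlinarith
    calc C0 * (2 * ((2:ℝ) ^ (i - j) * t)) ^ 2 * (1 + (2 * ((2:ℝ) ^ (i - j) * t)) ^ 2) ^ (2 * N) * 4
        ≤ C0 * (2 * ((2:ℝ) ^ (i - j) * t)) ^ 2 * (1 + 4 * t ^ 2) ^ (2 * N) * 4 := by gcongr
      _ = (Real.sqrt C0 ^ 2) * (2 * ((2:ℝ) ^ (i - j) * t)) ^ 2 * (1 + 4 * t ^ 2) ^ (2 * N) * 4 := by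
          rw [Real.sq_sqrt hC0.le]
      _ = (4 * Real.sqrt C0 * t * (1 + 4 * t ^ 2) ^ N * (2:ℝ) ^ (i - j)) ^ 2 := by
          rw [pow_mul']; ring
  have h5 := sqrt_step (by positivity) h3
  rw [Real.sqrt_sq (by positivity)] at h5
  refine h5.trans (le_of_eq ?_)
  rw [ENNReal.ofReal_mul (by positivity), mul_assoc]

theorem low_shift {N : ℕ} {C0 : ℝ} (hC : RepC N C0) (n m0 : ℕ) (A : Finset ℤ) (j : ℤ)
    {f : ℂ → ℂ} (hf : Nice f) (z u : ℂ) :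
    ‖gW n (A.filter (fun i => i < j - m0)) f (z - u)‖ₑ ≤ ENNReal.ofReal (Real.sqrt (4 * C0 * 2 ^ N *
      (1 + ((2:ℝ) ^ j * ‖u‖) ^ 2) ^ N)) * Lj N n m0 A j f z := by
  have hC0 := hC.1
  set B := A.filter (fun i => i < j - m0) with hB
  unfold Lj
  rw [← hB]
  refine sqrt_step (by positivity) ?_
  have hrep : ∀ z, gW n B f z = cv (kap (j - m0)) (gW n B f) z := by
    intro z
    rw [cv_gW (ker_kap _) n B hf]
    unfold gW
    refine Finset.sum_congr rfl fun i hi => ?_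
    refine gj_reproduce n i _ ?_ f hf z
    rw [hB, Finset.mem_filter] at hi
    omega
  have h1 := (hC.2 (j - m0) (gW n B f) (nice_gW n B hf) (continuous_gW n B hf) hrep (z - u) 0).1
  rw [show -(j - (m0:ℤ)) = (m0:ℤ) - j by ring] at h1
  refine h1.trans ?_
  have h2 := shift_int N ((2:ℝ) ^ ((m0:ℤ) - j)) (by positivity) z u (fun w => ‖gW n B f w‖ₑ ^ 2)
  have h3 : ‖u‖ ^ 2 / ((2:ℝ) ^ ((m0:ℤ) - j)) ^ 2 ≤ ((2:ℝ) ^ j * ‖u‖) ^ 2 := by
    have : ‖u‖ ^ 2 / ((2:ℝ) ^ ((m0:ℤ) - j)) ^ 2 = ((2:ℝ) ^ (j - m0) * ‖u‖) ^ 2 := by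
      rw [← neg_sub j (m0:ℤ), zpow_neg]; field_simp
    rw [this]
    exact pow_le_pow_left₀ (by positivity) (two_zpow_mono (by omega) u) 2
  set I := ∫⁻ w, ENNReal.ofReal (gamN N ((2:ℝ) ^ ((m0:ℤ) - j)) (z - w)) * ‖gW n B f w‖ₑ ^ 2
    with hI
  calc ENNReal.ofReal C0 * ∫⁻ w, ENNReal.ofReal (gamN N ((2:ℝ) ^ ((m0:ℤ) - j)) (z - u - w)) *
        ‖gW n B f w‖ₑ ^ 2
      ≤ ENNReal.ofReal C0 * (ENNReal.ofReal (2 ^ N *
          (1 + ‖u‖ ^ 2 / ((2:ℝ) ^ ((m0:ℤ) - j)) ^ 2) ^ N) * I) := mul_le_mul_right h2 _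
    _ ≤ ENNReal.ofReal C0 * (ENNReal.ofReal (4 * (2 ^ N *
          (1 + ((2:ℝ) ^ j * ‖u‖) ^ 2) ^ N)) * I) := by
        refine mul_le_mul_right (mul_le_mul_left (ENNReal.ofReal_le_ofReal ?_) _) _
        have h5 : (2:ℝ) ^ N * (1 + ‖u‖ ^ 2 / ((2:ℝ) ^ ((m0:ℤ) - j)) ^ 2) ^ N ≤
            2 ^ N * (1 + ((2:ℝ) ^ j * ‖u‖) ^ 2) ^ N := by gcongr
        have h6 : 0 ≤ (2:ℝ) ^ N * (1 + ((2:ℝ) ^ j * ‖u‖) ^ 2) ^ N := by positivity
        linarith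
    _ = ENNReal.ofReal (4 * C0 * 2 ^ N * (1 + ((2:ℝ) ^ j * ‖u‖) ^ 2) ^ N) * I := by
        rw [show 4 * C0 * 2 ^ N * (1 + ((2:ℝ) ^ j * ‖u‖) ^ 2) ^ N =
          C0 * (4 * (2 ^ N * (1 + ((2:ℝ) ^ j * ‖u‖) ^ 2) ^ N)) by ring,
          ENNReal.ofReal_mul hC0.le, mul_assoc]

/-- the low part at a shifted point -/
theorem gW_shift {N : ℕ} {C0 : ℝ} (hC : RepC N C0) (n m0 J : ℕ) (A A1 : Finset ℤ) (j : ℤ)
    (hA : A1 ⊆ A) (hJ : ∀ i ∈ A1, i + J ≤ j) (hlow : ∀ i ∈ A, i < j - m0 → i ∈ A1)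
    {f : ℂ → ℂ} (hf : Nice f) (z u : ℂ) :
    ‖gW n A1 f (z - u)‖ₑ ≤ ENNReal.ofReal (Real.sqrt (4 * C0 * 2 ^ N *
      (1 + ((2:ℝ) ^ j * ‖u‖) ^ 2) ^ N)) * Nj N n m0 J A j f z := by
  classical
  have hfilt : A1.filter (fun i => i < j - m0) = A.filter (fun i => i < j - m0) := by
    ext i
    simp only [Finset.mem_filter]
    exact ⟨fun h => ⟨hA h.1, h.2⟩, fun h => ⟨hlow i h.1 h.2, h.2⟩⟩
  have hsub : A1.filter (fun i => ¬ i < j - m0) ⊆
      A.filter (fun i => j - m0 ≤ i ∧ i ≤ j - J) := by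
    intro i
    simp only [Finset.mem_filter]
    intro h
    have := hJ i h.1
    exact ⟨hA h.1, by omega, by omega⟩
  have e : gW n A1 f (z - u) = gW n (A.filter (fun i => i < j - m0)) f (z - u) +
      ∑ i ∈ A1.filter (fun i => ¬ i < j - m0), gj n i f (z - u) := by
    rw [← hfilt]
    unfold gW
    exact (Finset.sum_filter_add_sum_filter_not A1 _ _).symm
  rw [e]
  unfold Nj
  rw [mul_add, add_comm]
  refine (enorm_add_le _ _).trans (add_le_add ?_ (low_shift hC n m0 A j hf z u))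
  refine (enorm_sum_le _ _).trans ?_
  rw [Finset.mul_sum]
  calc ∑ i ∈ A1.filter (fun i => ¬ i < j - m0), ‖gj n i f (z - u)‖ₑ
      ≤ ∑ i ∈ A1.filter (fun i => ¬ i < j - m0), ENNReal.ofReal (Real.sqrt (4 * C0 * 2 ^ N *
          (1 + ((2:ℝ) ^ j * ‖u‖) ^ 2) ^ N)) * (bj N n i f z) ^ (1/2 : ℝ) := by
        refine Finset.sum_le_sum fun i hi => gj_shift hC n ?_ hf z u
        have := hJ i (Finset.mem_filter.1 hi).1
        omega
    _ ≤ _ := Finset.sum_le_sum_of_subset hsub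

theorem gW_diff {N : ℕ} {C0 : ℝ} (hC : RepC N C0) (n J : ℕ) (A A1 : Finset ℤ) (j : ℤ)
    (hA : A1 ⊆ A) (hJ : ∀ i ∈ A1, i + J ≤ j) {f : ℂ → ℂ} (hf : Nice f) (z u : ℂ) :
    ‖gW n A1 f z - gW n A1 f (z - u)‖ₑ ≤ ENNReal.ofReal (4 * Real.sqrt C0 * ((2:ℝ) ^ j * ‖u‖) *
      (1 + 4 * ((2:ℝ) ^ j * ‖u‖) ^ 2) ^ N) * Dj N n J A j f z := by
  classical
  have hsub : A1 ⊆ A.filter (fun i => i ≤ j - J) := by
    intro i hi
    have := hJ i hi
    exact Finset.mem_filter.2 ⟨hA hi, by omega⟩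
  have e : gW n A1 f z - gW n A1 f (z - u) = ∑ i ∈ A1, (gj n i f z - gj n i f (z - u)) := by
    unfold gW
    rw [Finset.sum_sub_distrib]
  rw [e]
  unfold Dj
  refine (enorm_sum_le _ _).trans ?_
  rw [Finset.mul_sum]
  refine (Finset.sum_le_sum fun i hi => gj_diff hC n ?_ hf z u).trans
    (Finset.sum_le_sum_of_subset hsub)
  have := hJ i hi
  omega

/-- the scalar inequality -/
theorem scalar_ineq (N K : ℕ) (q : ℝ) (hq : 0 < q) (hK : (N:ℝ) * q / 2 ≤ K) (j : ℤ) (v : ℂ)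
    (c1 : ℝ) (hc1 : 0 ≤ c1) :
    gamN (K + 1 + N + 2) ((2:ℝ) ^ (-(j - 3))) v *
      ((Real.sqrt (c1 * (1 + ((2:ℝ) ^ j * ‖v‖) ^ 2) ^ N)) ^ q *
        (((2:ℝ) ^ j * ‖v‖) * (1 + 4 * ((2:ℝ) ^ j * ‖v‖) ^ 2) ^ N)) ≤
      (Real.sqrt c1 ^ q * 64 ^ K * 64 * 256 ^ N) * gamN 2 ((2:ℝ) ^ (-(j - 3))) v := by
  set t := (2:ℝ) ^ j * ‖v‖ with ht
  have ht0 : 0 ≤ t := by positivity
  have e1 : ‖v‖ ^ 2 / ((2:ℝ) ^ (-(j - 3))) ^ 2 = t ^ 2 / 64 := by
    rw [ht, neg_sub, zpow_sub₀ (by norm_num)]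
    field_simp
    norm_num
  unfold gamN
  rw [e1]
  set X := 1 + t ^ 2 / 64 with hX
  have hX1 : 1 ≤ X := by rw [hX]; nlinarith [sq_nonneg t]
  have hX0 : 0 < X := by linarith
  have h1 : 1 + t ^ 2 ≤ 64 * X := by rw [hX]; linarith
  have h2 : 1 + 4 * t ^ 2 ≤ 256 * X := by rw [hX]; linarith
  have h3 : t ≤ 64 * X := by
    have : t ≤ 1 + t ^ 2 := by nlinarith [sq_nonneg (t - 1)]
    linarith
  have h4 : (Real.sqrt (c1 * (1 + t ^ 2) ^ N)) ^ q ≤ Real.sqrt c1 ^ q * (64 * X) ^ K := by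
    rw [Real.sqrt_mul hc1, Real.mul_rpow (Real.sqrt_nonneg _) (Real.sqrt_nonneg _)]
    refine mul_le_mul_of_nonneg_left ?_ (by positivity)
    rw [Real.sqrt_eq_rpow, ← Real.rpow_natCast, ← Real.rpow_mul (by positivity),
      ← Real.rpow_mul (by positivity)]
    calc (1 + t ^ 2) ^ ((N:ℝ) * (1 / 2 * q)) ≤ (1 + t ^ 2) ^ (K:ℝ) := by
          apply Real.rpow_le_rpow_of_exponent_le (by nlinarith [sq_nonneg t])
          linarith
      _ ≤ (64 * X) ^ (K:ℝ) := Real.rpow_le_rpow (by positivity) h1 (by positivity)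
      _ = (64 * X) ^ K := Real.rpow_natCast _ _
  have h5 : t * (1 + 4 * t ^ 2) ^ N ≤ (64 * X) * (256 * X) ^ N := by gcongr
  set r := (((2:ℝ) ^ (-(j - 3))) ^ 2)⁻¹ with hr
  have hr0 : 0 ≤ r := by positivity
  calc r * (X ^ (K + 1 + N + 2))⁻¹ * ((Real.sqrt (c1 * (1 + t ^ 2) ^ N)) ^ q *
        (t * (1 + 4 * t ^ 2) ^ N))
      ≤ r * (X ^ (K + 1 + N + 2))⁻¹ * ((Real.sqrt c1 ^ q * (64 * X) ^ K) *
        ((64 * X) * (256 * X) ^ N)) := by gcongr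
    _ = (Real.sqrt c1 ^ q * 64 ^ K * 64 * 256 ^ N) * (r * (X ^ 2)⁻¹) := by
        rw [mul_pow, mul_pow]
        field_simp
        ring

end R9

open R9 in
theorem ortho_single (p : ℝ) (hp : 2 < p) (N : ℕ) (hN : 2 * p + 1 < N) : ∃ C : ℝ, 0 < C ∧
    ∀ n : ℕ, 1 ≤ n → ∀ m0 J : ℕ, 4 ≤ J → ∀ (A A1 : Finset ℤ) (j : ℤ), A1 ⊆ A →
    (∀ i ∈ A1, i + J ≤ j) → (∀ i ∈ A, i < j - m0 → i ∈ A1) → ∀ f : ℂ → ℂ, Nice f →
    ENNReal.ofReal |∫ z, ‖gW n A1 f z‖ ^ (p - 2) * (conj (gW n A1 f z) * gj n j f z).re| ≤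
      ENNReal.ofReal C * ∫⁻ z, (Nj N n m0 J A j f z) ^ (p - 2) * Dj N n J A j f z *
        (bj N n j f z) ^ (1/2 : ℝ) := by
  have hN2 : 2 ≤ N := by
    have : (2:ℝ) ≤ N := by linarith
    exact_mod_cast this
  set q := p - 2 with hq
  have hq0 : 0 < q := by linarith
  obtain ⟨C0, hC0⟩ := reproduce N hN2
  have hRep : RepC N C0 := hC0
  set K := ⌈(N:ℝ) * q / 2⌉₊ with hKdef
  have hK : (N:ℝ) * q / 2 ≤ K := Nat.le_ceil _
  obtain ⟨Ck, hCk, hkap⟩ := kap_decay (K + 1 + N + 2)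
  obtain ⟨Cm, hCm, hmass⟩ := gamN_mass 2 le_rfl
  set c1 := 4 * C0 * 2 ^ N with hc1
  have hC0p := hC0.1
  have hc1p : 0 < c1 := by positivity
  set D1 := Ck * (2 + q) * (4 * Real.sqrt C0) * (Real.sqrt c1 ^ q * 64 ^ K * 64 * 256 ^ N) with hD1
  have hD1p : 0 < D1 := by
    have := Real.sqrt_pos.2 hC0p
    have := Real.sqrt_pos.2 hc1p
    positivity
  refine ⟨D1 * Cm * Real.sqrt c1, ?_, ?_⟩
  · have := Real.sqrt_pos.2 hc1p
    positivity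
  intro n hn m0 J hJ4 A A1 j hA hJ hlow f hf
  set a := gW n A1 f with ha
  set g := gj n j f with hg
  have haN : Nice a := nice_gW n A1 hf
  have hgN : Nice g := nice_gj n j hf
  set Φ : ℂ → ℂ := fun z => ((‖a z‖ ^ q : ℝ) : ℂ) * conj (a z) with hΦ
  have hΦm : Measurable Φ := by
    have hm := haN.meas
    have h1 : Measurable fun z => ‖a z‖ ^ q := (hm.norm).pow_const q
    exact (Complex.measurable_ofReal.comp h1).mul (Complex.continuous_conj.measurable.comp hm)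
  obtain ⟨B, hB⟩ := haN.bdd
  have hB0 : 0 ≤ B := (norm_nonneg _).trans (hB 0)
  have hΦb : ∀ z, ‖Φ z‖ ≤ B ^ q * B := by
    intro z
    simp only [hΦ]
    rw [norm_mul, Complex.norm_real, RCLike.norm_conj, Real.norm_of_nonneg (by positivity)]
    have := hB z
    gcongr
  -- the real part
  have hre : ∫ z, ‖a z‖ ^ q * (conj (a z) * g z).re = (∫ z, Φ z * g z).re := by
    have hint : Integrable (fun z => Φ z * g z) :=
      hgN.int.bdd_mul (c := B ^ q * B) hΦm.aestronglyMeasurable (Eventually.of_forall hΦb)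
    have h1 := integral_re hint
    have h2 : ∀ z, RCLike.re (Φ z * g z) = ‖a z‖ ^ q * (conj (a z) * g z).re := by
      intro z
      simp only [hΦ]
      rw [mul_assoc]
      exact Complex.re_ofReal_mul _ _
    simp only [h2] at h1
    rw [h1]
    rfl
  have hstep1 : ENNReal.ofReal |∫ z, ‖a z‖ ^ q * (conj (a z) * g z).re| ≤
      ‖∫ z, Φ z * g z‖ₑ := by
    rw [hre, ← ofReal_norm]
    exact ENNReal.ofReal_le_ofReal (Complex.abs_re_le_norm _)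
  refine hstep1.trans ?_
  have hzero : ∀ z, cv (kap (j - 3)) g z = 0 := fun z => by
    have := cv_kap_zero n (a := j - 3) (i := j) (by omega) hf
    rw [hg, this]; rfl
  refine (rep_bound (ker_kap (j - 3)) hgN hΦm _ hΦb (kap_int_one _) hzero).trans ?_
  -- pointwise bound of the inner integral
  have hinner : ∀ w, ∫⁻ z, ‖kap (j - 3) (z - w)‖ₑ * ‖Φ w - Φ z‖ₑ ≤
      ENNReal.ofReal (D1 * Cm) * ((Nj N n m0 J A j f w) ^ q * Dj N n J A j f w) := by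
    intro w
    set NN := Nj N n m0 J A j f w with hNN
    set DD := Dj N n J A j f w with hDD
    have hpt : ∀ z, ‖kap (j - 3) (z - w)‖ₑ * ‖Φ w - Φ z‖ₑ ≤
        ENNReal.ofReal (gamN 2 ((2:ℝ) ^ (-(j - 3))) (w - z)) * (ENNReal.ofReal D1 * (NN ^ q * DD)) := by
      intro z
      set u := w - z with hu
      have hz : z = w - u := by rw [hu]; ring
      have h1 : ‖kap (j - 3) (z - w)‖ₑ ≤
          ENNReal.ofReal (Ck * gamN (K + 1 + N + 2) ((2:ℝ) ^ (-(j - 3))) u) := by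
        rw [← ofReal_norm]
        refine ENNReal.ofReal_le_ofReal (((hkap (j - 3) (z - w) 0).1).trans (le_of_eq ?_))
        unfold gamN
        rw [norm_sub_rev z w]
      have h2 : ‖a (w - u)‖ₑ ≤ ENNReal.ofReal (Real.sqrt (c1 *
          (1 + ((2:ℝ) ^ j * ‖u‖) ^ 2) ^ N)) * NN := gW_shift hRep n m0 J A A1 j hA hJ hlow hf w u
      have h3 : ‖a w‖ₑ ≤ ENNReal.ofReal (Real.sqrt (c1 *
          (1 + ((2:ℝ) ^ j * ‖u‖) ^ 2) ^ N)) * NN := by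
        have := gW_shift hRep n m0 J A A1 j hA hJ hlow hf w 0
        rw [sub_zero] at this
        refine this.trans ?_
        refine mul_le_mul_left (ENNReal.ofReal_le_ofReal (Real.sqrt_le_sqrt ?_)) _
        rw [norm_zero, mul_zero]
        have h6 : ((1:ℝ) + 0 ^ 2) ^ N ≤ (1 + ((2:ℝ) ^ j * ‖u‖) ^ 2) ^ N := by
          apply pow_le_pow_left₀ (by norm_num)
          nlinarith [sq_nonneg ((2:ℝ) ^ j * ‖u‖)]
        exact mul_le_mul_of_nonneg_left h6 hc1p.le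
      have h4 := gW_diff hRep n J A A1 j hA hJ hf w u
      have h5 := Phi_diff q hq0 (a w) (a (w - u)) _ h3 h2
      have h7 := scalar_ineq N K q hq0 hK j u c1 hc1p.le
      set s := Real.sqrt (c1 * (1 + ((2:ℝ) ^ j * ‖u‖) ^ 2) ^ N) with hs
      have hs0 : 0 ≤ s := Real.sqrt_nonneg _
      set t := (2:ℝ) ^ j * ‖u‖ with ht
      have ht0 : 0 ≤ t := by positivity
      have hg0 : 0 ≤ gamN (K + 1 + N + 2) ((2:ℝ) ^ (-(j - 3))) u := by unfold gamN; positivity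
      have hg2 : 0 ≤ gamN 2 ((2:ℝ) ^ (-(j - 3))) u := by unfold gamN; positivity
      have hd : ‖Φ w - Φ z‖ₑ ≤ ENNReal.ofReal (2 + q) * (ENNReal.ofReal s * NN) ^ q *
          (ENNReal.ofReal (4 * Real.sqrt C0 * t * (1 + 4 * t ^ 2) ^ N) * DD) := by
        rw [hz]
        refine h5.trans ?_
        gcongr
      calc ‖kap (j - 3) (z - w)‖ₑ * ‖Φ w - Φ z‖ₑ
          ≤ ENNReal.ofReal (Ck * gamN (K + 1 + N + 2) ((2:ℝ) ^ (-(j - 3))) u) *
            (ENNReal.ofReal (2 + q) * (ENNReal.ofReal s * NN) ^ q *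
              (ENNReal.ofReal (4 * Real.sqrt C0 * t * (1 + 4 * t ^ 2) ^ N) * DD)) :=
            mul_le_mul' h1 hd
        _ = ENNReal.ofReal (Ck * (2 + q) * (4 * Real.sqrt C0) *
              (gamN (K + 1 + N + 2) ((2:ℝ) ^ (-(j - 3))) u * (s ^ q * (t * (1 + 4 * t ^ 2) ^ N)))) *
              (NN ^ q * DD) := by
            rw [ENNReal.mul_rpow_of_nonneg _ _ hq0.le, ENNReal.ofReal_rpow_of_nonneg hs0 hq0.le]
            rw [show Ck * (2 + q) * (4 * Real.sqrt C0) *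
              (gamN (K + 1 + N + 2) ((2:ℝ) ^ (-(j - 3))) u * (s ^ q * (t * (1 + 4 * t ^ 2) ^ N))) =
              (Ck * gamN (K + 1 + N + 2) ((2:ℝ) ^ (-(j - 3))) u) * ((2 + q) * (s ^ q *
                (4 * Real.sqrt C0 * t * (1 + 4 * t ^ 2) ^ N))) by ring]
            rw [ENNReal.ofReal_mul (p := Ck * gamN (K + 1 + N + 2) ((2:ℝ) ^ (-(j - 3))) u)
              (by positivity), ENNReal.ofReal_mul (p := 2 + q) (by positivity),
              ENNReal.ofReal_mul (p := s ^ q) (by positivity)]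
            ring
        _ ≤ ENNReal.ofReal (Ck * (2 + q) * (4 * Real.sqrt C0) *
              ((Real.sqrt c1 ^ q * 64 ^ K * 64 * 256 ^ N) *
                gamN 2 ((2:ℝ) ^ (-(j - 3))) u)) * (NN ^ q * DD) := by
            refine mul_le_mul_left (ENNReal.ofReal_le_ofReal ?_) _
            exact mul_le_mul_of_nonneg_left h7 (by positivity)
        _ = ENNReal.ofReal (gamN 2 ((2:ℝ) ^ (-(j - 3))) u) *
              (ENNReal.ofReal D1 * (NN ^ q * DD)) := by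
            rw [show Ck * (2 + q) * (4 * Real.sqrt C0) *
              ((Real.sqrt c1 ^ q * 64 ^ K * 64 * 256 ^ N) * gamN 2 ((2:ℝ) ^ (-(j - 3))) u) =
              gamN 2 ((2:ℝ) ^ (-(j - 3))) u * D1 by rw [hD1]; ring, ENNReal.ofReal_mul hg2]
            ring
    refine (lintegral_mono hpt).trans ?_
    have hmeas : Measurable fun z => ENNReal.ofReal (gamN 2 ((2:ℝ) ^ (-(j - 3))) (w - z)) := by
      unfold gamN
      fun_prop
    rw [lintegral_mul_const _ hmeas]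
    refine (mul_le_mul_left (hmass _ (by positivity) w) _).trans (le_of_eq ?_)
    rw [← mul_assoc, ← ENNReal.ofReal_mul hCm.le, mul_comm Cm]
  have hgj : ∀ w, ‖g w‖ₑ ≤ ENNReal.ofReal (Real.sqrt c1) * (bj N n j f w) ^ (1/2 : ℝ) := by
    intro w
    have := gj_shift hRep n (le_refl j) hf w 0
    simpa [hc1] using this
  rw [← lintegral_const_mul' _ _ ENNReal.ofReal_ne_top]
  refine lintegral_mono fun w => ?_
  refine (mul_le_mul' (hgj w) (hinner w)).trans (le_of_eq ?_)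
  rw [ENNReal.ofReal_mul (p := D1 * Cm) (by positivity)]
  ring

end Helper85.BP.P
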