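import Pool.Agent.Helper72.BAM.Fin
import Pool.Agent.Helper85.BP.Defs
import Pool.Agent.Helper85.BPM.R10b
import Pool.Agent.Helper85.BPM.R5
import Pool.Agent.Helper85.BPM.R8a
import Pool.Agent.Helper85.BPM.R8b
import Pool.Agent.Helper85.BPM.R9

/-!
MP_3dd6d4_an (all real exponents), module R11: separated windows.
-/

set_option autoImplicit false

open MeasureTheory Complex FourierTransform Filter Topology
open scoped ENNReal NNReal ComplexConjugate

noncomputable section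

namespace Helper85.BP.P

open Helper72.BA Helper85.BP

namespace R11

lemma nice_sum {ι : Type*} (s : Finset ι) (F : ι → ℂ → ℂ) (h : ∀ i ∈ s, Nice (F i)) :
    Nice (fun z => ∑ i ∈ s, F i z) := by
  classical
  refine ⟨Finset.measurable_sum s (fun i hi => (h i hi).meas),
    integrable_finsetSum s (fun i hi => (h i hi).int), ?_⟩
  have hb : ∀ i, ∃ C : ℝ, i ∈ s → ∀ z, ‖F i z‖ ≤ C := by
    intro i
    by_cases hi : i ∈ s
    · obtain ⟨C, hC⟩ := (h i hi).bdd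
      exact ⟨C, fun _ => hC⟩
    · exact ⟨0, fun hi' => absurd hi' hi⟩
  choose C hC using hb
  refine ⟨∑ i ∈ s, C i, fun z => ?_⟩
  exact (norm_sum_le _ _).trans (Finset.sum_le_sum (fun i hi => hC i hi z))

lemma nice_gj (n : ℕ) (j : ℤ) {f : ℂ → ℂ} (hf : Nice f) : Nice (gj n j f) :=
  nice_cv (ker_KK n j) hf

lemma nice_gW (n : ℕ) (W : Finset ℤ) {f : ℂ → ℂ} (hf : Nice f) : Nice (gW n W f) :=
  nice_sum W (fun j => gj n j f) (fun j _ => nice_gj n j hf)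

lemma cont_gj (n : ℕ) (j : ℤ) {f : ℂ → ℂ} (hf : Nice f) : Continuous (gj n j f) :=
  continuous_cv (ker_KK n j) hf

lemma cont_gW (n : ℕ) (W : Finset ℤ) {f : ℂ → ℂ} (hf : Nice f) : Continuous (gW n W f) :=
  continuous_finsetSum W (fun j _ => cont_gj n j hf)

lemma nrp_ne_top {p : ℝ} (hp : 1 ≤ p) {f : ℂ → ℂ} (hf : Nice f) : nrp p f ≠ ∞ := by
  obtain ⟨C, hC⟩ := hf.bdd
  have h1 : nrp p f ≤ ENNReal.ofReal C ^ (p - 1) * ∫⁻ z, ‖f z‖ₑ := by
    rw [nrp, ← lintegral_const_mul _ hf.meas.enorm]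
    apply lintegral_mono
    intro z
    simp only
    have h2 : ‖f z‖ₑ ^ p = ‖f z‖ₑ ^ (p - 1) * ‖f z‖ₑ := by
      conv_rhs => rw [← ENNReal.rpow_one (‖f z‖ₑ), ← ENNReal.rpow_mul, one_mul]
      rw [← ENNReal.rpow_add_of_nonneg _ _ (by linarith) zero_le_one, sub_add_cancel]
    rw [h2]
    gcongr
    rw [← ofReal_norm]
    exact ENNReal.ofReal_le_ofReal (hC z)
  refine ne_top_of_le_ne_top ?_ h1
  exact ENNReal.mul_ne_top (ENNReal.rpow_ne_top_of_nonneg (by linarith) ENNReal.ofReal_ne_top)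
    hf.int.2.ne

/-! ### windows -/

/-- the union of the first `l` windows -/
def V (a b : ℕ → ℤ) (l : ℕ) : Finset ℤ := (Finset.range l).biUnion (fun i => Finset.Ico (a i) (b i))

section windows

variable {a b : ℕ → ℤ} {B J : ℕ} (hab : ∀ l, a l ≤ b l ∧ b l ≤ a l + B ∧ b l + J ≤ a (l + 1))

include hab

lemma a_mono : Monotone a := by
  apply monotone_nat_of_le_succ
  intro l
  have := hab l
  omega

lemma b_lt {i l : ℕ} (h : i < l) : b i + J ≤ a l := by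
  have h1 := (hab i).2.2
  have h2 := a_mono hab (show i + 1 ≤ l from h)
  omega

lemma win_disj (s : Set ℕ) : s.PairwiseDisjoint (fun i => Finset.Ico (a i) (b i)) := by
  intro i _ l _ hil
  rw [Function.onFun, Finset.disjoint_left]
  intro x hx hx'
  rw [Finset.mem_Ico] at hx hx'
  rcases lt_or_gt_of_ne hil with h | h
  · have := b_lt hab h
    omega
  · have := b_lt hab h
    omega

lemma sum_V {M : Type*} [AddCommMonoid M] (F : ℤ → M) (l : ℕ) :
    ∑ i ∈ Finset.range l, ∑ j ∈ Finset.Ico (a i) (b i), F j = ∑ j ∈ V a b l, F j :=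
  (Finset.sum_biUnion (win_disj hab _)).symm

lemma V_filter {l M : ℕ} (hl : l ≤ M) (c : ℤ) (hc : c ≤ a l) :
    (V a b M).filter (fun i => i < c) = (V a b l).filter (fun i => i < c) := by
  ext x
  simp only [V, Finset.mem_filter, Finset.mem_biUnion, Finset.mem_range, Finset.mem_Ico]
  constructor
  · rintro ⟨⟨i, hi, h1, h2⟩, hx⟩
    refine ⟨⟨i, ?_, h1, h2⟩, hx⟩
    by_contra hil
    push Not at hil
    have := a_mono hab hil
    omega
  · rintro ⟨⟨i, hi, h1, h2⟩, hx⟩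
    exact ⟨⟨i, by omega, h1, h2⟩, hx⟩

lemma V_lt {l : ℕ} {x : ℤ} (hx : x ∈ V a b l) : x + J ≤ a l - 1 := by
  simp only [V, Finset.mem_biUnion, Finset.mem_range, Finset.mem_Ico] at hx
  obtain ⟨i, hi, h1, h2⟩ := hx
  have := b_lt hab hi
  omega

omit hab in
lemma V_sub {l M : ℕ} (hl : l ≤ M) : V a b l ⊆ V a b M := by
  intro x hx
  simp only [V, Finset.mem_biUnion, Finset.mem_range] at hx ⊢
  obtain ⟨i, hi, h1⟩ := hx
  exact ⟨i, by omega, h1⟩

end windows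

/-! ### measurability -/

lemma meas_gamN (N : ℕ) (ρ : ℝ) : Measurable (gamN N ρ) := by
  unfold gamN
  fun_prop

lemma meas_conv (N : ℕ) (ρ : ℝ) (g : ℂ → ℂ) (hg : Measurable g) :
    Measurable (fun z => ∫⁻ w, ENNReal.ofReal (gamN N ρ (z - w)) * ‖g w‖ₑ ^ 2) := by
  apply Measurable.lintegral_prod_right'
    (f := fun x : ℂ × ℂ => ENNReal.ofReal (gamN N ρ (x.1 - x.2)) * ‖g x.2‖ₑ ^ 2)
  exact (((meas_gamN N ρ).comp (measurable_fst.sub measurable_snd)).ennreal_ofReal).mul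
    ((hg.comp measurable_snd).enorm.pow_const 2)

lemma meas_bj (N n : ℕ) (j : ℤ) {f : ℂ → ℂ} (hf : Nice f) : Measurable (bj N n j f) :=
  meas_conv N _ _ (nice_gj n j hf).meas

lemma meas_Lj (N n m0 : ℕ) (A : Finset ℤ) (j : ℤ) {f : ℂ → ℂ} (hf : Nice f) :
    Measurable (Lj N n m0 A j f) :=
  (meas_conv N _ _ (nice_gW n _ hf).meas).pow_const _

lemma meas_Nj (N n m0 J : ℕ) (A : Finset ℤ) (j : ℤ) {f : ℂ → ℂ} (hf : Nice f) :
    Measurable (Nj N n m0 J A j f) := by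
  apply Measurable.add _ (meas_Lj N n m0 A j hf)
  exact Finset.measurable_sum _ (fun i _ => (meas_bj N n i hf).pow_const _)

lemma meas_Dj (N n J : ℕ) (A : Finset ℤ) (j : ℤ) {f : ℂ → ℂ} (hf : Nice f) :
    Measurable (Dj N n J A j f) :=
  Finset.measurable_sum _ (fun i _ => ((meas_bj N n i hf).pow_const _).const_mul _)

/-! ### pointwise bounds -/

lemma low_reproduce (n : ℕ) (c : ℤ) {f : ℂ → ℂ} (hf : Nice f) (W : Finset ℤ)
    (hW : ∀ i ∈ W, i + 1 ≤ c) : cv (kap c) (gW n W f) = gW n W f := by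
  classical
  induction W using Finset.induction_on with
  | empty =>
    funext z
    simp [gW, cv]
  | insert i W hi ih =>
    have h1 : gW n (insert i W) f = gj n i f + gW n W f := by
      funext z
      simp only [gW, Pi.add_apply]
      rw [Finset.sum_insert hi]
    rw [h1, cv_add (ker_kap c) (nice_gj n i hf) (nice_gW n W hf),
      ih (fun i' hi' => hW i' (Finset.mem_insert_of_mem hi'))]
    congr 1
    funext z
    exact (gj_reproduce n i c (hW i (Finset.mem_insert_self _ _)) f hf z).symm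

lemma gamN_half (N : ℕ) (ρ : ℝ) (hρ : 0 < ρ) (z : ℂ) : gamN N (ρ / 2) z ≤ 4 * gamN N ρ z := by
  unfold gamN
  have h1 : ((ρ / 2) ^ 2)⁻¹ = 4 * (ρ ^ 2)⁻¹ := by
    field_simp
    norm_num
  rw [h1]
  have h2 : ((1 + ‖z‖ ^ 2 / (ρ / 2) ^ 2) ^ N)⁻¹ ≤ ((1 + ‖z‖ ^ 2 / ρ ^ 2) ^ N)⁻¹ := by
    gcongr
    linarith
  have h3 : 0 ≤ 4 * (ρ ^ 2)⁻¹ := by positivity
  calc 4 * (ρ ^ 2)⁻¹ * ((1 + ‖z‖ ^ 2 / (ρ / 2) ^ 2) ^ N)⁻¹ ≤
      4 * (ρ ^ 2)⁻¹ * ((1 + ‖z‖ ^ 2 / ρ ^ 2) ^ N)⁻¹ := mul_le_mul_of_nonneg_left h2 h3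
    _ = _ := by ring

lemma ptw (N : ℕ) (hN : 2 ≤ N) : ∃ C : ℝ, 0 < C ∧ ∀ (n : ℕ) (f : ℂ → ℂ), Nice f →
    (∀ (i : ℤ) (z : ℂ), ‖gj n i f z‖ₑ ^ 2 ≤ ENNReal.ofReal C * bj N n i f z) ∧
    (∀ (m0 : ℕ) (A : Finset ℤ) (j : ℤ) (z : ℂ),
      ‖gW n (A.filter (fun i => i < j - m0)) f z‖ₑ ^ 2 ≤
        ENNReal.ofReal C * (Lj N n m0 A j f z) ^ 2) := by
  obtain ⟨C, hC, h⟩ := reproduce N hN
  refine ⟨4 * C, by positivity, fun n f hf => ⟨fun i z => ?_, fun m0 A j z => ?_⟩⟩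
  · have h1 := (h (i + 1) (gj n i f) (nice_gj n i hf) (cont_gj n i hf)
      (fun z => gj_reproduce n i (i + 1) le_rfl f hf z) z 0).1
    refine h1.trans ?_
    rw [mul_comm 4 C, ENNReal.ofReal_mul hC.le, mul_assoc]
    gcongr
    rw [bj, ← lintegral_const_mul' _ _ ENNReal.ofReal_ne_top]
    apply lintegral_mono
    intro w
    simp only
    rw [← mul_assoc, ← ENNReal.ofReal_mul (by norm_num)]
    gcongr
    have h2 : (2:ℝ) ^ (-(i + 1)) = (2:ℝ) ^ (-i) / 2 := by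
      rw [neg_add, zpow_add₀ (by norm_num), zpow_neg_one]
      rfl
    rw [h2]
    exact gamN_half N _ (by positivity) _
  · set W := A.filter (fun i => i < j - m0) with hWdef
    have h1 := (h (j - m0) (gW n W f) (nice_gW n W hf) (cont_gW n W hf)
      (fun z => congrFun (low_reproduce n (j - m0) hf W (by
        intro i hi
        rw [hWdef, Finset.mem_filter] at hi
        omega)).symm z) z 0).1
    refine h1.trans ?_
    have h3 : (Lj N n m0 A j f z) ^ 2 = ∫⁻ w, ENNReal.ofReal (gamN N ((2:ℝ) ^ ((m0:ℤ) - j)) (z - w)) *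
        ‖gW n (A.filter (fun i => i < j - m0)) f w‖ₑ ^ 2 := by
      rw [Lj, ← ENNReal.rpow_natCast, ← ENNReal.rpow_mul]
      norm_num
    rw [h3]
    have h4 : -(j - (m0:ℤ)) = (m0:ℤ) - j := by ring
    rw [h4]
    gcongr
    linarith

lemma root_le {C : ℝ} (hC : 0 ≤ C) {x y : ℝ≥0∞} (h : x ^ 2 ≤ ENNReal.ofReal C * y) :
    x ≤ ENNReal.ofReal (Real.sqrt C) * y ^ (1/2 : ℝ) := by
  have h1 : x = (x ^ 2) ^ (1/2 : ℝ) := by
    rw [← ENNReal.rpow_natCast, ← ENNReal.rpow_mul]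
    norm_num
  have h2 : ENNReal.ofReal (Real.sqrt C) * y ^ (1/2 : ℝ) = (ENNReal.ofReal C * y) ^ (1/2 : ℝ) := by
    rw [ENNReal.mul_rpow_of_nonneg _ _ (by norm_num), ENNReal.ofReal_rpow_of_nonneg hC (by norm_num),
      Real.sqrt_eq_rpow]
  rw [h1, h2]
  exact ENNReal.rpow_le_rpow h (by norm_num)

/-- the low part is majorised by `Nj` -/
lemma majorant (N : ℕ) (hN : 2 ≤ N) : ∃ C : ℝ, 0 < C ∧ ∀ (n : ℕ) (f : ℂ → ℂ), Nice f →
    ∀ (m0 J B M : ℕ) (a b : ℕ → ℤ)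
      (_ : ∀ l, a l ≤ b l ∧ b l ≤ a l + B ∧ b l + J ≤ a (l + 1)), B ≤ m0 →
      ∀ l < M, ∀ j ∈ Finset.Ico (a l) (b l), ∀ z,
      ‖gW n (V a b l) f z‖ₑ ≤ ENNReal.ofReal C * Nj N n m0 J (V a b M) j f z := by
  obtain ⟨C, hC, h⟩ := ptw N hN
  refine ⟨Real.sqrt C, Real.sqrt_pos.mpr hC, ?_⟩
  intro n f hf m0 J B M a b hab hB l hl j hj z
  classical
  rw [Finset.mem_Ico] at hj
  have hbl := (hab l).2.1
  obtain ⟨hg, hL⟩ := h n f hf
  have h1 : gW n (V a b l) f z = ∑ i ∈ (V a b l).filter (fun i => ¬ i < j - m0), gj n i f z +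
      gW n ((V a b M).filter (fun i => i < j - m0)) f z := by
    rw [V_filter hab hl.le (j - m0) (by omega)]
    simp only [gW]
    rw [add_comm, Finset.sum_filter_add_sum_filter_not]
  rw [h1]
  refine (enorm_add_le _ _).trans ?_
  rw [Nj, mul_add]
  refine add_le_add ?_ ?_
  · refine (enorm_sum_le _ _).trans ?_
    rw [Finset.mul_sum]
    calc ∑ i ∈ (V a b l).filter (fun i => ¬ i < j - m0), ‖gj n i f z‖ₑ ≤
        ∑ i ∈ (V a b l).filter (fun i => ¬ i < j - m0),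
          ENNReal.ofReal (Real.sqrt C) * (bj N n i f z) ^ (1/2 : ℝ) := by
          apply Finset.sum_le_sum
          intro i _
          exact root_le hC.le (hg i z)
      _ ≤ _ := by
          apply Finset.sum_le_sum_of_subset
          intro i hi
          rw [Finset.mem_filter] at hi ⊢
          have h3 := V_lt hab hi.1
          exact ⟨V_sub hl.le hi.1, by omega, by omega⟩
  · have h4 := root_le hC.le (hL m0 (V a b M) j z)
    have h5 : ((Lj N n m0 (V a b M) j f z) ^ 2) ^ (1/2 : ℝ) = Lj N n m0 (V a b M) j f z := by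
      rw [← ENNReal.rpow_natCast, ← ENNReal.rpow_mul]
      norm_num
    rwa [h5] at h4

lemma sq_sum_le (W : Finset ℤ) (B : ℕ) (hW : W.card ≤ B) (g : ℤ → ℂ) :
    ‖∑ j ∈ W, g j‖ₑ ^ 2 ≤ B * ∑ j ∈ W, ‖g j‖ₑ ^ 2 := by
  have h1 : ‖∑ j ∈ W, g j‖ ^ 2 ≤ B * ∑ j ∈ W, ‖g j‖ ^ 2 := by
    calc ‖∑ j ∈ W, g j‖ ^ 2 ≤ (∑ j ∈ W, ‖g j‖) ^ 2 :=
          pow_le_pow_left₀ (norm_nonneg _) (norm_sum_le _ _) 2
      _ ≤ W.card * ∑ j ∈ W, ‖g j‖ ^ 2 := sq_sum_le_card_mul_sum_sq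
      _ ≤ B * ∑ j ∈ W, ‖g j‖ ^ 2 := by
          apply mul_le_mul_of_nonneg_right _ (Finset.sum_nonneg (fun i _ => by positivity))
          exact_mod_cast hW
  have h2 : ∀ x : ℂ, ‖x‖ₑ ^ 2 = ENNReal.ofReal (‖x‖ ^ 2) := by
    intro x
    rw [ENNReal.ofReal_pow (norm_nonneg _), ofReal_norm]
  simp only [h2]
  rw [← ENNReal.ofReal_natCast, ← ENNReal.ofReal_sum_of_nonneg (fun _ _ => by positivity),
    ← ENNReal.ofReal_mul (by positivity)]
  exact ENNReal.ofReal_le_ofReal h1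

/-- the sum `P` -/
def PP (p : ℝ) (N n m0 J : ℕ) (A : Finset ℤ) (f : ℂ → ℂ) : ℝ≥0∞ :=
  ∑ j ∈ A, ∫⁻ z, (Nj N n m0 J A j f z) ^ (p - 2) * bj N n j f z

/-- the sum `T` -/
def TT (p : ℝ) (N n m0 J : ℕ) (A : Finset ℤ) (f : ℂ → ℂ) : ℝ≥0∞ :=
  ∑ j ∈ A, ∫⁻ z, (Nj N n m0 J A j f z) ^ (p - 2) * (Dj N n J A j f z) ^ 2

/-- the first cross term -/
lemma E1_bound (p : ℝ) (hp : 2 < p) (N : ℕ) (hN : 2 ≤ N) : ∃ C : ℝ, 0 < C ∧
    ∀ (n : ℕ) (f : ℂ → ℂ), Nice f → ∀ (m0 J B M : ℕ) (a b : ℕ → ℤ)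
      (_ : ∀ l, a l ≤ b l ∧ b l ≤ a l + B ∧ b l + J ≤ a (l + 1)), B ≤ m0 →
      ∑ l ∈ Finset.range M, ∫⁻ z, ‖gW n (V a b l) f z‖ₑ ^ (p - 2) *
        ‖gW n (Finset.Ico (a l) (b l)) f z‖ₑ ^ 2 ≤
      ENNReal.ofReal (C * B) * PP p N n m0 J (V a b M) f := by
  obtain ⟨C1, hC1, h1⟩ := majorant N hN
  obtain ⟨C2, hC2, h2⟩ := ptw N hN
  refine ⟨C1 ^ (p - 2) * C2, by positivity, ?_⟩
  intro n f hf m0 J B M a b hab hB
  rw [PP, ← sum_V hab, Finset.mul_sum]
  apply Finset.sum_le_sum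
  intro l hl
  rw [Finset.mem_range] at hl
  rw [Finset.mul_sum]
  have hpt : ∀ z, ‖gW n (V a b l) f z‖ₑ ^ (p - 2) * ‖gW n (Finset.Ico (a l) (b l)) f z‖ₑ ^ 2 ≤
      ∑ j ∈ Finset.Ico (a l) (b l), ENNReal.ofReal (C1 ^ (p - 2) * C2 * B) *
        ((Nj N n m0 J (V a b M) j f z) ^ (p - 2) * bj N n j f z) := by
    intro z
    have hcard : (Finset.Ico (a l) (b l)).card ≤ B := by
      rw [Int.card_Ico]
      have := (hab l).2.1
      omega
    calc _ ≤ ‖gW n (V a b l) f z‖ₑ ^ (p - 2) *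
          (B * ∑ j ∈ Finset.Ico (a l) (b l), ‖gj n j f z‖ₑ ^ 2) := by
          gcongr
          exact sq_sum_le _ B hcard (fun j => gj n j f z)
      _ = ∑ j ∈ Finset.Ico (a l) (b l), ‖gW n (V a b l) f z‖ₑ ^ (p - 2) *
          (B * ‖gj n j f z‖ₑ ^ 2) := by
          rw [Finset.mul_sum, Finset.mul_sum]
      _ ≤ _ := by
          apply Finset.sum_le_sum
          intro j hj
          calc ‖gW n (V a b l) f z‖ₑ ^ (p - 2) * (B * ‖gj n j f z‖ₑ ^ 2) ≤
              (ENNReal.ofReal C1 * Nj N n m0 J (V a b M) j f z) ^ (p - 2) *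
                (B * (ENNReal.ofReal C2 * bj N n j f z)) := by
                gcongr
                · exact h1 n f hf m0 J B M a b hab hB l hl j hj z
                · exact (h2 n f hf).1 j z
            _ = _ := by
                rw [ENNReal.mul_rpow_of_nonneg _ _ (by linarith),
                  ENNReal.ofReal_rpow_of_nonneg hC1.le (by linarith),
                  ENNReal.ofReal_mul (by positivity), ENNReal.ofReal_mul (by positivity),
                  ENNReal.ofReal_natCast]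
                ring
  refine (lintegral_mono hpt).trans ?_
  rw [lintegral_finsetSum _ (fun j _ => ?_)]
  · apply Finset.sum_le_sum
    intro j _
    rw [lintegral_const_mul' _ _ ENNReal.ofReal_ne_top]
  · exact (((meas_Nj N n m0 J _ j hf).pow_const _).mul (meas_bj N n j hf)).const_mul _

lemma amgm {μ : ℝ} (hμ : 0 < μ) (x y : ℝ≥0∞) :
    x * y ^ (1/2 : ℝ) ≤ ENNReal.ofReal μ * y + ENNReal.ofReal μ⁻¹ * x ^ 2 := by
  set t := y ^ (1/2 : ℝ) with ht
  have hy : y = t * t := by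
    rw [ht, ← ENNReal.rpow_add_of_nonneg _ _ (by norm_num) (by norm_num)]
    norm_num
  rw [hy]
  have h0 : ENNReal.ofReal μ⁻¹ * ENNReal.ofReal μ = 1 := by
    rw [← ENNReal.ofReal_mul (by positivity), inv_mul_cancel₀ hμ.ne', ENNReal.ofReal_one]
  rcases le_total x (ENNReal.ofReal μ * t) with h | h
  · calc x * t ≤ (ENNReal.ofReal μ * t) * t := mul_le_mul_left h t
      _ = ENNReal.ofReal μ * (t * t) := by ring
      _ ≤ _ := le_self_add
  · have h1 : t ≤ ENNReal.ofReal μ⁻¹ * x := by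
      calc t = ENNReal.ofReal μ⁻¹ * (ENNReal.ofReal μ * t) := by rw [← mul_assoc, h0, one_mul]
        _ ≤ ENNReal.ofReal μ⁻¹ * x := mul_le_mul_right h _
    calc x * t ≤ x * (ENNReal.ofReal μ⁻¹ * x) := mul_le_mul_right h1 x
      _ = ENNReal.ofReal μ⁻¹ * x ^ 2 := by ring
      _ ≤ _ := le_add_self

lemma integrable_cross {p : ℝ} (hp : 2 < p) {a g : ℂ → ℂ} (ha : Nice a) (hg : Nice g) :
    Integrable (fun z => ‖a z‖ ^ (p - 2) * (conj (a z) * g z).re) := by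
  obtain ⟨K, hK⟩ := ha.bdd
  have hK0 : 0 ≤ K := (norm_nonneg _).trans (hK 0)
  have hb : Integrable (fun z => K ^ (p - 2) * K * ‖g z‖) := hg.int.norm.const_mul _
  refine hb.mono' ?_ (Filter.Eventually.of_forall fun z => ?_)
  · have h1 : Measurable (fun z => conj (a z)) := Complex.continuous_conj.measurable.comp ha.meas
    exact ((ha.meas.norm.pow_const (p - 2)).mul
      (Complex.measurable_re.comp (h1.mul hg.meas))).aestronglyMeasurable
  · rw [norm_mul, Real.norm_eq_abs, Real.norm_eq_abs, abs_of_nonneg (by positivity)]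
    have h1 : |(conj (a z) * g z).re| ≤ K * ‖g z‖ := by
      calc |(conj (a z) * g z).re| ≤ ‖conj (a z) * g z‖ := Complex.abs_re_le_norm _
        _ = ‖a z‖ * ‖g z‖ := by rw [norm_mul, RCLike.norm_conj]
        _ ≤ K * ‖g z‖ := mul_le_mul_of_nonneg_right (hK z) (norm_nonneg _)
    calc ‖a z‖ ^ (p - 2) * |(conj (a z) * g z).re| ≤ K ^ (p - 2) * (K * ‖g z‖) := by
          apply mul_le_mul _ h1 (abs_nonneg _) (by positivity)
          exact Real.rpow_le_rpow (norm_nonneg _) (hK z) (by linarith)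
      _ = K ^ (p - 2) * K * ‖g z‖ := by ring

/-- the second cross term -/
lemma E2_bound (p : ℝ) (hp : 2 < p) (N : ℕ) (hN : 2 * p + 1 < N) : ∃ C : ℝ, 0 < C ∧
    ∀ (n : ℕ), 1 ≤ n → ∀ (f : ℂ → ℂ), Nice f → ∀ (m0 J B M : ℕ) (a b : ℕ → ℤ)
      (_ : ∀ l, a l ≤ b l ∧ b l ≤ a l + B ∧ b l + J ≤ a (l + 1)), B ≤ m0 → 4 ≤ J → ∀ μ : ℝ, 0 < μ →
      ∑ l ∈ Finset.range M, ENNReal.ofReal |∫ z, ‖gW n (V a b l) f z‖ ^ (p - 2) *
        (conj (gW n (V a b l) f z) * gW n (Finset.Ico (a l) (b l)) f z).re| ≤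
      ENNReal.ofReal C * (ENNReal.ofReal μ * PP p N n m0 J (V a b M) f +
        ENNReal.ofReal μ⁻¹ * TT p N n m0 J (V a b M) f) := by
  obtain ⟨C, hC, h⟩ := ortho_single p hp N hN
  refine ⟨C, hC, ?_⟩
  intro n hn f hf m0 J B M a b hab hB hJ μ hμ
  have hterm : ∀ l < M, ENNReal.ofReal |∫ z, ‖gW n (V a b l) f z‖ ^ (p - 2) *
        (conj (gW n (V a b l) f z) * gW n (Finset.Ico (a l) (b l)) f z).re| ≤
      ∑ j ∈ Finset.Ico (a l) (b l), ENNReal.ofReal C * (ENNReal.ofReal μ *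
          (∫⁻ z, (Nj N n m0 J (V a b M) j f z) ^ (p - 2) * bj N n j f z) +
        ENNReal.ofReal μ⁻¹ *
          ∫⁻ z, (Nj N n m0 J (V a b M) j f z) ^ (p - 2) * (Dj N n J (V a b M) j f z) ^ 2) := by
    intro l hl
    have h1 : (∫ z, ‖gW n (V a b l) f z‖ ^ (p - 2) *
        (conj (gW n (V a b l) f z) * gW n (Finset.Ico (a l) (b l)) f z).re) =
        ∑ j ∈ Finset.Ico (a l) (b l), ∫ z, ‖gW n (V a b l) f z‖ ^ (p - 2) *
          (conj (gW n (V a b l) f z) * gj n j f z).re := by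
      rw [← integral_finsetSum _ (fun j _ => integrable_cross hp (nice_gW n _ hf)
        (nice_gj n j hf))]
      congr 1
      funext z
      rw [← Finset.mul_sum]
      congr 1
      have hW : gW n (Finset.Ico (a l) (b l)) f z = ∑ j ∈ Finset.Ico (a l) (b l), gj n j f z := rfl
      rw [hW, Finset.mul_sum, Complex.re_sum]
    rw [h1]
    refine (ENNReal.ofReal_le_ofReal (Finset.abs_sum_le_sum_abs _ _)).trans ?_
    rw [ENNReal.ofReal_sum_of_nonneg (fun _ _ => abs_nonneg _)]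
    apply Finset.sum_le_sum
    intro j hj
    rw [Finset.mem_Ico] at hj
    have hbl := (hab l).2.1
    refine (h n hn m0 J hJ (V a b M) (V a b l) j (V_sub hl.le) ?_ ?_ f hf).trans ?_
    · intro i hi
      have := V_lt hab hi
      omega
    · intro i hi hij
      have h2 : i ∈ (V a b M).filter (fun i => i < j - m0) := Finset.mem_filter.mpr ⟨hi, hij⟩
      rw [V_filter hab hl.le (j - m0) (by omega)] at h2
      exact (Finset.mem_filter.mp h2).1
    · gcongr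
      have hm : Measurable (fun z => ENNReal.ofReal μ *
          ((Nj N n m0 J (V a b M) j f z) ^ (p - 2) * bj N n j f z)) :=
        (((meas_Nj N n m0 J _ j hf).pow_const _).mul (meas_bj N n j hf)).const_mul _
      rw [← lintegral_const_mul' _ _ ENNReal.ofReal_ne_top,
        ← lintegral_const_mul' _ _ ENNReal.ofReal_ne_top, ← lintegral_add_left hm]
      apply lintegral_mono
      intro z
      simp only
      calc _ = (Nj N n m0 J (V a b M) j f z) ^ (p - 2) *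
            (Dj N n J (V a b M) j f z * (bj N n j f z) ^ (1/2 : ℝ)) := by ring
        _ ≤ (Nj N n m0 J (V a b M) j f z) ^ (p - 2) * (ENNReal.ofReal μ * bj N n j f z +
            ENNReal.ofReal μ⁻¹ * (Dj N n J (V a b M) j f z) ^ 2) :=
            mul_le_mul_right (amgm hμ _ _) _
        _ = _ := by ring
  refine (Finset.sum_le_sum (fun l hl => hterm l (Finset.mem_range.mp hl))).trans (le_of_eq ?_)
  rw [sum_V hab, ← Finset.mul_sum, Finset.sum_add_distrib, ← Finset.mul_sum, ← Finset.mul_sum,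
    PP, TT]

/-- the two cross terms together -/
lemma cross (p : ℝ) (hp : 2 < p) (Ct : ℝ) (hCt : 0 < Ct) : ∃ C : ℝ, 0 < C ∧
    ∀ n : ℕ, 1 ≤ n → ∀ J B : ℕ, 4 ≤ J → 1 ≤ B → 2 ^ B ≤ n → ∀ (M : ℕ) (a b : ℕ → ℤ)
      (_ : ∀ l, a l ≤ b l ∧ b l ≤ a l + B ∧ b l + J ≤ a (l + 1)),
      ∀ f : ℂ → ℂ, Nice f →
      ENNReal.ofReal Ct * (∑ l ∈ Finset.range M, ∫⁻ z, ‖gW n (V a b l) f z‖ₑ ^ (p - 2) *
        ‖gW n (Finset.Ico (a l) (b l)) f z‖ₑ ^ 2) +
      ENNReal.ofReal p * ∑ l ∈ Finset.range M, ENNReal.ofReal |∫ z, ‖gW n (V a b l) f z‖ ^ (p - 2) *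
        (conj (gW n (V a b l) f z) * gW n (Finset.Ico (a l) (b l)) f z).re| ≤
      ENNReal.ofReal (C * B) * (ENNReal.ofReal (((2:ℝ) ^ (-(min (1 - 2 / p) (1/2) * J)) +
        (n:ℝ) ^ (-(min (1 - 2 / p) (1/2)))) * (n:ℝ) ^ (p - 2)) * nrp p f +
        (nrp p (gW n (V a b M) f)) ^ (1 - 2 / p) * (nrp p f) ^ (2 / p)) := by
  obtain ⟨N, hN⟩ := exists_nat_gt (2 * p + 1)
  have hN2 : 2 ≤ N := by
    have : (2:ℝ) < N := by linarith
    exact_mod_cast this.le
  obtain ⟨Ca, hCa, hE1⟩ := E1_bound p hp N hN2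
  obtain ⟨Cb, hCb, hE2⟩ := E2_bound p hp N hN
  obtain ⟨C1, hC1, hP⟩ := P_bound p hp N hN
  obtain ⟨C2, hC2, hT⟩ := T_bound p hp N hN
  refine ⟨Ct * Ca * C1 + p * Cb * (C1 + C2), by positivity, ?_⟩
  intro n hn J B hJ hB hBn M a b hab f hf
  have hn1 : (1 : ℝ) ≤ n := by exact_mod_cast hn
  have hn0 : (0 : ℝ) < n := by linarith
  -- choice of `m0`
  obtain ⟨m0, hm0, hm0'⟩ : ∃ m0 : ℕ, n ≤ 2 ^ m0 ∧ 2 ^ m0 ≤ 2 * n := by
    have hex : ∃ m : ℕ, n ≤ 2 ^ m := ⟨n, Nat.lt_two_pow_self.le⟩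
    classical
    refine ⟨Nat.find hex, Nat.find_spec hex, ?_⟩
    rcases Nat.eq_zero_or_pos (Nat.find hex) with h | h
    · rw [h]; omega
    · have h1 := Nat.find_min hex (show Nat.find hex - 1 < Nat.find hex by omega)
      have h2 : 2 ^ (Nat.find hex) = 2 * 2 ^ (Nat.find hex - 1) := by
        rw [← pow_succ']
        congr 1
        omega
      omega
  have hBm0 : B ≤ m0 := by
    have h1 : 2 ^ B ≤ 2 ^ m0 := hBn.trans hm0
    exact (Nat.pow_le_pow_iff_right (by norm_num)).mp h1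
  have hm0R : (2 : ℝ) ^ m0 ≤ 2 * n := by exact_mod_cast hm0'
  set c : ℝ := min (1 - 2 / p) (1/2) with hc
  have hcd : c ≤ 1 - 2 / p := min_le_left _ _
  have hc2 : c ≤ 1 / 2 := min_le_right _ _
  have hc0 : 0 < c := by
    apply lt_min _ (by norm_num)
    have : 2 / p < 1 := by rw [div_lt_one (by linarith)]; exact hp
    linarith
  set E : ℝ := (2:ℝ) ^ (-(c * J)) + (n:ℝ) ^ (-c) with hE
  have hE0 : 0 < E := by positivity
  set F := nrp p f with hF
  set X := (nrp p (gW n (V a b M) f)) ^ (1 - 2 / p) * F ^ (2 / p) with hX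
  set e := ENNReal.ofReal (E * (n:ℝ) ^ (p - 2)) * F with he
  have hJ0 : (0:ℝ) ≤ J := Nat.cast_nonneg J
  have hPP : PP p N n m0 J (V a b M) f ≤ ENNReal.ofReal C1 * (e + X) := by
    have h1 := hP n hn m0 J hm0 hm0R (V a b M) f hf
    refine (show PP p N n m0 J (V a b M) f ≤ _ from h1).trans ?_
    have h4 : ENNReal.ofReal C1 * (e + X) =
        ENNReal.ofReal (C1 * (E * (n:ℝ) ^ (p - 2))) * F + ENNReal.ofReal C1 * X := by
      rw [ENNReal.ofReal_mul hC1.le, he]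
      ring
    rw [h4, hX]
    refine add_le_add (mul_le_mul_left (ENNReal.ofReal_le_ofReal ?_) _) (le_of_eq (by ring))
    rw [← mul_assoc]
    have h2 : (2:ℝ) ^ (-((1 - 2 / p) * J)) ≤ (2:ℝ) ^ (-(c * J)) := by
      apply Real.rpow_le_rpow_of_exponent_le (by norm_num)
      nlinarith
    have h3 : (n:ℝ) ^ (-(1 - 2 / p)) ≤ (n:ℝ) ^ (-c) := by
      apply Real.rpow_le_rpow_of_exponent_le hn1
      linarith
    gcongr
    exact add_le_add h2 h3
  set μ : ℝ := (2:ℝ) ^ (-((J:ℝ) / 2)) with hμ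
  have hμ0 : 0 < μ := by positivity
  have hμ1 : μ ≤ 1 := Real.rpow_le_one_of_one_le_of_nonpos (by norm_num) (by linarith)
  have hμE : μ ≤ E := by
    have h2 : μ ≤ (2:ℝ) ^ (-(c * J)) := by
      apply Real.rpow_le_rpow_of_exponent_le (by norm_num)
      nlinarith
    have h3 : (0:ℝ) ≤ (n:ℝ) ^ (-c) := by positivity
    linarith
  have hμT : μ⁻¹ * (2:ℝ) ^ (-(J:ℝ)) = μ := by
    rw [hμ, ← Real.rpow_neg (by norm_num), ← Real.rpow_add (by norm_num)]
    congr 1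
    ring
  have hTT : ENNReal.ofReal μ⁻¹ * TT p N n m0 J (V a b M) f ≤ ENNReal.ofReal C2 * (e + X) := by
    have h1 : TT p N n m0 J (V a b M) f ≤ _ := hT n hn m0 J hm0 hm0R (V a b M) f hf
    calc ENNReal.ofReal μ⁻¹ * TT p N n m0 J (V a b M) f ≤
        ENNReal.ofReal μ⁻¹ * (ENNReal.ofReal (C2 * (2:ℝ) ^ (-(J:ℝ))) *
          (ENNReal.ofReal ((n:ℝ) ^ (p - 2)) * F + X)) := mul_le_mul_right h1 _
      _ = ENNReal.ofReal (C2 * μ) * (ENNReal.ofReal ((n:ℝ) ^ (p - 2)) * F + X) := by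
          rw [← mul_assoc, ← ENNReal.ofReal_mul (by positivity)]
          congr 2
          calc μ⁻¹ * (C2 * (2:ℝ) ^ (-(J:ℝ))) = C2 * (μ⁻¹ * (2:ℝ) ^ (-(J:ℝ))) := by ring
            _ = C2 * μ := by rw [hμT]
      _ = ENNReal.ofReal C2 * (ENNReal.ofReal (μ * (n:ℝ) ^ (p - 2)) * F +
          ENNReal.ofReal μ * X) := by
          rw [ENNReal.ofReal_mul hC2.le, ENNReal.ofReal_mul hμ0.le]
          ring
      _ ≤ ENNReal.ofReal C2 * (e + X) := by
          rw [he]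
          gcongr
          calc ENNReal.ofReal μ * X ≤ 1 * X := by
                gcongr
                rw [← ENNReal.ofReal_one]
                exact ENNReal.ofReal_le_ofReal hμ1
            _ = X := one_mul X
  have hPμ : ENNReal.ofReal μ * PP p N n m0 J (V a b M) f ≤ ENNReal.ofReal C1 * (e + X) := by
    calc ENNReal.ofReal μ * PP p N n m0 J (V a b M) f ≤ 1 * PP p N n m0 J (V a b M) f := by
          gcongr
          rw [← ENNReal.ofReal_one]
          exact ENNReal.ofReal_le_ofReal hμ1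
      _ ≤ _ := by rw [one_mul]; exact hPP
  have h1 := hE1 n f hf m0 J B M a b hab hBm0
  have h2 := hE2 n hn f hf m0 J B M a b hab hBm0 hJ μ hμ0
  have hB1 : (1:ℝ) ≤ B := by exact_mod_cast hB
  have hp0 : 0 < p := by linarith
  calc _ ≤ ENNReal.ofReal Ct * (ENNReal.ofReal (Ca * B) * (ENNReal.ofReal C1 * (e + X))) +
        ENNReal.ofReal p * (ENNReal.ofReal Cb * (ENNReal.ofReal C1 * (e + X) +
          ENNReal.ofReal C2 * (e + X))) := by
        refine add_le_add (mul_le_mul_right (h1.trans (mul_le_mul_right hPP _)) _)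
          (mul_le_mul_right (h2.trans (mul_le_mul_right (add_le_add hPμ hTT) _)) _)
    _ = ENNReal.ofReal (Ct * (Ca * B * C1) + p * (Cb * (C1 + C2))) * (e + X) := by
        rw [ENNReal.ofReal_add (by positivity) (by positivity), ENNReal.ofReal_mul hCt.le,
          ENNReal.ofReal_mul (p := Ca * B) (by positivity), ENNReal.ofReal_mul hp0.le,
          ENNReal.ofReal_mul hCb.le, ENNReal.ofReal_add hC1.le hC2.le]
        ring
    _ ≤ _ := by
        refine mul_le_mul_left (ENNReal.ofReal_le_ofReal ?_) _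
        have h3 : 0 ≤ p * (Cb * (C1 + C2)) := by positivity
        nlinarith

/-- Young's inequality in the form used to absorb. -/
lemma young (p : ℝ) (hp : 2 < p) (η : ℝ) (hη : 0 < η) (D : ℝ) (hD : 0 ≤ D) (x y : ℝ≥0∞)
    (hx : x ≠ ∞) (hy : y ≠ ∞) :
    ENNReal.ofReal D * (x ^ (1 - 2 / p) * y ^ (2 / p)) ≤
      ENNReal.ofReal η * x + ENNReal.ofReal (D ^ (p / 2) * (η⁻¹) ^ (p / 2 - 1)) * y := by
  have hp0 : 0 < p := by linarith
  have hθ0 : (0 : ℝ) < 2 / p := by positivity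
  have hθ1 : 2 / p < 1 := by rw [div_lt_one hp0]; exact hp
  obtain ⟨u, rfl⟩ : ∃ u : ℝ, x = ENNReal.ofReal u := ⟨x.toReal, (ENNReal.ofReal_toReal hx).symm⟩
  obtain ⟨v, rfl⟩ : ∃ v : ℝ, y = ENNReal.ofReal v := ⟨y.toReal, (ENNReal.ofReal_toReal hy).symm⟩
  wlog hu : 0 ≤ u generalizing u
  · have h := this 0 ENNReal.ofReal_ne_top le_rfl
    rw [ENNReal.ofReal_of_nonpos (le_of_not_ge hu)]
    rwa [ENNReal.ofReal_zero] at h
  wlog hv : 0 ≤ v generalizing v
  · have h := this 0 ENNReal.ofReal_ne_top le_rfl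
    rw [ENNReal.ofReal_of_nonpos (le_of_not_ge hv)]
    rwa [ENNReal.ofReal_zero] at h
  rw [ENNReal.ofReal_rpow_of_nonneg hu (by linarith), ENNReal.ofReal_rpow_of_nonneg hv hθ0.le,
    ← ENNReal.ofReal_mul (by positivity), ← ENNReal.ofReal_mul hD, ← ENNReal.ofReal_mul hη.le,
    ← ENNReal.ofReal_mul (by positivity), ← ENNReal.ofReal_add (by positivity) (by positivity)]
  apply ENNReal.ofReal_le_ofReal
  have h1 := Real.geom_mean_le_arith_mean2_weighted (w₁ := 1 - 2 / p) (w₂ := 2 / p)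
    (by linarith) hθ0.le (show 0 ≤ η * u by positivity)
    (show 0 ≤ D ^ (p / 2) * (η⁻¹) ^ (p / 2 - 1) * v by positivity) (by ring)
  have h2 : (η * u) ^ (1 - 2 / p) * (D ^ (p / 2) * (η⁻¹) ^ (p / 2 - 1) * v) ^ (2 / p) =
      D * (u ^ (1 - 2 / p) * v ^ (2 / p)) := by
    rw [Real.mul_rpow hη.le hu, Real.mul_rpow (by positivity) hv,
      Real.mul_rpow (by positivity) (by positivity)]
    have h3 : (D ^ (p / 2)) ^ (2 / p) = D := by
      rw [← Real.rpow_mul hD]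
      have : p / 2 * (2 / p) = 1 := by field_simp
      rw [this, Real.rpow_one]
    have h4 : ((η⁻¹) ^ (p / 2 - 1)) ^ (2 / p) = (η ^ (1 - 2 / p))⁻¹ := by
      rw [← Real.rpow_mul (by positivity), Real.inv_rpow hη.le]
      congr 2
      field_simp
    rw [h3, h4]
    have h5 : η ^ (1 - 2 / p) ≠ 0 := (Real.rpow_pos_of_pos hη _).ne'
    field_simp
  rw [h2] at h1
  refine h1.trans ?_
  have h6 : (1 - 2 / p) * (η * u) ≤ 1 * (η * u) :=
    mul_le_mul_of_nonneg_right (by linarith) (by positivity)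
  have h7 : (2 / p) * (D ^ (p / 2) * (η⁻¹) ^ (p / 2 - 1) * v) ≤
      1 * (D ^ (p / 2) * (η⁻¹) ^ (p / 2 - 1) * v) :=
    mul_le_mul_of_nonneg_right (by linarith) (by positivity)
  linarith

end R11

/-! ## MODULE R11 : separated windows -/
theorem separated_real (p : ℝ) (hp : 2 < p) (ε : ℝ) (hε : 0 < ε) : ∃ C c : ℝ, ∃ J0 : ℕ,
    0 < C ∧ 0 < c ∧
    ∀ n : ℕ, 1 ≤ n → ∀ J : ℕ, J0 ≤ J → ∀ B : ℕ, 1 ≤ B → 2 ^ B ≤ n → ∀ (M : ℕ) (a b : ℕ → ℤ)
      (_ : ∀ l, a l ≤ b l ∧ b l ≤ a l + B ∧ b l + J ≤ a (l + 1)),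
      ∀ f : ℂ → ℂ, Nice f →
      nrp p (fun z => ∑ l ∈ Finset.range M, gW n (Finset.Ico (a l) (b l)) f z) ≤
        ENNReal.ofReal (1 + ε) * ∑ l ∈ Finset.range M, nrp p (gW n (Finset.Ico (a l) (b l)) f)
        + ENNReal.ofReal (C * (B:ℝ) ^ (p / 2) * ((2:ℝ) ^ (-(c * J)) + (n:ℝ) ^ (-c)) *
            (n:ℝ) ^ (p - 2)) * nrp p f := by
  set δ : ℝ := min ε 1 / 4 with hδ
  have hδ0 : 0 < δ := by positivity
  have hδ1 : δ ≤ 1 / 4 := by
    have : min ε 1 ≤ 1 := min_le_right _ _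
    linarith
  have hδε : (1 - δ)⁻¹ * (1 + δ) ≤ 1 + ε := by
    have h1 : 4 * δ ≤ ε := by
      have : min ε 1 ≤ ε := min_le_left _ _
      linarith
    rw [inv_mul_le_iff₀ (by linarith)]
    nlinarith
  obtain ⟨Ct, hCt, htel⟩ := telescoping_real p hp δ hδ0
  obtain ⟨K, hK, hcross⟩ := R11.cross p hp Ct hCt
  set c : ℝ := min (1 - 2 / p) (1/2) with hc
  have hcd : c ≤ 1 - 2 / p := min_le_left _ _
  have hc2 : c ≤ 1 / 2 := min_le_right _ _
  have hp0 : 0 < p := by linarith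
  have h2p : 2 / p < 1 := by rw [div_lt_one hp0]; exact hp
  have hc0 : 0 < c := by
    apply lt_min _ (by norm_num)
    linarith
  have hcp : c ≤ p - 2 := by
    have h1 : 1 - 2 / p = (p - 2) / p := by field_simp
    have h2 : (p - 2) / p ≤ p - 2 := div_le_self (by linarith) (by linarith)
    linarith
  refine ⟨2 * (K + K ^ (p / 2) * (δ⁻¹) ^ (p / 2 - 1)), c, 4, by positivity, hc0, ?_⟩
  intro n hn J hJ B hB hBn M a b hab f hf
  have hn1 : (1 : ℝ) ≤ n := by exact_mod_cast hn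
  have hn0 : (0 : ℝ) < n := by linarith
  -- the sum is `g_V`
  have hVl : ∀ l z, ∑ i ∈ Finset.range l, gW n (Finset.Ico (a i) (b i)) f z =
      gW n (R11.V a b l) f z := fun l z => R11.sum_V hab (fun j => gj n j f z) l
  have hV : (fun z => ∑ l ∈ Finset.range M, gW n (Finset.Ico (a l) (b l)) f z) =
      gW n (R11.V a b M) f := by
    funext z
    exact hVl M z
  have hGtop : nrp p (gW n (R11.V a b M) f) ≠ ∞ :=
    R11.nrp_ne_top (by linarith) (R11.nice_gW n _ hf)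
  have hftop : nrp p f ≠ ∞ := R11.nrp_ne_top (by linarith) hf
  -- telescoping
  have h1 := htel M (fun l => gW n (Finset.Ico (a l) (b l)) f) (fun l _ => R11.nice_gW n _ hf)
  simp only [hVl] at h1
  have h2 := hcross n hn J B hJ hB hBn M a b hab f hf
  simp only [hVl]
  change nrp p (gW n (R11.V a b M) f) ≤ _
  change nrp p (gW n (R11.V a b M) f) ≤ _ at h1
  set G := nrp p (gW n (R11.V a b M) f) with hG
  set F := nrp p f with hF
  set S := ∑ l ∈ Finset.range M, nrp p (gW n (Finset.Ico (a l) (b l)) f) with hS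
  set E : ℝ := (2:ℝ) ^ (-(c * J)) + (n:ℝ) ^ (-c) with hE
  have hE0 : 0 ≤ E := by positivity
  have hy := R11.young p hp δ hδ0 (K * B) (by positivity) G F hGtop hftop
  -- combine
  have h3 : G ≤ ENNReal.ofReal (1 + δ) * S + ENNReal.ofReal (K * B * (E * (n : ℝ) ^ (p - 2))) * F +
      (ENNReal.ofReal δ * G + ENNReal.ofReal ((K * B) ^ (p / 2) * (δ⁻¹) ^ (p / 2 - 1)) * F) := by
    calc G ≤ ENNReal.ofReal (1 + δ) * S + ENNReal.ofReal (K * B) *
          (ENNReal.ofReal (E * (n:ℝ) ^ (p - 2)) * F + G ^ (1 - 2 / p) * F ^ (2 / p)) := by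
          refine h1.trans ?_
          rw [add_assoc]
          exact add_le_add le_rfl h2
      _ = ENNReal.ofReal (1 + δ) * S + ENNReal.ofReal (K * B * (E * (n : ℝ) ^ (p - 2))) * F +
            ENNReal.ofReal (K * B) * (G ^ (1 - 2 / p) * F ^ (2 / p)) := by
          rw [ENNReal.ofReal_mul (p := K * B) (by positivity)]
          ring
      _ ≤ _ := add_le_add le_rfl hy
  -- absorb
  have h4 : ENNReal.ofReal (1 - δ) * G ≤ ENNReal.ofReal (1 + δ) * S +
      ENNReal.ofReal (K * B * (E * (n : ℝ) ^ (p - 2))) * F +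
      ENNReal.ofReal ((K * B) ^ (p / 2) * (δ⁻¹) ^ (p / 2 - 1)) * F := by
    have h5 : G = ENNReal.ofReal (1 - δ) * G + ENNReal.ofReal δ * G := by
      rw [← add_mul, ← ENNReal.ofReal_add (by linarith) hδ0.le, sub_add_cancel, ENNReal.ofReal_one,
        one_mul]
    have h6 : ENNReal.ofReal (1 - δ) * G + ENNReal.ofReal δ * G ≤ (ENNReal.ofReal (1 + δ) * S +
      ENNReal.ofReal (K * B * (E * (n : ℝ) ^ (p - 2))) * F +
      ENNReal.ofReal ((K * B) ^ (p / 2) * (δ⁻¹) ^ (p / 2 - 1)) * F) + ENNReal.ofReal δ * G := by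
      rw [← h5]
      refine h3.trans (le_of_eq ?_)
      ring
    exact (ENNReal.add_le_add_iff_right (ENNReal.mul_ne_top ENNReal.ofReal_ne_top hGtop)).mp h6
  have h7 : G = ENNReal.ofReal ((1 - δ)⁻¹) * (ENNReal.ofReal (1 - δ) * G) := by
    rw [← mul_assoc, ← ENNReal.ofReal_mul (by
      have : 0 ≤ 1 - δ := by linarith
      positivity), inv_mul_cancel₀ (by linarith), ENNReal.ofReal_one, one_mul]
  have hinv2 : (1 - δ)⁻¹ ≤ 2 := by
    rw [inv_le_comm₀ (by linarith) (by norm_num)]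
    linarith
  have hinv0 : 0 ≤ (1 - δ)⁻¹ := by
    have : 0 ≤ 1 - δ := by linarith
    positivity
  calc G = ENNReal.ofReal ((1 - δ)⁻¹) * (ENNReal.ofReal (1 - δ) * G) := h7
    _ ≤ ENNReal.ofReal ((1 - δ)⁻¹) * (ENNReal.ofReal (1 + δ) * S +
      ENNReal.ofReal (K * B * (E * (n : ℝ) ^ (p - 2))) * F +
      ENNReal.ofReal ((K * B) ^ (p / 2) * (δ⁻¹) ^ (p / 2 - 1)) * F) := mul_le_mul_right h4 _
    _ = ENNReal.ofReal ((1 - δ)⁻¹ * (1 + δ)) * S +
      ENNReal.ofReal ((1 - δ)⁻¹ * (K * B * (E * (n : ℝ) ^ (p - 2)) +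
        (K * B) ^ (p / 2) * (δ⁻¹) ^ (p / 2 - 1))) * F := by
        rw [ENNReal.ofReal_mul hinv0, ENNReal.ofReal_mul hinv0,
          ENNReal.ofReal_add (p := K * B * (E * (n : ℝ) ^ (p - 2)))
            (by positivity) (by positivity)]
        ring
    _ ≤ _ := by
        refine add_le_add (mul_le_mul_left (ENNReal.ofReal_le_ofReal hδε) _)
          (mul_le_mul_left (ENNReal.ofReal_le_ofReal ?_) _)
        have hB1 : (1 : ℝ) ≤ B := by exact_mod_cast hB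
        have hBk : (B : ℝ) ≤ (B : ℝ) ^ (p / 2) := by
          calc (B : ℝ) = (B : ℝ) ^ (1 : ℝ) := (Real.rpow_one _).symm
            _ ≤ (B : ℝ) ^ (p / 2) := Real.rpow_le_rpow_of_exponent_le hB1 (by linarith)
        have hEn : 1 ≤ E * (n : ℝ) ^ (p - 2) := by
          have h8 : (n : ℝ) ^ (-c) ≤ E := by
            have : (0 : ℝ) ≤ (2 : ℝ) ^ (-(c * J)) := by positivity
            linarith
          calc (1 : ℝ) ≤ (n : ℝ) ^ (-c + (p - 2)) := Real.one_le_rpow hn1 (by linarith)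
            _ = (n : ℝ) ^ (-c) * (n : ℝ) ^ (p - 2) := Real.rpow_add hn0 _ _
            _ ≤ E * (n : ℝ) ^ (p - 2) := mul_le_mul_of_nonneg_right h8 (by positivity)
        have h10 : K * B * (E * (n : ℝ) ^ (p - 2)) ≤
            K * (B : ℝ) ^ (p / 2) * (E * (n : ℝ) ^ (p - 2)) := by
          have h11 : (0 : ℝ) ≤ K * (E * (n : ℝ) ^ (p - 2)) := by positivity
          nlinarith
        have h12 : (K * B) ^ (p / 2) * (δ⁻¹) ^ (p / 2 - 1) ≤
            K ^ (p / 2) * (δ⁻¹) ^ (p / 2 - 1) * (B : ℝ) ^ (p / 2) * (E * (n : ℝ) ^ (p - 2)) := by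
          rw [Real.mul_rpow hK.le (by positivity)]
          have h14 : (0 : ℝ) ≤ K ^ (p / 2) * (B : ℝ) ^ (p / 2) * (δ⁻¹) ^ (p / 2 - 1) := by positivity
          nlinarith
        have h15 : 0 ≤ K * B * (E * (n : ℝ) ^ (p - 2)) +
          (K * B) ^ (p / 2) * (δ⁻¹) ^ (p / 2 - 1) := by positivity
        calc (1 - δ)⁻¹ * (K * B * (E * (n : ℝ) ^ (p - 2)) +
              (K * B) ^ (p / 2) * (δ⁻¹) ^ (p / 2 - 1)) ≤
            2 * (K * B * (E * (n : ℝ) ^ (p - 2)) +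
              (K * B) ^ (p / 2) * (δ⁻¹) ^ (p / 2 - 1)) := mul_le_mul_of_nonneg_right hinv2 h15
          _ ≤ 2 * (K * (B : ℝ) ^ (p / 2) * (E * (n : ℝ) ^ (p - 2)) +
              K ^ (p / 2) * (δ⁻¹) ^ (p / 2 - 1) * (B : ℝ) ^ (p / 2) * (E * (n : ℝ) ^ (p - 2))) := by
              linarith
          _ = _ := by ring

end Helper85.BP.P
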