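import Pool.Agent.Helper72.BAM.Fin
import Pool.Agent.Helper85.BP.Defs
import Pool.Agent.Helper85.BPM.R11
import Pool.Agent.Helper85.BPM.R3

/-!
# MP_3dd6d4_an (all real exponents): module R12, reduction to windows of bounded length
-/

set_option autoImplicit false

open MeasureTheory Complex FourierTransform Filter Topology
open scoped ENNReal NNReal ComplexConjugate

noncomputable section

namespace Helper85.BP.P

open Helper72.BA Helper85.BP

namespace R12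

lemma sum_consec {E : Type*} [AddCommMonoid E] (φ : ℤ → E) {x y w : ℤ} (h1 : x ≤ y) (h2 : y ≤ w) :
    ∑ j ∈ Finset.Ico x y, φ j + ∑ j ∈ Finset.Ico y w, φ j = ∑ j ∈ Finset.Ico x w, φ j := by
  rw [← Finset.sum_union (Finset.Ico_disjoint_Ico_consecutive x y w),
    Finset.Ico_union_Ico_eq_Ico h1 h2]

/-- end of the `l`-th window (before truncation), = start of the `l`-th corridor -/
def Bq (M L J o : ℕ) (l : ℕ) : ℤ := -(M : ℤ) + ((o + l * (L + 1) : ℕ) : ℤ) * J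

/-- start of the `l`-th window -/
def Aq (M L J o : ℕ) : ℕ → ℤ
  | 0 => -(M : ℤ)
  | l + 1 => Bq M L J o l + J

/-- end of the `l`-th window -/
def bq (M L J o : ℕ) (l : ℕ) : ℤ := max (Aq M L J o l) (min (Bq M L J o l) M)

/-- end of the `l`-th corridor -/
def dq (M L J o : ℕ) (l : ℕ) : ℤ := max (Bq M L J o l) (min (Bq M L J o l + J) M)

lemma Bq_succ (M L J o l : ℕ) : Bq M L J o (l + 1) = Bq M L J o l + ((L + 1) * J : ℕ) := by
  unfold Bq
  push_cast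
  ring

lemma Aq_le_Bq (M L J o l : ℕ) : Aq M L J o l ≤ Bq M L J o l := by
  cases l with
  | zero =>
    have : (0 : ℤ) ≤ ((o + 0 * (L + 1) : ℕ) : ℤ) * J := by positivity
    show -(M : ℤ) ≤ -(M : ℤ) + ((o + 0 * (L + 1) : ℕ) : ℤ) * J
    linarith
  | succ l =>
    rw [Bq_succ]
    show Bq M L J o l + J ≤ _
    have : (J : ℤ) ≤ ((L + 1) * J : ℕ) := by
      have : J ≤ (L + 1) * J := Nat.le_mul_of_pos_left _ (Nat.succ_pos L)
      exact_mod_cast this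
    linarith

lemma neg_le_Aq (M L J o l : ℕ) : -(M : ℤ) ≤ Aq M L J o l := by
  cases l with
  | zero => exact le_rfl
  | succ l =>
    have : (0 : ℤ) ≤ ((o + l * (L + 1) : ℕ) : ℤ) * J := by positivity
    show -(M : ℤ) ≤ -(M : ℤ) + ((o + l * (L + 1) : ℕ) : ℤ) * J + J
    have h2 : (0 : ℤ) ≤ J := by positivity
    linarith

lemma Bq_le (M L J o l : ℕ) (ho : o ≤ L) : Bq M L J o l ≤ Aq M L J o l + ((L * J : ℕ) : ℤ) := by
  cases l with
  | zero =>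
    show -(M : ℤ) + ((o + 0 * (L + 1) : ℕ) : ℤ) * J ≤ -(M : ℤ) + ((L * J : ℕ) : ℤ)
    have : (o + 0 * (L + 1)) * J ≤ L * J := Nat.mul_le_mul_right _ (by omega)
    have h2 : ((o + 0 * (L + 1) : ℕ) : ℤ) * J ≤ ((L * J : ℕ) : ℤ) := by exact_mod_cast this
    linarith
  | succ l =>
    rw [Bq_succ]
    show _ ≤ Bq M L J o l + J + ((L * J : ℕ) : ℤ)
    push_cast
    linarith

lemma le_Aq (M L J o l : ℕ) (hJ : 1 ≤ J) : -(M : ℤ) + l ≤ Aq M L J o l := by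
  cases l with
  | zero => simp [Aq]
  | succ l =>
    show _ ≤ -(M : ℤ) + ((o + l * (L + 1) : ℕ) : ℤ) * J + J
    have h1 : l ≤ (o + l * (L + 1)) * J := by
      calc l ≤ l * (L + 1) := Nat.le_mul_of_pos_right _ (Nat.succ_pos L)
        _ ≤ o + l * (L + 1) := Nat.le_add_left _ _
        _ ≤ (o + l * (L + 1)) * J := Nat.le_mul_of_pos_right _ hJ
    have h2 : (l : ℤ) ≤ ((o + l * (L + 1) : ℕ) : ℤ) * J := by exact_mod_cast h1
    have h3 : (1 : ℤ) ≤ J := by exact_mod_cast hJ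
    push_cast at h2 ⊢
    linarith

lemma bq_le_Bq (M L J o l : ℕ) : bq M L J o l ≤ Bq M L J o l :=
  max_le (Aq_le_Bq M L J o l) (min_le_left _ _)

/-- decomposition of `[-M, M)` -/
lemma decomp {E : Type*} [AddCommMonoid E] (φ : ℤ → E) (M L J o N : ℕ) :
    ∑ j ∈ Finset.Ico (-(M : ℤ)) (min (M : ℤ) (Aq M L J o N)), φ j =
      ∑ l ∈ Finset.range N, (∑ j ∈ Finset.Ico (Aq M L J o l) (bq M L J o l), φ j +
        ∑ j ∈ Finset.Ico (Bq M L J o l) (dq M L J o l), φ j) := by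
  induction N with
  | zero =>
    rw [Finset.Ico_eq_empty]
    · simp
    · simp [Aq]
  | succ N ih =>
    rw [Finset.sum_range_succ, ← ih]
    have hAB := Aq_le_Bq M L J o N
    have hA := neg_le_Aq M L J o N
    have hJ0 : (0 : ℤ) ≤ J := by positivity
    have hA1 : Aq M L J o (N + 1) = Bq M L J o N + J := rfl
    unfold bq dq
    rw [hA1]
    generalize Aq M L J o N = A at *
    generalize Bq M L J o N = B at *
    rcases le_or_gt (M : ℤ) A with h | h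
    · have e1 : min (M : ℤ) (B + J) = M := min_eq_left (by linarith)
      have e2 : min (M : ℤ) A = M := min_eq_left h
      have e3 : max A (min B (M : ℤ)) = A := max_eq_left ((min_le_right _ _).trans h)
      have e4 : max B (min (B + (J : ℤ)) (M : ℤ)) = B :=
        max_eq_left ((min_le_right _ _).trans (h.trans hAB))
      rw [e1, e2, e3, e4]
      simp
    · have e2 : min (M : ℤ) A = A := min_eq_right h.le
      rcases le_or_gt (M : ℤ) B with h' | h'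
      · have e1 : min (M : ℤ) (B + J) = M := min_eq_left (by linarith)
        have e3 : max A (min B (M : ℤ)) = M := by
          rw [min_eq_right h']; exact max_eq_right h.le
        have e4 : max B (min (B + (J : ℤ)) (M : ℤ)) = B :=
          max_eq_left ((min_le_right _ _).trans h')
        rw [e1, e2, e3, e4, ← add_assoc, sum_consec φ hA h.le]
        simp
      · have e3 : max A (min B (M : ℤ)) = B := by
          rw [min_eq_left h'.le]; exact max_eq_right hAB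
        have e4 : max B (min (B + (J : ℤ)) (M : ℤ)) = min (M : ℤ) (B + J) := by
          rw [min_comm]
          exact max_eq_right (le_min h'.le (by linarith))
        rw [e2, e3, e4, ← add_assoc, sum_consec φ hA hAB, sum_consec φ (hA.trans hAB)]
        exact le_min h'.le (by linarith)

lemma sum_blocks (w : ℤ → ℝ≥0∞) (M J T : ℕ) :
    ∑ t ∈ Finset.range T, ∑ j ∈ Finset.Ico (-(M : ℤ) + (t : ℤ) * J) (-(M : ℤ) + (t : ℤ) * J + J), w j =
      ∑ j ∈ Finset.Ico (-(M : ℤ)) (-(M : ℤ) + (T : ℤ) * J), w j := by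
  induction T with
  | zero => simp
  | succ T ih =>
    rw [Finset.sum_range_succ, ih]
    have e : -(M : ℤ) + ((T + 1 : ℕ) : ℤ) * J = -(M : ℤ) + (T : ℤ) * J + J := by
      push_cast; ring
    rw [e]
    have h0 : (0 : ℤ) ≤ (T : ℤ) * J := by positivity
    have h1 : (0 : ℤ) ≤ J := by positivity
    exact sum_consec w (by linarith) (by linarith)

lemma sum_offsets (φ : ℕ → ℝ≥0∞) (L N : ℕ) :
    ∑ o ∈ Finset.range (L + 1), ∑ l ∈ Finset.range N, φ (o + l * (L + 1)) =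
      ∑ t ∈ Finset.range (N * (L + 1)), φ t := by
  induction N with
  | zero => simp
  | succ N ih =>
    have e : ∀ o : ℕ, ∑ l ∈ Finset.range (N + 1), φ (o + l * (L + 1)) =
        ∑ l ∈ Finset.range N, φ (o + l * (L + 1)) + φ (o + N * (L + 1)) :=
      fun o => Finset.sum_range_succ (fun l => φ (o + l * (L + 1))) N
    simp only [e]
    have e2 : ∑ o ∈ Finset.range (L + 1), φ (o + N * (L + 1)) =
        ∑ o ∈ Finset.range (L + 1), φ (N * (L + 1) + o) :=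
      Finset.sum_congr rfl fun o _ => by rw [add_comm]
    rw [Finset.sum_add_distrib, ih, Nat.succ_mul, Finset.sum_range_add φ (N * (L + 1)) (L + 1), e2]

/-- a good offset -/
lemma exists_offset (w : ℤ → ℝ≥0∞) (X : ℝ≥0∞) (hX : ∀ A : Finset ℤ, ∑ j ∈ A, w j ≤ X)
    (M L J N : ℕ) : ∃ o ≤ L, ((L + 1 : ℕ) : ℝ≥0∞) *
      ∑ l ∈ Finset.range N, ∑ j ∈ Finset.Ico (Bq M L J o l) (dq M L J o l), w j ≤ X := by
  set φ : ℕ → ℝ≥0∞ := fun t =>
    ∑ j ∈ Finset.Ico (-(M : ℤ) + (t : ℤ) * J) (-(M : ℤ) + (t : ℤ) * J + J), w j with hφ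
  obtain ⟨o, ho, hmin⟩ := Finset.exists_min_image (Finset.range (L + 1))
    (fun o => ∑ l ∈ Finset.range N, φ (o + l * (L + 1))) ⟨0, by simp⟩
  refine ⟨o, by simpa [Nat.lt_succ_iff] using ho, ?_⟩
  have h1 : ∑ l ∈ Finset.range N, ∑ j ∈ Finset.Ico (Bq M L J o l) (dq M L J o l), w j ≤
      ∑ l ∈ Finset.range N, φ (o + l * (L + 1)) := by
    refine Finset.sum_le_sum fun l _ => ?_
    refine Finset.sum_le_sum_of_subset ?_
    have h2 : dq M L J o l ≤ Bq M L J o l + J := by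
      have : (0 : ℤ) ≤ J := by positivity
      exact max_le (by linarith) (min_le_left _ _)
    exact Finset.Ico_subset_Ico le_rfl h2
  have h3 : ((L + 1 : ℕ) : ℝ≥0∞) * ∑ l ∈ Finset.range N, φ (o + l * (L + 1)) ≤
      ∑ o ∈ Finset.range (L + 1), ∑ l ∈ Finset.range N, φ (o + l * (L + 1)) := by
    have := Finset.card_nsmul_le_sum (Finset.range (L + 1))
      (fun o => ∑ l ∈ Finset.range N, φ (o + l * (L + 1)))
      (∑ l ∈ Finset.range N, φ (o + l * (L + 1))) (fun o' ho' => hmin o' ho')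
    rwa [Finset.card_range, nsmul_eq_mul] at this
  calc ((L + 1 : ℕ) : ℝ≥0∞) * ∑ l ∈ Finset.range N,
        ∑ j ∈ Finset.Ico (Bq M L J o l) (dq M L J o l), w j
      ≤ ((L + 1 : ℕ) : ℝ≥0∞) * ∑ l ∈ Finset.range N, φ (o + l * (L + 1)) := by gcongr
    _ ≤ _ := h3
    _ = ∑ t ∈ Finset.range (N * (L + 1)), φ t := sum_offsets φ L N
    _ = ∑ j ∈ Finset.Ico (-(M : ℤ)) (-(M : ℤ) + ((N * (L + 1) : ℕ) : ℤ) * J), w j :=
        sum_blocks w M J (N * (L + 1))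
    _ ≤ X := hX _

/-- elementary inequality -/
lemma add_pow_le (p : ℝ) (hp : 0 < p) (ε : ℝ) (hε : 0 < ε) : ∃ K : ℝ, 0 < K ∧ ∀ x y : ℂ,
    ‖x + y‖ₑ ^ p ≤ ENNReal.ofReal (1 + ε) * ‖x‖ₑ ^ p + ENNReal.ofReal K * ‖y‖ₑ ^ p := by
  obtain ⟨δ, hδ, hδ1⟩ : ∃ δ : ℝ, 0 < δ ∧ (1 + δ) ^ p ≤ 1 + ε := by
    have h1 : Tendsto (fun δ : ℝ => (1 + δ) ^ p) (𝓝 0) (𝓝 ((1 + 0) ^ p)) := by
      have h0 : ContinuousAt (fun δ : ℝ => (1 + δ) ^ p) 0 :=
        ContinuousAt.rpow_const (by fun_prop) (Or.inl (by norm_num))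
      exact h0
    rw [add_zero, Real.one_rpow] at h1
    have h2 : ∀ᶠ δ : ℝ in 𝓝 0, (1 + δ) ^ p < 1 + ε := h1.eventually_lt_const (by linarith)
    have h3 : ∀ᶠ δ : ℝ in 𝓝[>] 0, (1 + δ) ^ p < 1 + ε := h2.filter_mono nhdsWithin_le_nhds
    obtain ⟨δ, h4, h5⟩ := (h3.and self_mem_nhdsWithin).exists
    exact ⟨δ, h5, h4.le⟩
  refine ⟨(1 + 1 / δ) ^ p, by positivity, fun x y => ?_⟩
  have key : ‖x + y‖ ^ p ≤ (1 + ε) * ‖x‖ ^ p + (1 + 1 / δ) ^ p * ‖y‖ ^ p := by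
    have hxy : ‖x + y‖ ≤ ‖x‖ + ‖y‖ := norm_add_le x y
    rcases le_or_gt ‖y‖ (δ * ‖x‖) with h | h
    · have h1 : ‖x + y‖ ≤ (1 + δ) * ‖x‖ := by nlinarith
      have h2 : ‖x + y‖ ^ p ≤ ((1 + δ) * ‖x‖) ^ p := Real.rpow_le_rpow (norm_nonneg _) h1 hp.le
      rw [Real.mul_rpow (by linarith) (norm_nonneg _)] at h2
      have h3 : (1 + δ) ^ p * ‖x‖ ^ p ≤ (1 + ε) * ‖x‖ ^ p :=
        mul_le_mul_of_nonneg_right hδ1 (by positivity)
      have h4 : 0 ≤ (1 + 1 / δ) ^ p * ‖y‖ ^ p := by positivity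
      linarith
    · have h1 : ‖x‖ ≤ 1 / δ * ‖y‖ := by
        rw [one_div, ← div_eq_inv_mul, le_div_iff₀ hδ, mul_comm]
        exact h.le
      have h2 : ‖x + y‖ ≤ (1 + 1 / δ) * ‖y‖ := by linarith
      have h3 : ‖x + y‖ ^ p ≤ ((1 + 1 / δ) * ‖y‖) ^ p := Real.rpow_le_rpow (norm_nonneg _) h2 hp.le
      rw [Real.mul_rpow (by positivity) (norm_nonneg _)] at h3
      have h4 : 0 ≤ (1 + ε) * ‖x‖ ^ p := by positivity
      linarith
  have e : ∀ z : ℂ, ‖z‖ₑ ^ p = ENNReal.ofReal (‖z‖ ^ p) := by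
    intro z
    rw [← ENNReal.ofReal_rpow_of_nonneg (norm_nonneg z) hp.le, ofReal_norm]
  rw [e, e, e, ← ENNReal.ofReal_mul (by linarith), ← ENNReal.ofReal_mul (by positivity),
    ← ENNReal.ofReal_add (by positivity) (by positivity)]
  exact ENNReal.ofReal_le_ofReal key

lemma meas_gj (n : ℕ) (j : ℤ) {f : ℂ → ℂ} (hf : Nice f) : Measurable (gj n j f) :=
  (nice_cv (ker_KK n j) hf).meas

lemma meas_gW (n : ℕ) (W : Finset ℤ) {f : ℂ → ℂ} (hf : Nice f) : Measurable (gW n W f) := by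
  unfold gW
  exact Finset.measurable_sum _ fun j _ => meas_gj n j hf

lemma nrp_add_le (p : ℝ) (hp : 0 < p) (ε : ℝ) (hε : 0 < ε) : ∃ K : ℝ, 0 < K ∧ ∀ V C : ℂ → ℂ,
    Measurable V → nrp p (fun z => V z + C z) ≤
      ENNReal.ofReal (1 + ε) * nrp p V + ENNReal.ofReal K * nrp p C := by
  obtain ⟨K, hK, h⟩ := add_pow_le p hp ε hε
  refine ⟨K, hK, fun V C hV => ?_⟩
  unfold nrp
  calc ∫⁻ z, ‖V z + C z‖ₑ ^ p
      ≤ ∫⁻ z, (ENNReal.ofReal (1 + ε) * ‖V z‖ₑ ^ p + ENNReal.ofReal K * ‖C z‖ₑ ^ p) :=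
        lintegral_mono fun z => h (V z) (C z)
    _ = (ENNReal.ofReal (1 + ε) * ∫⁻ z, ‖V z‖ₑ ^ p) + ENNReal.ofReal K * ∫⁻ z, ‖C z‖ₑ ^ p := by
        rw [lintegral_add_left ((hV.enorm.pow_const p).const_mul _),
          lintegral_const_mul' _ _ ENNReal.ofReal_ne_top,
          lintegral_const_mul' _ _ ENNReal.ofReal_ne_top]

/-- crude bound of a window by its members -/
lemma nrp_gW_le (p : ℝ) (hp : 1 ≤ p) (n : ℕ) (W : Finset ℤ) (J : ℕ) (hW : W.card ≤ J)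
    {f : ℂ → ℂ} (hf : Nice f) :
    nrp p (gW n W f) ≤ (J : ℝ≥0∞) ^ (p - 1) * ∑ j ∈ W, nrp p (gj n j f) := by
  have hp0 : 0 ≤ p - 1 := by linarith
  unfold nrp gW
  rw [← lintegral_finsetSum _ fun j _ => (meas_gj n j hf).enorm.pow_const _,
    ← lintegral_const_mul' _ _ (ENNReal.rpow_ne_top_of_nonneg hp0 (ENNReal.natCast_ne_top J))]
  refine lintegral_mono fun z => ?_
  have h1 : ‖∑ j ∈ W, gj n j f z‖ₑ ≤ ∑ j ∈ W, ‖gj n j f z‖ₑ := enorm_sum_le _ _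
  have h2 := ENNReal.rpow_sum_le_const_mul_sum_rpow W (fun j => ‖gj n j f z‖ₑ) hp
  calc ‖∑ j ∈ W, gj n j f z‖ₑ ^ p ≤ (∑ j ∈ W, ‖gj n j f z‖ₑ) ^ p :=
        ENNReal.rpow_le_rpow h1 (by linarith)
    _ ≤ (W.card : ℝ≥0∞) ^ (p - 1) * ∑ j ∈ W, ‖gj n j f z‖ₑ ^ p := h2
    _ ≤ (J : ℝ≥0∞) ^ (p - 1) * ∑ j ∈ W, ‖gj n j f z‖ₑ ^ p := by
        gcongr

/-- choice of the parameters -/
lemma exists_J (k : ℕ) (C1 c1 C2 c2 D : ℝ) (hc1 : 0 < c1) (hc2 : 0 < c2) (η : ℝ) (hη : 0 < η)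
    (J0 : ℕ) : ∃ J : ℕ, J0 ≤ J ∧ 1 ≤ J ∧
      C1 * ((J : ℝ) ^ (k + 1)) ^ k * (2 : ℝ) ^ (-(c1 * J)) ≤ η ∧
      C2 * (J : ℝ) ^ k * (2 : ℝ) ^ (-(c2 * J)) ≤ η ∧ D / J ≤ η := by
  have key : ∀ c : ℝ, 0 < c → ∀ (a : ℝ) (m : ℕ),
      Tendsto (fun J : ℕ => a * (J : ℝ) ^ m * (2 : ℝ) ^ (-(c * J))) atTop (𝓝 0) := by
    intro c hc a m
    have h1 : |(2 : ℝ) ^ (-c)| < 1 := by
      rw [abs_of_pos (Real.rpow_pos_of_pos two_pos _)]
      exact Real.rpow_lt_one_of_one_lt_of_neg (by norm_num) (by linarith)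
    have h2 := (tendsto_pow_const_mul_const_pow_of_abs_lt_one m h1).const_mul a
    rw [mul_zero] at h2
    refine h2.congr fun J => ?_
    rw [← Real.rpow_natCast ((2 : ℝ) ^ (-c)) J, ← Real.rpow_mul two_pos.le, mul_assoc]
    congr 3
    ring
  have h1 := key c1 hc1 C1 ((k + 1) * k)
  have h2 := key c2 hc2 C2 k
  have h3 : Tendsto (fun J : ℕ => D / (J : ℝ)) atTop (𝓝 0) :=
    tendsto_const_nhds.div_atTop tendsto_natCast_atTop_atTop
  have e1 := h1.eventually_le_const hη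
  have e2 := h2.eventually_le_const hη
  have e3 := h3.eventually_le_const hη
  obtain ⟨J, ⟨⟨⟨hJ1, hJ2⟩, hJ3⟩, hJ4⟩, hJ5⟩ :=
    ((((e1.and e2).and e3).and (eventually_ge_atTop J0)).and (eventually_ge_atTop 1)).exists
  refine ⟨J, hJ4, hJ5, ?_, hJ2, hJ3⟩
  rw [← pow_mul]
  exact hJ1

lemma exists_n (a b c1 c2 : ℝ) (hc1 : 0 < c1) (hc2 : 0 < c2) (η : ℝ) (hη : 0 < η) :
    ∃ n0 : ℕ, ∀ n : ℕ, n0 ≤ n → a * (n : ℝ) ^ (-c1) ≤ η ∧ b * (n : ℝ) ^ (-c2) ≤ η := by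
  have key : ∀ c : ℝ, 0 < c → ∀ a : ℝ,
      Tendsto (fun n : ℕ => a * (n : ℝ) ^ (-c)) atTop (𝓝 0) := by
    intro c hc a
    have h2 := ((tendsto_rpow_neg_atTop hc).comp tendsto_natCast_atTop_atTop).const_mul a
    rw [mul_zero] at h2
    exact h2
  have e1 := (key c1 hc1 a).eventually_le_const hη
  have e2 := (key c2 hc2 b).eventually_le_const hη
  obtain ⟨n0, h⟩ := (e1.and e2).exists_forall_of_atTop
  exact ⟨n0, h⟩

lemma algebra_aux (W F : ℝ≥0∞) (a b c d e g h : ℝ) (ha : 0 ≤ a) (hb : 0 ≤ b) (hc : 0 ≤ c)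
    (hd : 0 ≤ d) (he : 0 ≤ e) (hg : 0 ≤ g) (hh : 0 ≤ h) :
    ENNReal.ofReal a * (ENNReal.ofReal a * W + ENNReal.ofReal b * F) +
      ENNReal.ofReal c * (ENNReal.ofReal d * (ENNReal.ofReal e * (ENNReal.ofReal g * F)) +
        ENNReal.ofReal h * F) =
    ENNReal.ofReal (a * a) * W + ENNReal.ofReal (a * b + c * (d * (e * g) + h)) * F := by
  rw [ENNReal.ofReal_mul ha, ENNReal.ofReal_add (by positivity) (by positivity),
    ENNReal.ofReal_mul ha, ENNReal.ofReal_mul hc, ENNReal.ofReal_add (by positivity) hh,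
    ENNReal.ofReal_mul hd, ENNReal.ofReal_mul he]
  ring

end R12

open R12 in
theorem reduction_real (p : ℝ) (hp : 2 < p) (ε : ℝ) (hε : 0 < ε) : ∃ B n0 : ℕ, ∀ n : ℕ, n0 ≤ n →
    ∀ (M : ℕ) (f : ℂ → ℂ), Nice f → ∃ (N : ℕ) (a b : ℕ → ℤ),
      (∀ l, a l ≤ b l ∧ b l ≤ a l + B ∧ b l ≤ a (l + 1)) ∧
      nrp p (gW n (Finset.Ico (-M : ℤ) M) f) ≤
        ENNReal.ofReal (1 + ε) * ∑ l ∈ Finset.range N, nrp p (gW n (Finset.Ico (a l) (b l)) f)
        + ENNReal.ofReal (ε * (n:ℝ) ^ (p - 2)) * nrp p f := by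
  obtain ⟨k, hk⟩ : ∃ k : ℕ, p ≤ k := exists_nat_ge p
  set ε1 : ℝ := min ε 1 / 3 with hε1
  have hε1pos : 0 < ε1 := by
    have : 0 < min ε 1 := lt_min hε one_pos
    positivity
  have hε1a : ε1 ≤ ε / 3 := by
    have := min_le_left ε 1
    rw [hε1]; linarith
  have hε1b : ε1 ≤ 1 / 3 := by
    have := min_le_right ε 1
    rw [hε1]; linarith
  obtain ⟨K1, hK1, hadd⟩ := nrp_add_le p (by linarith) ε1 hε1pos
  obtain ⟨C1, c1, J1, hC1, hc1, hsep1⟩ := separated_real p hp ε1 hε1pos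
  obtain ⟨C2, c2, J2, hC2, hc2, hsep2⟩ := separated_real p hp 1 one_pos
  obtain ⟨CX, hCX, hXb⟩ := X_real
  set η : ℝ := ε / 8 with hη
  have hηpos : 0 < η := by positivity
  obtain ⟨J, hJ0, hJ1, hT1, hT2, hT3⟩ := exists_J k C1 c1 (K1 * C2) c2
    (2 * K1 * CX ^ (p - 2)) hc1 hc2 η hηpos (max J1 J2)
  set L : ℕ := J ^ k with hL
  set B : ℕ := L * J with hB
  have hBr : (B : ℝ) = (J : ℝ) ^ (k + 1) := by
    rw [hB, hL]; push_cast; ring
  obtain ⟨n1, hn1⟩ := exists_n (C1 * (B : ℝ) ^ k) (K1 * C2 * (J : ℝ) ^ k) c1 c2 hc1 hc2 η hηpos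
  have hL1 : 1 ≤ L := Nat.one_le_pow _ _ hJ1
  have hB1 : 1 ≤ B := Nat.mul_pos hL1 hJ1
  have hJB : J ≤ B := Nat.le_mul_of_pos_left _ hL1
  refine ⟨B, max n1 (2 ^ B), fun n hn M f hf => ?_⟩
  have hnn1 : n1 ≤ n := (le_max_left _ _).trans hn
  have hn2 : 2 ^ B ≤ n := (le_max_right _ _).trans hn
  have hn3 : 2 ^ J ≤ n := (Nat.pow_le_pow_right (by norm_num) hJB).trans hn2
  have hnpos : 1 ≤ n := (Nat.one_le_two_pow).trans hn2
  obtain ⟨hN1, hN2⟩ := hn1 n hnn1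
  have hB1r : (1 : ℝ) ≤ B := by exact_mod_cast hB1
  have hJ1r : (1 : ℝ) ≤ J := by exact_mod_cast hJ1
  have hpk : p / 2 ≤ (k : ℝ) := by linarith
  have hBp : (B : ℝ) ^ (p / 2) ≤ (B : ℝ) ^ k := by
    rw [← Real.rpow_natCast]; exact Real.rpow_le_rpow_of_exponent_le hB1r hpk
  have hJp : (J : ℝ) ^ (p / 2) ≤ (J : ℝ) ^ k := by
    rw [← Real.rpow_natCast]; exact Real.rpow_le_rpow_of_exponent_le hJ1r hpk
  set F : ℝ≥0∞ := nrp p f with hF
  set X : ℝ≥0∞ := ENNReal.ofReal ((CX * n) ^ (p - 2)) * F with hXdef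
  set w : ℤ → ℝ≥0∞ := fun j => nrp p (gj n j f) with hw
  have hX' : ∀ A : Finset ℤ, ∑ j ∈ A, w j ≤ X := fun A => hXb n hnpos A p (by linarith) f hf
  obtain ⟨o, ho, hS⟩ := exists_offset w X hX' M L J (2 * M)
  set a : ℕ → ℤ := Aq M L J o with ha
  set b : ℕ → ℤ := bq M L J o with hb
  have hb1 : ∀ l, b l ≤ Bq M L J o l := bq_le_Bq M L J o
  have ha1 : ∀ l, a (l + 1) = Bq M L J o l + J := fun l => rfl
  have hab : ∀ l, a l ≤ b l := fun l => le_max_left _ _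
  have hbB : ∀ l, b l ≤ a l + B := fun l => (hb1 l).trans (Bq_le M L J o l ho)
  have hJz : (0 : ℤ) ≤ J := by positivity
  refine ⟨2 * M, a, b, fun l => ⟨hab l, hbB l, ?_⟩, ?_⟩
  · rw [ha1]; linarith [hb1 l]
  -- the decomposition
  set V : ℂ → ℂ := fun z => ∑ l ∈ Finset.range (2 * M), gW n (Finset.Ico (a l) (b l)) f z with hV
  set C : ℂ → ℂ := fun z => ∑ l ∈ Finset.range (2 * M),
    gW n (Finset.Ico (Bq M L J o l) (dq M L J o l)) f z with hC
  have hdec : gW n (Finset.Ico (-M : ℤ) M) f = fun z => V z + C z := by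
    funext z
    have h1 := decomp (fun j => gj n j f z) M L J o (2 * M)
    have h2 : min (M : ℤ) (Aq M L J o (2 * M)) = M := by
      apply min_eq_left
      have := le_Aq M L J o (2 * M) hJ1
      push_cast at this
      linarith
    rw [h2, Finset.sum_add_distrib] at h1
    exact h1
  have hVm : Measurable V := by
    rw [hV]
    exact Finset.measurable_sum _ fun l _ => meas_gW n _ hf
  have hstep1 : nrp p (gW n (Finset.Ico (-M : ℤ) M) f) ≤
      ENNReal.ofReal (1 + ε1) * nrp p V + ENNReal.ofReal K1 * nrp p C := by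
    rw [hdec]
    exact hadd V C hVm
  have hstep2 := hsep1 n hnpos J ((le_max_left _ _).trans hJ0) B hB1 hn2 (2 * M) a b
    (fun l => ⟨hab l, hbB l, by rw [ha1]; linarith [hb1 l]⟩) f hf
  have hstep3 := hsep2 n hnpos J ((le_max_right _ _).trans hJ0) J hJ1 hn3 (2 * M)
    (Bq M L J o) (dq M L J o) (fun l => ⟨le_max_left _ _,
      max_le (by linarith) (min_le_left _ _), by
        rw [Bq_succ]
        have h1 : dq M L J o l ≤ Bq M L J o l + J := max_le (by linarith) (min_le_left _ _)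
        have h2 : J + J ≤ (L + 1) * J := by nlinarith
        have h3 : (J : ℤ) + J ≤ (((L + 1) * J : ℕ) : ℤ) := by exact_mod_cast h2
        linarith⟩) f hf
  -- the corridors
  set S : ℝ≥0∞ := ∑ l ∈ Finset.range (2 * M),
    ∑ j ∈ Finset.Ico (Bq M L J o l) (dq M L J o l), w j with hSdef
  have hcor : ∑ l ∈ Finset.range (2 * M),
      nrp p (gW n (Finset.Ico (Bq M L J o l) (dq M L J o l)) f) ≤
      (J : ℝ≥0∞) ^ (p - 1) * S := by
    rw [hSdef, Finset.mul_sum]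
    refine Finset.sum_le_sum fun l _ => ?_
    refine nrp_gW_le p (by linarith) n _ J ?_ hf
    rw [Int.card_Ico]
    have h1 : dq M L J o l ≤ Bq M L J o l + J := max_le (by linarith) (min_le_left _ _)
    have h2 : dq M L J o l - Bq M L J o l ≤ J := by linarith
    exact Int.toNat_le.2 h2
  have hJr : (0 : ℝ) < J := by exact_mod_cast hJ1
  have hcor2 : (J : ℝ≥0∞) ^ (p - 1) * S ≤ ENNReal.ofReal (1 / J) * X := by
    have e1 : ENNReal.ofReal (1 / J) * (J : ℝ≥0∞) = 1 := by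
      rw [← ENNReal.ofReal_natCast, ← ENNReal.ofReal_mul (by positivity),
        one_div, inv_mul_cancel₀ hJr.ne', ENNReal.ofReal_one]
    have e2 : (J : ℝ≥0∞) * (J : ℝ≥0∞) ^ (p - 1) ≤ ((L : ℕ) : ℝ≥0∞) := by
      have h1 : (J : ℝ≥0∞) * (J : ℝ≥0∞) ^ (p - 1) = (J : ℝ≥0∞) ^ p := by
        conv_lhs => rw [← ENNReal.rpow_one (J : ℝ≥0∞)]
        rw [ENNReal.rpow_one, ← ENNReal.rpow_one (J : ℝ≥0∞), ENNReal.rpow_one]
        rw [show p = 1 + (p - 1) by ring, ENNReal.rpow_add _ _ (by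
          exact_mod_cast (Nat.pos_iff_ne_zero.1 hJ1)) (ENNReal.natCast_ne_top J), ENNReal.rpow_one]
        ring_nf
      rw [h1, hL]
      have h2 : (J : ℝ≥0∞) ^ p ≤ (J : ℝ≥0∞) ^ (k : ℝ) :=
        ENNReal.rpow_le_rpow_of_exponent_le (by exact_mod_cast hJ1) hk
      rw [ENNReal.rpow_natCast] at h2
      push_cast
      exact h2
    calc (J : ℝ≥0∞) ^ (p - 1) * S
        = ENNReal.ofReal (1 / J) * (J : ℝ≥0∞) * ((J : ℝ≥0∞) ^ (p - 1) * S) := by
          rw [e1, one_mul]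
      _ = ENNReal.ofReal (1 / J) * ((J : ℝ≥0∞) * (J : ℝ≥0∞) ^ (p - 1) * S) := by ring
      _ ≤ ENNReal.ofReal (1 / J) * (((L : ℕ) : ℝ≥0∞) * S) := by gcongr
      _ ≤ ENNReal.ofReal (1 / J) * (((L + 1 : ℕ) : ℝ≥0∞) * S) := by
          gcongr
          exact Nat.le_succ _
      _ ≤ ENNReal.ofReal (1 / J) * X := by gcongr
  set Ws : ℝ≥0∞ := ∑ l ∈ Finset.range (2 * M), nrp p (gW n (Finset.Ico (a l) (b l)) f)
    with hWs
  set Q : ℝ := (n : ℝ) ^ (p - 2) with hQ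
  have hQ0 : 0 ≤ Q := by positivity
  set E1 : ℝ := C1 * (B : ℝ) ^ (p / 2) * ((2 : ℝ) ^ (-(c1 * J)) + (n : ℝ) ^ (-c1)) * Q with hE1
  set E2 : ℝ := C2 * (J : ℝ) ^ (p / 2) * ((2 : ℝ) ^ (-(c2 * J)) + (n : ℝ) ^ (-c2)) * Q with hE2
  have hE10 : 0 ≤ E1 := by positivity
  have hE20 : 0 ≤ E2 := by positivity
  have hreal : (1 + ε1) * E1 + K1 * ((1 + 1) * (1 / J * (CX * n) ^ (p - 2)) + E2) ≤ ε * Q := by
    have h1 : C1 * (B : ℝ) ^ k * (2 : ℝ) ^ (-(c1 * J)) ≤ η := by rw [hBr]; exact hT1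
    have hE1' : E1 ≤ (η + η) * Q := by
      rw [hE1]
      apply mul_le_mul_of_nonneg_right _ hQ0
      have : C1 * (B : ℝ) ^ (p / 2) * ((2 : ℝ) ^ (-(c1 * J)) + (n : ℝ) ^ (-c1)) ≤
          C1 * (B : ℝ) ^ k * ((2 : ℝ) ^ (-(c1 * J)) + (n : ℝ) ^ (-c1)) :=
        mul_le_mul_of_nonneg_right (mul_le_mul_of_nonneg_left hBp hC1.le) (by positivity)
      refine this.trans ?_
      rw [mul_add]
      linarith
    have hE2' : K1 * E2 ≤ (η + η) * Q := by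
      have h0 : K1 * E2 ≤ (K1 * C2 * (J : ℝ) ^ k * (2 : ℝ) ^ (-(c2 * J)) +
          K1 * C2 * (J : ℝ) ^ k * (n : ℝ) ^ (-c2)) * Q := by
        have : K1 * E2 = (K1 * C2 * (J : ℝ) ^ (p / 2)) *
          (((2 : ℝ) ^ (-(c2 * J)) + (n : ℝ) ^ (-c2)) * Q) := by rw [hE2]; ring
        rw [this]
        have h00 : K1 * C2 * (J : ℝ) ^ (p / 2) ≤ K1 * C2 * (J : ℝ) ^ k :=
          mul_le_mul_of_nonneg_left hJp (by positivity)
        refine (mul_le_mul_of_nonneg_right h00 (by positivity)).trans (le_of_eq ?_)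
        ring
      exact h0.trans (mul_le_mul_of_nonneg_right (add_le_add hT2 hN2) hQ0)
    have hD : K1 * ((1 + 1) * (1 / J * (CX * n) ^ (p - 2))) ≤ η * Q := by
      have : K1 * ((1 + 1) * (1 / J * (CX * n) ^ (p - 2))) =
          2 * K1 * CX ^ (p - 2) / J * Q := by
        rw [Real.mul_rpow hCX.le (by positivity), hQ]; ring
      rw [this]
      exact mul_le_mul_of_nonneg_right hT3 hQ0
    have h4 : (1 + ε1) * E1 ≤ 2 * ((η + η) * Q) := by
      have : (1 + ε1) * E1 ≤ 2 * E1 := mul_le_mul_of_nonneg_right (by linarith) hE10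
      linarith
    have h5 : ε * Q = 8 * (η * Q) := by rw [hη]; ring
    have h6 : 0 ≤ η * Q := by positivity
    rw [h5, mul_add]
    nlinarith
  have hsq : (1 + ε1) * (1 + ε1) ≤ 1 + ε := by nlinarith
  calc nrp p (gW n (Finset.Ico (-M : ℤ) M) f)
      ≤ ENNReal.ofReal (1 + ε1) * nrp p V + ENNReal.ofReal K1 * nrp p C := hstep1
    _ ≤ ENNReal.ofReal (1 + ε1) * (ENNReal.ofReal (1 + ε1) * Ws + ENNReal.ofReal E1 * F) +
        ENNReal.ofReal K1 * (ENNReal.ofReal (1 + 1) * (ENNReal.ofReal (1 / J) * X) +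
          ENNReal.ofReal E2 * F) := by
        gcongr
        refine hstep3.trans ?_
        gcongr
        exact hcor.trans hcor2
    _ = ENNReal.ofReal ((1 + ε1) * (1 + ε1)) * Ws +
        ENNReal.ofReal ((1 + ε1) * E1 +
          K1 * ((1 + 1) * (1 / J * (CX * n) ^ (p - 2)) + E2)) * F := by
        rw [hXdef]
        exact algebra_aux _ _ _ _ _ _ _ _ _ (by positivity) hE10 hK1.le (by norm_num)
          (by positivity) (by positivity) hE20
    _ ≤ ENNReal.ofReal (1 + ε) * Ws + ENNReal.ofReal (ε * Q) * F := by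
        gcongr

end Helper85.BP.P
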