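import Pool.Agent.Helper72.BAM.Fin
import Pool.Agent.Helper85.BP.Defs
import Pool.Agent.Helper85.BPM.I2b
import Pool.Agent.Helper85.BPM.I3
import Pool.Agent.Helper85.BPM.R14
import Pool.Agent.Helper85.BPM.Za
import Pool.Agent.Helper85.BPM.Zb

/-!
MP_3dd6d4_an, all-p extension, main file: nodes, interpolation, passage to Schwartz functions.
-/

set_option autoImplicit false

open MeasureTheory Complex FourierTransform Filter Topology
open scoped ENNReal NNReal ComplexConjugate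

noncomputable section

namespace Helper85.BP.P

open Helper72.BA Helper85.BP

/-- the bound at a node `p` with constant `exp c` -/
def Node (p c : ℝ) : Prop := ∃ n0 : ℕ, ∀ n : ℕ, n0 ≤ n → 1 ≤ n → ∀ (M : ℕ) (f : ℂ → ℂ), Nice f →
    ∫⁻ z, ‖gW n (Finset.Ico (-M : ℤ) M) f z‖ₑ ^ p ≤
      ENNReal.ofReal ((Real.exp c * (n:ℝ) ^ (1 - 2 / p)) ^ p) * ∫⁻ z, ‖f z‖ₑ ^ p

lemma node_two : Node 2 0 := by
  refine ⟨0, fun n _ _ M f hf => ?_⟩
  have h2 := Helper72.BA.P.sum_nrm_two_windows n ({0} : Finset ℕ) (fun _ => Finset.Ico (-M : ℤ) M)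
      (by
        intro i hi j hj hij
        rw [Finset.mem_singleton] at hi hj
        exact absurd (hi.trans hj.symm) hij) f hf
  rw [Finset.sum_singleton] at h2
  unfold nrm at h2
  have e : (Real.exp 0 * (n:ℝ) ^ (1 - 2 / (2:ℝ))) ^ (2:ℝ) = 1 := by norm_num
  rw [e, ENNReal.ofReal_one, one_mul]
  calc ∫⁻ z, ‖gW n (Finset.Ico (-M : ℤ) M) f z‖ₑ ^ (2:ℝ)
      = ∫⁻ z, ‖gW n (Finset.Ico (-M : ℤ) M) f z‖ₑ ^ 2 := by
        refine lintegral_congr fun z => ?_
        rw [← ENNReal.rpow_natCast]; norm_num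
    _ ≤ ∫⁻ z, ‖f z‖ₑ ^ 2 := h2
    _ = ∫⁻ z, ‖f z‖ₑ ^ (2:ℝ) := by
        refine lintegral_congr fun z => ?_
        rw [← ENNReal.rpow_natCast]; norm_num

lemma node_even (k : ℕ) (hk : 1 ≤ k) (c : ℝ) (hc : Ak k < Real.exp c) : Node (2 * k) c := by
  have hA : 0 < Ak k := Helper72.BA.Ak_pos k hk
  obtain ⟨n0, h0⟩ := Helper72.BA.P.eb' k hk (Real.exp c / Ak k - 1) (by
    have : 1 < Real.exp c / Ak k := by rwa [one_lt_div hA]
    linarith)
  refine ⟨n0, fun n hn hn1 M f hf => (h0 n hn hn1 M f hf).trans (le_of_eq ?_)⟩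
  congr 4
  field_simp
  ring

lemma node_real (p : ℝ) (hp : 2 < p) (A c : ℝ) (hA : 0 < A) (hP : HasPitt p A)
    (hc : A < Real.exp c) : Node p c := by
  have hA1 : 0 < A ^ p := Real.rpow_pos_of_pos hA _
  have hlt : A ^ p < Real.exp c ^ p := Real.rpow_lt_rpow hA.le hc (by linarith)
  obtain ⟨n0, h0⟩ := real_bound p hp A hA hP (Real.exp c ^ p / A ^ p - 1) (by
    have : 1 < Real.exp c ^ p / A ^ p := by rwa [one_lt_div hA1]
    linarith)
  refine ⟨n0, fun n hn hn1 M f hf => (h0 n hn M f hf).trans (le_of_eq ?_)⟩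
  have hn' : (0:ℝ) < n := by exact_mod_cast hn1
  unfold nrp
  congr 2
  rw [Real.mul_rpow (Real.exp_pos _).le (by positivity), ← Real.rpow_mul hn'.le]
  have e1 : (1 - 2 / p) * p = p - 2 := by field_simp
  rw [e1]
  field_simp
  ring

/-- interpolation between two nodes -/
lemma segment (p0 p1 c0 c1 : ℝ) (h0 : 2 ≤ p0) (h01 : p0 < p1) (N0 : Node p0 c0) (N1 : Node p1 c1)
    (chord : ∀ p t : ℝ, 0 ≤ t → t ≤ 1 → 1 / p = (1 - t) / p0 + t / p1 →
      Real.exp (c0 * (1 - t) + c1 * t) ≤ p - 1) :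
    ∃ N : ℕ, ∀ n : ℕ, N ≤ n → ∀ p : ℝ, p0 ≤ p → p ≤ p1 → ∀ f : SchwartzMap ℂ ℂ,
    eLpNorm (fun z => Tn n f z) (ENNReal.ofReal p) volume ≤
      ENNReal.ofReal ((n:ℝ) ^ (1 - 2 / p) * (p - 1)) *
        eLpNorm (fun z => f z) (ENNReal.ofReal p) volume := by
  obtain ⟨n0, h0'⟩ := N0
  obtain ⟨n1, h1'⟩ := N1
  refine ⟨max (max n0 n1) 1, fun n hn p hpa hpb f => ?_⟩
  have hn0 : n0 ≤ n := (le_trans (le_max_left _ _) (le_max_left _ _)).trans hn
  have hn1 : n1 ≤ n := (le_trans (le_max_right _ _) (le_max_left _ _)).trans hn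
  have hn2 : 1 ≤ n := (le_max_right _ _).trans hn
  have hn' : (0:ℝ) < n := by exact_mod_cast hn2
  have hp0 : 0 < p0 := by linarith
  have hp1 : 0 < p1 := by linarith
  have hp : 0 < p := by linarith
  -- the parameter
  have i01 : 1 / p1 < 1 / p0 := one_div_lt_one_div_of_lt hp0 h01
  set t : ℝ := (1 / p0 - 1 / p) / (1 / p0 - 1 / p1) with ht
  have hd : 0 < 1 / p0 - 1 / p1 := by linarith
  have ia : 1 / p ≤ 1 / p0 := one_div_le_one_div_of_le hp0 hpa
  have ib : 1 / p1 ≤ 1 / p := one_div_le_one_div_of_le hp hpb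
  have ht0 : 0 ≤ t := div_nonneg (by linarith) hd.le
  have ht1 : t ≤ 1 := by
    rw [ht, div_le_one hd]; linarith
  have hte : t * (1 / p0 - 1 / p1) = 1 / p0 - 1 / p := by
    rw [ht]; exact div_mul_cancel₀ _ hd.ne'
  have hpt : 1 / p = (1 - t) / p0 + t / p1 := by
    have : (1 - t) / p0 + t / p1 = 1 / p0 - t * (1 / p0 - 1 / p1) := by ring
    rw [this, hte]; ring
  have hch := chord p t ht0 ht1 hpt
  have hK : Real.exp (c0 * (1 - t) + c1 * t) * (n:ℝ) ^ (1 - 2 / p) =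
      (Real.exp c0 * (n:ℝ) ^ (1 - 2 / p0)) ^ (1 - t) * (Real.exp c1 * (n:ℝ) ^ (1 - 2 / p1)) ^ t := by
    rw [Real.mul_rpow (Real.exp_pos _).le (by positivity),
      Real.mul_rpow (Real.exp_pos _).le (by positivity), ← Real.exp_mul, ← Real.exp_mul,
      ← Real.rpow_mul hn'.le, ← Real.rpow_mul hn'.le]
    have e3 : (n:ℝ) ^ ((1 - 2 / p0) * (1 - t)) * (n:ℝ) ^ ((1 - 2 / p1) * t)
        = (n:ℝ) ^ (1 - 2 / p) := by
      rw [← Real.rpow_add hn']
      congr 1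
      have e4 : 2 / p = 2 * (1 / p) := by ring
      rw [e4, hpt]
      ring
    rw [Real.exp_add, ← e3]
    ring
  have key : ∀ (M : ℕ) (f : ℂ → ℂ), Nice f →
      ∫⁻ z, ‖gW n (Finset.Ico (-M : ℤ) M) f z‖ₑ ^ p ≤
      ENNReal.ofReal (((n:ℝ) ^ (1 - 2 / p) * (p - 1)) ^ p) * ∫⁻ z, ‖f z‖ₑ ^ p := by
    intro M f hf
    have k1 := Helper72.BA.P.RTS (gW n (Finset.Ico (-M : ℤ) M))
      (fun f hf => (Helper72.BA.P.nice_gW n _ hf).meas)
      (fun f g hf hg => Helper72.BA.P.gW_add n _ hf hg) (fun c f _ => Helper72.BA.P.gW_smul n _ f c)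
      p0 p1 (by linarith) h01 (Real.exp c0 * (n:ℝ) ^ (1 - 2 / p0))
      (Real.exp c1 * (n:ℝ) ^ (1 - 2 / p1)) (by positivity) (by positivity)
      (fun f hf => h0' n hn0 hn2 M f hf) (fun f hf => h1' n hn1 hn2 M f hf) t p ht0 ht1 hpt f hf
    refine k1.trans ?_
    rw [← hK]
    gcongr ENNReal.ofReal (?_ ^ p) * _
    rw [mul_comm]
    gcongr
  have h1 := Helper72.BA.P.limit_schwartz n p (by linarith) _ key f
  exact Helper72.BA.P.to_eLpNorm _ _ p _ hp
    (mul_nonneg (by positivity) (by linarith)) h1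

/-- the range `2 ≤ p ≤ 6` -/
theorem low_range : ∃ N : ℕ, ∀ n : ℕ, N ≤ n → ∀ p : ℝ, 2 ≤ p → p ≤ 6 → ∀ f : SchwartzMap ℂ ℂ,
    eLpNorm (fun z => Tn n f z) (ENNReal.ofReal p) volume ≤
      ENNReal.ofReal ((n:ℝ) ^ (1 - 2 / p) * (p - 1)) *
        eLpNorm (fun z => f z) (ENNReal.ofReal p) volume := by
  have A2 := Ak_exp.1
  have A3 := Ak_exp.2
  have na : Node (16 / 7) 0.2497 := by
    have h := node_real (4 / (2 - 1 / 4)) (by norm_num) (C24 (1 / 4)) 0.2497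
      (C24_pos _ (by norm_num) (by norm_num)) (pitt24 _ (by norm_num) (by norm_num)) C24_a
    rwa [show (4 / (2 - 1 / 4) : ℝ) = 16 / 7 by norm_num] at h
  have nb : Node (8 / 3) 0.5068 := by
    have h := node_real (4 / (2 - 1 / 2)) (by norm_num) (C24 (1 / 2)) 0.5068
      (C24_pos _ (by norm_num) (by norm_num)) (pitt24 _ (by norm_num) (by norm_num)) C24_b
    rwa [show (4 / (2 - 1 / 2) : ℝ) = 8 / 3 by norm_num] at h
  have nc : Node (16 / 5) 0.7810 := by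
    have h := node_real (4 / (2 - 3 / 4)) (by norm_num) (C24 (3 / 4)) 0.7810
      (C24_pos _ (by norm_num) (by norm_num)) (pitt24 _ (by norm_num) (by norm_num)) C24_c
    rwa [show (4 / (2 - 3 / 4) : ℝ) = 16 / 5 by norm_num] at h
  have nd : Node 4 1.0848 := by
    have h := node_even 2 (by norm_num) 1.0848 A2
    rwa [show (2 * (2:ℕ) : ℝ) = 4 by norm_num] at h
  have ne : Node (24 / 5) 1.3322 :=
    node_real (24 / 5) (by norm_num) C46 1.3322 C46_pos pitt46 C46_lt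
  have nf : Node 6 1.5957 := by
    have h := node_even 3 (by norm_num) 1.5957 A3
    rwa [show (2 * (3:ℕ) : ℝ) = 6 by norm_num] at h
  obtain ⟨Na, ha⟩ := segment 2 (16 / 7) 0 0.2497 le_rfl (by norm_num) node_two na (by
    intro p t ht0 ht1 hp
    rcases eq_or_lt_of_le ht0 with h | h
    · subst h
      have : p = 2 := by
        have h1 : 1 / p = 1 / 2 := by rw [hp]; norm_num
        have h2 : p = 1 / (1 / p) := by rw [one_div_one_div]
        rw [h2, h1]; norm_num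
      subst this
      norm_num
    · have := chord_a p t h ht1 (by rw [hp]; ring)
      rw [zero_mul, zero_add]
      exact this.le)
  obtain ⟨Nb, hb⟩ := segment (16 / 7) (8 / 3) 0.2497 0.5068 (by norm_num) (by norm_num) na nb (by
    intro p t ht0 ht1 hp
    exact (chord_b p t ht0 ht1 (by rw [hp]; ring)).le)
  obtain ⟨Nc, hc⟩ := segment (8 / 3) (16 / 5) 0.5068 0.7810 (by norm_num) (by norm_num) nb nc (by
    intro p t ht0 ht1 hp
    exact (chord_c p t ht0 ht1 (by rw [hp]; ring)).le)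
  obtain ⟨Nd, hd⟩ := segment (16 / 5) 4 0.7810 1.0848 (by norm_num) (by norm_num) nc nd (by
    intro p t ht0 ht1 hp
    exact (chord_d p t ht0 ht1 (by rw [hp]; ring)).le)
  obtain ⟨Ne, he⟩ := segment 4 (24 / 5) 1.0848 1.3322 (by norm_num) (by norm_num) nd ne (by
    intro p t ht0 ht1 hp
    exact (chord_e p t ht0 ht1 (by rw [hp]; ring)).le)
  obtain ⟨Nf, hf⟩ := segment (24 / 5) 6 1.3322 1.5957 (by norm_num) (by norm_num) ne nf (by
    intro p t ht0 ht1 hp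
    exact (chord_f p t ht0 ht1 (by rw [hp]; ring)).le)
  refine ⟨max (max (max Na Nb) (max Nc Nd)) (max Ne Nf), fun n hn p h1 h2 f => ?_⟩
  have ea : Na ≤ n := le_trans (by simp) hn
  have eb : Nb ≤ n := le_trans (by simp) hn
  have ec : Nc ≤ n := le_trans (by simp) hn
  have ed : Nd ≤ n := le_trans (by simp) hn
  have ee : Ne ≤ n := le_trans (by simp) hn
  have ef : Nf ≤ n := le_trans (by simp) hn
  rcases le_or_gt p (16 / 7) with c1 | c1
  · exact ha n ea p h1 c1 f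
  rcases le_or_gt p (8 / 3) with c2 | c2
  · exact hb n eb p c1.le c2 f
  rcases le_or_gt p (16 / 5) with c3 | c3
  · exact hc n ec p c2.le c3 f
  rcases le_or_gt p 4 with c4 | c4
  · exact hd n ed p c3.le c4 f
  rcases le_or_gt p (24 / 5) with c5 | c5
  · exact he n ee p c4.le c5 f
  · exact hf n ef p c5.le h2 f

/-- all exponents -/
theorem all_range (P : ℝ) : ∃ N : ℕ, ∀ n : ℕ, N ≤ n → ∀ p : ℝ, 2 ≤ p → p ≤ P →
    ∀ f : SchwartzMap ℂ ℂ,
    eLpNorm (fun z => Tn n f z) (ENNReal.ofReal p) volume ≤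
      ENNReal.ofReal ((n:ℝ) ^ (1 - 2 / p) * (p - 1)) *
        eLpNorm (fun z => f z) (ENNReal.ofReal p) volume := by
  obtain ⟨N0, h0⟩ := low_range
  -- [2k, 2k+2], k ≥ 3
  have H6 : ∀ k : ℕ, ∃ N : ℕ, 3 ≤ k → ∀ n : ℕ, N ≤ n → ∀ p : ℝ, 2 * k ≤ p → p ≤ 2 * k + 2 →
      ∀ f : SchwartzMap ℂ ℂ,
      eLpNorm (fun z => Tn n f z) (ENNReal.ofReal p) volume ≤
      ENNReal.ofReal (1 * ((n:ℝ) ^ (1 - 2 / p) * (p - 1))) *
        eLpNorm (fun z => f z) (ENNReal.ofReal p) volume := by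
    intro k
    by_cases hk : 3 ≤ k
    · obtain ⟨N, hN⟩ := Helper72.BA.P.interval_bound k (by omega) (2 * k) (2 * k + 2) 1 le_rfl le_rfl
        (by
          intro p θ hp h1 h2
          rw [one_mul]
          exact Helper72.BA.P.range_c k hk p θ hp h1 h2)
      exact ⟨N, fun _ => hN⟩
    · exact ⟨0, fun h => absurd h hk⟩
  choose N6 h6 using H6
  set K : ℕ := ⌈P⌉₊ + 1 with hK
  refine ⟨max N0 ((Finset.range K).sup N6), fun n hn p hp1 hp2 f => ?_⟩
  have e0 : N0 ≤ n := le_trans (by simp) hn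
  have e6 : (Finset.range K).sup N6 ≤ n := le_trans (by simp) hn
  rcases le_or_gt p 6 with c4 | c4
  · exact h0 n e0 p hp1 c4 f
  · -- p > 6
    set k : ℕ := ⌊p / 2⌋₊ with hk
    have hk1 : (k : ℝ) ≤ p / 2 := Nat.floor_le (by linarith)
    have hk2 : p / 2 < k + 1 := Nat.lt_floor_add_one _
    have hk3 : 3 ≤ k := by
      rw [hk, Nat.le_floor_iff (by linarith)]
      push_cast
      linarith
    have hkK : k < K := by
      have h7 : (k : ℝ) ≤ P := by linarith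
      have h8 : (k : ℝ) ≤ (⌈P⌉₊ : ℝ) := h7.trans (Nat.le_ceil P)
      have h9 : k ≤ ⌈P⌉₊ := by exact_mod_cast h8
      omega
    have e7 : N6 k ≤ n := (Finset.le_sup (f := N6) (Finset.mem_range.2 hkK)).trans e6
    have h8 := h6 k hk3 n e7 p (by linarith) (by linarith) f
    rwa [one_mul] at h8

end Helper85.BP.P
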